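import Mathlib

/-!
Iterated powers of an ultrafilter on sequences, and window lemmas.
-/

set_option autoImplicit false

namespace Pool.Agent.H570Z

open Filter

/-- putting an element in front of a sequence -/
def cons {α : Type} (x : α) (s : ℕ → α) : ℕ → α
  | 0 => x
  | n + 1 => s n

@[simp] lemma cons_zero {α : Type} (x : α) (s : ℕ → α) : cons x s 0 = x := rfl
@[simp] lemma cons_succ {α : Type} (x : α) (s : ℕ → α) (n : ℕ) : cons x s (n + 1) = s n := rfl

/-- the tail of a sequence -/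
def tl {α : Type} (s : ℕ → α) : ℕ → α := fun n => s (n + 1)

@[simp] lemma tl_cons {α : Type} (x : α) (s : ℕ → α) : tl (cons x s) = s := rfl
@[simp] lemma tl_apply {α : Type} (s : ℕ → α) (n : ℕ) : tl s n = s (n + 1) := rfl

lemma cons_tl {α : Type} (s : ℕ → α) : cons (s 0) (tl s) = s := by
  funext n; cases n <;> rfl

lemma comp_cons {α β : Type} (f : α → β) (x : α) (s : ℕ → α) :
    f ∘ cons x s = cons (f x) (f ∘ s) := by
  funext n; cases n <;> rfl

/-- deleting the entry number `i` -/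
def del {α : Type} : ℕ → (ℕ → α) → ℕ → α
  | 0, s => tl s
  | i + 1, s => cons (s 0) (del i (tl s))

lemma del_lt {α : Type} : ∀ (i : ℕ) (s : ℕ → α) (k : ℕ), k < i → del i s k = s k
  | 0, _, _, h => absurd h (Nat.not_lt_zero _)
  | _ + 1, _, 0, _ => rfl
  | i + 1, s, k + 1, h => del_lt i (tl s) k (by omega)

lemma del_ge {α : Type} : ∀ (i : ℕ) (s : ℕ → α) (k : ℕ), i ≤ k → del i s k = s (k + 1)
  | 0, _, _, _ => rfl
  | _ + 1, _, 0, h => absurd h (by omega)
  | i + 1, s, k + 1, h => del_ge i (tl s) k (by omega)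

lemma comp_del {α β : Type} (f : α → β) : ∀ (i : ℕ) (s : ℕ → α), f ∘ del i s = del i (f ∘ s)
  | 0, _ => rfl
  | i + 1, s => by
    show f ∘ cons (s 0) (del i (tl s)) = cons (f (s 0)) (del i (tl (f ∘ s)))
    rw [comp_cons, comp_del f i (tl s)]
    rfl

/-- the iterated power of an ultrafilter -/
noncomputable def Pw {α : Type} (U : Ultrafilter α) (x0 : α) : ℕ → Ultrafilter (ℕ → α)
  | 0 => pure (fun _ => x0)
  | n + 1 => U.bind (fun x => (Pw U x0 n).map (cons x))

lemma ev_bind {α β : Type} (U : Ultrafilter α) (m : α → Ultrafilter β) (P : β → Prop) :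
    (∀ᶠ y in (U.bind m : Ultrafilter β), P y) ↔ ∀ᶠ x in U, ∀ᶠ y in (m x : Filter β), P y :=
  Iff.rfl

lemma ev_succ {α : Type} (U : Ultrafilter α) (x0 : α) (n : ℕ) (P : (ℕ → α) → Prop) :
    (∀ᶠ s in (Pw U x0 (n + 1) : Filter (ℕ → α)), P s) ↔
      ∀ᶠ x in U, ∀ᶠ s in (Pw U x0 n : Filter (ℕ → α)), P (cons x s) := Iff.rfl

lemma ev_zero {α : Type} (U : Ultrafilter α) (x0 : α) (P : (ℕ → α) → Prop) :
    (∀ᶠ s in (Pw U x0 0 : Filter (ℕ → α)), P s) ↔ P (fun _ => x0) := Iff.rfl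

/-- a property of one entry -/
lemma ev_one {α : Type} (U : Ultrafilter α) (x0 : α) {R : α → Prop} (h : ∀ᶠ y in U, R y) :
    ∀ (k n : ℕ), k < n → ∀ᶠ s in (Pw U x0 n : Filter (ℕ → α)), R (s k)
  | _, 0, hk => absurd hk (Nat.not_lt_zero _)
  | 0, n + 1, _ => by
    rw [ev_succ]
    filter_upwards [h] with x hx
    exact Eventually.of_forall (fun _ => hx)
  | k + 1, n + 1, hk => by
    rw [ev_succ]
    exact Eventually.of_forall (fun x => ev_one U x0 h k n (by omega))

/-- a property of two entries -/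
lemma ev_two {α : Type} (U : Ultrafilter α) (x0 : α) {R : α → α → Prop}
    (h : ∀ x, ∀ᶠ y in U, R x y) :
    ∀ (i k n : ℕ), i < k → k < n → ∀ᶠ s in (Pw U x0 n : Filter (ℕ → α)), R (s i) (s k)
  | _, _, 0, _, hk => absurd hk (Nat.not_lt_zero _)
  | _, 0, _ + 1, hi, _ => absurd hi (Nat.not_lt_zero _)
  | 0, k + 1, n + 1, _, hk => by
    rw [ev_succ]
    exact Eventually.of_forall (fun x => ev_one U x0 (h x) k n (by omega))
  | i + 1, k + 1, n + 1, hi, hk => by
    rw [ev_succ]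
    exact Eventually.of_forall (fun x => ev_two U x0 h i k n (by omega) (by omega))

/-- the ultrafilter on pairs: first the first entry, then the second one -/
noncomputable def U2 {α β : Type} (V : Ultrafilter α) (U : Ultrafilter β) : Ultrafilter (α × β) :=
  V.bind (fun x => U.map (fun y => (x, y)))

lemma ev_U2 {α β : Type} (V : Ultrafilter α) (U : Ultrafilter β) (P : α × β → Prop) :
    (∀ᶠ p in (U2 V U : Filter (α × β)), P p) ↔ ∀ᶠ x in V, ∀ᶠ y in U, P (x, y) := Iff.rfl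

/-- existence of long chains -/
lemma exists_chain {I : Type} [Preorder I] (V : Ultrafilter I) (hV : ∀ x : I, ∀ᶠ y in (V : Filter I), x ≤ y)
    {Q : I → I → Prop} (h : ∀ᶠ x in V, ∀ᶠ y in V, Q x y) :
    ∃ b : ℕ → I × I, ∀ k, (b k).1 ≤ (b k).2 ∧ (b k).2 ≤ (b (k + 1)).1 ∧ Q (b k).1 (b k).2 := by
  have step : ∀ z : I, ∃ p : I × I, z ≤ p.1 ∧ p.1 ≤ p.2 ∧ Q p.1 p.2 := by
    intro z
    obtain ⟨x, hx, hx'⟩ := ((hV z).and h).exists
    obtain ⟨y, hy, hy'⟩ := ((hV x).and hx').exists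
    exact ⟨(x, y), hx, hy, hy'⟩
  choose f hf using step
  obtain ⟨z0, -⟩ := h.exists
  let b : ℕ → I × I := fun k => Nat.rec (f z0) (fun _ p => f p.2) k
  refine ⟨b, fun k => ⟨?_, (hf (b k).2).1, ?_⟩⟩
  · cases k with
    | zero => exact (hf z0).2.1
    | succ k => exact (hf (b k).2).2.1
  · cases k with
    | zero => exact (hf z0).2.2
    | succ k => exact (hf (b k).2).2.2

/-- The window lemma. -/
lemma win {I S : Type} [Preorder I] (V : Ultrafilter I) (hV : ∀ x : I, ∀ᶠ y in (V : Filter I), x ≤ y)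
    (U : Ultrafilter S) (x0 : I × S) (L : ℕ) :
    ∀ (i n : ℕ), i + 1 < n → ∀ (Big : (ℕ → S) → I → I → Prop),
    (∀ (l : ℕ → S) (b : ℕ → I × I), (∀ k, (b k).1 ≤ (b k).2 ∧ (b k).2 ≤ (b (k + 1)).1) →
      ¬ ∀ k < L, Big l (b k).1 (b k).2) →
    ∀ᶠ s in (Pw (U2 V U) x0 n : Filter (ℕ → I × S)),
      ¬ Big (del i (Prod.snd ∘ s)) (s i).1 (s (i + 1)).1
  | _, 0, hn, _, _ => absurd hn (Nat.not_lt_zero _)
  | i + 1, n + 1, hn, Big, h => by
    rw [ev_succ]
    refine Eventually.of_forall (fun x => ?_)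
    have := win V hV U x0 L i n (by omega) (fun l => Big (cons x.2 l)) (fun l => h (cons x.2 l))
    filter_upwards [this] with s hs
    rw [comp_cons]
    exact hs
  | 0, 1, hn, _, _ => absurd hn (by omega)
  | 0, n + 2, _, Big, h => by
    by_contra hc
    rw [← Ultrafilter.eventually_not] at hc
    simp only [not_not] at hc
    rw [ev_succ, ev_U2] at hc
    have h1 : ∀ᶠ x in V, ∀ᶠ y in V, ∀ᶠ j in U, ∀ᶠ t in (Pw (U2 V U) x0 n : Filter (ℕ → I × S)),
        Big (cons j (Prod.snd ∘ t)) x y := by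
      filter_upwards [hc] with x hx
      obtain ⟨j0, hj0⟩ := hx.exists
      rw [ev_succ, ev_U2] at hj0
      filter_upwards [hj0] with y hy
      filter_upwards [hy] with j hj
      filter_upwards [hj] with t ht
      have e : del 0 (Prod.snd ∘ cons (x, j0) (cons (y, j) t)) = cons j (Prod.snd ∘ t) := by
        rw [comp_cons, comp_cons]; rfl
      rw [e] at ht
      exact ht
    obtain ⟨b, hb⟩ := exists_chain V hV h1
    have h2 : ∀ᶠ j in U, ∀ k ∈ Finset.range L,
        ∀ᶠ t in (Pw (U2 V U) x0 n : Filter (ℕ → I × S)),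
          Big (cons j (Prod.snd ∘ t)) (b k).1 (b k).2 :=
      (Finset.eventually_all _).2 (fun k _ => (hb k).2.2)
    obtain ⟨j, hj⟩ := h2.exists
    obtain ⟨t, ht⟩ := ((Finset.eventually_all _).2 hj).exists
    exact h _ b (fun k => ⟨(hb k).1, (hb k).2.1⟩) (fun k hk => ht k (Finset.mem_range.2 hk))

/-- The last window. -/
lemma win_last {I S : Type} (V : Ultrafilter I) (U : Ultrafilter S) (x0 : I × S) :
    ∀ (i : ℕ) (Big : (ℕ → S) → I → Prop), (∀ l, ∀ᶠ x in V, ¬ Big l x) →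
    ∀ᶠ s in (Pw (U2 V U) x0 (i + 1) : Filter (ℕ → I × S)),
      ¬ Big (del i (Prod.snd ∘ s)) (s i).1
  | 0, Big, h => by
    rw [ev_succ, ev_U2]
    filter_upwards [h (fun _ => x0.2)] with x hx
    refine Eventually.of_forall (fun y => ?_)
    rw [ev_zero]
    exact hx
  | i + 1, Big, h => by
    rw [ev_succ]
    refine Eventually.of_forall (fun x => ?_)
    have := win_last V U x0 i (fun l => Big (cons x.2 l)) (fun l => h (cons x.2 l))
    filter_upwards [this] with s hs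
    rw [comp_cons]
    exact hs

end Pool.Agent.H570Z
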