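import Mathlib
import Pool.Agent.H570Z.Pw

/-!
Coordinate projections in a Hilbert space, sign averaging, and combinatorial lemmas.
-/

set_option autoImplicit false
set_option linter.unusedSectionVars false

namespace Pool.Agent.H570Z.KH

open Filter Topology Set InnerProductSpace
open scoped InnerProductSpace

lemma pow_le_pow_left_iff' {x y : ℝ} (hy : 0 ≤ y) (h : x ^ 2 ≤ y ^ 2) : x ≤ y :=
  le_of_sq_le_sq h hy

section Hilbert

variable {H I : Type} [NormedAddCommGroup H] [InnerProductSpace ℂ H] [CompleteSpace H]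
  (b : HilbertBasis I ℂ H)

/-- the coordinate projection -/
noncomputable def Q (S : Set I) : H →L[ℂ] H :=
  (Submodule.span ℂ (b '' S)).topologicalClosure.starProjection

lemma norm_Q_le (S : Set I) (v : H) : ‖Q b S v‖ ≤ ‖v‖ :=
  Submodule.norm_starProjection_apply_le _ v

lemma Q_inner (S : Set I) (v w : H) : ⟪Q b S v, w⟫_ℂ = ⟪v, Q b S w⟫_ℂ :=
  Submodule.inner_starProjection_left_eq_right _ v w

lemma Q_mem {S : Set I} {u : I} (h : u ∈ S) : Q b S (b u) = b u :=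
  Submodule.starProjection_eq_self_iff.2
    (Submodule.le_topologicalClosure _ (Submodule.subset_span (mem_image_of_mem b h)))

lemma Q_notMem {S : Set I} {u : I} (h : u ∉ S) : Q b S (b u) = 0 := by
  unfold Q
  rw [Submodule.starProjection_apply_eq_zero_iff, Submodule.orthogonal_closure,
    Submodule.mem_orthogonal]
  intro w hw
  refine Submodule.span_induction (p := fun w _ => ⟪w, b u⟫_ℂ = 0) ?_ ?_ ?_ ?_ hw
  · rintro _ ⟨i, hi, rfl⟩
    exact b.orthonormal.2 (fun h1 => h (h1 ▸ hi))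
  · exact inner_zero_left _
  · intro x y _ _ hx hy
    rw [inner_add_left, hx, hy, add_zero]
  · intro c x _ hx
    rw [inner_smul_left, hx, mul_zero]

lemma op_ext {Z : Type} [NormedAddCommGroup Z] [NormedSpace ℂ Z] {f g : H →L[ℂ] Z}
    (h : ∀ u, f (b u) = g (b u)) : f = g :=
  ContinuousLinearMap.ext_on (s := range b)
    (Submodule.dense_iff_topologicalClosure_eq_top.2 b.dense_span)
    (by rintro _ ⟨u, rfl⟩; exact h u)

lemma Q_univ : Q b univ = 1 := op_ext b (fun u => Q_mem b (mem_univ u))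

lemma Q_add {S S' S'' : Set I} (h : ∀ u, (u ∈ S ↔ u ∈ S' ∨ u ∈ S'') ∧ ¬ (u ∈ S' ∧ u ∈ S'')) :
    Q b S = Q b S' + Q b S'' := op_ext b (fun u => by
  rw [add_apply]
  by_cases h1 : u ∈ S'
  · rw [Q_mem b h1, Q_mem b ((h u).1.2 (Or.inl h1)), Q_notMem b (fun h2 => (h u).2 ⟨h1, h2⟩),
      add_zero]
  · by_cases h2 : u ∈ S''
    · rw [Q_mem b h2, Q_mem b ((h u).1.2 (Or.inr h2)), Q_notMem b h1, zero_add]
    · rw [Q_notMem b h1, Q_notMem b h2, Q_notMem b (fun h3 => ((h u).1.1 h3).elim h1 h2),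
        add_zero])

lemma Q_orth {S S' : Set I} (h : Disjoint S S') (v w : H) : ⟪Q b S v, Q b S' w⟫_ℂ = 0 := by
  have : (Q b S).comp (Q b S') = 0 := op_ext b (fun u => by
    rw [ContinuousLinearMap.comp_apply]
    by_cases h1 : u ∈ S'
    · rw [Q_mem b h1, Q_notMem b (fun h2 => disjoint_left.1 h h2 h1)]
      rfl
    · rw [Q_notMem b h1, map_zero]
      rfl)
  have h2 : Q b S (Q b S' w) = 0 := congrArg (fun f : H →L[ℂ] H => f w) this
  rw [Q_inner, h2, inner_zero_right]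

lemma norm_sum_sq {ι : Type} (s : Finset ι) (x : ι → H)
    (h : ∀ k ∈ s, ∀ k' ∈ s, k ≠ k' → ⟪x k, x k'⟫_ℂ = 0) :
    ‖∑ k ∈ s, x k‖ ^ 2 = ∑ k ∈ s, ‖x k‖ ^ 2 := by
  classical
  induction s using Finset.induction_on with
  | empty => simp
  | insert a s ha ih =>
    rw [Finset.sum_insert ha, Finset.sum_insert ha, ← ih (fun k hk k' hk' =>
      h k (Finset.mem_insert_of_mem hk) k' (Finset.mem_insert_of_mem hk')), sq, sq, sq]
    refine norm_add_sq_eq_norm_sq_add_norm_sq_of_inner_eq_zero (𝕜 := ℂ) _ _ ?_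
    rw [inner_sum]
    exact Finset.sum_eq_zero (fun k hk => h a (Finset.mem_insert_self a s) k
      (Finset.mem_insert_of_mem hk) (fun h1 => ha (h1 ▸ hk)))

variable {ι : Type} [Fintype ι]

/-- the square root of the cardinality -/
noncomputable def rt (ι : Type) [Fintype ι] : ℝ := Real.sqrt (Fintype.card ι)

lemma rt_nonneg : 0 ≤ rt ι := Real.sqrt_nonneg _

lemma rt_sq : rt ι ^ 2 = Fintype.card ι := Real.sq_sqrt (Nat.cast_nonneg _)

lemma norm_sum_Q {S : ι → Set I} (hS : ∀ k k', k ≠ k' → Disjoint (S k) (S k')) (v : ι → H)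
    (c : ι → ℂ) (hc : ∀ k, ‖c k‖ ≤ 1) {M : ℝ} (hM : 0 ≤ M) (hv : ∀ k, ‖v k‖ ≤ M) :
    ‖∑ k, c k • Q b (S k) (v k)‖ ≤ rt ι * M := by
  refine (pow_le_pow_left_iff' (mul_nonneg rt_nonneg hM)) ?_
  rw [norm_sum_sq _ _ (fun k _ k' _ h => by
    rw [inner_smul_left, inner_smul_right, Q_orth b (hS k k' h), mul_zero, mul_zero]),
    mul_pow, rt_sq, ← nsmul_eq_mul, ← Finset.card_univ, ← Finset.sum_const]
  refine Finset.sum_le_sum (fun k _ => pow_le_pow_left₀ (norm_nonneg _) ?_ 2)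
  rw [norm_smul]
  exact (mul_le_of_le_one_left (norm_nonneg _) (hc k)).trans ((norm_Q_le b _ _).trans (hv k))

lemma sum_le_rt {x : ι → ℝ} {M : ℝ} (hM : 0 ≤ M) (h : ∑ k, x k ^ 2 ≤ M ^ 2) :
    ∑ k, x k ≤ rt ι * M := by
  refine (pow_le_pow_left_iff' (mul_nonneg rt_nonneg hM)) ?_
  rw [mul_pow, rt_sq]
  exact sq_sum_le_card_mul_sum_sq.trans (mul_le_mul_of_nonneg_left h (Nat.cast_nonneg _))

lemma sum_norm_Q {S : ι → Set I} (hS : ∀ k k', k ≠ k' → Disjoint (S k) (S k')) (v : H) :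
    ∑ k, ‖Q b (S k) v‖ ≤ rt ι * ‖v‖ := by
  refine sum_le_rt (norm_nonneg _) ?_
  rw [← norm_sum_sq _ _ (fun k _ k' _ h => Q_orth b (hS k k' h) v v)]
  have : ∑ k, Q b (S k) = Q b (⋃ k, S k) := op_ext b (fun u => by
    rw [sum_apply]
    by_cases h : u ∈ ⋃ k, S k
    · obtain ⟨k, hk⟩ := mem_iUnion.1 h
      rw [Q_mem b h, Finset.sum_eq_single k (fun k' _ h1 =>
        Q_notMem b (fun h2 => disjoint_left.1 (hS k' k h1) h2 hk)) (by simp), Q_mem b hk]
    · rw [Q_notMem b h]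
      exact Finset.sum_eq_zero (fun k _ => Q_notMem b (fun h2 => h (mem_iUnion.2 ⟨k, h2⟩))))
  rw [← sum_apply, this]
  exact pow_le_pow_left₀ (norm_nonneg _) (norm_Q_le b _ _) 2

lemma bessel {u : ι → I} (hu : Function.Injective u) (v : H) :
    ∑ k, ‖⟪b (u k), v⟫_ℂ‖ ^ 2 ≤ ‖v‖ ^ 2 :=
  (b.orthonormal.comp u hu).sum_inner_products_le v

lemma sum_inner_le {u : ι → I} (hu : Function.Injective u) (v : H) :
    ∑ k, ‖⟪b (u k), v⟫_ℂ‖ ≤ rt ι * ‖v‖ := sum_le_rt (norm_nonneg _) (bessel b hu v)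

lemma norm_b (u : I) : ‖b u‖ = 1 := b.orthonormal.1 u

lemma norm_sum_rankOne {u w : ι → I} (hu : Function.Injective u) (hw : Function.Injective w)
    (r : ι → ℂ) (hr : ∀ k, ‖r k‖ ≤ 1) :
    ‖∑ k, r k • rankOne ℂ (b (u k)) (b (w k))‖ ≤ 1 := by
  refine ContinuousLinearMap.opNorm_le_bound _ zero_le_one (fun v => ?_)
  rw [one_mul, sum_apply]
  refine (pow_le_pow_left_iff' (norm_nonneg _)) ?_
  simp only [smul_apply, rankOne_apply]
  rw [norm_sum_sq _ _ (fun k _ k' _ h => by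
    rw [inner_smul_left, inner_smul_left, inner_smul_right, inner_smul_right,
      b.orthonormal.2 (fun h1 => h (hu h1))]
    simp)]
  refine le_trans (Finset.sum_le_sum (fun k _ => pow_le_pow_left₀ (norm_nonneg _) ?_ 2))
    (bessel b hw v)
  rw [norm_smul, norm_smul, norm_b, mul_one]
  exact mul_le_of_le_one_left (norm_nonneg _) (hr k)

lemma Q_finset (F : Finset I) (v : H) : Q b F v = ∑ f ∈ F, ⟪b f, v⟫_ℂ • b f := by
  classical
  have : Q b F = ∑ f ∈ F, rankOne ℂ (b f) (b f) := op_ext b (fun u => by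
    rw [sum_apply]
    simp only [rankOne_apply, orthonormal_iff_ite.1 b.orthonormal, ite_smul, one_smul, zero_smul,
      Finset.sum_ite_eq']
    split_ifs with h
    exacts [Q_mem b h, Q_notMem b h])
  rw [this, sum_apply]
  rfl

lemma Q_tail (v : H) : Tendsto (fun F : Finset I => Q b (F : Set I)ᶜ v) atTop (𝓝 0) := by
  have h := b.hasSum_repr v
  simp only [b.repr_apply_apply] at h
  have h1 : Tendsto (fun F : Finset I => v - ∑ f ∈ F, ⟪b f, v⟫_ℂ • b f) atTop (𝓝 (v - v)) :=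
    tendsto_const_nhds.sub h
  rw [sub_self] at h1
  refine h1.congr (fun F => ?_)
  have h2 := Q_add b (S := univ) (S' := F) (S'' := (F : Set I)ᶜ) (fun u => by simp [em])
  rw [← Q_finset, sub_eq_iff_eq_add', ← add_apply, ← h2, Q_univ]
  rfl

end Hilbert

section Sign

variable {ι : Type} [Fintype ι] [DecidableEq ι]

/-- the sign of a bit -/
def sg (x : Bool) : ℂ := cond x 1 (-1)

lemma norm_sg (x : Bool) : ‖sg x‖ = 1 := by cases x <;> simp [sg]

lemma sum_sg (j k : ι) : ∑ σ : ι → Bool, sg (σ j) * sg (σ k)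
    = if j = k then (Fintype.card (ι → Bool) : ℂ) else 0 := by
  split_ifs with h
  · subst h
    have : ∀ x, sg x * sg x = 1 := fun x => by cases x <;> simp [sg]
    simp [this]
  · have hi : Function.Involutive (fun σ : ι → Bool => Function.update σ j (!σ j)) := by
      intro σ
      simp
    have h1 := Equiv.sum_comp hi.toPerm (fun σ => sg (σ j) * sg (σ k))
    have h2 : ∀ σ : ι → Bool, sg (hi.toPerm _ σ j) * sg (hi.toPerm _ σ k)
        = -(sg (σ j) * sg (σ k)) := fun σ => by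
      simp only [Function.Involutive.coe_toPerm, Function.update_self,
        Function.update_of_ne (Ne.symm h)]
      cases σ j <;> simp [sg]
    simp only [h2, Finset.sum_neg_distrib] at h1
    exact self_eq_neg.1 h1.symm

lemma norm_diag_le {Z : Type} [NormedAddCommGroup Z] [NormedSpace ℂ Z] (w : ι → ι → Z) {M : ℝ}
    (h : ∀ σ : ι → Bool, ‖∑ j, ∑ k, (sg (σ j) * sg (σ k)) • w j k‖ ≤ M) : ‖∑ j, w j j‖ ≤ M := by
  have h1 : ∑ σ : ι → Bool, ∑ j, ∑ k, (sg (σ j) * sg (σ k)) • w j k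
      = (Fintype.card (ι → Bool) : ℂ) • ∑ j, w j j := by
    rw [Finset.sum_comm, Finset.smul_sum]
    refine Finset.sum_congr rfl (fun j _ => ?_)
    rw [Finset.sum_comm]
    simp only [← Finset.sum_smul, sum_sg, ite_smul, zero_smul, Finset.sum_ite_eq, Finset.mem_univ,
      if_true]
  have h2 := (norm_sum_le _ _).trans (Finset.sum_le_sum (s := Finset.univ) (fun σ _ => h σ))
  rw [h1, norm_smul, Finset.sum_const, Finset.card_univ, nsmul_eq_mul, Complex.norm_natCast] at h2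
  exact le_of_mul_le_mul_left h2 (by exact_mod_cast Fintype.card_pos)

variable {E F Z : Type} [NormedAddCommGroup E] [NormedSpace ℂ E] [NormedAddCommGroup F]
  [NormedSpace ℂ F] [NormedAddCommGroup Z] [NormedSpace ℂ Z]

lemma norm_sum_bil (β : E →L[ℂ] F →L[ℂ] Z) (hβ : ∀ a y, ‖β a y‖ ≤ ‖a‖ * ‖y‖) (a : ι → E)
    (y : ι → F) (ha : ∀ r : ι → ℂ, (∀ k, ‖r k‖ ≤ 1) → ‖∑ k, r k • a k‖ ≤ 1)
    (hy : ∀ r : ι → ℂ, (∀ k, ‖r k‖ ≤ 1) → ‖∑ k, r k • y k‖ ≤ 1)
    (r : ι → ℂ) (hr : ∀ k, ‖r k‖ ≤ 1) : ‖∑ k, r k • β (a k) (y k)‖ ≤ 1 := by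
  refine norm_diag_le (fun j k => r k • β (a j) (y k)) (fun σ => ?_)
  have h1 := (hβ _ _).trans (mul_le_one₀ (ha (fun k => sg (σ k)) (fun k => (norm_sg _).le))
    (norm_nonneg _) (hy (fun k => sg (σ k) * r k) (fun k => by
      rw [norm_mul, norm_sg, one_mul]; exact hr k)))
  simp only [map_sum, map_smul, sum_apply, smul_apply] at h1
  rw [Finset.sum_comm]
  refine le_trans (le_of_eq (congrArg norm (Finset.sum_congr rfl (fun k _ => ?_)))) h1
  rw [Finset.smul_sum]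
  refine Finset.sum_congr rfl (fun j _ => ?_)
  rw [smul_smul, smul_smul]
  congr 1
  ring

lemma exists_phase (z : ι → ℂ) : ∃ c : ι → ℂ, (∀ k, ‖c k‖ ≤ 1) ∧ ∀ k, c k * z k = ‖z k‖ := by
  have h : ∀ k, ∃ c : ℂ, ‖c‖ ≤ 1 ∧ c * z k = ‖z k‖ := fun k => by
    obtain ⟨c, h1, h2⟩ := Complex.exists_norm_mul_eq_self (z k)
    refine ⟨(starRingEnd ℂ) c, by simp [h1], ?_⟩
    conv_lhs => rw [← h2]
    rw [← mul_assoc, Complex.conj_mul', h1]
    simp
  choose c h1 h2 using h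
  exact ⟨c, h1, h2⟩

lemma sum_le_of_phase (z : ι → ℂ) {M : ℝ}
    (h : ∀ c : ι → ℂ, (∀ k, ‖c k‖ ≤ 1) → ‖∑ k, c k * z k‖ ≤ M) : ∑ k, ‖z k‖ ≤ M := by
  obtain ⟨c, h1, h2⟩ := exists_phase z
  have h3 := h c h1
  simp only [h2] at h3
  rw [← Complex.ofReal_sum, Complex.norm_real, Real.norm_eq_abs] at h3
  exact (le_abs_self _).trans h3

lemma diag_sum (ψ : ι → E →L[ℂ] ℂ) (x : ι → E) {M : ℝ} (hM : 0 ≤ M)
    (hψ : ∀ y, ∑ k, ‖ψ k y‖ ≤ M * ‖y‖) {N : ℝ}
    (hx : ∀ r : ι → ℂ, (∀ k, ‖r k‖ ≤ 1) → ‖∑ k, r k • x k‖ ≤ N) :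
    ∑ k, ‖ψ k (x k)‖ ≤ M * N := by
  refine sum_le_of_phase _ (fun c hc => norm_diag_le (fun j k => c j * ψ j (x k)) (fun σ => ?_))
  refine (norm_sum_le _ _).trans (le_trans (Finset.sum_le_sum (fun j _ => ?_))
    ((hψ (∑ k, sg (σ k) • x k)).trans (mul_le_mul_of_nonneg_left
      (hx _ (fun k => (norm_sg _).le)) hM)))
  have : ∑ k, (sg (σ j) * sg (σ k)) • (c j * ψ j (x k))
      = (sg (σ j) * c j) * ψ j (∑ k, sg (σ k) • x k) := by
    rw [map_sum, Finset.mul_sum]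
    refine Finset.sum_congr rfl (fun k _ => ?_)
    rw [map_smul, smul_eq_mul, smul_eq_mul]
    ring
  rw [this, norm_mul, norm_mul, norm_sg, one_mul]
  exact mul_le_of_le_one_left (norm_nonneg _) (hc j)

end Sign

section Comb

variable {I S : Type}

lemma inj_choice (U : Ultrafilter S) (hU : ∀ x, ∀ᶠ y in (U : Filter S), y ≠ x) :
    ∀ (N : ℕ) (P : Fin N → S → Prop), (∀ j, ∀ᶠ v in (U : Filter S), P j v) →
    ∃ v : Fin N → S, Function.Injective v ∧ ∀ j, P j (v j)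
  | 0, _, _ => ⟨Fin.elim0, fun j => j.elim0, fun j => j.elim0⟩
  | N + 1, P, h => by
    obtain ⟨v, h1, h2⟩ := inj_choice U hU N (fun j => P j.succ) (fun j => h j.succ)
    obtain ⟨x, h3, h4⟩ := ((h 0).and (eventually_all.2 (fun j => hU (v j)))).exists
    refine ⟨Fin.cons x v, Fin.cons_injective_iff.2 ⟨?_, h1⟩, fun j => ?_⟩
    · rintro ⟨j, hj⟩
      exact h4 j hj.symm
    · exact Fin.cases h3 h2 j

/-- parallel choices -/
lemma par (V : Ultrafilter I) (U : Ultrafilter S) (hU : ∀ x, ∀ᶠ y in (U : Filter S), y ≠ x)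
    (x0 : I × S) (N : ℕ) : ∀ (n : ℕ) (B : Fin N → (ℕ → I × S) → Prop),
    (∀ j, ∀ᶠ t in (Pw (U2 V U) x0 n : Filter (ℕ → I × S)), B j t) →
    ∃ t : Fin N → ℕ → I × S, (∀ j, B j (t j)) ∧ (∀ j j' q, (t j q).1 = (t j' q).1) ∧
      ∀ q < n, Function.Injective (fun j => (t j q).2)
  | 0, _, h => ⟨fun _ _ => x0, h, fun _ _ _ => rfl, fun _ hq => absurd hq (Nat.not_lt_zero _)⟩
  | n + 1, B, h => by
    simp only [ev_succ, ev_U2] at h
    obtain ⟨x, hx⟩ := (eventually_all.2 h).exists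
    obtain ⟨v, h1, h2⟩ := inj_choice U hU N _ hx
    obtain ⟨t, h3, h4, h5⟩ := par V U hU x0 N n _ h2
    refine ⟨fun j => cons (x, v j) (t j), h3, fun j j' q => ?_, fun q hq => ?_⟩
    · cases q with
      | zero => rfl
      | succ q => exact h4 j j' q
    · cases q with
      | zero => exact h1
      | succ q => exact h5 q (by omega)

/-- the window lemma, agreement form -/
lemma win3 [Preorder I] (V : Ultrafilter I) (hV : ∀ x : I, ∀ᶠ y in (V : Filter I), x ≤ y)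
    (U : Ultrafilter S) (x0 : I × S) (L : ℕ) :
    ∀ (i n : ℕ), i + 1 < n → ∀ (Big : (ℕ → I × S) → Prop),
    (∀ s : Fin L → ℕ → I × S, (∀ k k' q, q ≠ i → (s k q).2 = (s k' q).2) →
      (∀ k k' q, q ≠ i → q ≠ i + 1 → (s k q).1 = (s k' q).1) →
      (∀ k, (s k i).1 ≤ (s k (i + 1)).1) → (∀ k k', k < k' → (s k (i + 1)).1 ≤ (s k' i).1) →
      ¬ ∀ k, Big (s k)) →
    ∀ᶠ s in (Pw (U2 V U) x0 n : Filter (ℕ → I × S)), ¬ Big s
  | _, 0, hn, _, _ => absurd hn (Nat.not_lt_zero _)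
  | i + 1, n + 1, hn, Big, h => by
    rw [ev_succ]
    refine Eventually.of_forall (fun x => win3 V hV U x0 L i n (by omega) _
      (fun s h1 h2 h3 h4 => h (fun k => cons x (s k)) (fun k k' q hq => ?_)
        (fun k k' q hq hq' => ?_) h3 h4))
    · cases q with
      | zero => rfl
      | succ q => exact h1 k k' q (by omega)
    · cases q with
      | zero => rfl
      | succ q => exact h2 k k' q (by omega) (by omega)
  | 0, 1, hn, _, _ => absurd hn (by omega)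
  | 0, n + 2, _, Big, h => by
    by_contra hc
    rw [← Ultrafilter.eventually_not] at hc
    simp only [not_not, ev_succ, ev_U2] at hc
    obtain ⟨f, h1, h2⟩ := exists_seq_of_forall_finset_exists
      (fun p : I × S × I => p.1 ≤ p.2.2 ∧ ∀ᶠ v in (U : Filter S),
        ∀ᶠ t in (Pw (U2 V U) x0 n : Filter (ℕ → I × S)),
          Big (cons (p.1, p.2.1) (cons (p.2.2, v) t)))
      (fun p q => p.2.2 ≤ q.1) (fun s _ => by
        obtain ⟨x, h1, h2⟩ := (((Finset.eventually_all s).2 (fun p _ => hV p.2.2)).and hc).exists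
        obtain ⟨w, h3⟩ := h2.exists
        obtain ⟨y, h4⟩ := ((hV x).and h3).exists
        exact ⟨(x, w, y), h4, h1⟩)
    obtain ⟨v, hv⟩ := (eventually_all.2 (fun k : Fin L => (h1 k).2)).exists
    obtain ⟨t, ht⟩ := (eventually_all.2 hv).exists
    refine h (fun k => cons ((f k).1, (f k).2.1) (cons ((f k).2.2, v) t)) (fun k k' q hq => ?_)
      (fun k k' q hq hq' => ?_) (fun k => (h1 k).1) (fun k k' hk => h2 k k' hk) ht
    · match q, hq with
      | 1, _ => rfl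
      | q + 2, _ => rfl
    · match q, hq, hq' with
      | q + 2, _, _ => rfl

/-- the index shift of a deletion -/
def up (s q : ℕ) : ℕ := if q < s then q else q + 1

lemma del_up {α : Type} (s : ℕ) (V : ℕ → α) (q : ℕ) : del s V q = V (up s q) := by
  unfold up
  split_ifs with h
  · exact del_lt s V q h
  · exact del_ge s V q (by omega)

lemma up_ne (s q : ℕ) : up s q ≠ s := by
  unfold up
  split_ifs <;> omega

lemma exists_up {s c m : ℕ} (h : s ≠ c) (hs : s < m + 1) (hc : c < m + 1) :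
    ∃ c0 < m, up s c0 = c ∧ (∀ q, q ≠ c0 → up s q ≠ c) ∧
      (s ≠ c + 1 → up s (c0 + 1) = c + 1 ∧ ∀ q, q ≠ c0 + 1 → up s q ≠ c + 1) := by
  unfold up
  rcases Nat.lt_or_gt_of_ne h with h | h
  · refine ⟨c - 1, by omega, ?_, fun q hq => ?_, fun _ => ⟨?_, fun q hq => ?_⟩⟩ <;>
      split_ifs <;> omega
  · refine ⟨c, by omega, ?_, fun q hq => ?_, fun _ => ⟨?_, fun q hq => ?_⟩⟩ <;>
      split_ifs <;> omega

end Comb

end Pool.Agent.H570Z.KH
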