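import Mathlib
import Pool.Agent.Helper832.GDD
import Pool.Agent.H570Z.Pw

/-!
Lemmas on projective tensor products and on the iterated kernel modules of a one-dimensional
module.
-/

set_option autoImplicit false
set_option maxSynthPendingDepth 3
set_option linter.unusedSectionVars false

namespace Pool.Agent.H570Z

open Filter ContinuousLinearMap Pool.Agent.Helper832.GD

section Tensor

variable {P Q Z : Type} [NormedAddCommGroup P] [NormedSpace ℂ P]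
  [NormedAddCommGroup Q] [NormedSpace ℂ Q] [NormedAddCommGroup Z] [NormedSpace ℂ Z]

lemma norm_tens_le (p : P) (q : Q) : ‖(tens p q : Tens P Q)‖ ≤ ‖p‖ * ‖q‖ := by
  show ‖tm p q‖ ≤ _
  refine ContinuousLinearMap.opNorm_le_bound _ (by positivity) (fun β => ?_)
  calc ‖β p q‖ ≤ ‖β‖ * ‖p‖ * ‖q‖ := β.le_opNorm₂ p q
    _ = ‖p‖ * ‖q‖ * ‖β‖ := by ring

lemma norm_le_of_tens [CompleteSpace Z] (f : Tens P Q →L[ℂ] Z) {M : ℝ} (hM : 0 ≤ M)
    (h : ∀ p q, ‖f (tens p q)‖ ≤ M * ‖p‖ * ‖q‖) (t : Tens P Q) : ‖f t‖ ≤ M * ‖t‖ := by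
  have e : f = lift (unlift f) := tens_ext (fun p q => by rw [lift_tens, unlift_apply])
  have h1 : ‖unlift f‖ ≤ M := ContinuousLinearMap.opNorm_le_bound₂ _ hM (fun p q => h p q)
  have h2 := norm_lift0_le (unlift f) t
  rw [e]
  refine h2.trans ?_
  rw [one_mul]
  exact mul_le_mul_of_nonneg_right h1 (norm_nonneg _)

lemma sum_norm_le_of_tens {ι : Type} (s : Finset ι) (f : ι → Tens P Q →L[ℂ] Z) {M : ℝ}
    (hM : 0 ≤ M) (h : ∀ p q, ∑ k ∈ s, ‖f k (tens p q)‖ ≤ M * ‖p‖ * ‖q‖) (t : Tens P Q) :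
    ∑ k ∈ s, ‖f k t‖ ≤ M * ‖t‖ := by
  have hφ : ∀ k, ∃ φ : Z →L[ℂ] ℂ, ‖φ‖ ≤ 1 ∧ φ (f k t) = ‖f k t‖ :=
    fun k => exists_dual_vector'' ℂ (f k t)
  choose φ hφ1 hφ2 using hφ
  have h1 := norm_le_of_tens (∑ k ∈ s, (φ k).comp (f k)) hM (fun p q => by
    rw [sum_apply]
    refine (norm_sum_le _ _).trans (le_trans (Finset.sum_le_sum (fun k _ => ?_)) (h p q))
    rw [comp_apply]
    exact ((φ k).le_opNorm _).trans (mul_le_of_le_one_left (norm_nonneg _) (hφ1 k))) t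
  rw [sum_apply] at h1
  simp only [comp_apply, hφ2] at h1
  rw [← Complex.ofReal_sum, Complex.norm_real, Real.norm_eq_abs] at h1
  exact (le_abs_self _).trans h1

lemma tens_induction (N : Submodule ℂ (Tens P Q)) (hN : IsClosed (N : Set (Tens P Q)))
    (h : ∀ p q, tens p q ∈ N) (t : Tens P Q) : t ∈ N := by
  let f : Tens P Q →L[ℂ] (Tens P Q ⧸ N) := N.mkQL
  have : f = 0 := tens_ext (fun p q => by
    show N.mkQ (tens p q) = 0
    exact (Submodule.Quotient.mk_eq_zero N).2 (h p q))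
  have h2 : N.mkQ t = 0 := congrArg (fun g : Tens P Q →L[ℂ] (Tens P Q ⧸ N) => g t) this
  exact (Submodule.Quotient.mk_eq_zero N).1 h2

lemma tens_unif {ι : Type} (F : Filter ι) (J : ι → Set (Tens P Q →L[ℂ] Z)) (M : ℝ) (hM0 : 0 ≤ M)
    (hM : ∀ i, ∀ f ∈ J i, ∀ t, ‖f t‖ ≤ M * ‖t‖)
    (h : ∀ p q, ∀ ε > 0, ∀ᶠ i in F, ∀ f ∈ J i, ‖f (tens p q)‖ ≤ ε) (t : Tens P Q) :
    ∀ ε > 0, ∀ᶠ i in F, ∀ f ∈ J i, ‖f t‖ ≤ ε := by
  let N : Submodule ℂ (Tens P Q) :=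
    { carrier := {t | ∀ ε > 0, ∀ᶠ i in F, ∀ f ∈ J i, ‖f t‖ ≤ ε}
      add_mem' := fun {x y} hx hy ε hε => by
        filter_upwards [hx (ε / 2) (by positivity), hy (ε / 2) (by positivity)] with i h1 h2 f hf
        rw [map_add]
        linarith [norm_add_le (f x) (f y), h1 f hf, h2 f hf]
      zero_mem' := fun ε hε => Eventually.of_forall (fun i f _ => by
        rw [map_zero, norm_zero]; exact hε.le)
      smul_mem' := fun c x hx ε hε => by
        filter_upwards [hx (ε / (‖c‖ + 1)) (by positivity)] with i h1 f hf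
        rw [map_smul, norm_smul]
        have h2 := h1 f hf
        rw [le_div_iff₀ (by positivity)] at h2
        nlinarith [norm_nonneg (f x)] }
  have hN : IsClosed (N : Set (Tens P Q)) := by
    refine isClosed_of_closure_subset (fun x hx ε hε => ?_)
    obtain ⟨y, hy, hxy⟩ := Metric.mem_closure_iff.1 hx (ε / 2 / (M + 1)) (by positivity)
    filter_upwards [hy (ε / 2) (by positivity)] with i h1 f hf
    have h2 := hM i f hf (x - y)
    rw [dist_eq_norm, lt_div_iff₀ (by positivity)] at hxy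
    have h3 : f x = f y + f (x - y) := by rw [map_sub]; abel
    rw [h3]
    nlinarith [norm_add_le (f y) (f (x - y)), h1 f hf, norm_nonneg (x - y)]
  exact tens_induction N hN h t

end Tensor

section Bar

variable {A : Type} [NonUnitalNormedRing A] [NormedSpace ℂ A] [IsScalarTower ℂ A A]
  [SMulCommClass ℂ A A]

/-- the one-dimensional module given by a multiplicative functional -/
noncomputable def oneMod (χ : A →L[ℂ] ℂ) (hχ : ∀ a b, χ (a * b) = χ a * χ b) : LMod A where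
  carrier := ℂ
  act := (ContinuousLinearMap.mul ℂ ℂ).comp χ
  act_mul := fun a b z => by
    show χ (a * b) * z = χ a * (χ b * z)
    rw [hχ, mul_assoc]

variable (χ : A →L[ℂ] ℂ) (hχ : ∀ a b, χ (a * b) = χ a * χ b)

/-- the iterated kernel modules -/
noncomputable def XX (n : ℕ) : Bim A PUnit := Bim.Kp n (oneMod χ hχ).toBim

/-- the identification of the module number zero with the scalars -/
noncomputable def sc : (XX χ hχ 0).carrier →L[ℂ] ℂ := ContinuousLinearMap.id ℂ ℂ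

lemma sc_left (a : A) (z : (XX χ hχ 0).carrier) :
    sc χ hχ ((XX χ hχ 0).left a z) = χ a * sc χ hχ z := rfl

lemma sc_inj {z w : (XX χ hχ 0).carrier} (h : sc χ hχ z = sc χ hχ w) : z = w := h

lemma norm_sc (z : (XX χ hχ 0).carrier) : ‖sc χ hχ z‖ = ‖z‖ := rfl

/-- elementary tensors -/
noncomputable def tn (n : ℕ) : A →L[ℂ] (XX χ hχ n).carrier →L[ℂ] (XX χ hχ (n + 1)).carrier :=
  (XX χ hχ n).tn

lemma left_tn (n : ℕ) (a b : A) (x : (XX χ hχ n).carrier) :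
    (XX χ hχ (n + 1)).left a (tn χ hχ n b x)
      = tn χ hχ n (a * b) x - tn χ hχ n a ((XX χ hχ n).left b x) :=
  (XX χ hχ n).tn_left a b x

lemma norm_tn_le (n : ℕ) (a : A) (x : (XX χ hχ n).carrier) : ‖tn χ hχ n a x‖ ≤ ‖a‖ * ‖x‖ :=
  norm_tens_le a x

lemma xx_ext {n : ℕ} {E : Type} [NormedAddCommGroup E] [NormedSpace ℂ E]
    {f g : (XX χ hχ (n + 1)).carrier →L[ℂ] E}
    (h : ∀ b x, f (tn χ hχ n b x) = g (tn χ hχ n b x)) : f = g := tens_ext h

lemma xx_norm_le {n : ℕ} {Z : Type} [NormedAddCommGroup Z] [NormedSpace ℂ Z] [CompleteSpace Z]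
    (f : (XX χ hχ (n + 1)).carrier →L[ℂ] Z) {M : ℝ} (hM : 0 ≤ M)
    (h : ∀ (a : A) (x : (XX χ hχ n).carrier), ‖f (tn χ hχ n a x)‖ ≤ M * ‖a‖ * ‖x‖)
    (t : (XX χ hχ (n + 1)).carrier) : ‖f t‖ ≤ M * ‖t‖ :=
  norm_le_of_tens f hM h t

lemma xx_sum_le {n : ℕ} {Z : Type} [NormedAddCommGroup Z] [NormedSpace ℂ Z] {ι : Type}
    (s : Finset ι) (f : ι → (XX χ hχ (n + 1)).carrier →L[ℂ] Z) {M : ℝ} (hM : 0 ≤ M)
    (h : ∀ (a : A) (x : (XX χ hχ n).carrier), ∑ k ∈ s, ‖f k (tn χ hχ n a x)‖ ≤ M * ‖a‖ * ‖x‖)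
    (t : (XX χ hχ (n + 1)).carrier) : ∑ k ∈ s, ‖f k t‖ ≤ M * ‖t‖ :=
  sum_norm_le_of_tens s f hM h t

lemma xx_unif {n : ℕ} {Z : Type} [NormedAddCommGroup Z] [NormedSpace ℂ Z] {ι : Type}
    (F : Filter ι) (J : ι → Set ((XX χ hχ (n + 1)).carrier →L[ℂ] Z)) (M : ℝ) (hM0 : 0 ≤ M)
    (hM : ∀ i, ∀ f ∈ J i, ∀ t, ‖f t‖ ≤ M * ‖t‖)
    (h : ∀ (a : A) (x : (XX χ hχ n).carrier), ∀ ε > 0, ∀ᶠ i in F, ∀ f ∈ J i,
      ‖f (tn χ hχ n a x)‖ ≤ ε) (t : (XX χ hχ (n + 1)).carrier) :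
    ∀ ε > 0, ∀ᶠ i in F, ∀ f ∈ J i, ‖f t‖ ≤ ε :=
  tens_unif F J M hM0 hM h t

/-- the boundary operator -/
noncomputable def bd (n : ℕ) : (XX χ hχ (n + 1)).carrier →L[ℂ] (XX χ hχ n).carrier :=
  (XX χ hχ n).mu

lemma bd_tn (n : ℕ) (a : A) (x : (XX χ hχ n).carrier) :
    bd χ hχ n (tn χ hχ n a x) = (XX χ hχ n).left a x := (XX χ hχ n).mu_tens a x

/-- linearisation -/
noncomputable def li (n : ℕ) {E : Type} [NormedAddCommGroup E] [NormedSpace ℂ E] [CompleteSpace E]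
    (m : A →L[ℂ] (XX χ hχ n).carrier →L[ℂ] E) : (XX χ hχ (n + 1)).carrier →L[ℂ] E :=
  (XX χ hχ n).li E m

lemma li_tn (n : ℕ) {E : Type} [NormedAddCommGroup E] [NormedSpace ℂ E] [CompleteSpace E]
    (m : A →L[ℂ] (XX χ hχ n).carrier →L[ℂ] E) (a : A) (x : (XX χ hχ n).carrier) :
    li χ hχ n m (tn χ hχ n a x) = m a x := Bim.li_apply _ m a x

/-- the elementary tensor `a 0 ⊗ ⋯ ⊗ a (n-1)` -/
noncomputable def el : (n : ℕ) → (ℕ → A) → (XX χ hχ n).carrier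
  | 0, _ => (1 : ℂ)
  | n + 1, a => tn χ hχ n (a 0) (el n (tl a))

lemma sc_el (a : ℕ → A) : sc χ hχ (el χ hχ 0 a) = 1 := rfl

lemma el_succ (n : ℕ) (a : ℕ → A) :
    el χ hχ (n + 1) a = tn χ hχ n (a 0) (el χ hχ n (tl a)) := rfl

lemma norm_el_le : ∀ (n : ℕ) (a : ℕ → A), (∀ i, ‖a i‖ ≤ 1) → ‖el χ hχ n a‖ ≤ 1
  | 0, a, _ => by
    rw [← norm_sc, sc_el, norm_one]
  | n + 1, a, h => by
    rw [el_succ]
    refine (norm_tn_le χ hχ n _ _).trans ?_
    exact mul_le_one₀ (h 0) (norm_nonneg _) (norm_el_le n (tl a) (fun i => h (i + 1)))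

lemma norm_el_sub : ∀ (n j : ℕ) (a b : ℕ → A), (∀ i, ‖a i‖ ≤ 1) → (∀ i, ‖b i‖ ≤ 1) →
    (∀ i, i ≠ j → a i = b i) → ‖el χ hχ n a - el χ hχ n b‖ ≤ ‖a j - b j‖
  | 0, _, a, b, _, _, _ => by
    have : el χ hχ 0 a = el χ hχ 0 b := rfl
    rw [this, sub_self, norm_zero]
    exact norm_nonneg _
  | n + 1, 0, a, b, ha, _, h => by
    have e : tl b = tl a := funext (fun i => (h (i + 1) (by omega)).symm)
    rw [el_succ, el_succ, e, ← sub_apply, ← map_sub]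
    refine (norm_tn_le χ hχ n _ _).trans ?_
    exact mul_le_of_le_one_right (norm_nonneg _) (norm_el_le χ hχ n _ (fun i => ha (i + 1)))
  | n + 1, j + 1, a, b, ha, hb, h => by
    rw [el_succ, el_succ, ← h 0 (by omega), ← map_sub]
    refine (norm_tn_le χ hχ n _ _).trans ?_
    refine (mul_le_of_le_one_left (norm_nonneg _) (ha 0)).trans ?_
    exact norm_el_sub n j (tl a) (tl b) (fun i => ha (i + 1)) (fun i => hb (i + 1))
      (fun i hi => h (i + 1) (by omega))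

/-- merging the entries number `j` and `j + 1` -/
def mrg {S : Type} [Mul S] : ℕ → (ℕ → S) → ℕ → S
  | 0, a => cons (a 0 * a 1) (tl (tl a))
  | j + 1, a => cons (a 0) (mrg j (tl a))

lemma mrg_eq {S : Type} [Mul S] : ∀ (j : ℕ) (a : ℕ → S), mrg j a j = a j * a (j + 1)
  | 0, _ => rfl
  | j + 1, a => mrg_eq j (tl a)

lemma mrg_ne {S : Type} [Mul S] : ∀ (j : ℕ) (a : ℕ → S) (i : ℕ), i ≠ j →
    mrg j a i = del (j + 1) a i
  | 0, _, 0, h => absurd rfl h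
  | 0, _, _ + 1, _ => rfl
  | _ + 1, _, 0, _ => rfl
  | j + 1, a, i + 1, h => mrg_ne j (tl a) i (by omega)

/-- the boundary of an elementary tensor -/
lemma left_el : ∀ (n : ℕ) (a : ℕ → A), (XX χ hχ n).left (a 0) (el χ hχ n (tl a))
    = ∑ j ∈ Finset.range n, (-1 : ℂ) ^ j • el χ hχ n (mrg j a)
      + ((-1 : ℂ) ^ n * χ (a n)) • el χ hχ n a
  | 0, a => by
    apply sc_inj
    rw [sc_left, Finset.range_zero, Finset.sum_empty, zero_add, map_smul, sc_el, sc_el]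
    simp
  | n + 1, a => by
    rw [el_succ, left_tn, left_el n (tl a), Finset.sum_range_succ', map_add, map_sum, map_smul]
    have e1 : ∀ j, el χ hχ (n + 1) (mrg (j + 1) a) = tn χ hχ n (a 0) (el χ hχ n (mrg j (tl a))) :=
      fun j => rfl
    have e2 : el χ hχ (n + 1) (mrg 0 a) = tn χ hχ n (a 0 * tl a 0) (el χ hχ n (tl (tl a))) := rfl
    simp only [e1, e2, map_smul, pow_succ, pow_zero, one_smul, mul_neg, mul_one, neg_smul,
      Finset.sum_neg_distrib, neg_mul, el_succ, tl_apply]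
    abel

/-- the operator given by a finite projective resolution -/
lemma exists_T [CompleteSpace A] {n : ℕ} (h : (oneMod χ hχ).HasResolution n) :
    ∃ T : (XX χ hχ n).carrier →L[ℂ] (XX χ hχ (n + 1)).carrier,
      ∀ a x, tn χ hχ n a x = (XX χ hχ (n + 1)).left a (T x) - T ((XX χ hχ n).left a x) := by
  have h1 := Bim.Kp_projective (oneMod χ hχ).toBim_rproj (LMod.toBim_hasResolution h)
  obtain ⟨T, -, hT⟩ := h1.exists_T
  exact ⟨T, hT⟩

end Bar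

end Pool.Agent.H570Z
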