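import Mathlib
import Pool.Agent.H570Z.Tn
import Pool.Agent.H570Z.KA

/-!
Scalar functionals on the iterated kernel modules of a one-dimensional module.
-/

set_option autoImplicit false
set_option maxSynthPendingDepth 3
set_option linter.unusedSectionVars false

namespace Pool.Agent.H570Z.BN

open Filter Topology ContinuousLinearMap Pool.Agent.Helper832.GD

variable {A : Type} [NonUnitalNormedRing A] [NormedSpace ℂ A] [IsScalarTower ℂ A A]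
  [SMulCommClass ℂ A A] [CompleteSpace A]
  (χ : A →L[ℂ] ℂ) (hχ : ∀ a b, χ (a * b) = χ a * χ b)

/-- `Lam D (a 0 ⊗ ⋯ ⊗ a (n-1)) = D 0 (a 0) * ⋯ * D (n-1) (a (n-1))` -/
noncomputable def Lam : (n : ℕ) → (ℕ → (A →L[ℂ] ℂ)) → ((XX χ hχ n).carrier →L[ℂ] ℂ)
  | 0, _ => sc χ hχ
  | n + 1, D => li χ hχ n ((D 0).smulRight (Lam n (tl D)))

lemma Lam_zero (D : ℕ → (A →L[ℂ] ℂ)) (z : (XX χ hχ 0).carrier) :
    Lam χ hχ 0 D z = sc χ hχ z := rfl

lemma Lam_tn (n : ℕ) (D : ℕ → (A →L[ℂ] ℂ)) (a : A) (y : (XX χ hχ n).carrier) :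
    Lam χ hχ (n + 1) D (tn χ hχ n a y) = D 0 a * Lam χ hχ n (tl D) y := by
  show li χ hχ n _ (tn χ hχ n a y) = _
  rw [li_tn]
  rfl

/-- functionals of norm at most two -/
def Ok (D : ℕ → (A →L[ℂ] ℂ)) : Prop := ∀ i a, ‖D i a‖ ≤ 2 * ‖a‖

lemma Ok.tl {D : ℕ → (A →L[ℂ] ℂ)} (h : Ok D) : Ok (tl D) := fun i => h (i + 1)

lemma Ok.cons {D : ℕ → (A →L[ℂ] ℂ)} (h : Ok D) {P : A →L[ℂ] ℂ} (hP : ∀ a, ‖P a‖ ≤ 2 * ‖a‖) :
    Ok (cons P D)
  | 0 => hP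
  | i + 1 => h i

lemma norm_Lam_le : ∀ (n : ℕ) (D : ℕ → (A →L[ℂ] ℂ)), Ok D → ∀ y,
    ‖Lam χ hχ n D y‖ ≤ 2 ^ n * ‖y‖
  | 0, D, _, y => by
    rw [Lam_zero, norm_sc, pow_zero, one_mul]
  | n + 1, D, h, y => by
    refine xx_norm_le χ hχ (Lam χ hχ (n + 1) D) (by positivity) (fun a x => ?_) y
    rw [Lam_tn, norm_mul]
    calc _ ≤ (2 * ‖a‖) * (2 ^ n * ‖x‖) :=
        mul_le_mul (h 0 a) (norm_Lam_le n (tl D) h.tl x) (norm_nonneg _) (by positivity)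
      _ = _ := by ring

lemma Lam_add : ∀ (n p : ℕ), p < n → ∀ (D D' D'' : ℕ → (A →L[ℂ] ℂ)),
    (∀ i, i ≠ p → D' i = D i) → (∀ i, i ≠ p → D'' i = D i) → D' p = D p + D'' p →
    Lam χ hχ n D' = Lam χ hχ n D + Lam χ hχ n D''
  | 0, _, hp, _, _, _, _, _, _ => absurd hp (Nat.not_lt_zero _)
  | n + 1, 0, _, D, D', D'', h1, h2, h3 => by
    have e1 : tl D' = tl D := funext (fun i => h1 (i + 1) (by omega))
    have e2 : tl D'' = tl D := funext (fun i => h2 (i + 1) (by omega))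
    refine xx_ext χ hχ (fun a y => ?_)
    rw [add_apply, Lam_tn, Lam_tn, Lam_tn, e1, e2, h3, add_apply, add_mul]
  | n + 1, p + 1, hp, D, D', D'', h1, h2, h3 => by
    refine xx_ext χ hχ (fun a y => ?_)
    rw [add_apply, Lam_tn, Lam_tn, Lam_tn, h1 0 (by omega), h2 0 (by omega),
      Lam_add n p (by omega) (tl D) (tl D') (tl D'') (fun i hi => h1 (i + 1) (by omega))
        (fun i hi => h2 (i + 1) (by omega)) h3, add_apply, mul_add]

lemma tail_Lam {ι : Type} (F : Filter ι) (θ : ι → (A →L[ℂ] ℂ))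
    (hθ : ∀ a, Tendsto (fun k => θ k a) F (𝓝 0)) :
    ∀ (n p : ℕ), p < n → ∀ y, ∀ ε > 0,
      ∀ᶠ β in F, ∀ D, Ok D → D p = θ β → ‖Lam χ hχ n D y‖ ≤ ε
  | 0, _, hp, _ => absurd hp (Nat.not_lt_zero _)
  | n + 1, p, hp, y => by
    intro ε hε
    have key := xx_unif χ hχ F
      (fun β => {f | ∃ D, Ok D ∧ D p = θ β ∧ f = Lam χ hχ (n + 1) D}) (2 ^ (n + 1))
      (by positivity) (by
        rintro β f ⟨D, h1, -, rfl⟩ t
        exact norm_Lam_le χ hχ (n + 1) D h1 t) (by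
        intro a x δ hδ
        cases p with
        | zero =>
          have h1 : Tendsto (fun k => ‖θ k a‖ * (2 ^ n * ‖x‖)) F (𝓝 0) := by
            simpa using (hθ a).norm.mul_const (2 ^ n * ‖x‖)
          filter_upwards [h1.eventually (ge_mem_nhds hδ)] with β hβ
          rintro f ⟨D, h2, h3, rfl⟩
          rw [Lam_tn, norm_mul, h3]
          exact (mul_le_mul_of_nonneg_left (norm_Lam_le χ hχ n _ h2.tl x)
            (norm_nonneg _)).trans hβ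
        | succ p =>
          filter_upwards [tail_Lam F θ hθ n p (by omega) x (δ / (2 * ‖a‖ + 1)) (by positivity)]
            with β hβ
          rintro f ⟨D, h2, h3, rfl⟩
          have h4 := hβ (tl D) h2.tl h3
          rw [le_div_iff₀ (by positivity)] at h4
          rw [Lam_tn, norm_mul]
          refine (mul_le_mul_of_nonneg_right (h2 0 a) (norm_nonneg _)).trans ?_
          nlinarith [norm_nonneg (Lam χ hχ n (tl D) x)]) y ε hε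
    filter_upwards [key] with β hβ D h1 h2
    exact hβ _ ⟨D, h1, h2, rfl⟩

lemma Lam_adj : ∀ (n : ℕ) (τ D : ℕ → (A →L[ℂ] ℂ)), (∀ i a b, τ i (a * b) = τ i a * τ i b) →
    τ n = χ → (∀ i, D i = τ i - τ (i + 1)) → ∀ a x,
    Lam χ hχ n D ((XX χ hχ n).left a x) = τ 0 a * Lam χ hχ n D x
  | 0, τ, D, _, h2, _, a, x => by
    rw [Lam_zero, sc_left, h2, Lam_zero]
  | n + 1, τ, D, h1, h2, h3, a, x => by
    have : (Lam χ hχ (n + 1) D).comp ((XX χ hχ (n + 1)).left a)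
        = τ 0 a • Lam χ hχ (n + 1) D := by
      refine xx_ext χ hχ (fun b y => ?_)
      rw [comp_apply, smul_apply, left_tn, map_sub, Lam_tn, Lam_tn, Lam_tn,
        Lam_adj n (tl τ) (tl D) (fun i => h1 (i + 1)) h2 (fun i => h3 (i + 1)), h3 0,
        sub_apply, sub_apply, sub_apply, h1, h1, tl_apply, smul_eq_mul]
      ring
    exact congrArg (fun f : (XX χ hχ (n + 1)).carrier →L[ℂ] ℂ => f x) this

lemma Lam_el : ∀ (n : ℕ) (D : ℕ → (A →L[ℂ] ℂ)) (l : ℕ → A), (∀ i < n, D i (l i) = 1) →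
    Lam χ hχ n D (el χ hχ n l) = 1
  | 0, D, l, _ => rfl
  | n + 1, D, l, h => by
    rw [el_succ, Lam_tn, h 0 (by omega), one_mul]
    exact Lam_el n (tl D) (tl l) (fun i hi => h (i + 1) (by omega))

lemma el_congr : ∀ (n : ℕ) (a b : ℕ → A), (∀ i < n, a i = b i) → el χ hχ n a = el χ hχ n b
  | 0, _, _, _ => rfl
  | n + 1, a, b, h => by
    rw [el_succ, el_succ, h 0 (by omega),
      el_congr n (tl a) (tl b) (fun i hi => h (i + 1) (by omega))]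

lemma norm_sum_bil' {ι E F Z : Type} [Fintype ι] [DecidableEq ι] [NormedAddCommGroup E]
    [NormedSpace ℂ E] [NormedAddCommGroup F] [NormedSpace ℂ F] [NormedAddCommGroup Z]
    [NormedSpace ℂ Z] (β : E →L[ℂ] F →L[ℂ] Z) (hβ : ∀ a y, ‖β a y‖ ≤ ‖a‖ * ‖y‖) (a : ι → E)
    (y : ι → F) {N : ℝ} (ha : ∀ r : ι → ℂ, (∀ k, ‖r k‖ ≤ 1) → ‖∑ k, r k • a k‖ ≤ 1)
    (hy : ∀ r : ι → ℂ, (∀ k, ‖r k‖ ≤ 1) → ‖∑ k, r k • y k‖ ≤ N)
    (r : ι → ℂ) (hr : ∀ k, ‖r k‖ ≤ 1) : ‖∑ k, r k • β (a k) (y k)‖ ≤ N := by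
  refine KH.norm_diag_le (fun j k => r k • β (a j) (y k)) (fun σ => ?_)
  have h1 := (hβ _ _).trans ((mul_le_of_le_one_left (norm_nonneg _)
    (ha (fun k => KH.sg (σ k)) (fun k => (KH.norm_sg _).le))).trans
    (hy (fun k => KH.sg (σ k) * r k) (fun k => by
      rw [norm_mul, KH.norm_sg, one_mul]; exact hr k)))
  simp only [map_sum, map_smul, sum_apply, smul_apply] at h1
  rw [Finset.sum_comm]
  refine le_trans (le_of_eq (congrArg norm (Finset.sum_congr rfl (fun k _ => ?_)))) h1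
  rw [Finset.smul_sum]
  refine Finset.sum_congr rfl (fun j _ => ?_)
  rw [smul_smul, smul_smul]
  congr 1
  ring

/-- simultaneous perturbations of all the entries of an elementary tensor -/
lemma pert_el {ι : Type} [Fintype ι] [DecidableEq ι] : ∀ (n : ℕ) (a : ℕ → A) (b : ι → ℕ → A),
    (∀ q, ‖a q‖ ≤ 1) →
    (∀ q (r : ι → ℂ), (∀ k, ‖r k‖ ≤ 1) → ‖∑ k, r k • (b k q - a q)‖ ≤ 1) →
    ∀ r : ι → ℂ, (∀ k, ‖r k‖ ≤ 1) →
      ‖∑ k, r k • (el χ hχ n (b k) - el χ hχ n a)‖ ≤ 2 ^ n - 1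
  | 0, a, b, _, _, r, _ => by
    have : ∀ k, el χ hχ 0 (b k) - el χ hχ 0 a = 0 := fun k => sub_self _
    simp [this]
  | n + 1, a, b, ha, hb, r, hr => by
    have ih := pert_el n (tl a) (fun k => tl (b k)) (fun q => ha (q + 1)) (fun q => hb (q + 1))
    set y := fun k => el χ hχ n (tl (b k)) - el χ hχ n (tl a) with hy
    have e : ∀ k, el χ hχ (n + 1) (b k) - el χ hχ (n + 1) a
        = tn χ hχ n (a 0) (y k) + tn χ hχ n (b k 0 - a 0) (el χ hχ n (tl a))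
          + tn χ hχ n (b k 0 - a 0) (y k) := fun k => by
      simp only [el_succ, hy, map_sub, sub_apply]
      abel
    have h2 : ‖tn χ hχ n (a 0) (∑ k, r k • y k)‖ ≤ 2 ^ n - 1 :=
      (norm_tn_le χ hχ n _ _).trans ((mul_le_of_le_one_left (norm_nonneg _) (ha 0)).trans
        (ih r hr))
    have h3 : ‖tn χ hχ n (∑ k, r k • (b k 0 - a 0)) (el χ hχ n (tl a))‖ ≤ 1 :=
      (norm_tn_le χ hχ n _ _).trans (mul_le_one₀ (hb 0 r hr) (norm_nonneg _)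
        (norm_el_le χ hχ n _ (fun q => ha (q + 1))))
    have h4 := norm_sum_bil' (tn χ hχ n) (norm_tn_le χ hχ n) _ y (hb 0) ih r hr
    simp only [map_sum, map_smul, sum_apply, smul_apply] at h2 h3
    simp only [e, smul_add, Finset.sum_add_distrib]
    refine (norm_add₃_le).trans ?_
    rw [pow_succ]
    linarith

lemma pert_sum {ι : Type} [Fintype ι] [DecidableEq ι] {n : ℕ} (f : (XX χ hχ n).carrier →L[ℂ] ℂ)
    {M : ℝ} (hM : 0 ≤ M) (hf : ∀ x, ‖f x‖ ≤ M * ‖x‖) (a : ℕ → A) (b : ι → ℕ → A)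
    (ha : ∀ q, ‖a q‖ ≤ 1)
    (hb : ∀ q (r : ι → ℂ), (∀ k, ‖r k‖ ≤ 1) → ‖∑ k, r k • (b k q - a q)‖ ≤ 1) :
    ∑ k, ‖f (el χ hχ n (b k)) - f (el χ hχ n a)‖ ≤ M * 2 ^ n := by
  refine KH.sum_le_of_phase _ (fun c hc => ?_)
  have h := (hf _).trans (mul_le_mul_of_nonneg_left (pert_el χ hχ n a b ha hb c hc) hM)
  simp only [map_sum, map_smul, map_sub, smul_eq_mul] at h
  linarith

variable {n : ℕ} (T : (XX χ hχ n).carrier →L[ℂ] (XX χ hχ (n + 1)).carrier)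

/-- the functional on the next module -/
noncomputable def Gam (n : ℕ) (P : A →L[ℂ] ℂ) (D : ℕ → (A →L[ℂ] ℂ)) :
    (XX χ hχ (n + 1)).carrier →L[ℂ] ℂ :=
  Lam χ hχ (n + 1) (cons P D) - (Lam χ hχ n D).comp (bd χ hχ n)

lemma Gam_tn (P : A →L[ℂ] ℂ) (D : ℕ → (A →L[ℂ] ℂ)) (a : A) (x : (XX χ hχ n).carrier) :
    Gam χ hχ n P D (tn χ hχ n a x)
      = P a * Lam χ hχ n D x - Lam χ hχ n D ((XX χ hχ n).left a x) := by
  unfold Gam
  rw [sub_apply, comp_apply, Lam_tn, bd_tn]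
  rfl

lemma Gam_left (P : A →L[ℂ] ℂ) (hP : ∀ a b, P (a * b) = P a * P b) (D : ℕ → (A →L[ℂ] ℂ))
    (b : A) (y : (XX χ hχ (n + 1)).carrier) :
    Gam χ hχ n P D ((XX χ hχ (n + 1)).left b y) = P b * Gam χ hχ n P D y := by
  have : (Gam χ hχ n P D).comp ((XX χ hχ (n + 1)).left b) = P b • Gam χ hχ n P D := by
    refine xx_ext χ hχ (fun a x => ?_)
    rw [comp_apply, smul_apply, left_tn, map_sub, Gam_tn, Gam_tn, Gam_tn, hP,
      (XX χ hχ n).left_mul, smul_eq_mul]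
    ring
  exact congrArg (fun f : (XX χ hχ (n + 1)).carrier →L[ℂ] ℂ => f y) this

/-- the corrected functional -/
noncomputable def Om (P : A →L[ℂ] ℂ) (D : ℕ → (A →L[ℂ] ℂ)) : (XX χ hχ n).carrier →L[ℂ] ℂ :=
  Lam χ hχ n D - (Gam χ hχ n P D).comp T

lemma Om_apply (P : A →L[ℂ] ℂ) (D : ℕ → (A →L[ℂ] ℂ)) (x : (XX χ hχ n).carrier) :
    Om χ hχ T P D x = Lam χ hχ n D x - (Lam χ hχ (n + 1) (cons P D) (T x)
      - Lam χ hχ n D (bd χ hχ n (T x))) := rfl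

lemma Om_left (hT : ∀ a x, tn χ hχ n a x
      = (XX χ hχ (n + 1)).left a (T x) - T ((XX χ hχ n).left a x))
    (P : A →L[ℂ] ℂ) (hP : ∀ a b, P (a * b) = P a * P b) (D : ℕ → (A →L[ℂ] ℂ))
    (a : A) (x : (XX χ hχ n).carrier) :
    Om χ hχ T P D ((XX χ hχ n).left a x) = P a * Om χ hχ T P D x := by
  have h := congrArg (Gam χ hχ n P D) (hT a x)
  rw [Gam_tn, map_sub, Gam_left χ hχ P hP] at h
  unfold Om
  rw [sub_apply, sub_apply, comp_apply, comp_apply, mul_sub]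
  rw [sub_eq_sub_iff_sub_eq_sub] at h
  exact h.symm

lemma Om_adj (τ D : ℕ → (A →L[ℂ] ℂ)) (h1 : ∀ i a b, τ i (a * b) = τ i a * τ i b)
    (h2 : τ n = χ) (h3 : ∀ i, D i = τ i - τ (i + 1)) : Om χ hχ T (τ 0) D = Lam χ hχ n D := by
  have : Gam χ hχ n (τ 0) D = 0 := xx_ext χ hχ (fun a x => by
    rw [Gam_tn, Lam_adj χ hχ n τ D h1 h2 h3, sub_self, zero_apply])
  unfold Om
  rw [this, zero_comp, sub_zero]

lemma Om_add {p : ℕ} (hp : p < n) (P : A →L[ℂ] ℂ) (D D' D'' : ℕ → (A →L[ℂ] ℂ))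
    (h1 : ∀ i, i ≠ p → D' i = D i) (h2 : ∀ i, i ≠ p → D'' i = D i) (h3 : D' p = D p + D'' p)
    (x : (XX χ hχ n).carrier) :
    Om χ hχ T P D' x = Om χ hχ T P D x + Om χ hχ T P D'' x := by
  rw [Om_apply, Om_apply, Om_apply, Lam_add χ hχ n p hp D D' D'' h1 h2 h3,
    Lam_add χ hχ (n + 1) (p + 1) (by omega) (cons P D) (cons P D') (cons P D'')
      (fun i hi => by cases i with
        | zero => rfl
        | succ i => exact h1 i (by omega))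
      (fun i hi => by cases i with
        | zero => rfl
        | succ i => exact h2 i (by omega)) h3]
  simp only [add_apply]
  abel

lemma norm_Om_le_aux (P : A →L[ℂ] ℂ) (D : ℕ → (A →L[ℂ] ℂ)) (x : (XX χ hχ n).carrier) :
    ‖Om χ hχ T P D x‖ ≤ ‖Lam χ hχ n D x‖ + (‖Lam χ hχ (n + 1) (cons P D) (T x)‖
      + ‖Lam χ hχ n D (bd χ hχ n (T x))‖) := by
  rw [Om_apply]
  exact (norm_sub_le _ _).trans (add_le_add le_rfl (norm_sub_le _ _))

lemma exists_bound : ∃ M : ℝ, 0 ≤ M ∧ ∀ P : A →L[ℂ] ℂ, (∀ a, ‖P a‖ ≤ 2 * ‖a‖) →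
    ∀ D, Ok D → ∀ x, ‖Om χ hχ T P D x‖ ≤ M * ‖x‖ := by
  refine ⟨2 ^ n + 2 ^ (n + 1) * ‖T‖ + 2 ^ n * (‖bd χ hχ n‖ * ‖T‖), by positivity,
    fun P hP D hD x => (norm_Om_le_aux χ hχ T P D x).trans ?_⟩
  have h1 := T.le_opNorm x
  have h2 : ‖bd χ hχ n (T x)‖ ≤ ‖bd χ hχ n‖ * (‖T‖ * ‖x‖) :=
    ((bd χ hχ n).le_opNorm _).trans (mul_le_mul_of_nonneg_left h1 (norm_nonneg _))
  have h3 := mul_le_mul_of_nonneg_left h1 (show (0:ℝ) ≤ 2 ^ (n + 1) by positivity)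
  have h4 := mul_le_mul_of_nonneg_left h2 (show (0:ℝ) ≤ 2 ^ n by positivity)
  have h5 := norm_Lam_le χ hχ n D hD x
  have h6 := norm_Lam_le χ hχ (n + 1) _ (hD.cons hP) (T x)
  have h7 := norm_Lam_le χ hχ n D hD (bd χ hχ n (T x))
  nlinarith

lemma tail_Om {ι : Type} (F : Filter ι) (θ : ι → (A →L[ℂ] ℂ))
    (hθ : ∀ a, Tendsto (fun k => θ k a) F (𝓝 0))
    {p : ℕ} (hp : p < n) (x : (XX χ hχ n).carrier) (ε : ℝ) (hε : 0 < ε) :
    ∀ᶠ β in F, ∀ P : A →L[ℂ] ℂ, (∀ a, ‖P a‖ ≤ 2 * ‖a‖) → ∀ D, Ok D → D p = θ β →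
      ‖Om χ hχ T P D x‖ ≤ ε := by
  filter_upwards [tail_Lam χ hχ F θ hθ n p hp x (ε / 3) (by positivity),
    tail_Lam χ hχ F θ hθ (n + 1) (p + 1) (by omega) (T x) (ε / 3) (by positivity),
    tail_Lam χ hχ F θ hθ n p hp (bd χ hχ n (T x)) (ε / 3) (by positivity)]
    with β h1 h2 h3 P hP D hD hDp
  have h4 := norm_Om_le_aux χ hχ T P D x
  have h5 := h2 (cons P D) (hD.cons hP) hDp
  linarith [h1 D hD hDp, h3 D hD hDp]

end Pool.Agent.H570Z.BN
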