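import Mathlib
import Pool.Agent.H570Z.KA

/-!
A lemma of Rosenthal type for set functions indexed by pairs.
-/

set_option autoImplicit false

namespace Pool.Agent.H570Z.BN

open Filter Topology Set

/-- an almost disjoint family -/
def ad (r : ℕ → Bool) : Set ℕ := range (fun k => Encodable.encode ((List.range k).map r))

lemma ad_infinite (r : ℕ → Bool) : (ad r).Infinite :=
  infinite_range_of_injective (fun k k' h => by
    have := congrArg List.length (Encodable.encode_injective h)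
    simpa using this)

lemma ad_inter {r r' : ℕ → Bool} (h : r ≠ r') : (ad r ∩ ad r').Finite := by
  obtain ⟨j, hj⟩ := Function.ne_iff.1 h
  refine ((finite_le_nat j).image (fun k => Encodable.encode ((List.range k).map r))).subset ?_
  rintro _ ⟨⟨k, rfl⟩, k', hk⟩
  have h1 := Encodable.encode_injective hk
  have h2 : k' = k := by simpa using congrArg List.length h1
  subst h2
  refine ⟨k', ?_, rfl⟩
  by_contra h3
  exact hj ((List.map_inj_left.1 h1) j (List.mem_range.2 (not_le.1 h3))).symm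

lemma exists_nat_mul {C ε : ℝ} (hε : 0 < ε) : ∃ L : ℕ, C < L * ε := by
  obtain ⟨L, hL⟩ := exists_nat_gt (C / ε)
  exact ⟨L, (div_lt_iff₀ hε).1 hL⟩

lemma bad_finite (f : Set ℕ → ℝ) {C ε : ℝ} (hε : 0 < ε)
    (hs : ∀ (L : ℕ) (G : Fin L → Set ℕ), (∀ m m', m ≠ m' → Disjoint (G m) (G m')) →
      ∑ m, f (G m) ≤ C) :
    {r | ∀ N, ∃ G ⊆ ad r, (∀ g ∈ G, N ≤ g) ∧ ε < f G}.Finite := by
  by_contra h
  obtain ⟨L, hL⟩ := exists_nat_mul (C := C) hε
  let e := Set.Infinite.natEmbedding _ h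
  have h1 : (⋃ m : Fin L, ⋃ m' : Fin L, ⋃ _ : m ≠ m', ad (e m) ∩ ad (e m')).Finite :=
    finite_iUnion (fun m => finite_iUnion (fun m' => finite_iUnion (fun hm =>
      ad_inter (fun h2 => hm (Fin.ext (e.injective (Subtype.ext h2)))))))
  obtain ⟨N, hN⟩ := h1.bddAbove
  choose G h2 h3 h4 using fun m : Fin L => (e m).2 (N + 1)
  have h5 := hs L G (fun m m' hm => disjoint_left.2 (fun x hx hx' => by
    have := hN (mem_iUnion.2 ⟨m, mem_iUnion.2 ⟨m', mem_iUnion.2 ⟨hm, h2 m hx, h2 m' hx'⟩⟩⟩)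
    have := h3 m x hx
    omega))
  have h6 := Finset.sum_le_sum (s := Finset.univ) (fun m _ => (h4 m).le)
  rw [Finset.sum_const, Finset.card_univ, Fintype.card_fin, nsmul_eq_mul] at h6
  linarith

lemma exists_tails {ι : Type} [Countable ι] (f : ι → Set ℕ → ℝ) {C ε : ℝ} (hε : 0 < ε)
    (hs : ∀ i (L : ℕ) (G : Fin L → Set ℕ), (∀ m m', m ≠ m' → Disjoint (G m) (G m')) →
      ∑ m, f i (G m) ≤ C) :
    ∃ M : Set ℕ, M.Infinite ∧ ∀ i, ∃ N, ∀ G ⊆ M, (∀ g ∈ G, N ≤ g) → f i G ≤ ε := by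
  have : Uncountable (ℕ → Bool) := uncountable_iff_forall_not_surjective.2 (fun g hg => by
    obtain ⟨k, hk⟩ := hg (fun i => !g i i)
    simpa using congrFun hk k)
  have h1 := countable_iUnion (fun i => (bad_finite (f i) hε (hs i)).countable)
  obtain ⟨r, hr⟩ : ∃ r, r ∉ ⋃ i, {r | ∀ N, ∃ G ⊆ ad r, (∀ g ∈ G, N ≤ g) ∧ ε < f i G} := by
    by_contra h
    push Not at h
    exact not_countable_univ (eq_univ_of_forall h ▸ h1)
  refine ⟨ad r, ad_infinite r, fun i => ?_⟩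
  by_contra h2
  push Not at h2
  exact hr (mem_iUnion.2 ⟨i, h2⟩)

lemma exists_free {M : Set ℕ} (hM : M.Infinite) :
    ∃ U : Ultrafilter ℕ, M ∈ U ∧ ∀ x, ∀ᶠ y in (U : Filter ℕ), x < y := by
  have : (atTop ⊓ 𝓟 M).NeBot := by
    rw [← Nat.cofinite_eq_atTop, cofinite_inf_principal_neBot_iff]
    exact hM
  have h := Ultrafilter.of_le (atTop ⊓ 𝓟 M)
  exact ⟨Ultrafilter.of _, le_principal_iff.1 (h.trans inf_le_right),
    fun x => (h.trans inf_le_left) (eventually_gt_atTop x)⟩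

/-- bounded set functions with summable one-point perturbations -/
def Gd (C : ℝ) (g : Finset ℕ → ℂ) : Prop :=
  (∀ F, ‖g F‖ ≤ C) ∧ ∀ F (L : ℕ) (l : Fin L → ℕ), Function.Injective l →
    ∑ m, ‖g (insert (l m) F) - g F‖ ≤ C

lemma Gd.lim {C : ℝ} (U : Ultrafilter ℕ) {g : ℕ → Finset ℕ → ℂ} (hg : ∀ i, Gd C (g i)) :
    ∃ h, Gd C h ∧ ∀ F, Tendsto (fun i => g i (insert i F)) U (𝓝 (h F)) := by
  have h1 : ∀ F, ∃ c, Tendsto (fun i => g i (insert i F)) U (𝓝 c) := fun F => by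
    obtain ⟨c, -, hc⟩ := (isCompact_closedBall (0 : ℂ) C).ultrafilter_le_nhds
      (U.map (fun i => g i (insert i F))) (by
        rw [le_principal_iff]
        exact Filter.mem_map.2 (Eventually.of_forall
          (fun i => mem_closedBall_zero_iff.2 ((hg i).1 _))))
    exact ⟨c, hc⟩
  choose h hh using h1
  refine ⟨h, ⟨fun F => le_of_tendsto' (hh F).norm (fun i => (hg i).1 _), fun F L l hl => ?_⟩, hh⟩
  refine le_of_tendsto' (tendsto_finsetSum _ (fun m _ => ((hh (insert (l m) F)).sub (hh F)).norm))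
    (fun i => ?_)
  simp only [Finset.insert_comm i]
  exact (hg i).2 _ L l hl

lemma Gd.ev {C : ℝ} {g : Finset ℕ → ℂ} (hg : Gd C g) {U : Ultrafilter ℕ}
    (hU : ∀ x, ∀ᶠ y in (U : Filter ℕ), x < y) (F : Finset ℕ) {δ : ℝ} (hδ : 0 < δ) :
    ∀ᶠ l in (U : Filter ℕ), ‖g (insert l F) - g F‖ ≤ δ := by
  by_contra h
  rw [← Ultrafilter.eventually_not] at h
  obtain ⟨L, hL⟩ := exists_nat_mul (C := C) hδ
  obtain ⟨v, h1, h2⟩ := KH.inj_choice U (fun x => (hU x).mono (fun y hy => hy.ne')) L _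
    (fun _ => h)
  have h6 := Finset.sum_le_sum (s := Finset.univ) (fun m _ => (not_le.1 (h2 m)).le)
  rw [Finset.sum_const, Finset.card_univ, Fintype.card_fin, nsmul_eq_mul] at h6
  linarith [hg.2 F L v h1]

lemma exists_rec (W : ℕ → Finset ℕ → ℕ → Prop) (h : ∀ b F, ∃ l, W b F l) :
    ∃ (l : ℕ → ℕ) (F : ℕ → Finset ℕ), F 0 = ∅ ∧ (∀ b, F (b + 1) = insert (l b) (F b)) ∧
      ∀ b, W b (F b) (l b) := by
  choose c hc using h
  let F : ℕ → Finset ℕ := fun b => Nat.rec ∅ (fun b G => insert (c b G) G) b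
  exact ⟨fun b => c b (F b), F, rfl, fun _ => rfl, fun b => hc _ _⟩

lemma tele (z : ℕ → ℂ) {ε : ℝ} (hε : 0 < ε) (a : ℕ)
    (h : ∀ b, a ≤ b → ‖z (b + 1) - z b‖ ≤ ε / 2 ^ b) (b : ℕ) (hb : a ≤ b) :
    ‖z b - z a‖ ≤ 2 * ε := by
  have : ‖z b - z a‖ ≤ 2 * ε - 2 * (ε / 2 ^ b) := by
    induction b, hb using Nat.le_induction with
    | base =>
      have : ε / 2 ^ a ≤ ε := div_le_self hε.le (one_le_pow₀ (by norm_num))
      rw [sub_self, norm_zero]
      linarith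
    | succ b hb ih =>
      have e : ε / 2 ^ b = 2 * (ε / 2 ^ (b + 1)) := by field_simp; ring
      linarith [norm_sub_le_norm_sub_add_norm_sub (z (b + 1)) (z b) (z a), h b hb]
  have h2 : 0 ≤ ε / 2 ^ b := by positivity
  linarith

theorem rosen (P : ℕ → ℕ → Set ℕ → ℂ) {C η : ℝ} (hη : 0 < η) (hb : ∀ i i' F, ‖P i i' F‖ ≤ C)
    (hs : ∀ i i' F (L : ℕ) (G : Fin L → Set ℕ), (∀ m m', m ≠ m' → Disjoint (G m) (G m')) →
      ∑ m, ‖P i i' (F ∪ G m) - P i i' F‖ ≤ C)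
    (h0 : ∀ i i', i < i' → η ≤ ‖P i i' {i, i'}‖) :
    ∃ L : Set ℕ, L.Infinite ∧ ∀ i ∈ L, ∀ i' ∈ L, i < i' → η / 2 ≤ ‖P i i' L‖ := by
  have hε : 0 < η / 14 := by positivity
  set ε := η / 14 with hεd
  obtain ⟨M, hM, hN⟩ := exists_tails
    (fun (t : ℕ × ℕ × Finset ℕ) G => ‖P t.1 t.2.1 (t.2.2 ∪ G) - P t.1 t.2.1 t.2.2‖) hε
    (fun t => hs _ _ _)
  choose N hN using hN
  obtain ⟨U, hMU, hU⟩ := exists_free hM
  have hP : ∀ i i', Gd C (fun F => P i i' F) := fun i i' => ⟨fun F => hb _ _ _, fun F L l hl => by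
    have := hs i i' F L (fun m => {l m}) (fun m m' h => disjoint_singleton.2 (fun h1 => h (hl h1)))
    simpa using this⟩
  choose Q hQ hQ' using fun i => Gd.lim U (hP i)
  obtain ⟨R, hR, hR'⟩ := Gd.lim U hQ
  have hR0 : η ≤ ‖R ∅‖ := ge_of_tendsto' (hR' ∅).norm (fun i =>
    ge_of_tendsto (hQ' i _).norm ((hU i).mono (fun i' h => by
      have := h0 i i' h
      rw [pair_comm] at this
      simpa using this)))
  have cl : ∀ {f : ℕ → ℂ} {c : ℂ}, Tendsto f U (𝓝 c) → ∀ᶠ l in (U : Filter ℕ), ‖f l - c‖ ≤ ε :=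
    fun h => (tendsto_iff_norm_sub_tendsto_zero.1 h).eventually (ge_mem_nhds hε)
  obtain ⟨l, F, hF0, hF, hW⟩ := exists_rec (fun b F l => l ∈ M ∧ (∀ i ∈ F, i < l) ∧
      (∀ i ∈ F, ∀ i' ∈ F, N (i, i', F) < l) ∧ ‖R (insert l F) - R F‖ ≤ ε / 2 ^ b ∧
      (∀ i ∈ F, ‖Q i (insert l F) - Q i F‖ ≤ ε / 2 ^ b) ∧ ‖Q l (insert l F) - R F‖ ≤ ε ∧
      ∀ i ∈ F, ‖P i l (insert l F : Finset ℕ) - Q i F‖ ≤ ε) (fun b F =>
    (Eventually.and hMU (((Finset.eventually_all F).2 (fun i _ => hU i)).and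
      (((Finset.eventually_all F).2 (fun i _ => (Finset.eventually_all F).2
        (fun i' _ => hU _))).and ((hR.ev hU F (by positivity)).and
      (((Finset.eventually_all F).2 (fun i _ => (hQ i).ev hU F (by positivity))).and
      ((cl (hR' F)).and ((Finset.eventually_all F).2 (fun i _ => cl (hQ' i F))))))))).exists)
  have hmem : ∀ b x, x ∈ F b ↔ ∃ a < b, l a = x := fun b => by
    induction b with
    | zero => simp [hF0]
    | succ b ih =>
      intro x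
      rw [hF, Finset.mem_insert, ih]
      constructor
      · rintro (rfl | ⟨a, h1, h2⟩)
        exacts [⟨b, by omega, rfl⟩, ⟨a, by omega, h2⟩]
      · rintro ⟨a, h1, rfl⟩
        rcases Nat.lt_succ_iff_lt_or_eq.1 h1 with h | rfl
        exacts [Or.inr ⟨a, h, rfl⟩, Or.inl rfl]
  have hl : StrictMono l := fun a b h => (hW b).2.1 _ ((hmem _ _).2 ⟨a, h, rfl⟩)
  refine ⟨range l, infinite_range_of_injective hl.injective, ?_⟩
  rintro _ ⟨a, rfl⟩ _ ⟨b, rfl⟩ hab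
  have hab := hl.lt_iff_lt.1 hab
  have e : range l = (F (b + 1) : Set ℕ) ∪ l '' Ici (b + 1) := by
    ext x
    simp only [mem_range, mem_union, Finset.mem_coe, hmem, mem_image, mem_Ici]
    constructor
    · rintro ⟨c, rfl⟩
      exact (lt_or_ge c (b + 1)).imp (fun h => ⟨c, h, rfl⟩) (fun h => ⟨c, h, rfl⟩)
    · rintro (⟨c, -, h⟩ | ⟨c, -, h⟩) <;> exact ⟨c, h⟩
  have h1 := hN (l a, l b, F (b + 1)) (l '' Ici (b + 1))
    (by rintro _ ⟨c, -, rfl⟩; exact (hW c).1) (by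
      rintro _ ⟨c, hc, rfl⟩
      exact ((hW (b + 1)).2.2.1 _ ((hmem _ _).2 ⟨a, by omega, rfl⟩) _
        ((hmem _ _).2 ⟨b, by omega, rfl⟩)).le.trans (hl.monotone hc))
  have h2 := (hW b).2.2.2.2.2.2 _ ((hmem _ _).2 ⟨a, hab, rfl⟩)
  have h3 := tele (fun c => Q (l a) (F c)) hε (a + 1) (fun c hc => by
    rw [hF]
    exact (hW c).2.2.2.2.1 _ ((hmem _ _).2 ⟨a, hc, rfl⟩)) b hab
  have h4 := (hW a).2.2.2.2.2.1
  have h5 := tele (fun c => R (F c)) hε 0 (fun c _ => by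
    rw [hF]
    exact (hW c).2.2.2.1) a (Nat.zero_le _)
  rw [← hF] at h2 h4
  rw [← e] at h1
  simp only [hF0] at h1 h3 h5
  have h6 := norm_sub_le_norm_sub_add_norm_sub (P (l a) (l b) (range l))
    (P (l a) (l b) (F (b + 1))) (R ∅)
  have h7 := norm_sub_le_norm_sub_add_norm_sub (P (l a) (l b) (F (b + 1))) (Q (l a) (F b)) (R ∅)
  have h8 := norm_sub_le_norm_sub_add_norm_sub (Q (l a) (F b)) (Q (l a) (F (a + 1))) (R ∅)
  have h9 := norm_sub_le_norm_sub_add_norm_sub (Q (l a) (F (a + 1))) (R (F a)) (R ∅)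
  have h10 := norm_sub_norm_le (R ∅) (P (l a) (l b) (range l))
  rw [norm_sub_rev] at h10
  linarith

end Pool.Agent.H570Z.BN
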