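import Mathlib
import Pool.Agent.H570Z.BB

/-!
Trees of ultrafilters, and the algebra of continuous functions on the space of ultrafilters.
-/

set_option autoImplicit false

namespace Pool.Agent.H570Z.BN

open Filter Topology Set

lemma half (p : Ultrafilter ℕ) (g : ℕ → Set ℕ) (hg : ∀ k k', k ≠ k' → Disjoint (g k) (g k')) :
    ∃ σ : ℕ → ℕ, StrictMono σ ∧ (⋃ k, g (σ k)) ∉ p := by
  by_contra h
  push Not at h
  have h1 := h (fun k => 2 * k) (fun a b hab => by simpa using hab)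
  have h2 := h (fun k => 2 * k + 1) (fun a b hab => by simpa using hab)
  obtain ⟨x, h3, h4⟩ := Ultrafilter.nonempty_of_mem (inter_mem h1 h2)
  obtain ⟨k, hk⟩ := mem_iUnion.1 h3
  obtain ⟨k', hk'⟩ := mem_iUnion.1 h4
  exact disjoint_left.1 (hg _ _ (by omega)) hk hk'

lemma killer (p : Ultrafilter ℕ) (hp : ∀ x, ∀ᶠ y in (p : Filter ℕ), x < y)
    (K : (ℕ → ℕ) → ℕ → Set ℕ) (hK : ∀ f m, K f m ∈ p) :
    ∃ ψ : ℕ → ℕ → ℕ, (∀ k m k' m', ψ k m = ψ k' m' → k = k' ∧ m = m') ∧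
      (⋃ k, range (ψ k)) ∉ p ∧ ∀ k m, ∀ᶠ k' in atTop, range (ψ k') ⊆ K (ψ k) m := by
  obtain ⟨f, h1, h2⟩ := exists_seq_of_forall_finset_exists
    (fun x : (ℕ → ℕ) × ℕ => Function.Injective x.1 ∧ range x.1 ∉ p)
    (fun x y => x.2 < y.2 ∧ Disjoint (range x.1) (range y.1) ∧ ∀ m ≤ y.2, range y.1 ⊆ K x.1 m)
    (fun s hs => by
      obtain ⟨N, hN⟩ := (s.image Prod.snd).bddAbove
      have h3 : {y | ∀ x ∈ s, y ∉ range x.1 ∧ ∀ m ∈ Finset.range (N + 2), y ∈ K x.1 m} ∈ p :=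
        (Finset.eventually_all s).2 (fun x hx => Eventually.and
          (Ultrafilter.compl_mem_iff_notMem.2 (hs x hx).2)
          ((Finset.eventually_all _).2 (fun m _ => hK x.1 m)))
      have h4 : {y | ∀ x ∈ s, y ∉ range x.1 ∧
          ∀ m ∈ Finset.range (N + 2), y ∈ K x.1 m}.Infinite := fun h => by
        obtain ⟨b, hb⟩ := h.bddAbove
        obtain ⟨y, h5, h6⟩ := (Eventually.and h3 (hp b)).exists
        exact absurd (hb h5) (not_le.2 h6)
      let e := Set.Infinite.natEmbedding _ h4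
      have he : Function.Injective (fun k => (e k : ℕ)) :=
        fun a b h => e.injective (Subtype.ext h)
      obtain ⟨σ, h5, h6⟩ := half p (fun k => {(e k : ℕ)})
        (fun k k' h => disjoint_singleton.2 (he.ne h))
      refine ⟨(fun k => e (σ k), N + 1), ⟨he.comp h5.injective, by simpa using h6⟩,
        fun x hx => ⟨Nat.lt_succ_of_le (hN (Finset.mem_image_of_mem _ hx)), ?_, fun m hm => ?_⟩⟩
      · rw [disjoint_right]
        rintro _ ⟨k, rfl⟩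
        exact ((e (σ k)).2 x hx).1
      · rintro _ ⟨k, rfl⟩
        exact ((e (σ k)).2 x hx).2 m (Finset.mem_range.2 (by omega)))
  have h3 : ∀ k k', k ≠ k' → Disjoint (range (f k).1) (range (f k').1) := fun k k' h => by
    rcases Nat.lt_or_gt_of_ne h with h | h
    exacts [(h2 k k' h).2.1, (h2 k' k h).2.1.symm]
  obtain ⟨σ, h4, h5⟩ := half p _ h3
  have h6 : StrictMono (fun k => (f k).2) := fun a b h => (h2 a b h).1
  refine ⟨fun k => (f (σ k)).1, fun k m k' m' h => ?_, h5, fun k m => ?_⟩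
  · by_cases hk : k = k'
    · subst hk
      exact ⟨rfl, (h1 _).1 h⟩
    · exact absurd ⟨m', h.symm⟩
        (disjoint_left.1 (h3 _ _ (h4.injective.ne hk)) (mem_range_self m))
  · filter_upwards [eventually_gt_atTop k, eventually_ge_atTop m] with k' h7 h8
    exact (h2 _ _ (h4 h7)).2.2 m (h8.trans ((h4.id_le k').trans (h6.id_le _)))

section Tree

variable (w : Ultrafilter ℕ)

/-- the ultrafilter on the paths through a node -/
noncomputable def Qu : ℕ → (ℕ →₀ ℕ) → Ultrafilter (ℕ →₀ ℕ)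
  | 0, r => pure r
  | h + 1, r => w.bind (fun x => Qu h (r.update h x))

lemma ev_Qu (h : ℕ) (r : ℕ →₀ ℕ) (B : (ℕ →₀ ℕ) → Prop) :
    (∀ᶠ t in (Qu w (h + 1) r : Filter (ℕ →₀ ℕ)), B t) ↔
      ∀ᶠ x in (w : Filter ℕ), ∀ᶠ t in (Qu w h (r.update h x) : Filter (ℕ →₀ ℕ)), B t := Iff.rfl

lemma upd_self (r : ℕ →₀ ℕ) (h x : ℕ) : r.update h x h = x := by simp

lemma upd_ne (r : ℕ →₀ ℕ) {h i : ℕ} (x : ℕ) (hi : i ≠ h) : r.update h x i = r i := by
  simp [hi]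

/-- agreement from a given height on -/
def Ag (h : ℕ) (r t : ℕ →₀ ℕ) : Prop := ∀ i, h ≤ i → r i = t i

lemma Ag.rfl {h : ℕ} {r : ℕ →₀ ℕ} : Ag h r r := fun _ _ => Eq.refl _

lemma Ag.symm {h : ℕ} {r t : ℕ →₀ ℕ} (H : Ag h r t) : Ag h t r := fun i hi => (H i hi).symm

lemma Ag.trans {h : ℕ} {r t u : ℕ →₀ ℕ} (H : Ag h r t) (H' : Ag h t u) : Ag h r u :=
  fun i hi => (H i hi).trans (H' i hi)

lemma Ag.mono {h m : ℕ} {r t : ℕ →₀ ℕ} (H : Ag h r t) (hm : h ≤ m) : Ag m r t :=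
  fun i hi => H i (hm.trans hi)

lemma ag_upd (r : ℕ →₀ ℕ) (h x : ℕ) : Ag (h + 1) (r.update h x) r :=
  fun _ hi => upd_ne r x (by omega)

lemma Qu_ag : ∀ (h : ℕ) (r : ℕ →₀ ℕ), ∀ᶠ t in (Qu w h r : Filter (ℕ →₀ ℕ)), Ag h t r
  | 0, _ => Ag.rfl
  | h + 1, r => (ev_Qu w h r _).2 (Eventually.of_forall (fun x =>
      (Qu_ag h _).mono (fun _ ht => (ht.mono h.le_succ).trans (ag_upd r h x))))

lemma Qu_congr : ∀ (h : ℕ) {r t : ℕ →₀ ℕ}, Ag h r t → Qu w h r = Qu w h t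
  | 0, _, _, H => congrArg pure (Finsupp.ext (fun i => H i (Nat.zero_le i)))
  | h + 1, r, t, H => congrArg w.bind (funext (fun x => Qu_congr h (fun i hi => by
      by_cases h1 : i = h
      · rw [h1, upd_self, upd_self]
      · rw [upd_ne _ _ h1, upd_ne _ _ h1, H i (by omega)])))

lemma Qu_up {h m : ℕ} (hm : h ≤ m) {B : (ℕ →₀ ℕ) → Prop}
    (H : ∀ r, ∀ᶠ t in (Qu w h r : Filter (ℕ →₀ ℕ)), B t) :
    ∀ r, ∀ᶠ t in (Qu w m r : Filter (ℕ →₀ ℕ)), B t := by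
  induction m, hm using Nat.le_induction with
  | base => exact H
  | succ m _ ih => exact fun r => (ev_Qu w m r _).2 (Eventually.of_forall (fun x => ih _))

lemma Qu_ne (hw : ∀ x, ∀ᶠ y in (w : Filter ℕ), x < y) (h : ℕ) (r : ℕ →₀ ℕ) (x : ℕ) :
    ∀ᶠ t in (Qu w (h + 1) r : Filter (ℕ →₀ ℕ)), t h ≠ x :=
  (ev_Qu w h r _).2 ((hw x).mono (fun y hy => (Qu_ag w h _).mono (fun t ht => by
    rw [ht h le_rfl, upd_self]
    exact hy.ne')))

lemma Qu_tendsto (f : (ℕ →₀ ℕ) → ℕ) (h : ℕ) (r : ℕ →₀ ℕ) :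
    Tendsto (fun x => (Qu w h (r.update h x)).map f) w (𝓝 ((Qu w (h + 1) r).map f)) := by
  rw [Tendsto, ← Ultrafilter.coe_map, ultrafilter_converges_iff]
  ext s
  rfl

end Tree

/-- the algebra -/
abbrev CB : Type := C(Ultrafilter ℕ, ℂ)

/-- evaluation at a point -/
noncomputable def dl (u : Ultrafilter ℕ) : CB →L[ℂ] ℂ := ContinuousMap.evalCLM ℂ u

lemma dl_apply (u : Ultrafilter ℕ) (a : CB) : dl u a = a u := rfl

lemma dl_mul (u : Ultrafilter ℕ) (a b : CB) : dl u (a * b) = dl u a * dl u b := rfl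

lemma dl_le (u : Ultrafilter ℕ) (a : CB) : ‖dl u a‖ ≤ 2 * ‖a‖ := by
  rw [dl_apply]
  linarith [a.norm_coe_le_norm u, norm_nonneg a]

lemma dl_sub_le (u v : Ultrafilter ℕ) (a : CB) : ‖(dl u - dl v) a‖ ≤ 2 * ‖a‖ := by
  have h : ‖a u - a v‖ ≤ _ := norm_sub_le _ _
  have e : (dl u - dl v) a = a u - a v := rfl
  rw [e]
  linarith [a.norm_coe_le_norm u, a.norm_coe_le_norm v]

lemma dl_tendsto {ι : Type} {F : Filter ι} {u v : ι → Ultrafilter ℕ} {z : Ultrafilter ℕ}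
    (hu : Tendsto u F (𝓝 z)) (hv : Tendsto v F (𝓝 z)) (a : CB) :
    Tendsto (fun k => (dl (u k) - dl (v k)) a) F (𝓝 0) := by
  have h := ((a.continuous.tendsto z).comp hu).sub ((a.continuous.tendsto z).comp hv)
  rw [sub_self] at h
  exact h

/-- the idempotent of a set -/
noncomputable def ee (S : Set ℕ) : CB :=
  (LocallyConstant.charFn ℂ (U := {u : Ultrafilter ℕ | S ∈ u})
    ⟨ultrafilter_isClosed_basic S, ultrafilter_isOpen_basic S⟩).toContinuousMap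

lemma ee_mem {S : Set ℕ} {u : Ultrafilter ℕ} (h : S ∈ u) : ee S u = 1 :=
  indicator_of_mem (s := {u : Ultrafilter ℕ | S ∈ u}) h _

lemma ee_notMem {S : Set ℕ} {u : Ultrafilter ℕ} (h : S ∉ u) : ee S u = 0 :=
  indicator_of_notMem (s := {u : Ultrafilter ℕ | S ∈ u}) h _

lemma norm_ee_le (S : Set ℕ) : ‖ee S‖ ≤ 1 :=
  (ContinuousMap.norm_le _ zero_le_one).2 (fun u => by
    by_cases h : S ∈ u
    · rw [ee_mem h, norm_one]
    · rw [ee_notMem h, norm_zero]; exact zero_le_one)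

lemma ee_mul {S S' : Set ℕ} (h : S ⊆ S') : ee S * ee S' = ee S := by
  ext u
  rw [ContinuousMap.mul_apply]
  by_cases h1 : S ∈ u
  · rw [ee_mem (mem_of_superset h1 h), mul_one]
  · rw [ee_notMem h1, zero_mul]

lemma norm_sum_ee {ι : Type} [Fintype ι] (S : Set ℕ) (S' : ι → Set ℕ) (h1 : ∀ k, S ⊆ S' k)
    (h2 : ∀ k k', k ≠ k' → S' k ∩ S' k' ⊆ S) (r : ι → ℂ) (hr : ∀ k, ‖r k‖ ≤ 1) :
    ‖∑ k, r k • (ee (S' k) - ee S)‖ ≤ 1 :=
  (ContinuousMap.norm_le _ zero_le_one).2 (fun u => by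
    rw [ContinuousMap.sum_apply]
    simp only [ContinuousMap.smul_apply, ContinuousMap.sub_apply]
    by_cases h : S ∈ u
    · simp [ee_mem h, fun k => ee_mem (mem_of_superset h (h1 k))]
    · by_cases h3 : ∃ k, S' k ∈ u
      · obtain ⟨k, hk⟩ := h3
        rw [Finset.sum_eq_single k (fun k' _ hk' => by
          rw [ee_notMem h, ee_notMem (fun h4 => h (mem_of_superset (inter_mem h4 hk)
            (h2 k' k hk'))), sub_self, smul_zero]) (by simp), ee_mem hk, ee_notMem h]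
        simpa using hr k
      · push Not at h3
        simp [ee_notMem h, fun k => ee_notMem (h3 k)])

lemma exists_basic {p : Ultrafilter ℕ} {B : Ultrafilter ℕ → Prop} (h : ∀ᶠ u in 𝓝 p, B u) :
    ∃ S ∈ p, ∀ u : Ultrafilter ℕ, S ∈ u → B u := by
  obtain ⟨_, ⟨S, rfl⟩, h1, h2⟩ := ultrafilterBasis_is_basis.mem_nhds_iff.1 h
  exact ⟨S, h1, h2⟩

end Pool.Agent.H570Z.BN
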