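import Mathlib
import Pool.Agent.H570Z.Tn

/-!
An abstract criterion for the trivial one-dimensional module to have infinite homological
dimension.
-/

set_option autoImplicit false
set_option maxSynthPendingDepth 3
set_option linter.unusedSectionVars false

namespace Pool.Agent.H570Z

open Filter Topology ContinuousLinearMap Pool.Agent.Helper832.GD

variable {A : Type} [NonUnitalNormedRing A] [NormedSpace ℂ A] [IsScalarTower ℂ A A]
  [SMulCommClass ℂ A A] [CompleteSpace A]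

lemma zero_mul_hom : ∀ a b : A, (0 : A →L[ℂ] ℂ) (a * b) = (0 : A →L[ℂ] ℂ) a * (0 : A →L[ℂ] ℂ) b :=
  fun _ _ => by simp

/-- the modules for the zero functional -/
noncomputable abbrev X0 (A : Type) [NonUnitalNormedRing A] [NormedSpace ℂ A] [IsScalarTower ℂ A A]
  [SMulCommClass ℂ A A] [CompleteSpace A] (n : ℕ) : Bim A PUnit := XX (0 : A →L[ℂ] ℂ) zero_mul_hom n

variable (g : A)

/-- `Lam D (a 0 ⊗ ⋯ ⊗ a (n-1)) = D 0 (a 0) * ⋯ * D (n-1) (a (n-1)) * g` -/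
noncomputable def Lam : (n : ℕ) → (ℕ → (A →L[ℂ] A)) → ((X0 A n).carrier →L[ℂ] A)
  | 0, _ => (sc 0 zero_mul_hom).smulRight g
  | n + 1, D => li 0 zero_mul_hom n
      (((compL ℂ (X0 A n).carrier A A).flip (Lam n (tl D))).comp
        ((ContinuousLinearMap.mul ℂ A).comp (D 0)))

lemma Lam_zero (D : ℕ → (A →L[ℂ] A)) (z : (X0 A 0).carrier) :
    Lam g 0 D z = sc 0 zero_mul_hom z • g := rfl

lemma Lam_tn (n : ℕ) (D : ℕ → (A →L[ℂ] A)) (a : A) (y : (X0 A n).carrier) :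
    Lam g (n + 1) D (tn 0 zero_mul_hom n a y) = D 0 a * Lam g n (tl D) y := by
  show li 0 zero_mul_hom n _ (tn 0 zero_mul_hom n a y) = _
  rw [li_tn]
  rfl

/-- operators of norm at most two -/
def Ok (D : ℕ → (A →L[ℂ] A)) : Prop := ∀ i a, ‖D i a‖ ≤ 2 * ‖a‖

lemma Ok.tl {D : ℕ → (A →L[ℂ] A)} (h : Ok D) : Ok (tl D) := fun i => h (i + 1)

lemma Ok.cons {D : ℕ → (A →L[ℂ] A)} (h : Ok D) {P : A →L[ℂ] A} (hP : ∀ a, ‖P a‖ ≤ 2 * ‖a‖) :
    Ok (cons P D)
  | 0 => hP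
  | i + 1 => h i

lemma norm_Lam_le : ∀ (n : ℕ) (D : ℕ → (A →L[ℂ] A)), Ok D → ∀ y,
    ‖Lam g n D y‖ ≤ 2 ^ n * ‖g‖ * ‖y‖
  | 0, D, _, y => by
    rw [Lam_zero, norm_smul, norm_sc, pow_zero, one_mul, mul_comm]
  | n + 1, D, h, y => by
    refine xx_norm_le 0 zero_mul_hom (Lam g (n + 1) D) (by positivity) (fun a x => ?_) y
    have e := Lam_tn g n D a x
    have h1 := norm_Lam_le n (tl D) h.tl x
    calc ‖Lam g (n + 1) D (tn 0 zero_mul_hom n a x)‖ = ‖D 0 a * Lam g n (tl D) x‖ := by rw [e]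
      _ ≤ (2 * ‖a‖) * (2 ^ n * ‖g‖ * ‖x‖) :=
        (norm_mul_le _ _).trans (mul_le_mul (h 0 a) h1 (norm_nonneg _) (by positivity))
      _ = _ := by ring

lemma Lam_add : ∀ (n p : ℕ), p < n → ∀ (D D' D'' : ℕ → (A →L[ℂ] A)),
    (∀ i, i ≠ p → D' i = D i) → (∀ i, i ≠ p → D'' i = D i) → D' p = D p + D'' p →
    Lam g n D' = Lam g n D + Lam g n D''
  | 0, _, hp, _, _, _, _, _, _ => absurd hp (Nat.not_lt_zero _)
  | n + 1, 0, _, D, D', D'', h1, h2, h3 => by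
    have e1 : tl D' = tl D := funext (fun i => h1 (i + 1) (by omega))
    have e2 : tl D'' = tl D := funext (fun i => h2 (i + 1) (by omega))
    refine xx_ext 0 zero_mul_hom (fun a y => ?_)
    rw [add_apply, Lam_tn, Lam_tn, Lam_tn, e1, e2, h3, add_apply, add_mul]
  | n + 1, p + 1, hp, D, D', D'', h1, h2, h3 => by
    refine xx_ext 0 zero_mul_hom (fun a y => ?_)
    rw [add_apply, Lam_tn, Lam_tn, Lam_tn, h1 0 (by omega), h2 0 (by omega),
      Lam_add n p (by omega) (tl D) (tl D') (tl D'') (fun i hi => h1 (i + 1) (by omega))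
        (fun i hi => h2 (i + 1) (by omega)) h3, add_apply, mul_add]

lemma sum_Lam {ι : Type} (s : Finset ι) : ∀ (n p : ℕ), p < n → ∀ (D : ι → ℕ → (A →L[ℂ] A)),
    (∀ k, Ok (D k)) → (∀ a, ∑ k ∈ s, ‖D k p a‖ ≤ 2 * ‖a‖) →
    ∀ y, ∑ k ∈ s, ‖Lam g n (D k) y‖ ≤ 2 ^ n * ‖g‖ * ‖y‖
  | 0, _, hp, _, _, _, _ => absurd hp (Nat.not_lt_zero _)
  | n + 1, 0, _, D, h1, h2, y => by
    refine xx_sum_le 0 zero_mul_hom s (fun k => Lam g (n + 1) (D k)) (by positivity) (fun a x => ?_) y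
    calc ∑ k ∈ s, ‖Lam g (n + 1) (D k) (tn 0 zero_mul_hom n a x)‖
        ≤ ∑ k ∈ s, ‖D k 0 a‖ * (2 ^ n * ‖g‖ * ‖x‖) := by
          refine Finset.sum_le_sum (fun k _ => ?_)
          rw [Lam_tn]
          exact (norm_mul_le _ _).trans (mul_le_mul_of_nonneg_left
            (norm_Lam_le g n _ (h1 k).tl x) (norm_nonneg _))
      _ ≤ (2 * ‖a‖) * (2 ^ n * ‖g‖ * ‖x‖) := by
          rw [← Finset.sum_mul]
          exact mul_le_mul_of_nonneg_right (h2 a) (by positivity)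
      _ = _ := by ring
  | n + 1, p + 1, hp, D, h1, h2, y => by
    refine xx_sum_le 0 zero_mul_hom s (fun k => Lam g (n + 1) (D k)) (by positivity) (fun a x => ?_) y
    calc ∑ k ∈ s, ‖Lam g (n + 1) (D k) (tn 0 zero_mul_hom n a x)‖
        ≤ ∑ k ∈ s, (2 * ‖a‖) * ‖Lam g n (tl (D k)) x‖ := by
          refine Finset.sum_le_sum (fun k _ => ?_)
          rw [Lam_tn]
          exact (norm_mul_le _ _).trans (mul_le_mul_of_nonneg_right (h1 k 0 a) (norm_nonneg _))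
      _ ≤ (2 * ‖a‖) * (2 ^ n * ‖g‖ * ‖x‖) := by
          rw [← Finset.mul_sum]
          exact mul_le_mul_of_nonneg_left (sum_Lam s n p (by omega) (fun k => tl (D k))
            (fun k => (h1 k).tl) h2 x) (by positivity)
      _ = _ := by ring

lemma tail_Lam (θ : ℕ → (A →L[ℂ] A)) (hθ : ∀ a, Tendsto (fun k => θ k a) atTop (𝓝 0)) :
    ∀ (n p : ℕ), p < n → ∀ y, ∀ ε > 0,
      ∀ᶠ β in atTop, ∀ D, Ok D → D p = θ β → ‖Lam g n D y‖ ≤ ε
  | 0, _, hp, _ => absurd hp (Nat.not_lt_zero _)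
  | n + 1, p, hp, y => by
    intro ε hε
    have key := xx_unif 0 zero_mul_hom atTop
      (fun β => {f | ∃ D, Ok D ∧ D p = θ β ∧ f = Lam g (n + 1) D}) (2 ^ (n + 1) * ‖g‖)
      (by positivity) (by
        rintro β f ⟨D, h1, -, rfl⟩ t
        exact norm_Lam_le g (n + 1) D h1 t) (by
        intro a x δ hδ
        cases p with
        | zero =>
          have h1 : Tendsto (fun k => ‖θ k a‖ * (2 ^ n * ‖g‖ * ‖x‖)) atTop (𝓝 0) := by
            simpa using (hθ a).norm.mul_const (2 ^ n * ‖g‖ * ‖x‖)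
          filter_upwards [h1.eventually (ge_mem_nhds hδ)] with β hβ
          rintro f ⟨D, h2, h3, rfl⟩
          have e := Lam_tn g n D a x
          calc ‖Lam g (n + 1) D (tn 0 zero_mul_hom n a x)‖ = ‖θ β a * Lam g n (tl D) x‖ := by
                rw [e, h3]
            _ ≤ ‖θ β a‖ * (2 ^ n * ‖g‖ * ‖x‖) := (norm_mul_le _ _).trans
                (mul_le_mul_of_nonneg_left (norm_Lam_le g n _ h2.tl x) (norm_nonneg _))
            _ ≤ δ := hβ
        | succ p =>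
          filter_upwards [tail_Lam θ hθ n p (by omega) x (δ / (2 * ‖a‖ + 1)) (by positivity)]
            with β hβ
          rintro f ⟨D, h2, h3, rfl⟩
          have e := Lam_tn g n D a x
          have h4 := hβ (tl D) h2.tl h3
          rw [le_div_iff₀ (by positivity)] at h4
          calc ‖Lam g (n + 1) D (tn 0 zero_mul_hom n a x)‖ = ‖D 0 a * Lam g n (tl D) x‖ := by
                rw [e]
            _ ≤ (2 * ‖a‖) * ‖Lam g n (tl D) x‖ := (norm_mul_le _ _).trans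
                (mul_le_mul_of_nonneg_right (h2 0 a) (norm_nonneg _))
            _ ≤ δ := by nlinarith [norm_nonneg (Lam g n (tl D) x)]) y ε hε
    filter_upwards [key] with β hβ D h1 h2
    exact hβ _ ⟨D, h1, h2, rfl⟩

lemma Lam_adj : ∀ (n : ℕ) (τ D : ℕ → (A →L[ℂ] A)), (∀ i a b, τ i (a * b) = τ i a * τ i b) →
    τ n = 0 → (∀ i, D i = τ i - τ (i + 1)) → ∀ a x,
    Lam g n D ((X0 A n).left a x) = τ 0 a * Lam g n D x
  | 0, τ, D, _, h2, _, a, x => by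
    rw [Lam_zero, sc_left, h2]
    simp
  | n + 1, τ, D, h1, h2, h3, a, x => by
    have : (Lam g (n + 1) D).comp ((X0 A (n + 1)).left a)
        = (ContinuousLinearMap.mul ℂ A (τ 0 a)).comp (Lam g (n + 1) D) := by
      refine xx_ext 0 zero_mul_hom (fun b y => ?_)
      rw [comp_apply, comp_apply, left_tn, map_sub, Lam_tn, Lam_tn, Lam_tn,
        Lam_adj n (tl τ) (tl D) (fun i => h1 (i + 1)) h2 (fun i => h3 (i + 1)), h3 0,
        mul_apply', sub_apply, sub_apply, sub_apply, h1, h1, tl_apply]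
      simp only [sub_mul, mul_sub, mul_assoc]
      abel
    exact congrArg (fun f : (X0 A (n + 1)).carrier →L[ℂ] A => f x) this

lemma Lam_el : ∀ (n : ℕ) (D : ℕ → (A →L[ℂ] A)) (l : ℕ → A) (δ : ℝ), 0 ≤ δ →
    (∀ i < n, ‖D i (l i)‖ ≤ 2 ∧ ‖D i (l i) * g - g‖ ≤ δ) →
    ‖Lam g n D (el 0 zero_mul_hom n l) - g‖ ≤ (2 ^ n - 1) * δ
  | 0, D, l, δ, _, _ => by
    rw [Lam_zero, sc_el]
    simp
  | n + 1, D, l, δ, hδ, h => by
    rw [el_succ, Lam_tn]
    have h1 := Lam_el n (tl D) (tl l) δ hδ (fun i hi => h (i + 1) (by omega))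
    have h2 := h 0 (by omega)
    have e : D 0 (l 0) * Lam g n (tl D) (el 0 zero_mul_hom n (tl l)) - g
        = D 0 (l 0) * (Lam g n (tl D) (el 0 zero_mul_hom n (tl l)) - g) + (D 0 (l 0) * g - g) := by
      rw [mul_sub]; abel
    rw [e]
    refine (norm_add_le _ _).trans ?_
    have h3 := (norm_mul_le (D 0 (l 0)) _).trans
      (mul_le_mul h2.1 h1 (norm_nonneg _) (by norm_num))
    rw [pow_succ]
    nlinarith [h2.2]

variable {n : ℕ} (T : (X0 A n).carrier →L[ℂ] (X0 A (n + 1)).carrier)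

/-- the functional on the next module -/
noncomputable def Gam (n : ℕ) (P : A →L[ℂ] A) (D : ℕ → (A →L[ℂ] A)) :
    (X0 A (n + 1)).carrier →L[ℂ] A :=
  Lam g (n + 1) (cons P D) - (Lam g n D).comp (bd 0 zero_mul_hom n)

lemma Gam_tn (P : A →L[ℂ] A) (D : ℕ → (A →L[ℂ] A)) (a : A) (x : (X0 A n).carrier) :
    Gam g n P D (tn 0 zero_mul_hom n a x) = P a * Lam g n D x - Lam g n D ((X0 A n).left a x) := by
  unfold Gam
  rw [sub_apply, comp_apply, Lam_tn, bd_tn]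
  rfl

lemma Gam_left (P : A →L[ℂ] A) (hP : ∀ a b, P (a * b) = P a * P b) (D : ℕ → (A →L[ℂ] A))
    (b : A) (y : (X0 A (n + 1)).carrier) :
    Gam g n P D ((X0 A (n + 1)).left b y) = P b * Gam g n P D y := by
  have : (Gam g n P D).comp ((X0 A (n + 1)).left b)
      = (ContinuousLinearMap.mul ℂ A (P b)).comp (Gam g n P D) := by
    refine xx_ext 0 zero_mul_hom (fun a x => ?_)
    rw [comp_apply, comp_apply, left_tn, map_sub, Gam_tn, Gam_tn, Gam_tn, mul_apply', hP,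
      (X0 A n).left_mul, mul_sub, mul_assoc]
    abel
  exact congrArg (fun f : (X0 A (n + 1)).carrier →L[ℂ] A => f y) this

/-- the corrected functional -/
noncomputable def Om (P : A →L[ℂ] A) (D : ℕ → (A →L[ℂ] A)) : (X0 A n).carrier →L[ℂ] A :=
  Lam g n D - (Gam g n P D).comp T

lemma Om_apply (P : A →L[ℂ] A) (D : ℕ → (A →L[ℂ] A)) (x : (X0 A n).carrier) :
    Om g T P D x = Lam g n D x - (Lam g (n + 1) (cons P D) (T x)
      - Lam g n D (bd 0 zero_mul_hom n (T x))) := rfl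

lemma Om_left (hT : ∀ a x, tn 0 zero_mul_hom n a x
      = (X0 A (n + 1)).left a (T x) - T ((X0 A n).left a x))
    (P : A →L[ℂ] A) (hP : ∀ a b, P (a * b) = P a * P b) (D : ℕ → (A →L[ℂ] A))
    (a : A) (x : (X0 A n).carrier) :
    Om g T P D ((X0 A n).left a x) = P a * Om g T P D x := by
  have h := congrArg (Gam g n P D) (hT a x)
  rw [Gam_tn, map_sub, Gam_left g P hP] at h
  unfold Om
  rw [sub_apply, sub_apply, comp_apply, comp_apply, mul_sub]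
  rw [sub_eq_sub_iff_sub_eq_sub] at h
  exact h.symm

lemma Om_adj (τ D : ℕ → (A →L[ℂ] A)) (h1 : ∀ i a b, τ i (a * b) = τ i a * τ i b)
    (h2 : τ n = 0) (h3 : ∀ i, D i = τ i - τ (i + 1)) : Om g T (τ 0) D = Lam g n D := by
  have : Gam g n (τ 0) D = 0 := xx_ext 0 zero_mul_hom (fun a x => by
    rw [Gam_tn, Lam_adj g n τ D h1 h2 h3, sub_self, zero_apply])
  unfold Om
  rw [this, zero_comp, sub_zero]

lemma Om_add {p : ℕ} (hp : p < n) (P : A →L[ℂ] A) (D D' D'' : ℕ → (A →L[ℂ] A))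
    (h1 : ∀ i, i ≠ p → D' i = D i) (h2 : ∀ i, i ≠ p → D'' i = D i) (h3 : D' p = D p + D'' p)
    (x : (X0 A n).carrier) : Om g T P D' x = Om g T P D x + Om g T P D'' x := by
  rw [Om_apply, Om_apply, Om_apply, Lam_add g n p hp D D' D'' h1 h2 h3,
    Lam_add g (n + 1) (p + 1) (by omega) (cons P D) (cons P D') (cons P D'')
      (fun i hi => by cases i with
        | zero => rfl
        | succ i => exact h1 i (by omega))
      (fun i hi => by cases i with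
        | zero => rfl
        | succ i => exact h2 i (by omega)) h3]
  simp only [add_apply]
  abel

/-- the constant -/
noncomputable def MM : ℝ :=
  2 ^ n * ‖g‖ + 2 ^ (n + 1) * ‖g‖ * ‖T‖ + 2 ^ n * ‖g‖ * (‖bd (0 : A →L[ℂ] ℂ) zero_mul_hom n‖ * ‖T‖)

lemma MM_nonneg : 0 ≤ MM g T := by unfold MM; positivity

lemma MM_bound (x : (X0 A n).carrier) :
    2 ^ n * ‖g‖ * ‖x‖ + (2 ^ (n + 1) * ‖g‖ * ‖T x‖
      + 2 ^ n * ‖g‖ * ‖bd 0 zero_mul_hom n (T x)‖) ≤ MM g T * ‖x‖ := by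
  have h1 := T.le_opNorm x
  have h2 : ‖bd 0 zero_mul_hom n (T x)‖ ≤ ‖bd (0 : A →L[ℂ] ℂ) zero_mul_hom n‖ * (‖T‖ * ‖x‖) :=
    ((bd 0 zero_mul_hom n).le_opNorm _).trans (mul_le_mul_of_nonneg_left h1 (norm_nonneg _))
  have h3 := mul_le_mul_of_nonneg_left h1 (show (0:ℝ) ≤ 2 ^ (n + 1) * ‖g‖ by positivity)
  have h4 := mul_le_mul_of_nonneg_left h2 (show (0:ℝ) ≤ 2 ^ n * ‖g‖ by positivity)
  unfold MM
  nlinarith

lemma norm_Om_le_aux (P : A →L[ℂ] A) (D : ℕ → (A →L[ℂ] A)) (x : (X0 A n).carrier) :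
    ‖Om g T P D x‖ ≤ ‖Lam g n D x‖ + (‖Lam g (n + 1) (cons P D) (T x)‖
      + ‖Lam g n D (bd 0 zero_mul_hom n (T x))‖) := by
  rw [Om_apply]
  exact (norm_sub_le _ _).trans (add_le_add le_rfl (norm_sub_le _ _))

lemma norm_Om_le (P : A →L[ℂ] A) (hP : ∀ a, ‖P a‖ ≤ 2 * ‖a‖) (D : ℕ → (A →L[ℂ] A)) (hD : Ok D)
    (x : (X0 A n).carrier) : ‖Om g T P D x‖ ≤ MM g T * ‖x‖ :=
  (norm_Om_le_aux g T P D x).trans (le_trans (add_le_add (norm_Lam_le g n D hD x)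
    (add_le_add (norm_Lam_le g (n + 1) _ (hD.cons hP) _) (norm_Lam_le g n D hD _)))
    (MM_bound g T x))

lemma sum_Om {ι : Type} (s : Finset ι) {p : ℕ} (hp : p < n) (P : ι → (A →L[ℂ] A))
    (hP : ∀ k a, ‖P k a‖ ≤ 2 * ‖a‖) (D : ι → ℕ → (A →L[ℂ] A))
    (h1 : ∀ k, Ok (D k)) (h2 : ∀ a, ∑ k ∈ s, ‖D k p a‖ ≤ 2 * ‖a‖) (x : (X0 A n).carrier) :
    ∑ k ∈ s, ‖Om g T (P k) (D k) x‖ ≤ MM g T * ‖x‖ := by
  refine (Finset.sum_le_sum (fun k _ => norm_Om_le_aux g T (P k) (D k) x)).trans ?_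
  rw [Finset.sum_add_distrib, Finset.sum_add_distrib]
  exact le_trans (add_le_add (sum_Lam g s n p hp D h1 h2 x)
    (add_le_add (sum_Lam g s (n + 1) (p + 1) (by omega) (fun k => cons (P k) (D k))
      (fun k => (h1 k).cons (hP k)) h2 _) (sum_Lam g s n p hp D h1 h2 _))) (MM_bound g T x)

lemma tail_Om (θ : ℕ → (A →L[ℂ] A)) (hθ : ∀ a, Tendsto (fun k => θ k a) atTop (𝓝 0))
    {p : ℕ} (hp : p < n) (x : (X0 A n).carrier) (ε : ℝ) (hε : 0 < ε) :
    ∀ᶠ β in atTop, ∀ P : A →L[ℂ] A, (∀ a, ‖P a‖ ≤ 2 * ‖a‖) → ∀ D, Ok D → D p = θ β →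
      ‖Om g T P D x‖ ≤ ε := by
  filter_upwards [tail_Lam g θ hθ n p hp x (ε / 3) (by positivity),
    tail_Lam g θ hθ (n + 1) (p + 1) (by omega) (T x) (ε / 3) (by positivity),
    tail_Lam g θ hθ n p hp (bd 0 zero_mul_hom n (T x)) (ε / 3) (by positivity)]
    with β h1 h2 h3 P hP D hD hDp
  have h4 := norm_Om_le_aux g T P D x
  have h5 := h2 (cons P D) (hD.cons hP) hDp
  linarith [h1 D hD hDp, h3 D hD hDp]

end Pool.Agent.H570Z
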