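import Mathlib
import Pool.Agent.H570Z.VolA

/-!
The abstract criterion: the main argument.
-/

set_option autoImplicit false
set_option maxSynthPendingDepth 3
set_option linter.unusedSectionVars false

namespace Pool.Agent.H570Z

open Filter Topology ContinuousLinearMap Pool.Agent.Helper832.GD

variable {A : Type} [NonUnitalNormedRing A] [NormedSpace ℂ A] [IsScalarTower ℂ A A]
  [SMulCommClass ℂ A A] [CompleteSpace A]

lemma chain_sum (φ : ℕ → ℝ) (hφ : Antitone φ) (b : ℕ → ℕ × ℕ)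
    (hb : ∀ k, (b k).1 ≤ (b k).2 ∧ (b k).2 ≤ (b (k + 1)).1) (L : ℕ) :
    ∑ k ∈ Finset.range L, (φ (b k).1 - φ (b k).2) ≤ φ (b 0).1 - φ (b L).1 := by
  induction L with
  | zero => simp
  | succ L ih =>
    rw [Finset.sum_range_succ]
    linarith [hφ (hb L).2]

lemma hasResolution_mono {X : LMod A} {n m : ℕ} (h : X.HasResolution n) (hnm : n ≤ m) :
    X.HasResolution m := by
  obtain ⟨R, hR, hR', hn⟩ := h
  exact ⟨R, hR, hR', fun i hi => hn i (by omega)⟩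

theorem not_hasResolution (θ : ℕ → (A →L[ℂ] A)) (hmul : ∀ k a b, θ k (a * b) = θ k a * θ k b)
    (hle : ∀ k a, ‖θ k a‖ ≤ ‖a‖)
    (hvar : ∀ a m m', m ≤ m' → ‖θ m a - θ m' a‖ ≤ ‖θ m a‖ - ‖θ m' a‖)
    (hθ : ∀ a, Tendsto (fun k => θ k a) atTop (𝓝 0))
    (e : ℕ → A) (he : ∀ j, ‖e j‖ ≤ 1)
    (he1 : ∀ k, Tendsto (fun j => θ k (e j) - e j) atTop (𝓝 0))
    (he2 : ∀ i, Tendsto (fun j => e i * e j) atTop (𝓝 (e i)))
    (g : A) (hg : g ≠ 0) (he3 : Tendsto (fun j => e j * g) atTop (𝓝 g)) (n0 : ℕ) :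
    ¬ (oneMod (0 : A →L[ℂ] ℂ) zero_mul_hom).HasResolution n0 := by
  intro h0
  obtain ⟨T, hT⟩ := exists_T 0 zero_mul_hom (hasResolution_mono h0 (Nat.le_succ n0))
  set n := n0 + 1 with hn
  have hM := MM_nonneg g T
  set M := MM g T with hMdef
  have hgpos : 0 < ‖g‖ := norm_pos_iff.2 hg
  -- the small number
  set K : ℝ := 2 ^ (n + 1) * (2 * ‖g‖ + 1) + 1 + n * (1 + M) with hK
  have hKpos : 0 < K := by positivity
  set ε : ℝ := ‖g‖ / (2 * K) with hε
  have hεpos : 0 < ε := by positivity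
  obtain ⟨L, hL⟩ := exists_nat_gt (M / ε)
  let V : Ultrafilter ℕ := hyperfilter ℕ
  have hVle : (V : Filter ℕ) ≤ atTop := Nat.hyperfilter_le_atTop
  have hV : ∀ x : ℕ, ∀ᶠ y in (V : Filter ℕ), x ≤ y := fun x => hVle (eventually_ge_atTop x)
  let Big : ℕ → (ℕ → ℕ) → ℕ → ℕ → Prop := fun p l β β' =>
    ∃ P : A →L[ℂ] A, (∀ a, ‖P a‖ ≤ 2 * ‖a‖) ∧ ∃ D, Ok D ∧ D p = θ β - θ β' ∧
      ε < ‖Om g T P D (el 0 zero_mul_hom n (e ∘ l))‖
  let BigL : (ℕ → ℕ) → ℕ → Prop := fun l β =>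
    ∃ P : A →L[ℂ] A, (∀ a, ‖P a‖ ≤ 2 * ‖a‖) ∧ ∃ D, Ok D ∧ D n0 = θ β ∧
      ε < ‖Om g T P D (el 0 zero_mul_hom n (e ∘ l))‖
  have hBig : ∀ p < n, ∀ (l : ℕ → ℕ) (b : ℕ → ℕ × ℕ),
      (∀ k, (b k).1 ≤ (b k).2 ∧ (b k).2 ≤ (b (k + 1)).1) →
      ¬ ∀ k < L, Big p l (b k).1 (b k).2 := by
    intro p hp l b hb hc
    have hc' : ∀ k : Fin L, Big p l (b k).1 (b k).2 := fun k => hc k k.2
    choose P hP D hD hDp hlt using hc'
    have h1 := sum_Om g T Finset.univ hp P hP D hD (fun a => by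
      have hanti : Antitone (fun m => ‖θ m a‖) := fun m m' h => by
        have := hvar a m m' h
        linarith [norm_nonneg (θ m a - θ m' a)]
      have h2 := chain_sum (fun m => ‖θ m a‖) hanti b hb L
      have h3 : ∑ k : Fin L, ‖D k p a‖
          ≤ ∑ k : Fin L, (‖θ (b k).1 a‖ - ‖θ (b k).2 a‖) := Finset.sum_le_sum (fun k _ => by
        rw [hDp k, sub_apply]
        exact hvar a _ _ (hb k).1)
      rw [Fin.sum_univ_eq_sum_range (fun k => ‖θ (b k).1 a‖ - ‖θ (b k).2 a‖) L] at h3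
      linarith [hle (b 0).1 a, norm_nonneg (θ (b L).1 a), norm_nonneg a])
      (el 0 zero_mul_hom n (e ∘ l))
    have h4 : ∑ _k : Fin L, ε ≤ ∑ k : Fin L, ‖Om g T (P k) (D k) (el 0 zero_mul_hom n (e ∘ l))‖ :=
      Finset.sum_le_sum (fun k _ => (hlt k).le)
    rw [Finset.sum_const, Finset.card_univ, Fintype.card_fin, nsmul_eq_mul] at h4
    have h5 := norm_el_le 0 zero_mul_hom n (e ∘ l) (fun i => he _)
    rw [div_lt_iff₀ hεpos] at hL
    nlinarith
  have hBigL : ∀ l, ∀ᶠ x in (V : Filter ℕ), ¬ BigL l x := by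
    intro l
    filter_upwards [hVle (tail_Om g T θ hθ (Nat.lt_succ_self n0)
      (el 0 zero_mul_hom n (e ∘ l)) ε hεpos)] with β hβ
    rintro ⟨P, hP, D, hD, hDp, hlt⟩
    exact absurd (hβ P hP D hD hDp) (not_le.2 hlt)
  let F : Filter (ℕ → ℕ × ℕ) := (Pw (U2 V V) (0, 0) (n + 1) : Filter (ℕ → ℕ × ℕ))
  have E0 : ∀ᶠ s in F, ¬ Big 0 (del 0 (Prod.snd ∘ s)) (s 0).1 (s (0 + 1)).1 :=
    win V hV V (0, 0) L 0 (n + 1) (by omega) (Big 0) (hBig 0 (by omega))
  have E1 : ∀ᶠ s in F, ∀ j ∈ Finset.range n0,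
      ¬ Big j (del (j + 1) (Prod.snd ∘ s)) (s (j + 1)).1 (s (j + 1 + 1)).1 :=
    (Finset.eventually_all _).2 (fun j hj => win V hV V (0, 0) L (j + 1) (n + 1)
      (by have := Finset.mem_range.1 hj; omega) (Big j)
      (hBig j (by have := Finset.mem_range.1 hj; omega)))
  have E2 : ∀ᶠ s in F, ¬ BigL (del n (Prod.snd ∘ s)) (s n).1 := win_last V V (0, 0) n BigL hBigL
  have small : ∀ {f : ℕ → A} {c : A}, Tendsto f atTop (𝓝 c) →
      ∀ᶠ j in (V : Filter ℕ), ‖f j - c‖ ≤ ε := by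
    intro f c hf
    have := (tendsto_iff_norm_sub_tendsto_zero.1 hf).eventually (ge_mem_nhds hεpos)
    exact hVle this
  have E3 : ∀ᶠ s in F, ∀ i ∈ Finset.range (n + 1), ‖θ (s i).1 (e (s i).2) - e (s i).2‖ ≤ ε :=
    (Finset.eventually_all _).2 (fun i hi => ev_one (U2 V V) (0, 0)
      (R := fun p => ‖θ p.1 (e p.2) - e p.2‖ ≤ ε) (by
        rw [ev_U2]
        refine Eventually.of_forall (fun x => ?_)
        simpa using small (he1 x)) i (n + 1) (Finset.mem_range.1 hi))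
  have E4 : ∀ᶠ s in F, ‖θ (s 0).1 (e (s 1).2) - e (s 1).2‖ ≤ ε :=
    ev_two (U2 V V) (0, 0) (R := fun p q => ‖θ p.1 (e q.2) - e q.2‖ ≤ ε) (fun p => by
      rw [ev_U2]
      refine Eventually.of_forall (fun x => ?_)
      simpa using small (he1 p.1)) 0 1 (n + 1) (by omega) (by omega)
  have E5 : ∀ᶠ s in F, ∀ i ∈ Finset.range n, ‖θ (s (i + 1)).1 (e (s i).2)‖ ≤ ε :=
    (Finset.eventually_all _).2 (fun i hi => ev_two (U2 V V) (0, 0)
      (R := fun p q => ‖θ q.1 (e p.2)‖ ≤ ε) (fun p => by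
        rw [ev_U2]
        filter_upwards [small (hθ (e p.2))] with x hx
        refine Eventually.of_forall (fun y => ?_)
        simpa using hx) i (i + 1) (n + 1) (by omega) (by have := Finset.mem_range.1 hi; omega))
  have E6 : ∀ᶠ s in F, ∀ i ∈ Finset.range (n + 1), ‖e (s i).2 * g - g‖ ≤ ε :=
    (Finset.eventually_all _).2 (fun i hi => ev_one (U2 V V) (0, 0)
      (R := fun p => ‖e p.2 * g - g‖ ≤ ε) (by
        rw [ev_U2]
        exact Eventually.of_forall (fun x => small he3)) i (n + 1) (Finset.mem_range.1 hi))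
  have E7 : ∀ᶠ s in F, ∀ i ∈ Finset.range n, ‖e (s i).2 * e (s (i + 1)).2 - e (s i).2‖ ≤ ε :=
    (Finset.eventually_all _).2 (fun i hi => ev_two (U2 V V) (0, 0)
      (R := fun p q => ‖e p.2 * e q.2 - e p.2‖ ≤ ε) (fun p => by
        rw [ev_U2]
        exact Eventually.of_forall (fun x => small (he2 p.2))) i (i + 1) (n + 1) (by omega)
        (by have := Finset.mem_range.1 hi; omega))
  obtain ⟨s, ⟨⟨⟨h0', h1⟩, h2⟩, ⟨h3, h4⟩, h5⟩, h6, h7⟩ :=
    ((((E0.and E1).and E2).and ((E3.and E4).and E5)).and (E6.and E7)).exists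
  simp only [Finset.mem_range] at h1 h3 h5 h6 h7
  -- the data
  let a : ℕ → A := e ∘ (Prod.snd ∘ s)
  have ha : ∀ i, ‖a i‖ ≤ 1 := fun i => he _
  have hai : ∀ i, a i = e (s i).2 := fun i => rfl
  let ρ : ℕ → (A →L[ℂ] A) := fun i => if i ≤ n then θ (s i).1 else 0
  have hρ1 : ∀ i, i ≤ n → ρ i = θ (s i).1 := fun i hi => if_pos hi
  have hρ2 : ∀ i, n < i → ρ i = 0 := fun i hi => if_neg (by omega)
  have hρle : ∀ i x, ‖ρ i x‖ ≤ ‖x‖ := by
    intro i x
    by_cases hi : i ≤ n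
    · rw [hρ1 i hi]; exact hle _ _
    · rw [hρ2 i (by omega)]; simp
  have hρmul : ∀ i x y, ρ i (x * y) = ρ i x * ρ i y := by
    intro i x y
    by_cases hi : i ≤ n
    · rw [hρ1 i hi]; exact hmul _ _ _
    · rw [hρ2 i (by omega)]; simp
  have hsub : ∀ i j x, ‖(ρ i - ρ j) x‖ ≤ 2 * ‖x‖ := fun i j x => by
    rw [sub_apply]
    linarith [norm_sub_le (ρ i x) (ρ j x), hρle i x, hρle j x]
  have hρ0 : ∀ x, ‖ρ 0 x‖ ≤ 2 * ‖x‖ := fun x => by linarith [hρle 0 x, norm_nonneg x]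
  let D : ℕ → (A →L[ℂ] A) := fun i => ρ (i + 1) - ρ (i + 2)
  let τ : ℕ → (A →L[ℂ] A) := cons (ρ 0) (fun i => ρ (i + 2))
  let D' : ℕ → (A →L[ℂ] A) := fun i => τ i - τ (i + 1)
  let D'' : ℕ → (A →L[ℂ] A) := cons (ρ 0 - ρ 1) (tl D)
  have hD : Ok D := fun i => hsub _ _
  have hD'' : Ok D'' := Ok.cons hD.tl (hsub _ _)
  have hadj : Om g T (ρ 0) D' = Lam g n D' :=
    Om_adj g T τ D' (fun i => by
      cases i with
      | zero => exact hρmul 0
      | succ i => exact hρmul (i + 2)) (hρ2 (n0 + 2) (by omega)) (fun i => rfl)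
  have hadd := Om_add g T (p := 0) (by omega) (ρ 0) D D' D''
    (fun i hi => by cases i with
      | zero => exact absurd rfl hi
      | succ i => rfl)
    (fun i hi => by cases i with
      | zero => exact absurd rfl hi
      | succ i => rfl)
    (by
      show ρ 0 - ρ 2 = (ρ 1 - ρ 2) + (ρ 0 - ρ 1)
      abel) (el 0 zero_mul_hom n (tl a))
  rw [hadj] at hadd
  -- the face number zero
  have f0 : ‖Om g T (ρ 0) D'' (el 0 zero_mul_hom n (tl a))‖ ≤ ε := by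
    by_contra hc
    refine h0' ⟨ρ 0, hρ0, D'', hD'', ?_, not_le.1 hc⟩
    show ρ 0 - ρ 1 = _
    rw [hρ1 0 (by omega), hρ1 1 (by omega)]
  -- the other faces
  have f1 : ∀ j < n, ‖Om g T (ρ 0) D (el 0 zero_mul_hom n (del (j + 1) a))‖ ≤ ε := by
    intro j hj
    have e1 : del (j + 1) a = e ∘ del (j + 1) (Prod.snd ∘ s) := (comp_del e _ _).symm
    rw [e1]
    by_contra hc
    rcases Nat.lt_or_ge j n0 with hj' | hj'
    · refine h1 j hj' ⟨ρ 0, hρ0, D, hD, ?_, not_le.1 hc⟩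
      show ρ (j + 1) - ρ (j + 2) = _
      rw [hρ1 (j + 1) (by omega), hρ1 (j + 2) (by omega)]
    · have hj'' : j = n0 := by omega
      subst hj''
      refine h2 ⟨ρ 0, hρ0, D, hD, ?_, not_le.1 hc⟩
      show ρ (j + 1) - ρ (j + 2) = _
      rw [hρ1 (j + 1) (by omega), hρ2 (j + 2) (by omega), sub_zero]
  have f2 : ∀ j < n, ‖Om g T (ρ 0) D (el 0 zero_mul_hom n (mrg j a))‖ ≤ ε + M * ε := by
    intro j hj
    have hdel : ∀ i, ‖del (j + 1) a i‖ ≤ 1 := fun i => by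
      rcases Nat.lt_or_ge i (j + 1) with hi | hi
      · rw [del_lt _ _ _ hi]; exact ha _
      · rw [del_ge _ _ _ hi]; exact ha _
    have hmrg : ∀ i, ‖mrg j a i‖ ≤ 1 := fun i => by
      by_cases hi : i = j
      · rw [hi, mrg_eq]
        exact (norm_mul_le _ _).trans (mul_le_one₀ (ha _) (norm_nonneg _) (ha _))
      · rw [mrg_ne _ _ _ hi]; exact hdel i
    have h8 := norm_el_sub 0 zero_mul_hom n j (mrg j a) (del (j + 1) a) hmrg hdel
      (fun i hi => mrg_ne j a i hi)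
    rw [mrg_eq, del_lt _ _ _ (Nat.lt_succ_self j)] at h8
    have h9 := norm_Om_le g T (ρ 0) hρ0 D hD
      (el 0 zero_mul_hom n (mrg j a) - el 0 zero_mul_hom n (del (j + 1) a))
    have h10 := mul_le_mul_of_nonneg_left (h8.trans (h7 j hj)) hM
    rw [map_sub] at h9
    have h11 := norm_le_insert' (Om g T (ρ 0) D (el 0 zero_mul_hom n (mrg j a)))
      (Om g T (ρ 0) D (el 0 zero_mul_hom n (del (j + 1) a)))
    linarith [f1 j hj]
  have f3 : ‖ρ 0 (a 0) * Om g T (ρ 0) D (el 0 zero_mul_hom n (tl a))‖ ≤ n * (ε + M * ε) := by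
    rw [← Om_left g T hT (ρ 0) (hρmul 0), left_el, zero_apply, mul_zero, zero_smul, add_zero,
      map_sum]
    refine (norm_sum_le _ _).trans ?_
    refine (Finset.sum_le_sum (g := fun _ => ε + M * ε) (fun j hj => ?_)).trans ?_
    · rw [map_smul, norm_smul, norm_pow, norm_neg, norm_one, one_pow, one_mul]
      exact f2 j (Finset.mem_range.1 hj)
    · rw [Finset.sum_const, Finset.card_range, nsmul_eq_mul]
  -- the main term
  have aux : ∀ (c x : A), ‖c - x‖ ≤ 2 * ε → ‖x * g - g‖ ≤ ε → ‖c * g - g‖ ≤ (2 * ‖g‖ + 1) * ε := by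
    intro c x hc hx
    have e1 : c * g - g = (c - x) * g + (x * g - g) := by rw [sub_mul]; abel
    rw [e1]
    have h8 := (norm_mul_le (c - x) g).trans (mul_le_mul_of_nonneg_right hc (norm_nonneg g))
    nlinarith [norm_add_le ((c - x) * g) (x * g - g)]
  have hnext : ∀ i, i ≤ n → ‖ρ (i + 1) (a i)‖ ≤ ε := by
    intro i hi
    rcases Nat.lt_or_ge i n with hi' | hi'
    · rw [hρ1 (i + 1) (by omega)]; exact h5 i hi'
    · rw [hρ2 (i + 1) (by omega)]; simpa using hεpos.le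
  have f4 := Lam_el g (n + 1) (cons (ρ 0) D') a ((2 * ‖g‖ + 1) * ε) (by positivity) (by
    intro i hi
    cases i with
    | zero =>
      refine ⟨(hρ0 _).trans (by linarith [ha 0]), aux _ (a 0) ?_ (h6 0 (by omega))⟩
      show ‖ρ 0 (a 0) - a 0‖ ≤ _
      rw [hρ1 0 (by omega)]
      have h8 : ‖θ (s 0).1 (a 0) - a 0‖ ≤ ε := h3 0 (by omega)
      linarith
    | succ i =>
      have h8 : ‖τ i (a (i + 1)) - a (i + 1)‖ ≤ ε := by
        cases i with
        | zero =>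
          show ‖ρ 0 (a 1) - a 1‖ ≤ ε
          rw [hρ1 0 (by omega)]
          exact h4
        | succ i =>
          show ‖ρ (i + 2) (a (i + 2)) - a (i + 2)‖ ≤ ε
          rw [hρ1 (i + 2) (by omega)]
          exact h3 (i + 2) (by omega)
      have h9 : ‖τ (i + 1) (a (i + 1))‖ ≤ ε := hnext (i + 1) (by omega)
      have h10 : ‖D' i (a (i + 1))‖ ≤ 2 * ‖a (i + 1)‖ := by
        cases i with
        | zero => exact hsub 0 2 _
        | succ i => exact hsub (i + 2) (i + 3) _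
      refine ⟨h10.trans (by linarith [ha (i + 1)]), aux _ (a (i + 1)) ?_ (h6 (i + 1) hi)⟩
      show ‖τ i (a (i + 1)) - τ (i + 1) (a (i + 1)) - a (i + 1)‖ ≤ _
      rw [sub_right_comm]
      linarith [norm_sub_le (τ i (a (i + 1)) - a (i + 1)) (τ (i + 1) (a (i + 1)))])
  rw [el_succ, Lam_tn, cons_zero, tl_cons, hadd, mul_add] at f4
  have f5 : ‖ρ 0 (a 0) * Om g T (ρ 0) D'' (el 0 zero_mul_hom n (tl a))‖ ≤ ε :=
    (norm_mul_le _ _).trans ((mul_le_mul ((hρle 0 _).trans (ha 0)) f0 (norm_nonneg _)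
      zero_le_one).trans (one_mul _).le)
  have f6 := norm_le_insert (ρ 0 (a 0) * Om g T (ρ 0) D (el 0 zero_mul_hom n (tl a))
    + ρ 0 (a 0) * Om g T (ρ 0) D'' (el 0 zero_mul_hom n (tl a))) g
  have f7 := norm_add_le (ρ 0 (a 0) * Om g T (ρ 0) D (el 0 zero_mul_hom n (tl a)))
    (ρ 0 (a 0) * Om g T (ρ 0) D'' (el 0 zero_mul_hom n (tl a)))
  have f8 : ‖g‖ ≤ K * ε := by
    have h8 : 0 ≤ (2 * ‖g‖ + 1) * ε := by positivity
    rw [hK]
    nlinarith
  have f9 : K * ε = ‖g‖ / 2 := by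
    rw [hε]; field_simp
  linarith

end Pool.Agent.H570Z
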