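import Mathlib
import Pool.Agent.H570Z.BA
import Pool.Agent.H570Z.BC
import Pool.Agent.H570Z.VolB

/-!
The point modules of the algebra of continuous functions on the space of ultrafilters.
-/

set_option autoImplicit false
set_option maxSynthPendingDepth 3
set_option linter.unusedSectionVars false

namespace Pool.Agent.H570Z.BN

open Filter Topology Set Pool.Agent.Helper832.GD

variable (p : Ultrafilter ℕ)

/-- elementary tensors of idempotents -/
noncomputable def xs (n : ℕ) (a : ℕ → Set ℕ) : (XX (dl p) (dl_mul p) n).carrier :=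
  el (dl p) (dl_mul p) n (fun q => ee (a q))

lemma norm_xs_le (n : ℕ) (a : ℕ → Set ℕ) : ‖xs p n a‖ ≤ 1 :=
  norm_el_le _ _ n _ (fun _ => norm_ee_le _)

lemma pert_set {ι : Type} [Fintype ι] [DecidableEq ι] {n : ℕ}
    (f : (XX (dl p) (dl_mul p) n).carrier →L[ℂ] ℂ) {M : ℝ} (hM : 0 ≤ M)
    (hf : ∀ x, ‖f x‖ ≤ M * ‖x‖) (a : ℕ → Set ℕ) (b : ι → ℕ → Set ℕ) (h1 : ∀ k q, a q ⊆ b k q)
    (h2 : ∀ k k' q, k ≠ k' → b k q ∩ b k' q ⊆ a q) :
    ∑ k, ‖f (xs p n (b k)) - f (xs p n a)‖ ≤ M * 2 ^ n :=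
  pert_sum _ _ f hM hf _ (fun k q => ee (b k q)) (fun _ => norm_ee_le _)
    (fun q => norm_sum_ee (a q) (fun k => b k q) (fun k => h1 k q) (fun k k' => h2 k k' q))

variable (lf : (ℕ →₀ ℕ) → ℕ)

/-- the set of a node -/
def St (h : ℕ) (r : ℕ →₀ ℕ) : Set ℕ := lf '' {t | Ag h t r}

lemma St_mono {h m : ℕ} (hm : h ≤ m) (r : ℕ →₀ ℕ) : St lf h r ⊆ St lf m r :=
  image_mono (fun _ ht => Ag.mono ht hm)

lemma St_congr {h : ℕ} {r t : ℕ →₀ ℕ} (H : Ag h r t) : St lf h r = St lf h t :=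
  congrArg (image lf) (Set.ext (fun _ => ⟨fun h => Ag.trans h H, fun h => Ag.trans h H.symm⟩))

lemma St_eq (hl : Function.Injective lf) {q j x : ℕ} {r t : ℕ →₀ ℕ} (hq : q ≤ j)
    (h1 : x ∈ St lf q r) (h2 : x ∈ St lf q t) : r j = t j := by
  obtain ⟨u, h3, rfl⟩ := h1
  obtain ⟨v, h4, h5⟩ := h2
  rw [← h3 j hq, ← h4 j hq, hl h5]

/-- the point of a node -/
noncomputable def pt (n h : ℕ) (r : ℕ →₀ ℕ) : Ultrafilter ℕ :=
  if h ≤ n then (Qu p h r).map lf else p

lemma pt_congr (n : ℕ) {h : ℕ} {r t : ℕ →₀ ℕ} (H : Ag h r t) : pt p lf n h r = pt p lf n h t := by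
  unfold pt
  rw [Qu_congr p h H]

lemma pt_top (n : ℕ) (r : ℕ →₀ ℕ) : pt p lf n (n + 1) r = p := if_neg (by omega)

lemma St_mem {n h : ℕ} (hn : h ≤ n) (r : ℕ →₀ ℕ) : St lf h r ∈ pt p lf n h r := by
  unfold pt
  rw [if_pos hn]
  exact (Qu_ag p h r).mono (fun t ht => mem_image_of_mem lf ht)

lemma St_notMem (hp : ∀ x, ∀ᶠ y in (p : Filter ℕ), x < y) (hl : Function.Injective lf)
    (hr : range lf ∉ p) (n h : ℕ) (r : ℕ →₀ ℕ) :
    St lf h r ∉ pt p lf n (h + 1) r := by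
  unfold pt
  split_ifs with h1
  · intro h2
    obtain ⟨t, h3, h4⟩ := ((Qu_ne p hp h r (r h)).and h2).exists
    exact h3 (St_eq lf hl le_rfl (mem_image_of_mem lf Ag.rfl) h4)
  · exact fun h2 => hr (mem_of_superset h2 (image_subset_range _ _))

lemma pt_tendsto {n h : ℕ} (hn : h + 1 ≤ n) (r : ℕ →₀ ℕ) :
    Tendsto (fun x => pt p lf n h (r.update h x)) p (𝓝 (pt p lf n (h + 1) r)) := by
  unfold pt
  simp only [if_pos hn, if_pos (Nat.le_of_succ_le hn)]
  exact Qu_tendsto p lf h r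

/-- the windows along a path -/
noncomputable def DD (n : ℕ) (r : ℕ →₀ ℕ) (i : ℕ) : CB →L[ℂ] ℂ :=
  dl (pt p lf n (i + 1) r) - dl (pt p lf n (i + 2) r)

/-- the windows along a path, one of them changed -/
noncomputable def DU (n : ℕ) (r : ℕ →₀ ℕ) (c : ℕ) (u v : Ultrafilter ℕ) : ℕ → CB →L[ℂ] ℂ :=
  Function.update (DD p lf n r) c (dl u - dl v)

lemma DD_ok (n : ℕ) (r : ℕ →₀ ℕ) : Ok (DD p lf n r) := fun _ => dl_sub_le _ _

lemma DU_self (n : ℕ) (r : ℕ →₀ ℕ) (c : ℕ) (u v : Ultrafilter ℕ) :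
    DU p lf n r c u v c = dl u - dl v := Function.update_self _ _ _

lemma DU_ne (n : ℕ) (r : ℕ →₀ ℕ) {c i : ℕ} (u v : Ultrafilter ℕ) (h : i ≠ c) :
    DU p lf n r c u v i = DD p lf n r i := Function.update_of_ne h _ _

lemma DU_ok (n : ℕ) (r : ℕ →₀ ℕ) (c : ℕ) (u v : Ultrafilter ℕ) : Ok (DU p lf n r c u v) :=
  fun i => by
    by_cases h : i = c
    · rw [h, DU_self]; exact dl_sub_le _ _
    · rw [DU_ne _ _ _ _ _ _ h]; exact dl_sub_le _ _

lemma pert_ev (hp : ∀ x, ∀ᶠ y in (p : Filter ℕ), x < y) (hl : Function.Injective lf) {n : ℕ}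
    (f : (XX (dl p) (dl_mul p) n).carrier →L[ℂ] ℂ) {M : ℝ} (hM : 0 ≤ M)
    (hf : ∀ x, ‖f x‖ ≤ M * ‖x‖) (a : ℕ → Set ℕ) (b : (ℕ →₀ ℕ) → ℕ → Set ℕ) (c : ℕ)
    (h1 : ∀ t q, a q ⊆ b t q) (h2 : ∀ t q, b t q ⊆ a q ∪ St lf c t) (r : ℕ →₀ ℕ) {δ : ℝ}
    (hδ : 0 < δ) : ∀ᶠ t in (Qu p (c + 1) r : Filter (ℕ →₀ ℕ)),
      ‖f (xs p n (b t)) - f (xs p n a)‖ ≤ δ := by
  by_contra h
  rw [← Ultrafilter.eventually_not, ev_Qu] at h
  obtain ⟨L, hL⟩ := exists_nat_mul (C := M * 2 ^ n) hδ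
  obtain ⟨v, h3, h4⟩ := KH.inj_choice p (fun x => (hp x).mono (fun y hy => hy.ne')) L _
    (fun _ => h)
  choose t h5 h6 using fun m => ((Qu_ag p c _).and (h4 m)).exists
  have h7 := pert_set p f hM hf a (fun m => b (t m)) (fun m => h1 _) (fun m m' q hm x hx => by
    rcases h2 _ _ hx.1 with h8 | h8
    · exact h8
    rcases h2 _ _ hx.2 with h9 | h9
    · exact h9
    have := St_eq lf hl le_rfl h8 h9
    rw [h5 m c le_rfl, h5 m' c le_rfl, upd_self, upd_self] at this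
    exact absurd (h3 this) hm)
  have h8 := Finset.sum_le_sum (s := Finset.univ) (fun m _ => (not_le.1 (h6 m)).le)
  rw [Finset.sum_const, Finset.card_univ, Fintype.card_fin, nsmul_eq_mul] at h8
  linarith

variable {n : ℕ} (T : (XX (dl p) (dl_mul p) n).carrier →L[ℂ] (XX (dl p) (dl_mul p) (n + 1)).carrier)

lemma first_face (hn : 1 ≤ n) {ε : ℝ} (hε : 0 < ε) (r : ℕ →₀ ℕ) :
    ∀ᶠ t in (Qu p 1 r : Filter (ℕ →₀ ℕ)), ‖Om _ _ T (dl (pt p lf n 0 t))
      (DU p lf n t 0 (pt p lf n 0 t) (pt p lf n 1 t)) (xs p n (fun q => St lf (q + 1) t))‖ ≤ ε := by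
  rw [ev_Qu]
  filter_upwards [tail_Om _ _ T (p : Filter ℕ) _ (dl_tendsto (pt_tendsto p lf hn r)
    tendsto_const_nhds) hn (xs p n (fun q => St lf (q + 1) r)) ε hε] with x hx
  have e : (fun q => St lf (q + 1) (r.update 0 x)) = fun q => St lf (q + 1) r :=
    funext (fun q => St_congr lf ((ag_upd r 0 x).mono (by omega)))
  show ‖Om _ _ T _ _ (xs p n (fun q => St lf (q + 1) (r.update 0 x)))‖ ≤ ε
  rw [e]
  exact hx _ (dl_le _) _ (DU_ok p lf _ _ _ _ _) (by
    rw [DU_self, pt_congr p lf n (ag_upd r 0 x)])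

lemma mid_face (hp : ∀ x, ∀ᶠ y in (p : Filter ℕ), x < y) (hl : Function.Injective lf)
    {c : ℕ} (hc : c + 2 ≤ n) {ε : ℝ} (hε : 0 < ε) (r : ℕ →₀ ℕ) :
    ∀ᶠ t in (Qu p (c + 2) r : Filter (ℕ →₀ ℕ)), ‖Om _ _ T (dl (pt p lf n 0 t))
      (DD p lf n t) (xs p n (del (c + 1) (fun q => St lf q t)))‖ ≤ ε := by
  by_contra h
  rw [← Ultrafilter.eventually_not] at h
  obtain ⟨M, hM, hO⟩ := exists_bound _ _ T
  let fc : (ℕ → Set ℕ) → ℕ → Set ℕ := fun G q => if q ≤ c then G q else St lf (q + 1) r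
  let v : ℕ → Ultrafilter ℕ := fun k => pt p lf n (c + 1) (r.update (c + 1) k)
  let γ := fun (t : ℕ →₀ ℕ) (k : ℕ) =>
    Om _ _ T (dl (pt p lf n 0 t)) (DU p lf n t c (v (t (c + 1))) (v k))
  have hγ : ∀ t k x, ‖γ t k x‖ ≤ M * ‖x‖ := fun t k => hO _ (dl_le _) _ (DU_ok p lf _ _ _ _ _)
  have hg : ∀ᶠ t in (Qu p (c + 2) r : Filter (ℕ →₀ ℕ)), Ag (c + 2) t r ∧
      ε < ‖Om _ _ T (dl (pt p lf n 0 t)) (DD p lf n t) (xs p n (fc (fun q => St lf q t)))‖ := by
    filter_upwards [h, Qu_ag p (c + 2) r] with t h1 h2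
    refine ⟨h2, ?_⟩
    have e : fc (fun q => St lf q t) = del (c + 1) (fun q => St lf q t) := funext (fun q => by
      simp only [fc]
      split_ifs with h3
      · rw [del_lt _ _ _ (by omega)]
      · rw [del_ge _ _ _ (by omega), St_congr lf (h2.mono (by omega))])
    rw [e]
    exact not_le.1 h1
  obtain ⟨ρ, h1, h2⟩ := exists_seq_of_forall_finset_exists _
    (fun t t' : ℕ →₀ ℕ => t (c + 1) ≠ t' (c + 1) ∧
      ε / 2 ≤ ‖γ t (t' (c + 1)) (xs p n (fc (fun q => St lf q t ∪ St lf q t')))‖)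
    (fun s hs => (hg.and ((Finset.eventually_all s).2 (fun t ht => by
      obtain ⟨h1, h2⟩ := hs t ht
      rw [ev_Qu]
      filter_upwards [hp (t (c + 1)), tail_Om _ _ T (p : Filter ℕ) _
        (dl_tendsto (pt_tendsto p lf hc r) tendsto_const_nhds) (show c < n by omega)
        (xs p n (fc (fun q => St lf q t))) (ε / 4) (by positivity)] with k h3 h4
      have h5 := h4 _ (dl_le (pt p lf n 0 t)) _ (DU_ok p lf n t c _ _) (DU_self p lf n t c _ _)
      have h6 := Om_add _ _ T (show c < n by omega) (dl (pt p lf n 0 t))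
        (DU p lf n t c (v (t (c + 1))) (v k)) (DD p lf n t)
        (DU p lf n t c (v k) (pt p lf n (c + 2) r)) (fun i hi => (DU_ne p lf n t _ _ hi).symm)
        (fun i hi => (DU_ne p lf n t _ _ hi).trans (DU_ne p lf n t _ _ hi).symm) (by
          have e : pt p lf n (c + 1) t = v (t (c + 1)) := pt_congr p lf n (fun i hi => by
            by_cases h7 : i = c + 1
            · rw [h7, upd_self]
            · rw [upd_ne _ _ h7, h1 i (by omega)])
          rw [DU_self, DU_self, DD, e, pt_congr p lf n h1, sub_add_sub_cancel])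
        (xs p n (fc (fun q => St lf q t)))
      filter_upwards [Qu_ag p (c + 1) _, pert_ev p lf hp hl (γ t k) hM (hγ t k)
        (fc (fun q => St lf q t)) (fun t' => fc (fun q => St lf q t ∪ St lf q t')) c
        (fun t' q => by
          simp only [fc]
          split_ifs
          exacts [subset_union_left, subset_rfl])
        (fun t' q => by
          simp only [fc]
          split_ifs with h7
          exacts [union_subset_union_right _ (St_mono lf h7 _), subset_union_left])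
        (r.update (c + 1) k) (show 0 < ε / 4 by positivity)] with t' h7 h8
      rw [h7 (c + 1) le_rfl, upd_self]
      refine ⟨h3.ne, ?_⟩
      rw [h6] at h2
      have h9 := norm_sub_norm_le (γ t k (xs p n (fc (fun q => St lf q t))))
        (γ t k (xs p n (fc (fun q => St lf q t ∪ St lf q t'))))
      rw [norm_sub_rev] at h9
      linarith [h2.trans_le (norm_add_le _ _)]))).exists)
  have h3 : ∀ l l', ρ l (c + 1) = ρ l' (c + 1) → l = l' := fun l l' h => by
    rcases lt_trichotomy l l' with h4 | h4 | h4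
    exacts [absurd h (h2 _ _ h4).1, h4, absurd h.symm (h2 _ _ h4).1]
  obtain ⟨L, hL, h4⟩ := rosen
    (fun i i' F => γ (ρ i) (ρ i' (c + 1)) (xs p n (fc (fun q => ⋃ l ∈ F, St lf q (ρ l)))))
    (C := M * 2 ^ n) (half_pos hε) (fun i i' F => (hγ _ _ _).trans (mul_le_mul_of_nonneg_left
      ((norm_xs_le p _ _).trans (one_le_pow₀ (by norm_num))) hM))
    (fun i i' F N G hG => pert_set p _ hM (hγ _ _) _ _ (fun m q => by
        simp only [fc]
        split_ifs
        exacts [biUnion_subset_biUnion_left subset_union_left, subset_rfl])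
      (fun m m' q hm => by
        simp only [fc]
        split_ifs with h4
        · rintro x ⟨h5, h6⟩
          obtain ⟨l, h7, h8⟩ := mem_iUnion₂.1 h5
          obtain ⟨l', h9, h10⟩ := mem_iUnion₂.1 h6
          obtain rfl := h3 _ _ (St_eq lf hl (by omega) h8 h10)
          refine mem_iUnion₂.2 ⟨l, ?_, h8⟩
          by_contra h11
          exact disjoint_left.1 (hG m m' hm) (h7.resolve_left h11) (h9.resolve_left h11)
        · exact inter_subset_left))
    (fun i i' h => by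
      simp only [biUnion_pair]
      exact (h2 i i' h).2)
  obtain ⟨U, hLU, hU⟩ := exists_free hL
  have h5 : Tendsto (fun i => v (ρ i (c + 1))) U (𝓝 (U.map (fun i => v (ρ i (c + 1)))).lim) :=
    (U.map _).le_nhds_lim
  have h6 : Tendsto Prod.fst (U2 U U : Filter (ℕ × ℕ)) U := fun s hs =>
    (ev_U2 U U _).2 (Eventually.mono hs (fun _ hx => Eventually.of_forall (fun _ => hx)))
  have h7 : Tendsto Prod.snd (U2 U U : Filter (ℕ × ℕ)) U := fun s hs =>
    (ev_U2 U U _).2 (Eventually.of_forall (fun _ => hs))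
  have h8 : ∀ᶠ z in (U2 U U : Filter (ℕ × ℕ)), z.1 < z.2 :=
    (ev_U2 U U _).2 (Eventually.of_forall hU)
  obtain ⟨z, h9, h10, h11, h12⟩ := ((h6.eventually hLU).and ((h7.eventually hLU).and (h8.and
    (tail_Om _ _ T _ _ (dl_tendsto (h5.comp h6) (h5.comp h7)) (show c < n by omega)
      (xs p n (fc (fun q => ⋃ l ∈ L, St lf q (ρ l)))) (ε / 8) (by positivity))))).exists
  have h13 := h12 _ (dl_le (pt p lf n 0 (ρ z.1))) _ (DU_ok p lf n (ρ z.1) c _ _)
    (DU_self p lf n _ c _ _)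
  linarith [(h4 _ h9 _ h10 h11).trans h13]

lemma exists_lf (hp : ∀ x, ∀ᶠ y in (p : Filter ℕ), x < y) {m : ℕ} (hm : n = m + 1) :
    ∃ lf : (ℕ →₀ ℕ) → ℕ, Function.Injective lf ∧ range lf ∉ p ∧ ∀ r ε, 0 < ε →
      ‖Om _ _ T (dl (pt p lf n 0 r)) (DD p lf n r) (xs p n (fun q => St lf q r))‖ ≤ ε := by
  obtain ⟨enc, he⟩ := exists_injective_nat (ℕ →₀ ℕ)
  obtain ⟨g, hg⟩ := exists_surjective_nat ((ℕ →₀ ℕ) × ℕ)
  choose K h1 h2 using fun (f : ℕ → ℕ) (i : ℕ) => exists_basic (tail_Om _ _ T (𝓝 p) _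
    (dl_tendsto tendsto_id tendsto_const_nhds) (show m < n by omega)
    (xs p n (fun q => St (f ∘ enc) q (g i).1)) _ (Nat.one_div_pos_of_nat (n := (g i).2)))
  obtain ⟨ψ, h3, h4, h5⟩ := killer p hp K h1
  refine ⟨fun r => ψ (r m) (enc r), fun r t h => he (h3 _ _ _ _ h).2, fun h => h4
    (mem_of_superset h (by rintro _ ⟨r, rfl⟩; exact mem_iUnion.2 ⟨_, _, rfl⟩)), fun r ε hε => ?_⟩
  obtain ⟨k, hk⟩ := exists_nat_one_div_lt hε
  obtain ⟨i, hi⟩ := hg (r, k)
  have e : xs p n (fun q => St (fun r => ψ (r m) (enc r)) q r)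
      = xs p n (fun q => St (ψ (r m) ∘ enc) q r) := el_congr _ _ n _ _ (fun q hq =>
    congrArg ee (image_congr (fun t ht => by rw [ht m (by omega)]; rfl)))
  have h6 := h2 (ψ (r m)) i (pt p (fun r => ψ (r m) (enc r)) n (m + 1) r) (by
    unfold pt
    rw [if_pos hm.ge]
    refine (ev_Qu p m r _).2 ?_
    have h7 : (p : Filter ℕ) ≤ atTop := le_iInf (fun x => le_principal_iff.2
      ((hp x).mono (fun _ h => h.le)))
    filter_upwards [h7 (h5 (r m) i)] with x hx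
    filter_upwards [Qu_ag p m _] with t ht
    refine hx ⟨enc t, ?_⟩
    rw [ht m le_rfl, upd_self]) _ (dl_le (pt p (fun r => ψ (r m) (enc r)) n 0 r)) _
    (DD_ok p (fun r => ψ (r m) (enc r)) n r) (by
      subst hm
      rw [DD, pt_top]
      rfl)
  rw [hi] at h6
  rw [e]
  exact h6.trans hk.le

theorem not_hasRes (hp : ∀ x, ∀ᶠ y in (p : Filter ℕ), x < y) (m : ℕ) :
    ¬ (oneMod (dl p) (dl_mul p)).HasResolution m := by
  intro h0
  obtain ⟨T, hT⟩ := exists_T _ _ (hasResolution_mono h0 (Nat.le_succ m))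
  obtain ⟨lf, hl, hr, hk⟩ := exists_lf p T hp rfl
  have hε : (0 : ℝ) < 1 / (m + 3) := by positivity
  set ε : ℝ := 1 / (m + 3) with hεd
  obtain ⟨t, h1, h2⟩ := ((Qu_up p (by omega : 1 ≤ m + 1)
    (first_face p lf T (by omega) hε) 0).and ((Finset.eventually_all (Finset.range m)).2
    (fun c hc => Qu_up p (by simpa using hc : c + 2 ≤ m + 1)
      (mid_face p lf T hp hl (by simpa using hc) hε) 0))).exists
  have h3 := Om_left _ _ T hT _ (dl_mul (pt p lf (m + 1) 0 t)) (DD p lf (m + 1) t)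
    (ee (St lf 0 t)) (xs p (m + 1) (fun q => St lf (q + 1) t))
  have h4 := left_el _ (dl_mul p) (m + 1) (fun q => ee (St lf q t))
  have h5 : dl p (ee (St lf (m + 1) t)) = 0 :=
    ee_notMem (fun h => hr (mem_of_superset h (image_subset_range _ _)))
  have h6 : ∀ j, mrg j (fun q => ee (St lf q t))
      = fun q => ee (del (j + 1) (fun q => St lf q t) q) := fun j => funext (fun q => by
    by_cases h : q = j
    · rw [h, mrg_eq, ee_mul (St_mono lf j.le_succ t), del_lt _ _ _ j.lt_succ_self]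
    · rw [mrg_ne _ _ _ h]
      exact (congrFun (comp_del ee (j + 1) (fun q => St lf q t)) q).symm)
  simp only [h5, h6, mul_zero, zero_smul, add_zero] at h4
  have h7 := (congrArg (Om _ _ T (dl (pt p lf (m + 1) 0 t)) (DD p lf (m + 1) t)) h4).symm.trans h3
  rw [dl_apply _ (ee _), ee_mem (St_mem p lf (Nat.zero_le _) t), one_mul, map_sum] at h7
  have h8 : ‖Om _ _ T (dl (pt p lf (m + 1) 0 t)) (DD p lf (m + 1) t)
      (xs p (m + 1) (fun q => St lf (q + 1) t))‖ ≤ (m + 1) * ε := by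
    rw [← h7]
    refine (norm_sum_le_of_le (n := fun _ => ε) _ (fun j hj => ?_)).trans (by simp)
    rw [map_smul, norm_smul, norm_pow, norm_neg, norm_one, one_pow, one_mul]
    rcases Nat.lt_succ_iff_lt_or_eq.1 (Finset.mem_range.1 hj) with h | rfl
    · exact h2 j (Finset.mem_range.2 h)
    · rw [el_congr _ _ _ _ (fun q => ee (St lf q t)) (fun q hq => by rw [del_lt _ _ _ hq])]
      exact hk t ε hε
  let τ : ℕ → CB →L[ℂ] ℂ := fun i => dl (del 1 (fun h => pt p lf (m + 1) h t) i)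
  have h9 := Om_adj _ _ T τ (fun i => τ i - τ (i + 1)) (fun i => dl_mul _)
    (congrArg dl (pt_top p lf _ t)) (fun _ => rfl)
  have h10 := Om_add _ _ T (Nat.succ_pos m) (τ 0) (DD p lf (m + 1) t) (fun i => τ i - τ (i + 1))
    (DU p lf (m + 1) t 0 (pt p lf (m + 1) 0 t) (pt p lf (m + 1) 1 t))
    (fun i hi => by
      obtain ⟨i, rfl⟩ := Nat.exists_eq_succ_of_ne_zero hi
      rfl) (fun i hi => DU_ne p lf _ _ _ _ hi) (by
      rw [DU_self]
      exact (sub_add_sub_cancel' _ _ _).symm) (xs p (m + 1) (fun q => St lf (q + 1) t))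
  have h11 : Lam _ (dl_mul p) (m + 1) (fun i => τ i - τ (i + 1))
      (xs p (m + 1) (fun q => St lf (q + 1) t)) = 1 := Lam_el _ _ _ _ _ (fun i hi => by
    have e1 : τ i (ee (St lf (i + 1) t)) = 1 := ee_mem (by
      cases i with
      | zero => exact mem_of_superset (St_mem p lf hi.le t) (St_mono lf zero_le_one t)
      | succ i => exact St_mem p lf hi t)
    have e2 : τ (i + 1) (ee (St lf (i + 1) t)) = 0 := ee_notMem (St_notMem p lf hp hl hr _ _ t)
    rw [sub_apply, e1, e2, sub_zero])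
  rw [h9, h11] at h10
  have h12 := (congrArg norm h10).le.trans ((norm_add_le _ _).trans (add_le_add h8 h1))
  have h13 : (m + 3) * ε = 1 := by rw [hεd]; field_simp
  rw [norm_one] at h12
  linarith

end Pool.Agent.H570Z.BN
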