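import Mathlib
import Pool.Agent.Helper832.GDStmt

/-!
The bidimension of a unital Banach algebra, irreducible modules, the small dimension and point
modules.
-/

set_option autoImplicit false

namespace Pool.Agent.H570Z.BN

open Pool.Agent.Helper832.GS

/-- A Banach algebra `A` as a bimodule over itself: `a · x = a x` and `x · a = x a`. -/
noncomputable def regBMod (A : Type) [NormedRing A] [NormedAlgebra ℂ A] [CompleteSpace A] :
    BMod A where
  carrier := A
  left := fun a x => a * x
  right := fun a x => x * a
  left_bdd := (ContinuousLinearMap.mul ℂ A).isBoundedBilinearMap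
  right_bdd := (ContinuousLinearMap.mul ℂ A).flip.isBoundedBilinearMap
  left_mul := mul_assoc
  right_mul := fun a b x => (mul_assoc x a b).symm
  left_right := fun a b x => (mul_assoc a x b).symm

/-- The bidimension of a unital Banach algebra `A`: the homological dimension of the
`A`-bimodule `A`. -/
noncomputable def dbU (A : Type) [NormedRing A] [NormedAlgebra ℂ A] [CompleteSpace A] : ℕ∞ :=
  (regBMod A).dh

/-- A left Banach module `X` is irreducible if `A · X ≠ 0` and the only linear subspaces of `X`
that are invariant under the action of `A` are zero and `X`. -/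
def IsIrred {A : Type} [NonUnitalNormedRing A] [NormedSpace ℂ A] (X : LMod A) : Prop :=
  (∃ a x, X.act a x ≠ 0) ∧
    ∀ N : Submodule ℂ X.carrier, (∀ a x, x ∈ N → X.act a x ∈ N) → N = ⊥ ∨ N = ⊤

/-- The small dimension of `A`: the supremum of the homological dimensions of all irreducible left
Banach `A`-modules. -/
noncomputable def ds (A : Type) [NonUnitalNormedRing A] [NormedSpace ℂ A] : ℕ∞ :=
  ⨆ (X : LMod A) (_ : IsIrred X), X.dh

/-- The one-dimensional module of a point `ω` of a compact space: `a · z = a(ω) z`. -/
noncomputable def pointMod {Ω : Type} [TopologicalSpace Ω] [CompactSpace Ω] (ω : Ω) :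
    LMod C(Ω, ℂ) where
  carrier := ℂ
  act := fun a z => a ω * z
  bdd := ((ContinuousLinearMap.mul ℂ ℂ).comp (ContinuousMap.evalCLM ℂ ω)).isBoundedBilinearMap
  act_mul := fun a b z => mul_assoc (a ω) (b ω) z

end Pool.Agent.H570Z.BN
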