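import Mathlib
import Pool.Agent.Helper832.GDV
import Pool.Agent.H570Z.BD
import Pool.Agent.H570Z.BDefs

/-!
The homological dimensions of the algebra of continuous functions on the space of ultrafilters.
-/

set_option autoImplicit false
set_option maxSynthPendingDepth 3
set_option linter.unusedSectionVars false

namespace Pool.Agent.H570Z.BN

open Pool.Agent.Helper832 Filter

section Reg

open GD GD.Bim

variable {A : Type} [NormedRing A] [NormedAlgebra ℂ A] [CompleteSpace A]

/-- the regular bimodule in operator form -/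
noncomputable def regBim (A : Type) [NormedRing A] [NormedAlgebra ℂ A] [CompleteSpace A] :
    Bim A A := (regBMod A).toC

/-- the identification of the algebra with the regular bimodule -/
noncomputable def rg : A →L[ℂ] (regBim A).carrier := ContinuousLinearMap.id ℂ A

/-- the inverse identification -/
noncomputable def rg' : (regBim A).carrier →L[ℂ] A := ContinuousLinearMap.id ℂ A

lemma rg_left (a : A) (x : (regBim A).carrier) : rg' ((regBim A).left a x) = a * rg' x := rfl

lemma rg_right (a : A) (x : (regBim A).carrier) : rg' ((regBim A).right a x) = rg' x * a := rfl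

lemma eq_right (x : (regBim A).carrier) : (regBim A).right (rg' x) (rg 1) = x := one_mul (rg' x)

lemma left_one (c : A) : (regBim A).left c (rg 1) = (regBim A).right c (rg 1) :=
  (mul_one c).trans (one_mul c).symm

lemma regBim_rproj : (regBim A).RProj := by
  intro Y Z σ f hσ hσ' hf
  obtain ⟨g, hg⟩ := hσ'
  refine ⟨(Y.right.flip (g (f (rg 1)))).comp rg', fun r x => Y.right_mul _ _ _, fun x => ?_⟩
  show σ (Y.right (rg' x) (g (f (rg 1)))) = f x
  rw [hσ.2, hg, ← hf, eq_right]

lemma vanY_of_reg {Y X : Bim A PUnit} (hY : ∀ y, Y.left 1 y = y)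
    (h : VanY (HB Y X) (regBim A)) : VanY X Y := by
  intro F hF
  let w : (HB Y X).N.carrier := hbFlip' Y X F
  have hw : ∀ c y, HBev Y X y ((HB Y X).ev c w) = X.ev c (F y) := fun c y => rfl
  have hcen : ∀ a, (HB Y X).N.left a w = (HB Y X).N.right a w := by
    intro a
    refine N_ext (fun c => HB_ext (fun y => ?_))
    rw [ev_left, ev_right, map_sub, HBev_left, HBev_right, hw, hw, hw]
    have e1 := congrArg (X.ev c) (hF.1 a y)
    rw [ev_left] at e1
    exact e1.symm
  have hL : IsHom (X := regBim A) (Y := (HB Y X).N) (((HB Y X).N.right.flip w).comp rg') := by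
    refine ⟨fun a x => ?_, fun a x => (HB Y X).N.right_mul _ _ _⟩
    show (HB Y X).N.right (a * rg' x) w = (HB Y X).N.left a ((HB Y X).N.right (rg' x) w)
    rw [Bim.right_mul, ← hcen, Bim.left_right]
  obtain ⟨g, hg, hg'⟩ := h _ hL
  refine ⟨(show Y.carrier →L[ℂ] X.carrier from g (rg 1)), fun r y => ?_, fun y => ?_⟩
  · rw [Bim.right_punit, Bim.right_punit, map_zero]
  · refine N_ext (fun c => ?_)
    have e1 := congrArg (fun ψ => HBev Y X y ((HB Y X).ev c ψ)) (hg' (rg 1))
    have e2 : (((HB Y X).N.right.flip w).comp rg') (rg 1) = (HB Y X).N.right 1 w := rfl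
    simp only [e2] at e1
    rw [ev_delta, left_one, hg, map_sub, HBev_left, HBev_right, ev_right, HBev_right, hY, hw] at e1
    rw [ev_delta]
    exact e1

lemma vanY_Np_of_reg (Y : Bim A PUnit) (hY : ∀ y, Y.left 1 y = y) :
    ∀ (n : ℕ) (X : Bim A PUnit), VanY (Np n (HB Y X)) (regBim A) → VanY (Np n X) Y
  | 0, _, h => vanY_of_reg hY h
  | n + 1, X, h => by
    have h1 : VanY (Np n (HB Y X).N) (regBim A) := by rw [Np_N]; exact h
    have h2 := vanY_Np_of_reg Y hY n X.N (h1.retract ((retract_flip' Y X).Np n))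
    rw [Np_N] at h2
    exact h2

theorem hasResolution_of_reg {n : ℕ} (h : (regBim A).HasResolution n) (X : LMod A)
    (hX : ∀ y, X.act 1 y = y) : X.HasResolution n := by
  apply LMod.hasResolution_of_toBim
  have hv := van_of_hasResolution n regBim_rproj h
  have h1 : Van n X.toBim := fun Z => vanY_Np_of_reg X.toBim hX n Z (hv (HB X.toBim Z))
  exact hasResolution_of_Kp n X.toBim_rproj (projective_of_van (X.toBim_rproj.Kp n) h1.Kp)

end Reg

lemma free_lt {p : Ultrafilter ℕ} (hp : ∀ k : ℕ, p ≠ pure k) (x : ℕ) :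
    ∀ᶠ y in (p : Filter ℕ), x < y := by
  rcases p.le_cofinite_or_eq_pure with h | ⟨k, hk⟩
  · rw [Nat.cofinite_eq_atTop] at h
    exact h (eventually_gt_atTop x)
  · exact absurd hk (hp k)

lemma dh_point {p : Ultrafilter ℕ} (hp : ∀ k : ℕ, p ≠ pure k) : (pointMod p).dh = ⊤ := by
  unfold GS.LMod.dh
  refine le_antisymm le_top (le_iInf₂ (fun n hn => ?_))
  exact absurd (GS.LMod.of_ofC_hasResolution (X := oneMod (dl p) (dl_mul p)) hn)
    (not_hasRes p (free_lt hp) n)

lemma hyper_free (k : ℕ) : hyperfilter ℕ ≠ pure k := fun h =>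
  notMem_hyperfilter_of_finite (Set.finite_singleton k) (h ▸ rfl)

lemma irred_point (p : Ultrafilter ℕ) : IsIrred (pointMod p) :=
  ⟨⟨1, (1 : ℂ), by
    show (1 : ℂ) * 1 ≠ 0
    simp⟩, fun N _ => eq_bot_or_eq_top (show Submodule ℂ ℂ from N)⟩

lemma ds_top : ds CB = ⊤ :=
  le_antisymm le_top ((dh_point hyper_free).symm.le.trans
    (le_iSup₂ (f := fun (X : GS.LMod CB) (_ : IsIrred X) => X.dh) _ (irred_point _)))

lemma dg_top : GS.dg CB = ⊤ :=
  le_antisymm le_top ((dh_point hyper_free).symm.le.trans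
    (le_iSup (fun X : GS.LMod CB => X.dh) _))

lemma dbU_top : dbU CB = ⊤ := by
  unfold dbU GS.BMod.dh
  refine le_antisymm le_top (le_iInf₂ (fun n hn => ?_))
  exact absurd (hasResolution_of_reg (GS.BMod.of_ofC_hasResolution (X := regBim CB) hn) _
    (fun y => one_mul (show ℂ from y))) (not_hasRes _ (free_lt hyper_free) n)

end Pool.Agent.H570Z.BN
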