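import Mathlib
import Pool.Agent.H570Z.Tn

/-!
The iterated kernel modules of an arbitrary left module.
-/

set_option autoImplicit false
set_option maxSynthPendingDepth 3
set_option linter.unusedSectionVars false

namespace Pool.Agent.H570Z.KM

open Filter ContinuousLinearMap Pool.Agent.Helper832.GD

variable {A : Type} [NonUnitalNormedRing A] [NormedSpace ℂ A] [IsScalarTower ℂ A A]
  [SMulCommClass ℂ A A] (M : LMod A)

/-- the iterated kernel modules -/
noncomputable def YY (n : ℕ) : Bim A PUnit := Bim.Kp n M.toBim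

/-- the identification of the module number zero with the given one -/
noncomputable def out : (YY M 0).carrier →L[ℂ] M.carrier := ContinuousLinearMap.id ℂ M.carrier

/-- the identification of the module number zero with the given one -/
noncomputable def inn : M.carrier →L[ℂ] (YY M 0).carrier := ContinuousLinearMap.id ℂ M.carrier

lemma out_left (a : A) (z : (YY M 0).carrier) : out M ((YY M 0).left a z) = M.act a (out M z) := rfl

lemma left_inn (a : A) (z : M.carrier) : (YY M 0).left a (inn M z) = inn M (M.act a z) := rfl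

lemma out_inn (z : M.carrier) : out M (inn M z) = z := rfl

lemma norm_out (z : (YY M 0).carrier) : ‖out M z‖ = ‖z‖ := rfl

lemma norm_inn (z : M.carrier) : ‖inn M z‖ = ‖z‖ := rfl

/-- elementary tensors -/
noncomputable def tn (n : ℕ) : A →L[ℂ] (YY M n).carrier →L[ℂ] (YY M (n + 1)).carrier :=
  (YY M n).tn

lemma left_tn (n : ℕ) (a b : A) (x : (YY M n).carrier) :
    (YY M (n + 1)).left a (tn M n b x) = tn M n (a * b) x - tn M n a ((YY M n).left b x) :=
  (YY M n).tn_left a b x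

lemma norm_tn_le (n : ℕ) (a : A) (x : (YY M n).carrier) : ‖tn M n a x‖ ≤ ‖a‖ * ‖x‖ :=
  norm_tens_le a x

lemma xx_ext {n : ℕ} {E : Type} [NormedAddCommGroup E] [NormedSpace ℂ E]
    {f g : (YY M (n + 1)).carrier →L[ℂ] E}
    (h : ∀ b x, f (tn M n b x) = g (tn M n b x)) : f = g := tens_ext h

lemma xx_norm_le {n : ℕ} {Z : Type} [NormedAddCommGroup Z] [NormedSpace ℂ Z] [CompleteSpace Z]
    (f : (YY M (n + 1)).carrier →L[ℂ] Z) {C : ℝ} (hC : 0 ≤ C)
    (h : ∀ (a : A) (x : (YY M n).carrier), ‖f (tn M n a x)‖ ≤ C * ‖a‖ * ‖x‖)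
    (t : (YY M (n + 1)).carrier) : ‖f t‖ ≤ C * ‖t‖ :=
  norm_le_of_tens f hC h t

lemma xx_sum_le {n : ℕ} {Z : Type} [NormedAddCommGroup Z] [NormedSpace ℂ Z] {ι : Type}
    (s : Finset ι) (f : ι → (YY M (n + 1)).carrier →L[ℂ] Z) {C : ℝ} (hC : 0 ≤ C)
    (h : ∀ (a : A) (x : (YY M n).carrier), ∑ k ∈ s, ‖f k (tn M n a x)‖ ≤ C * ‖a‖ * ‖x‖)
    (t : (YY M (n + 1)).carrier) : ∑ k ∈ s, ‖f k t‖ ≤ C * ‖t‖ :=
  sum_norm_le_of_tens s f hC h t

lemma xx_unif {n : ℕ} {Z : Type} [NormedAddCommGroup Z] [NormedSpace ℂ Z] {ι : Type}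
    (F : Filter ι) (J : ι → Set ((YY M (n + 1)).carrier →L[ℂ] Z)) (C : ℝ) (hC0 : 0 ≤ C)
    (hC : ∀ i, ∀ f ∈ J i, ∀ t, ‖f t‖ ≤ C * ‖t‖)
    (h : ∀ (a : A) (x : (YY M n).carrier), ∀ ε > 0, ∀ᶠ i in F, ∀ f ∈ J i,
      ‖f (tn M n a x)‖ ≤ ε) (t : (YY M (n + 1)).carrier) :
    ∀ ε > 0, ∀ᶠ i in F, ∀ f ∈ J i, ‖f t‖ ≤ ε :=
  tens_unif F J C hC0 hC h t

/-- the boundary operator -/
noncomputable def bd (n : ℕ) : (YY M (n + 1)).carrier →L[ℂ] (YY M n).carrier := (YY M n).mu

lemma bd_tn (n : ℕ) (a : A) (x : (YY M n).carrier) :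
    bd M n (tn M n a x) = (YY M n).left a x := (YY M n).mu_tens a x

lemma bd_left (n : ℕ) (a : A) (y : (YY M (n + 1)).carrier) :
    bd M n ((YY M (n + 1)).left a y) = 0 := by
  have : (bd M n).comp ((YY M (n + 1)).left a) = 0 := by
    refine xx_ext M (fun b x => ?_)
    rw [ContinuousLinearMap.comp_apply, left_tn, map_sub, bd_tn, bd_tn, (YY M n).left_mul,
      sub_self]
    rfl
  exact congrArg (fun f : (YY M (n + 1)).carrier →L[ℂ] (YY M n).carrier => f y) this

/-- linearisation -/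
noncomputable def li (n : ℕ) {E : Type} [NormedAddCommGroup E] [NormedSpace ℂ E] [CompleteSpace E]
    (m : A →L[ℂ] (YY M n).carrier →L[ℂ] E) : (YY M (n + 1)).carrier →L[ℂ] E :=
  (YY M n).li E m

lemma li_tn (n : ℕ) {E : Type} [NormedAddCommGroup E] [NormedSpace ℂ E] [CompleteSpace E]
    (m : A →L[ℂ] (YY M n).carrier →L[ℂ] E) (a : A) (x : (YY M n).carrier) :
    li M n m (tn M n a x) = m a x := Bim.li_apply _ m a x

/-- the operator given by a finite projective resolution -/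
lemma exists_T [CompleteSpace A] {n : ℕ} (h : M.HasResolution n) :
    ∃ T : (YY M n).carrier →L[ℂ] (YY M (n + 1)).carrier,
      ∀ a x, tn M n a x = (YY M (n + 1)).left a (T x) - T ((YY M n).left a x) := by
  have h1 := Bim.Kp_projective M.toBim_rproj (LMod.toBim_hasResolution h)
  obtain ⟨T, -, hT⟩ := h1.exists_T
  exact ⟨T, hT⟩

end Pool.Agent.H570Z.KM
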