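import Mathlib
import Pool.Agent.H570Z.Tn2
import Pool.Agent.H570Z.KA

/-!
Determinant operators on the iterated kernel modules.
-/

set_option autoImplicit false
set_option maxSynthPendingDepth 3
set_option linter.unusedSectionVars false

namespace Pool.Agent.H570Z.KH

open Filter Topology Set Pool.Agent.Helper832.GD Pool.Agent.H570Z.KM
open scoped InnerProductSpace Nat

variable {A H I : Type} [NonUnitalNormedRing A] [NormedSpace ℂ A] [IsScalarTower ℂ A A]
  [SMulCommClass ℂ A A] [NormedAddCommGroup H] [InnerProductSpace ℂ H] [CompleteSpace H]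
  (M : LMod A) (κ : A →L[ℂ] H →L[ℂ] H)

/-- the determinant operators -/
noncomputable def DD (e : M.carrier →L[ℂ] H) :
    (m : ℕ) → (ℕ → H →L[ℂ] H) → ((YY M m).carrier →L[ℂ] H)
  | 0, _ => e.comp (out M)
  | m + 1, V => KM.li M m (((ContinuousLinearMap.compL ℂ (YY M m).carrier H H).flip
      (∑ s ∈ Finset.range (m + 1), (-1 : ℂ) ^ s • (V s).comp (DD e m (del s V)))).comp κ)

/-- the determinant operators without the first factor -/
noncomputable def DD' (e : M.carrier →L[ℂ] H) (m : ℕ) (V : ℕ → H →L[ℂ] H) :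
    (YY M m).carrier →L[ℂ] H :=
  ∑ s ∈ Finset.range (m + 1), (-1 : ℂ) ^ s • (V s).comp (DD M κ e m (del s V))

lemma DD_zero (e : M.carrier →L[ℂ] H) (V : ℕ → H →L[ℂ] H) (z : (YY M 0).carrier) :
    DD M κ e 0 V z = e (out M z) := rfl

lemma DD_tn (e : M.carrier →L[ℂ] H) (m : ℕ) (V : ℕ → H →L[ℂ] H) (a : A) (y : (YY M m).carrier) :
    DD M κ e (m + 1) V (KM.tn M m a y) = κ a (DD' M κ e m V y) := by
  show KM.li M m _ (KM.tn M m a y) = _
  rw [KM.li_tn]
  rfl

lemma DD'_apply (e : M.carrier →L[ℂ] H) (m : ℕ) (V : ℕ → H →L[ℂ] H) (y : (YY M m).carrier) :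
    DD' M κ e m V y
      = ∑ s ∈ Finset.range (m + 1), (-1 : ℂ) ^ s • V s (DD M κ e m (del s V) y) := by
  unfold DD'
  rw [sum_apply]
  rfl

lemma DD_congr (e : M.carrier →L[ℂ] H) : ∀ (m : ℕ) (V V' : ℕ → H →L[ℂ] H),
    (∀ q < m, V q = V' q) → DD M κ e m V = DD M κ e m V'
  | 0, _, _, _ => rfl
  | m + 1, V, V', h => by
    refine KM.xx_ext M (fun a y => ?_)
    rw [DD_tn, DD_tn, DD'_apply, DD'_apply]
    congr 1
    refine Finset.sum_congr rfl (fun s hs => ?_)
    rw [h s (Finset.mem_range.1 hs), DD_congr e m (del s V) (del s V') (fun q hq => by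
      rw [del_up, del_up]
      exact h _ (by unfold up; split_ifs <;> omega))]

lemma del_eq {α : Type} {c : ℕ} {V V' : ℕ → α} (h : ∀ q, q ≠ c → V q = V' q) :
    del c V = del c V' := funext (fun q => by rw [del_up, del_up]; exact h _ (up_ne c q))

lemma DD_add (e : M.carrier →L[ℂ] H) : ∀ (m c : ℕ), c < m → ∀ (V V' V'' : ℕ → H →L[ℂ] H),
    (∀ q, q ≠ c → V' q = V q) → (∀ q, q ≠ c → V'' q = V q) → V c = V' c + V'' c →
    DD M κ e m V = DD M κ e m V' + DD M κ e m V''
  | 0, _, hc, _, _, _, _, _, _ => absurd hc (Nat.not_lt_zero _)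
  | m + 1, c, hc, V, V', V'', h1, h2, h3 => by
    refine KM.xx_ext M (fun a y => ?_)
    rw [add_apply, DD_tn, DD_tn, DD_tn, ← map_add, DD'_apply, DD'_apply, DD'_apply,
      ← Finset.sum_add_distrib]
    congr 1
    refine Finset.sum_congr rfl (fun s hs => ?_)
    rw [← smul_add]
    congr 1
    by_cases h : s = c
    · rw [h, del_eq h1, del_eq h2, h3, add_apply]
    · obtain ⟨c0, h4, h5, h6, -⟩ := exists_up h (Finset.mem_range.1 hs) hc
      rw [h1 s h, h2 s h, ← map_add, DD_add e m c0 h4 (del s V) (del s V') (del s V'')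
        (fun q hq => by rw [del_up, del_up]; exact h1 _ (h6 q hq))
        (fun q hq => by rw [del_up, del_up]; exact h2 _ (h6 q hq))
        (by rw [del_up, del_up, del_up, h5]; exact h3), add_apply]

lemma DD_adj (e : M.carrier →L[ℂ] H) : ∀ (m c : ℕ), c + 1 < m → ∀ (V : ℕ → H →L[ℂ] H),
    V c = V (c + 1) → DD M κ e m V = 0
  | 0, _, hc, _, _ => absurd hc (Nat.not_lt_zero _)
  | m + 1, c, hc, V, h => by
    refine KM.xx_ext M (fun a y => ?_)
    have h1 : del c V = del (c + 1) V := funext (fun q => by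
      rw [del_up, del_up]
      unfold up
      split_ifs with h2 h3 h3
      · rfl
      · omega
      · rw [show q = c by omega, h]
      · rfl)
    rw [DD_tn, DD'_apply, Finset.sum_eq_add_of_mem c (c + 1) (Finset.mem_range.2 (by omega))
      (Finset.mem_range.2 hc) (by omega) (fun s hs h2 => by
        have hs' := Finset.mem_range.1 hs
        obtain ⟨c0, h4, h5, -, h6⟩ := exists_up h2.1 hs' (by omega)
        have h7 := (h6 h2.2).1
        rw [DD_adj e m c0 (by unfold up at h7; split_ifs at h7 <;> omega) (del s V)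
          (by rw [del_up, del_up, h5, h7, h])]
        simp), h1, h, pow_succ]
    simp

lemma DD_bd (hκ : ∀ a a' v, κ (a * a') v = κ a (κ a' v)) (e : M.carrier →L[ℂ] H)
    (he : ∀ a x, e (M.act a x) = κ a (e x)) : ∀ (m : ℕ) (V : ℕ → H →L[ℂ] H),
    (DD M κ e m V).comp (KM.bd M m) = DD M κ e (m + 1) (cons 1 V)
  | 0, V => by
    refine KM.xx_ext M (fun a x => ?_)
    rw [ContinuousLinearMap.comp_apply, KM.bd_tn, DD_zero, out_left, he, DD_tn, DD'_apply]
    simp [DD_zero]
  | m + 1, V => by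
    refine KM.xx_ext M (fun a x => ?_)
    have key : (DD M κ e (m + 1) V).comp ((YY M (m + 1)).left a)
        = (κ a).comp (DD' M κ e (m + 1) (cons 1 V)) := by
      refine KM.xx_ext M (fun a' y => ?_)
      have h : ∀ s, DD M κ e m (del s V) ((YY M m).left a' y)
          = DD M κ e (m + 1) (del (s + 1) (cons 1 V)) (KM.tn M m a' y) := fun s => by
        rw [← KM.bd_tn]
        exact congrArg (fun f : (YY M (m + 1)).carrier →L[ℂ] H => f (KM.tn M m a' y))
          (DD_bd hκ e he m (del s V))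
      rw [ContinuousLinearMap.comp_apply, ContinuousLinearMap.comp_apply, KM.left_tn, map_sub,
        DD_tn, DD_tn, hκ, ← map_sub, ← DD_tn, DD'_apply M κ e m, DD'_apply M κ e (m + 1),
        Finset.sum_range_succ' _ (m + 1)]
      congr 1
      simp only [h, pow_succ, mul_neg, mul_one, neg_smul, Finset.sum_neg_distrib, pow_zero,
        one_smul, cons_succ, cons_zero]
      rw [sub_eq_neg_add]
      rfl
    rw [ContinuousLinearMap.comp_apply, KM.bd_tn, DD_tn]
    exact congrArg (fun f : (YY M (m + 1)).carrier →L[ℂ] H => f x) key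

/-- contractions -/
def Ok (V : ℕ → H →L[ℂ] H) : Prop := ∀ s v, ‖V s v‖ ≤ ‖v‖

lemma Ok.del {V : ℕ → H →L[ℂ] H} (h : Ok V) (s : ℕ) : Ok (del s V) :=
  fun q v => by rw [del_up]; exact h _ v

lemma sum_bound {m : ℕ} {f : ℕ → ℝ} {C : ℝ} (h : ∀ s < m + 1, f s ≤ m ! * C) :
    ∑ s ∈ Finset.range (m + 1), f s ≤ (m + 1)! * C := by
  refine (Finset.sum_le_sum (fun s hs => h s (Finset.mem_range.1 hs))).trans (le_of_eq ?_)
  rw [Finset.sum_const, Finset.card_range, nsmul_eq_mul, Nat.factorial_succ]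
  push_cast
  ring

lemma norm_sign_smul {Z : Type} [NormedAddCommGroup Z] [NormedSpace ℂ Z] (s : ℕ) (z : Z) :
    ‖(-1 : ℂ) ^ s • z‖ = ‖z‖ := by
  rw [norm_smul, norm_pow, norm_neg, norm_one, one_pow, one_mul]

variable (hκ : ∀ a v, ‖κ a v‖ ≤ ‖a‖ * ‖v‖)
include hκ

lemma norm_DD_le (e : M.carrier →L[ℂ] H) (he : ∀ x, ‖e x‖ ≤ ‖x‖) :
    ∀ (m : ℕ) (V : ℕ → H →L[ℂ] H), Ok V → ∀ y, ‖DD M κ e m V y‖ ≤ m ! * ‖y‖
  | 0, V, _, y => by
    rw [DD_zero, Nat.factorial_zero, Nat.cast_one, one_mul]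
    exact he _
  | m + 1, V, hV, y => by
    refine KM.xx_norm_le M _ (Nat.cast_nonneg _) (fun a x => ?_) y
    rw [DD_tn, DD'_apply, mul_right_comm, mul_comm _ ‖a‖]
    refine (hκ _ _).trans (mul_le_mul_of_nonneg_left ((norm_sum_le _ _).trans
      (sum_bound (fun s _ => ?_))) (norm_nonneg _))
    rw [norm_sign_smul]
    exact (hV _ _).trans (norm_DD_le e he m _ (hV.del s) x)

variable (b : HilbertBasis I ℂ H) {ι : Type} [Fintype ι]

lemma sum_DD_le (e : ι → M.carrier →L[ℂ] H) (r : ι → ℂ) (m : ℕ) (V : ι → ℕ → H →L[ℂ] H)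
    {C : ℝ} (hC : 0 ≤ C)
    (h : ∀ x, ∀ s < m + 1, ‖∑ k, r k • V k s (DD M κ (e k) m (del s (V k)) x)‖ ≤ m ! * (C * ‖x‖))
    (y : (YY M (m + 1)).carrier) :
    ‖∑ k, r k • DD M κ (e k) (m + 1) (V k) y‖ ≤ (m + 1)! * (C * ‖y‖) := by
  have := KM.xx_norm_le M (∑ k, r k • DD M κ (e k) (m + 1) (V k))
    (C := (m + 1)! * C) (mul_nonneg (Nat.cast_nonneg _) hC) (fun a x => by
      have e1 : (∑ k, r k • DD M κ (e k) (m + 1) (V k)) (KM.tn M m a x)
          = κ a (∑ s ∈ Finset.range (m + 1), (-1 : ℂ) ^ s •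
            ∑ k, r k • V k s (DD M κ (e k) m (del s (V k)) x)) := by
        simp only [sum_apply, smul_apply, DD_tn, DD'_apply, Finset.smul_sum, map_sum, map_smul]
        rw [Finset.sum_comm]
        exact Finset.sum_congr rfl (fun s _ => Finset.sum_congr rfl (fun k _ => smul_comm _ _ _))
      rw [e1, mul_right_comm, mul_comm _ ‖a‖, mul_assoc]
      refine (hκ _ _).trans (mul_le_mul_of_nonneg_left ((norm_sum_le _ _).trans
        (sum_bound (fun s hs => ?_))) (norm_nonneg _))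
      rw [norm_sign_smul]
      exact h x s hs) y
  simpa only [sum_apply, smul_apply, mul_assoc] using this

lemma DD_L (e : ι → M.carrier →L[ℂ] H) (he : ∀ k x, ‖e k x‖ ≤ ‖x‖) (S : ι → Set I)
    (hS : ∀ k k', k ≠ k' → Disjoint (S k) (S k')) (r : ι → ℂ) (hr : ∀ k, ‖r k‖ ≤ 1) :
    ∀ (m c : ℕ), c < m → ∀ (V0 : ℕ → H →L[ℂ] H) (V : ι → ℕ → H →L[ℂ] H), Ok V0 →
    (∀ k, Ok (V k)) → (∀ k q, q ≠ c → V k q = V0 q) → (∀ k, V k c = Q b (S k)) →
    ∀ y, ‖∑ k, r k • DD M κ (e k) m (V k) y‖ ≤ m ! * (rt ι * ‖y‖)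
  | 0, _, hc, _, _, _, _, _, _, _ => absurd hc (Nat.not_lt_zero _)
  | m + 1, c, hc, V0, V, h0, h1, h2, h3, y => by
    refine sum_DD_le M κ hκ e r m V rt_nonneg (fun x s hs => ?_) y
    by_cases h : s = c
    · simp only [h, h3]
      rw [mul_left_comm]
      exact norm_sum_Q b hS _ r hr (by positivity)
        (fun k => norm_DD_le M κ hκ _ (he k) m _ ((h1 k).del c) x)
    · obtain ⟨c0, h4, h5, h6, -⟩ := exists_up h hs hc
      simp only [h2 _ s h, ← map_smul (V0 s), ← map_sum]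
      exact (h0 _ _).trans (DD_L e he S hS r hr m c0 h4 (del s V0) (fun k => del s (V k))
        (h0.del s) (fun k => (h1 k).del s)
        (fun k q hq => by rw [del_up, del_up]; exact h2 k _ (h6 q hq))
        (fun k => by rw [del_up, h5, h3]) x)

lemma DD_R (e : M.carrier →L[ℂ] H) (he : ∀ x, ‖e x‖ ≤ ‖x‖) (S : ι → Set I)
    (hS : ∀ k k', k ≠ k' → Disjoint (S k) (S k')) :
    ∀ (m c : ℕ), c < m → ∀ (V0 : ℕ → H →L[ℂ] H) (V : ι → ℕ → H →L[ℂ] H), Ok V0 →
    (∀ k, Ok (V k)) → (∀ k q, q ≠ c → V k q = V0 q) → (∀ k, V k c = Q b (S k)) →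
    ∀ y, ∑ k, ‖DD M κ e m (V k) y‖ ≤ m ! * (rt ι * ‖y‖)
  | 0, _, hc, _, _, _, _, _, _, _ => absurd hc (Nat.not_lt_zero _)
  | m + 1, c, hc, V0, V, h0, h1, h2, h3, y => by
    rw [← mul_assoc]
    refine KM.xx_sum_le M Finset.univ (fun k => DD M κ e (m + 1) (V k))
      (mul_nonneg (Nat.cast_nonneg _) rt_nonneg) (fun a x => ?_) y
    simp only [DD_tn, DD'_apply]
    refine (Finset.sum_le_sum (fun k _ => (hκ _ _).trans (mul_le_mul_of_nonneg_left
      (norm_sum_le _ _) (norm_nonneg _)))).trans ?_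
    rw [← Finset.mul_sum, Finset.sum_comm, mul_right_comm, mul_comm _ ‖a‖, mul_assoc]
    refine mul_le_mul_of_nonneg_left (sum_bound (fun s hs => ?_)) (norm_nonneg _)
    simp only [norm_sign_smul]
    by_cases h : s = c
    · simp only [h, h3, del_eq (h2 _)]
      rw [mul_left_comm]
      exact (sum_norm_Q b hS _).trans (mul_le_mul_of_nonneg_left
        (norm_DD_le M κ hκ _ he m _ (h0.del c) x) rt_nonneg)
    · obtain ⟨c0, h4, h5, h6, -⟩ := exists_up h hs hc
      exact (Finset.sum_le_sum (fun k _ => h1 k _ _)).trans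
        (DD_R e he S hS m c0 h4 (del s V0) (fun k => del s (V k))
        (h0.del s) (fun k => (h1 k).del s)
        (fun k q hq => by rw [del_up, del_up]; exact h2 k _ (h6 q hq))
        (fun k => by rw [del_up, h5, h3]) x)

lemma DD_M (e : M.carrier →L[ℂ] H) (he : ∀ x, ‖e x‖ ≤ ‖x‖) (S : ι → Set I)
    (hS : ∀ k k', k ≠ k' → Disjoint (S k) (S k')) (r : ι → ℂ) (hr : ∀ k, ‖r k‖ ≤ 1) :
    ∀ (m c : ℕ), c < m → ∀ (V0 : ℕ → H →L[ℂ] H) (V : ι → ℕ → H →L[ℂ] H), Ok V0 →
    (∀ k, Ok (V k)) → (∀ k q, q ≠ c → q ≠ c + 1 → V k q = V0 q) → (∀ k, V k c = Q b (S k)) →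
    ∀ y, ‖∑ k, r k • DD M κ e m (V k) y‖ ≤ m ! * (rt ι * ‖y‖)
  | 0, _, hc, _, _, _, _, _, _, _ => absurd hc (Nat.not_lt_zero _)
  | m + 1, c, hc, V0, V, h0, h1, h2, h3, y => by
    refine sum_DD_le M κ hκ (fun _ => e) r m V rt_nonneg (fun x s hs => ?_) y
    by_cases h : s = c
    · simp only [h, h3]
      rw [mul_left_comm]
      exact norm_sum_Q b hS _ r hr (by positivity)
        (fun k => norm_DD_le M κ hκ _ he m _ ((h1 k).del c) x)
    · obtain ⟨c0, h4, h5, h6, h7⟩ := exists_up h hs hc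
      by_cases h' : s = c + 1
      · refine (norm_sum_le _ _).trans ((Finset.sum_le_sum (fun k _ => ?_)).trans
          (DD_R M κ hκ b e he S hS m c0 h4 (del s V0) (fun k => del s (V k))
          (h0.del s) (fun k => (h1 k).del s)
          (fun k q hq => by rw [del_up, del_up]; exact h2 k _ (h6 q hq) (h' ▸ up_ne s q))
          (fun k => by rw [del_up, h5, h3]) x))
        rw [norm_smul]
        exact (mul_le_of_le_one_left (norm_nonneg _) (hr k)).trans (h1 k _ _)
      · simp only [h2 _ s h h', ← map_smul (V0 s), ← map_sum]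
        exact (h0 _ _).trans (DD_M e he S hS r hr m c0 h4 (del s V0) (fun k => del s (V k))
          (h0.del s) (fun k => (h1 k).del s)
          (fun k q hq hq' => by rw [del_up, del_up]; exact h2 k _ (h6 q hq) ((h7 h').2 q hq'))
          (fun k => by rw [del_up, h5, h3]) x)

lemma DD_S (e : ι → M.carrier →L[ℂ] H) (he : ∀ k x, ‖e k x‖ ≤ ‖x‖) (F : Finset I) :
    ∀ (m c : ℕ), c < m + 1 → ∀ (V : ℕ → H →L[ℂ] H), Ok V → V c = Q b F →
    ∀ (ψ : ι → H →L[ℂ] ℂ) (N : ℝ), 0 ≤ N → (∀ w, ∑ j, ‖ψ j w‖ ≤ N * ‖w‖) →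
    ∀ y, ∑ j, ‖ψ j (DD' M κ (e j) m V y)‖ ≤ (m + 1)! * (F.card * N * ‖y‖) := by
  intro m
  induction m using Nat.strong_induction_on with
  | _ m ih =>
  intro c hc V h1 h2 ψ N hN h3 y
  simp only [DD'_apply, map_sum, map_smul]
  refine (Finset.sum_le_sum (fun j _ => norm_sum_le _ _)).trans ?_
  rw [Finset.sum_comm]
  refine sum_bound (fun s hs => ?_)
  simp only [norm_sign_smul]
  by_cases h : s = c
  · simp only [h, h2, Q_finset, map_sum, map_smul]
    refine (Finset.sum_le_sum (fun j _ => norm_sum_le _ _)).trans ?_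
    rw [Finset.sum_comm]
    refine (Finset.sum_le_sum (g := fun _ => m ! * ‖y‖ * N) (fun f _ => ?_)).trans (le_of_eq ?_)
    · have h4 := h3 (b f)
      rw [norm_b, mul_one] at h4
      refine le_trans (Finset.sum_le_sum (fun j _ => ?_))
        ((Finset.mul_sum _ _ _).symm.le.trans (mul_le_mul_of_nonneg_left h4 (by positivity)))
      rw [norm_smul]
      refine mul_le_mul_of_nonneg_right ((norm_inner_le_norm _ _).trans ?_) (norm_nonneg _)
      rw [norm_b, one_mul]
      exact norm_DD_le M κ hκ _ (he j) m _ (h1.del c) y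
    · rw [Finset.sum_const, nsmul_eq_mul]
      ring
  · obtain ⟨c0, h4, h5, -, -⟩ := exists_up h hs hc
    obtain ⟨m, rfl⟩ : ∃ m', m = m' + 1 := ⟨m - 1, by omega⟩
    rw [← mul_assoc]
    refine KM.xx_sum_le M Finset.univ
      (fun j => (ψ j).comp ((V s).comp (DD M κ (e j) (m + 1) (del s V)))) (by positivity)
      (fun a x => ?_) y
    have h6 := ih m (by omega) c0 h4 (del s V) (h1.del s) (by rw [del_up, h5, h2])
      (fun j => (ψ j).comp ((V s).comp (κ a))) (N * ‖a‖) (by positivity) (fun w => by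
        rw [mul_assoc]
        exact (h3 _).trans (mul_le_mul_of_nonneg_left ((h1 _ _).trans (hκ a w)) hN)) x
    simp only [ContinuousLinearMap.comp_apply, DD_tn] at h6 ⊢
    refine h6.trans (le_of_eq ?_)
    ring

lemma DD_tail (e : M.carrier →L[ℂ] H) (he : ∀ x, ‖e x‖ ≤ ‖x‖) :
    ∀ (m c : ℕ), c < m → ∀ (V0 : ℕ → H →L[ℂ] H) (V : Finset I → ℕ → H →L[ℂ] H),
    (∀ F, Ok (V F)) → (∀ F q, q ≠ c → V F q = V0 q) → (∀ F, V F c = Q b (F : Set I)ᶜ) →
    ∀ y, Tendsto (fun F => DD M κ e m (V F) y) atTop (𝓝 0)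
  | 0, _, hc, _, _, _, _, _, _ => absurd hc (Nat.not_lt_zero _)
  | m + 1, c, hc, V0, V, h1, h2, h3, y => by
    have key := KM.xx_unif M (atTop : Filter (Finset I))
      (fun F => {DD M κ e (m + 1) (V F)}) (m + 1)! (Nat.cast_nonneg _) (by
        rintro F f rfl t
        exact norm_DD_le M κ hκ e he _ _ (h1 F) t) (by
        intro a x ε hε
        have h4 : Tendsto (fun F => κ a (∑ s ∈ Finset.range (m + 1), (-1 : ℂ) ^ s •
            V F s (DD M κ e m (del s (V F)) x))) atTop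
            (𝓝 (κ a (∑ s ∈ Finset.range (m + 1), (-1 : ℂ) ^ s • (0 : H)))) := by
          refine ((κ a).continuous.tendsto _).comp
            (tendsto_finsetSum _ (fun s hs => Tendsto.const_smul ?_ _))
          by_cases h : s = c
          · simp only [h, h3, del_eq (h2 _)]
            exact Q_tail b _
          · obtain ⟨c0, h4, h5, h6, -⟩ := exists_up h (Finset.mem_range.1 hs) hc
            simp only [h2 _ s h]
            have h7 := ((V0 s).continuous.tendsto _).comp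
              (DD_tail e he m c0 h4 (del s V0) (fun F => del s (V F)) (fun F => (h1 F).del s)
              (fun F q hq => by rw [del_up, del_up]; exact h2 F _ (h6 q hq))
              (fun F => by rw [del_up, h5, h3]) x)
            rwa [map_zero] at h7
        simp only [smul_zero, Finset.sum_const_zero, map_zero] at h4
        have h5 := h4.norm
        rw [norm_zero] at h5
        filter_upwards [h5.eventually (ge_mem_nhds hε)] with F hF
        rintro f rfl
        rwa [DD_tn, DD'_apply]) y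
    rw [Metric.tendsto_nhds]
    intro ε hε
    filter_upwards [key (ε / 2) (half_pos hε)] with F hF
    rw [dist_zero_right]
    exact (hF _ rfl).trans_lt (half_lt_self hε)

end Pool.Agent.H570Z.KH
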