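import Mathlib
import Pool.Agent.H570Z.Tn

/-!
Idempotent ultrafilters and the window lemma for merged sequences.
-/

set_option autoImplicit false

namespace Pool.Agent.H570Z

open Filter

section Idem

attribute [local instance] Ultrafilter.mul Ultrafilter.semigroup

lemma exists_idem {S ι : Type} [Semigroup S] (A : ι → Set S) (U0 : Ultrafilter S)
    (h0 : ∀ i, A i ∈ U0)
    (h : ∀ U : Ultrafilter S, (∀ i, A i ∈ U) → ∀ b i, ∀ᶠ d in (U : Filter S), b * d ∈ A i) :
    ∃ U : Ultrafilter S, (∀ i, A i ∈ U) ∧ ∀ P : S → Prop,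
      (∀ᶠ a in (U : Filter S), P a) ↔ ∀ᶠ a in (U : Filter S), ∀ᶠ b in (U : Filter S), P (a * b) := by
  have hc : IsClosed (⋂ i, {U : Ultrafilter S | A i ∈ U}) :=
    isClosed_iInter (fun i => ultrafilter_isClosed_basic (A i))
  obtain ⟨U, hU, hU'⟩ := exists_idempotent_in_compact_subsemigroup
    (Ultrafilter.continuous_mul_left (M := S)) _ ⟨U0, Set.mem_iInter.2 h0⟩ hc.isCompact
    (fun U _ V hV => Set.mem_iInter.2 (fun i =>
      (Ultrafilter.eventually_mul U V (fun a => a ∈ A i)).2
        (Eventually.of_forall (fun b => h V (Set.mem_iInter.1 hV) b i))))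
  refine ⟨U, Set.mem_iInter.1 hU, fun P => ?_⟩
  rw [← Ultrafilter.eventually_mul, hU']

end Idem

/-- a property of an entry that depends on the previous entries -/
lemma ev_prev {α : Type} (U : Ultrafilter α) (x0 : α) :
    ∀ (k n : ℕ), k < n → ∀ (R : (ℕ → α) → Prop),
    (∀ p : ℕ → α, ∀ᶠ y in (U : Filter α), ∀ s, (∀ i < k, s i = p i) → s k = y → R s) →
    ∀ᶠ s in (Pw U x0 n : Filter (ℕ → α)), R s
  | _, 0, hk, _, _ => absurd hk (Nat.not_lt_zero _)
  | 0, n + 1, _, R, h => by
    rw [ev_succ]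
    filter_upwards [h (fun _ => x0)] with y hy
    exact Eventually.of_forall (fun t => hy _ (fun i hi => absurd hi (Nat.not_lt_zero _)) rfl)
  | k + 1, n + 1, hk, R, h => by
    rw [ev_succ]
    refine Eventually.of_forall (fun x => ev_prev U x0 k n (by omega) _ (fun p => ?_))
    filter_upwards [h (cons x p)] with y hy s h1 h2
    refine hy _ (fun i hi => ?_) h2
    cases i with
    | zero => rfl
    | succ i => exact h1 i (by omega)

variable {S I : Type} [Semigroup S]

/-- the product of the outer entries of a triple -/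
def ph (t : S × I × S) : S := t.1 * t.2.2

lemma exists_chain2 [Preorder I] (V : Ultrafilter I) (hV : ∀ x : I, ∀ᶠ y in (V : Filter I), x ≤ y)
    (U : Ultrafilter S) (hU : ∀ P : S → Prop,
      (∀ᶠ a in (U : Filter S), P a) ↔ ∀ᶠ a in (U : Filter S), ∀ᶠ b in (U : Filter S), P (a * b))
    (R : S → I → I → Prop) (hR : ∀ e x y, R e x y → ∀ᶠ d in (U : Filter S), R (e * d) x y)
    (H : ∀ᶠ c in (U : Filter S), ∀ᶠ x in (V : Filter I), ∀ᶠ d in (U : Filter S),
      ∀ᶠ y in (V : Filter I), R (c * d) x y) :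
    ∀ L : ℕ, ∀ᶠ e in (U : Filter S), ∃ b : ℕ → I × I,
      (∀ k k', k < k' → k' < L → (b k).2 ≤ (b k').1) ∧ ∀ k < L, R e (b k).1 (b k).2
  | 0 => by
    obtain ⟨x, -⟩ := (Eventually.of_forall (fun _ => trivial) :
      ∀ᶠ _ in (V : Filter I), True).exists
    exact Eventually.of_forall (fun e => ⟨fun _ => (x, x),
      fun _ _ _ h => absurd h (Nat.not_lt_zero _), fun _ h => absurd h (Nat.not_lt_zero _)⟩)
  | L + 1 => by
    rw [hU]
    filter_upwards [exists_chain2 V hV U hU R hR H L, H] with c ⟨b, hb1, hb2⟩ hc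
    have h1 : ∀ᶠ x in (V : Filter I), ∀ k ∈ Finset.range L, (b k).2 ≤ x :=
      (Finset.eventually_all _).2 (fun k _ => hV _)
    obtain ⟨x, hx1, hx2⟩ := (h1.and hc).exists
    have h2 : ∀ᶠ d in (U : Filter S), ∀ k ∈ Finset.range L, R (c * d) (b k).1 (b k).2 :=
      (Finset.eventually_all _).2 (fun k hk => hR _ _ _ (hb2 k (Finset.mem_range.1 hk)))
    filter_upwards [h2, hx2] with d hd1 hd2
    obtain ⟨y, hy⟩ := hd2.exists
    refine ⟨Function.update b L (x, y), fun k k' h3 h4 => ?_, fun k hk => ?_⟩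
    · rw [Function.update_of_ne (by omega : k ≠ L)]
      by_cases h5 : k' = L
      · rw [h5, Function.update_self]
        exact hx1 k (Finset.mem_range.2 (by omega))
      · rw [Function.update_of_ne h5]
        exact hb1 k k' h3 (by omega)
    · by_cases h5 : k = L
      · rw [h5, Function.update_self]
        exact hy
      · rw [Function.update_of_ne h5]
        exact hd1 k (Finset.mem_range.2 (by omega))

/-- The window lemma for merged sequences. -/
lemma win2 [Preorder I] (V : Ultrafilter I) (hV : ∀ x : I, ∀ᶠ y in (V : Filter I), x ≤ y)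
    (U : Ultrafilter S) (hU : ∀ P : S → Prop,
      (∀ᶠ a in (U : Filter S), P a) ↔ ∀ᶠ a in (U : Filter S), ∀ᶠ b in (U : Filter S), P (a * b))
    (x0 : S × I × S) (L : ℕ) :
    ∀ (i n : ℕ), i + 1 < n → ∀ (Big : (ℕ → S) → I → I → Prop),
    (∀ (l : ℕ → S) (b : ℕ → I × I), (∀ k k', k < k' → k' < L → (b k).2 ≤ (b k').1) →
      ¬ ∀ k < L, Big l (b k).1 (b k).2) →
    ∀ᶠ s in (Pw (U2 U (U2 V U)) x0 n : Filter (ℕ → S × I × S)),
      ¬ Big (mrg i (ph ∘ s)) (s i).2.1 (s (i + 1)).2.1
  | _, 0, hn, _, _ => absurd hn (Nat.not_lt_zero _)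
  | i + 1, n + 1, hn, Big, h => by
    rw [ev_succ]
    refine Eventually.of_forall (fun x => ?_)
    have := win2 V hV U hU x0 L i n (by omega) (fun l => Big (cons (ph x) l))
      (fun l => h (cons (ph x) l))
    filter_upwards [this] with s hs
    rw [comp_cons]
    exact hs
  | 0, 1, hn, _, _ => absurd hn (by omega)
  | 0, n + 2, _, Big, h => by
    by_contra hc
    rw [← Ultrafilter.eventually_not] at hc
    simp only [not_not] at hc
    rw [ev_succ, ev_U2] at hc
    let R : S → I → I → Prop := fun e x y => ∀ᶠ d in (U : Filter S),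
      ∀ᶠ t in (Pw (U2 U (U2 V U)) x0 n : Filter (ℕ → S × I × S)), Big (cons (e * d) (ph ∘ t)) x y
    have hR : ∀ e x y, R e x y → ∀ᶠ d in (U : Filter S), R (e * d) x y := by
      intro e x y h1
      filter_upwards [(hU _).1 h1] with d hd
      filter_upwards [hd] with d' hd'
      rwa [mul_assoc]
    have H : ∀ᶠ c in (U : Filter S), ∀ᶠ x in (V : Filter I), ∀ᶠ d in (U : Filter S),
        ∀ᶠ y in (V : Filter I), R (c * d) x y := by
      filter_upwards [hc] with c h1
      rw [ev_U2] at h1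
      filter_upwards [h1] with x h2
      rw [hU]
      filter_upwards [h2] with d h3
      rw [ev_succ, ev_U2] at h3
      filter_upwards [h3] with c' h4
      rw [ev_U2] at h4
      filter_upwards [h4] with y h5
      filter_upwards [h5] with d' h6
      filter_upwards [h6] with t ht
      have e : mrg 0 (ph ∘ cons (c, x, d) (cons (c', y, d') t))
          = cons (c * (d * c') * d') (ph ∘ t) := by
        rw [comp_cons, comp_cons]
        show cons (c * d * (c' * d')) (ph ∘ t) = _
        simp only [mul_assoc]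
      rw [e] at ht
      exact ht
    obtain ⟨e, b, hb1, hb2⟩ := (exists_chain2 V hV U hU R hR H L).exists
    obtain ⟨d, hd⟩ := ((Finset.eventually_all (Finset.range L)).2
      (fun k hk => hb2 k (Finset.mem_range.1 hk))).exists
    obtain ⟨t, ht⟩ := ((Finset.eventually_all _).2 hd).exists
    exact h _ b hb1 (fun k hk => ht k (Finset.mem_range.2 hk))

lemma comp_mrg {S' : Type} [Mul S'] (f : S → S') (hf : ∀ a b, f (a * b) = f a * f b) :
    ∀ (j : ℕ) (a : ℕ → S), f ∘ mrg j a = mrg j (f ∘ a)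
  | 0, a => by
    show f ∘ cons (a 0 * a 1) (tl (tl a)) = cons (f (a 0) * f (a 1)) (tl (tl (f ∘ a)))
    rw [comp_cons, hf]
    rfl
  | j + 1, a => by
    show f ∘ cons (a 0) (mrg j (tl a)) = cons (f (a 0)) (mrg j (tl (f ∘ a)))
    rw [comp_cons, comp_mrg f hf j (tl a)]
    rfl

/-- the sign of a map, zero if the map is not bijective -/
noncomputable def cf {m : ℕ} (g : Fin m → Fin m) : ℂ :=
  Matrix.det (Matrix.of fun r s => if g r = s then (1 : ℂ) else 0)

lemma cf_id (m : ℕ) : cf (id : Fin m → Fin m) = 1 := by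
  have : (Matrix.of fun r s : Fin m => if id r = s then (1 : ℂ) else 0) = 1 := by
    ext r s
    simp [Matrix.one_apply]
  rw [cf, this, Matrix.det_one]

lemma cf_surj {m : ℕ} {g : Fin m → Fin m} (h : cf g ≠ 0) : Function.Surjective g := by
  intro s
  by_contra hs
  exact h (Matrix.det_eq_zero_of_column_eq_zero s (fun r => if_neg (fun h1 => hs ⟨r, h1⟩)))

lemma cf_sum {m : ℕ} (f : Fin (m + 1) → Fin m) :
    ∑ i : Fin (m + 1), (-1 : ℂ) ^ (i : ℕ) * cf (f ∘ i.succAbove) = 0 := by
  let M : Matrix (Fin (m + 1)) (Fin (m + 1)) ℂ :=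
    Matrix.of fun r s => Fin.cases (1 : ℂ) (fun s => if f r = s then 1 else 0) s
  have h1 : M.det = 0 := by
    refine Matrix.exists_mulVec_eq_zero_iff.1 ⟨Fin.cases 1 (fun _ => -1), fun h => ?_, ?_⟩
    · simpa using congrFun h 0
    · ext r
      simp [M, Matrix.mulVec, dotProduct, Fin.sum_univ_succ]
  rw [Matrix.det_succ_column_zero] at h1
  rw [← h1]
  refine Finset.sum_congr rfl (fun i _ => ?_)
  have e : M i 0 = 1 := rfl
  rw [e, mul_one]
  rfl

lemma cf_alt {m : ℕ} (t : (Fin (m + 1) → Fin m) → ℂ) :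
    ∑ g : Fin m → Fin m, cf g * ∑ i : Fin (m + 1), (-1 : ℂ) ^ (i : ℕ) *
      ∑ r : Fin m, t (i.insertNth r g) = 0 := by
  have h1 : ∀ i : Fin (m + 1), ∑ g : Fin m → Fin m, ∑ r : Fin m, cf g * t (i.insertNth r g)
      = ∑ f : Fin (m + 1) → Fin m, cf (f ∘ i.succAbove) * t f := by
    intro i
    rw [Finset.sum_comm, ← Fintype.sum_prod_type']
    refine Fintype.sum_equiv (Fin.insertNthEquiv (fun _ => Fin m) i) _ _ (fun x => ?_)
    have e : (Fin.insertNthEquiv (fun _ => Fin m) i x) ∘ i.succAbove = x.2 := by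
      funext j
      simp [Fin.insertNthEquiv]
    rw [e]
    rfl
  calc _ = ∑ i : Fin (m + 1), (-1 : ℂ) ^ (i : ℕ) *
        ∑ g : Fin m → Fin m, ∑ r : Fin m, cf g * t (i.insertNth r g) := by
        simp only [Finset.mul_sum]
        rw [Finset.sum_comm]
        refine Finset.sum_congr rfl (fun i _ => Finset.sum_congr rfl (fun g _ =>
          Finset.sum_congr rfl (fun r _ => by ring)))
    _ = ∑ f : Fin (m + 1) → Fin m,
        (∑ i : Fin (m + 1), (-1 : ℂ) ^ (i : ℕ) * cf (f ∘ i.succAbove)) * t f := by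
        simp only [h1, Finset.mul_sum, Finset.sum_mul]
        rw [Finset.sum_comm]
        refine Finset.sum_congr rfl (fun f _ => Finset.sum_congr rfl (fun i _ => by ring))
    _ = 0 := by simp only [cf_sum, zero_mul, Finset.sum_const_zero]

end Pool.Agent.H570Z
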