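import Mathlib
import Pool.Agent.H570Z.KB
import Pool.Agent.H570Z.Pw2

/-!
A module of infinite homological dimension over algebras of operators on a Hilbert space.
-/

set_option autoImplicit false
set_option maxSynthPendingDepth 3
set_option linter.unusedSectionVars false

namespace Pool.Agent.H570Z.KH

open Filter Topology Set Pool.Agent.Helper832.GD Pool.Agent.H570Z.KM InnerProductSpace
open scoped InnerProductSpace Nat

variable {A H I : Type} [NonUnitalNormedRing A] [NormedSpace ℂ A] [IsScalarTower ℂ A A]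
  [SMulCommClass ℂ A A] [NormedAddCommGroup H] [InnerProductSpace ℂ H] [CompleteSpace H]

/-- the data used in the argument -/
structure Dat (M : LMod A) (κ : A →L[ℂ] H →L[ℂ] H) (b : HilbertBasis I ℂ H) where
  E : I → I → A
  e : I → M.carrier →L[ℂ] H
  xs : I → I → M.carrier
  k_mul : ∀ a a' v, κ (a * a') v = κ a (κ a' v)
  k_le : ∀ a v, ‖κ a v‖ ≤ ‖a‖ * ‖v‖
  e_act : ∀ i a x, e i (M.act a x) = κ a (e i x)
  e_le : ∀ i x, ‖e i x‖ ≤ ‖x‖
  k_E : ∀ u v w, κ (E u v) w = ⟪b v, w⟫_ℂ • b u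
  E_mul : ∀ u v w, E u v * E v w = E u w
  E_le : ∀ u v, ‖E u v‖ ≤ 1
  E_sum : ∀ (N : ℕ) (u v : Fin N → I), Function.Injective u → Function.Injective v →
    ∀ r : Fin N → ℂ, (∀ k, ‖r k‖ ≤ 1) → ‖∑ k, r k • E (u k) (v k)‖ ≤ 1
  e_xs : ∀ i u, e i (xs i u) = b u
  act_xs : ∀ i u v, M.act (E u v) (xs i v) = xs i u
  xs_sum : ∀ (N : ℕ) (i u : Fin N → I), Function.Injective i →
    ∀ r : Fin N → ℂ, (∀ k, ‖r k‖ ≤ 1) → ‖∑ k, r k • xs (i k) (u k)‖ ≤ 1

variable {M : LMod A} {κ : A →L[ℂ] H →L[ℂ] H} {b : HilbertBasis I ℂ H} (D : Dat M κ b)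

/-- the path elements -/
noncomputable def pe : (n : ℕ) → (ℕ → I) → I → (YY M n).carrier
  | 0, v, i => inn M (D.xs i (v 0))
  | n + 1, v, i => KM.tn M n (D.E (v 0) (v 1)) (pe n (tl v) i)

lemma pe_succ (n : ℕ) (v : ℕ → I) (i : I) :
    pe D (n + 1) v i = KM.tn M n (D.E (v 0) (v 1)) (pe D n (tl v) i) := rfl

lemma pe_congr : ∀ (n : ℕ) (v w : ℕ → I) (i : I), (∀ q ≤ n, v q = w q) → pe D n v i = pe D n w i
  | 0, v, w, i, h => by
    show inn M (D.xs i (v 0)) = inn M (D.xs i (w 0))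
    rw [h 0 le_rfl]
  | n + 1, v, w, i, h => by
    rw [pe_succ, pe_succ, h 0 (by omega), h 1 (by omega),
      pe_congr n (tl v) (tl w) i (fun q hq => h (q + 1) (by omega))]

lemma left_pe : ∀ (n : ℕ) (v : ℕ → I) (i : I),
    (YY M n).left (D.E (v 0) (v 1)) (pe D n (tl v) i)
      = ∑ j ∈ Finset.range (n + 1), (-1 : ℂ) ^ j • pe D n (del (j + 1) v) i
  | 0, v, i => by
    rw [Finset.sum_range_one, pow_zero, one_smul]
    show (YY M 0).left _ (inn M (D.xs i (v 1))) = inn M (D.xs i (v 0))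
    rw [left_inn, D.act_xs]
  | n + 1, v, i => by
    rw [pe_succ, KM.left_tn, left_pe n (tl v) i, Finset.sum_range_succ' _ (n + 1), map_sum]
    have e1 : ∀ j, pe D (n + 1) (del (j + 1 + 1) v) i
        = KM.tn M n (D.E (v 0) (v 1)) (pe D n (del (j + 1) (tl v)) i) := fun j => rfl
    have e2 : pe D (n + 1) (del (0 + 1) v) i
        = KM.tn M n (D.E (v 0) (v 2)) (pe D n (tl (tl v)) i) := rfl
    have e3 : D.E (v 0) (v 1) * D.E (tl v 0) (tl v 1) = D.E (v 0) (v 2) := D.E_mul _ _ _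
    simp only [e1, e2, e3, map_smul, pow_succ, pow_zero, one_smul, mul_neg, mul_one, neg_smul,
      Finset.sum_neg_distrib]
    abel

lemma norm_pe_a {N : ℕ} (i : Fin N → I) (hi : Function.Injective i) (r : Fin N → ℂ)
    (hr : ∀ k, ‖r k‖ ≤ 1) : ∀ (n : ℕ) (v : ℕ → I), ‖∑ k, r k • pe D n v (i k)‖ ≤ 1
  | 0, v => by
    have h := D.xs_sum N i (fun _ => v 0) hi r hr
    rw [← norm_inn, map_sum] at h
    simp only [map_smul] at h
    exact h
  | n + 1, v => by
    simp only [pe_succ, ← map_smul (KM.tn M n _), ← map_sum]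
    exact (KM.norm_tn_le M n _ _).trans (mul_le_one₀ (D.E_le _ _) (norm_nonneg _)
      (norm_pe_a i hi r hr n (tl v)))

lemma norm_pe_le (n : ℕ) (v : ℕ → I) (i : I) : ‖pe D n v i‖ ≤ 1 := by
  have h := norm_pe_a D (N := 1) (fun _ => i) (fun _ _ _ => Subsingleton.elim _ _) (fun _ => 1)
    (fun _ => by simp) n v
  simpa using h

lemma norm_pe_b {N : ℕ} (i : Fin N → I) (hi : Function.Injective i) :
    ∀ (n : ℕ) (v : Fin N → ℕ → I), (∀ q ≤ n, Function.Injective (fun k => v k q)) →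
    ∀ (r : Fin N → ℂ), (∀ k, ‖r k‖ ≤ 1) → ‖∑ k, r k • pe D n (v k) (i k)‖ ≤ 1
  | 0, v, _, r, hr => by
    have h := D.xs_sum N i (fun k => v k 0) hi r hr
    rw [← norm_inn, map_sum] at h
    simp only [map_smul] at h
    exact h
  | n + 1, v, hv, r, hr =>
    norm_sum_bil (KM.tn M n) (KM.norm_tn_le M n) _ _
      (D.E_sum N _ _ (hv 0 (by omega)) (hv 1 (by omega)))
      (norm_pe_b i hi n (fun k => tl (v k)) (fun q hq => hv (q + 1) (by omega))) r hr

lemma inner_b_self (u : I) : ⟪b u, b u⟫_ℂ = 1 := by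
  rw [inner_self_eq_norm_sq_to_K, norm_b]
  simp

lemma DD_main (i : I) : ∀ (m : ℕ) (S : ℕ → Set I) (v : ℕ → I), (∀ r < m, v (r + 1) ∈ S r) →
    (∀ r q, r < q → q < m → v (r + 1) ∉ S q) →
    DD M κ (D.e i) m (fun q => Q b (S q)) (pe D m v i) = b (v 0)
  | 0, _, v, _, _ => D.e_xs i (v 0)
  | m + 1, S, v, h1, h2 => by
    rw [pe_succ, DD_tn, DD'_apply, map_sum, Finset.sum_eq_single 0 (fun s hs h => by
      rw [map_smul, D.k_E, ← Q_inner, Q_notMem b (h2 0 s (by omega) (Finset.mem_range.1 hs))]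
      simp) (by simp), pow_zero, one_smul]
    have h3 := DD_main i m (tl S) (tl v) (fun r hr => h1 (r + 1) (by omega))
      (fun r q h h' => h2 (r + 1) (q + 1) (by omega) (by omega))
    have h4 : del 0 (fun q => Q b (S q)) = fun q => Q b (tl S q) := rfl
    rw [h4, h3, tl_apply, Q_mem b (h1 0 (by omega)), D.k_E, inner_b_self, one_smul]

lemma exists_L {C ε : ℝ} (hC : 0 ≤ C) (hε : 0 < ε) :
    ∃ L : ℕ, 0 < L ∧ C * rt (Fin L) < L * ε := by
  obtain ⟨L, hL⟩ := exists_nat_gt ((C / ε) ^ 2)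
  have h0 : (0 : ℝ) < L := lt_of_le_of_lt (sq_nonneg _) hL
  refine ⟨L, by exact_mod_cast h0, ?_⟩
  have h1 : rt (Fin L) ^ 2 = L := by rw [rt_sq, Fintype.card_fin]
  have h2 : C / ε < rt (Fin L) := lt_of_pow_lt_pow_left₀ 2 rt_nonneg (by rwa [h1])
  rw [div_lt_iff₀ hε] at h2
  have h3 : 0 < rt (Fin L) := by
    by_contra h
    nlinarith [le_antisymm (not_lt.1 h) rt_nonneg]
  rw [← h1]
  nlinarith

lemma not_forall_lt {L : ℕ} {f : Fin L → ℝ} {ε C : ℝ} (hL : C < L * ε) (h : ∑ k, f k ≤ C) :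
    ¬ ∀ k, ε < f k := fun h1 => by
  have h2 := Finset.sum_le_sum (s := Finset.univ) (fun k _ => (h1 k).le)
  rw [Finset.sum_const, Finset.card_univ, Fintype.card_fin, nsmul_eq_mul] at h2
  linarith

lemma norm_phi_le (u : I) (w : H) : ‖innerSL ℂ (b u) w‖ ≤ ‖w‖ := by
  refine (norm_inner_le_norm _ _).trans ?_
  rw [norm_b, one_mul]

lemma Ok_Q (S : ℕ → Set I) : Ok (fun q => Q b (S q)) := fun _ _ => norm_Q_le b _ _

lemma Ok.update {V : ℕ → H →L[ℂ] H} (h : Ok V) (c : ℕ) (S : Set I) :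
    Ok (Function.update V c (Q b S)) := fun q v => by
  by_cases h1 : q = c
  · rw [h1, Function.update_self]; exact norm_Q_le b _ _
  · rw [Function.update_of_ne h1]; exact h q v

lemma Ok.cons {V : ℕ → H →L[ℂ] H} (h : Ok V) {P : H →L[ℂ] H} (hP : ∀ v, ‖P v‖ ≤ ‖v‖) :
    Ok (cons P V)
  | 0 => hP
  | q + 1 => h q

lemma Q_compl {x y : Finset I} (h : x ≤ y) :
    Q b (x : Set I)ᶜ = Q b ((y : Set I) \ x) + Q b (y : Set I)ᶜ :=
  Q_add b (fun u => by
    have : u ∈ x → u ∈ y := fun h1 => h h1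
    simp only [mem_compl_iff, Finset.mem_coe, Set.mem_sdiff]
    tauto)

lemma disj_of_chain {L : ℕ} {x y : Fin L → Finset I} (h : ∀ k k', k < k' → y k ≤ x k') :
    ∀ k k', k ≠ k' → Disjoint ((y k : Set I) \ x k) ((y k' : Set I) \ x k') := by
  have aux : ∀ k k', k < k' → Disjoint ((y k : Set I) \ x k) ((y k' : Set I) \ x k') :=
    fun k k' h1 => disjoint_left.2 (fun u h2 h3 => h3.2 (h k k' h1 h2.1))
  intro k k' h1
  rcases lt_or_gt_of_ne h1 with h1 | h1
  exacts [aux k k' h1, (aux k' k h1).symm]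

variable (V : Ultrafilter (Finset I)) (hVle : (V : Filter (Finset I)) ≤ atTop)
  (U : Ultrafilter I) (hU : ∀ x, ∀ᶠ y in (U : Filter I), y ≠ x) (x0 : Finset I × I) (v0 : I)
  {n : ℕ} {ε : ℝ} (hε : 0 < ε)

/-- the windows of a sequence -/
noncomputable def CW (b : HilbertBasis I ℂ H) (s : ℕ → Finset I × I) : ℕ → H →L[ℂ] H :=
  fun q => Q b ((s (q + 1)).1 : Set I)ᶜ

include hVle hε in
lemma mid_small (T : (YY M (n + 1)).carrier →L[ℂ] (YY M (n + 1)).carrier) {c : ℕ} (hc : c < n) :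
    ∀ᶠ s in (Pw (U2 V U) x0 (n + 2) : Filter (ℕ → Finset I × I)),
      ‖innerSL ℂ (b v0) (DD M κ (D.e (s (n + 1)).2) (n + 1) (CW b s)
        (T (pe D (n + 1) (del (c + 2) (cons v0 (Prod.snd ∘ s))) (s (n + 1)).2)))‖ ≤ ε := by
  classical
  obtain ⟨L, hL0, hL⟩ := exists_L (C := (n + 1)! * ‖T‖) (by positivity) hε
  simp only [← not_lt]
  refine win3 V (fun x => hVle (eventually_ge_atTop x)) U x0 L (c + 1) (n + 2) (by omega) _
    (fun s h1 h2 h3 h4 => ?_)
  let k0 : Fin L := ⟨0, hL0⟩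
  have e1 : ∀ k, (s k (n + 1)).2 = (s k0 (n + 1)).2 := fun k => h1 k k0 _ (by omega)
  have e2 : ∀ k, del (c + 2) (cons v0 (Prod.snd ∘ s k))
      = del (c + 2) (cons v0 (Prod.snd ∘ s k0)) := fun k => del_eq (fun q hq => by
    cases q with
    | zero => rfl
    | succ q => exact h1 k k0 q (by omega))
  simp only [e1, e2]
  set i := (s k0 (n + 1)).2
  set y := T (pe D (n + 1) (del (c + 2) (cons v0 (Prod.snd ∘ s k0))) i) with hy
  let W : Fin L → ℕ → H →L[ℂ] H := fun k => Function.update (CW b (s k)) c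
    (Q b (((s k (c + 2)).1 : Set I) \ (s k (c + 1)).1))
  have e3 : ∀ k, DD M κ (D.e i) (n + 1) (CW b (s k)) = DD M κ (D.e i) (n + 1) (W k) := by
    intro k
    rw [DD_add M κ (D.e i) (n + 1) c (by omega) (CW b (s k)) (W k)
      (Function.update (CW b (s k)) c (Q b ((s k (c + 2)).1 : Set I)ᶜ))
      (fun q hq => Function.update_of_ne hq _ _) (fun q hq => Function.update_of_ne hq _ _)
      (by
        simp only [W, Function.update_self]
        exact Q_compl (h3 k)),
      DD_adj M κ (D.e i) (n + 1) c (by omega)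
        (Function.update (CW b (s k)) c (Q b ((s k (c + 2)).1 : Set I)ᶜ)) (by
        rw [Function.update_self, Function.update_of_ne (by omega)]
        rfl), add_zero]
  simp only [e3]
  refine not_forall_lt hL (sum_le_of_phase _ (fun r hr => ?_))
  have h5 := DD_M M κ D.k_le b (D.e i) (D.e_le i) _ (disj_of_chain h4) r hr (n + 1) c (by omega)
    (CW b (s k0)) W (Ok_Q _) (fun k => (Ok_Q _).update _ _) (fun k q hq hq' => by
      simp only [W, Function.update_of_ne hq, CW]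
      rw [h2 k k0 (q + 1) (by omega) (by omega)]) (fun k => Function.update_self _ _ _) y
  have h6 : ‖y‖ ≤ ‖T‖ :=
    (T.le_opNorm _).trans (mul_le_of_le_one_right (norm_nonneg _) (norm_pe_le D _ _ _))
  simp only [← smul_eq_mul, ← map_smul (innerSL ℂ (b v0)), ← map_sum]
  refine ((norm_phi_le _ _).trans h5).trans ?_
  rw [smul_eq_mul, smul_eq_mul, mul_assoc, mul_comm ‖T‖]
  exact mul_le_mul_of_nonneg_left (mul_le_mul_of_nonneg_left h6 rt_nonneg) (Nat.cast_nonneg _)

include hVle hU hε in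
lemma last_small (T : (YY M (n + 1)).carrier →L[ℂ] (YY M (n + 1)).carrier) (w : ℕ → I)
    (V0 : ℕ → H →L[ℂ] H) (h0 : Ok V0) :
    ∀ᶠ x : Finset I in (V : Filter (Finset I)), ∀ᶠ v in (U : Filter I),
      ‖innerSL ℂ (b v0) (DD M κ (D.e v) (n + 1) (Function.update V0 n (Q b (x : Set I)ᶜ))
        (T (pe D (n + 1) w v)))‖ ≤ ε := by
  classical
  obtain ⟨L, hL0, hL⟩ := exists_L (C := (n + 1)! * ‖T‖) (by positivity) (half_pos hε)
  by_contra hc
  simp only [← Ultrafilter.eventually_not, not_le] at hc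
  obtain ⟨f, h1, h2⟩ := exists_seq_of_forall_finset_exists
    (fun p : Finset I × I × Finset I => ε / 2 < ‖innerSL ℂ (b v0) (DD M κ (D.e p.2.1) (n + 1)
      (Function.update V0 n (Q b ((p.2.2 : Set I) \ p.1))) (T (pe D (n + 1) w p.2.1)))‖)
    (fun p q => p.2.2 ≤ q.1 ∧ q.2.1 ≠ p.2.1) (fun s _ => by
      obtain ⟨x, h1, h2⟩ := (((Finset.eventually_all s).2
        (fun p _ => hVle (eventually_ge_atTop p.2.2))).and hc).exists
      obtain ⟨v, h3, h4⟩ := (((Finset.eventually_all s).2 (fun p _ => hU p.2.1)).and h2).exists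
      have h5 := (DD_tail M κ D.k_le b (D.e v) (D.e_le v) (n + 1) n (by omega) V0
        (fun F => Function.update V0 n (Q b (F : Set I)ᶜ)) (fun F => h0.update _ _)
        (fun F q hq => Function.update_of_ne hq _ _) (fun F => Function.update_self _ _ _)
        (T (pe D (n + 1) w v))).norm
      rw [norm_zero] at h5
      obtain ⟨y, h6, h7⟩ := ((eventually_ge_atTop x).and
        (h5.eventually (ge_mem_nhds (half_pos hε)))).exists
      refine ⟨(x, v, y), ?_, fun p hp => ⟨h1 p hp, h3 p hp⟩⟩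
      rw [DD_add M κ (D.e v) (n + 1) n (by omega) _
        (Function.update V0 n (Q b ((y : Set I) \ x))) (Function.update V0 n (Q b (y : Set I)ᶜ))
        (fun q hq => by rw [Function.update_of_ne hq, Function.update_of_ne hq])
        (fun q hq => by rw [Function.update_of_ne hq, Function.update_of_ne hq])
        (by
          simp only [Function.update_self]
          exact Q_compl h6), add_apply, map_add] at h4
      linarith [(h4.trans_le (norm_add_le _ _)), (norm_phi_le (b := b) v0 _).trans h7])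
  have hinj : Function.Injective (fun k : Fin L => (f k).2.1) := fun k k' h => by
    by_contra h3
    rcases lt_or_gt_of_ne h3 with h3 | h3
    exacts [(h2 k k' h3).2 h.symm, (h2 k' k h3).2 h]
  refine not_forall_lt hL ?_ (fun k : Fin L => h1 k)
  have h3 := diag_sum (fun k : Fin L => (innerSL ℂ (b v0)).comp ((DD M κ (D.e (f k).2.1) (n + 1)
      (Function.update V0 n (Q b (((f k).2.2 : Set I) \ (f k).1)))).comp T))
    (fun k => pe D (n + 1) w (f k).2.1) (M := (n + 1)! * ‖T‖ * rt (Fin L))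
    (mul_nonneg (by positivity) rt_nonneg) (fun y => sum_le_of_phase _ (fun r hr => by
      have h5 := DD_L M κ D.k_le b (fun k : Fin L => D.e (f k).2.1) (fun k => D.e_le _) _
        (disj_of_chain (x := fun k => (f k).1) (y := fun k => (f k).2.2)
          (fun k k' h => (h2 k k' h).1)) r hr (n + 1) n (by omega) V0 _ h0
        (fun k => h0.update _ _) (fun k q hq => Function.update_of_ne hq _ _)
        (fun k => Function.update_self _ _ _) (T y)
      simp only [ContinuousLinearMap.comp_apply, ← smul_eq_mul, ← map_smul (innerSL ℂ (b v0)),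
        ← map_sum]
      refine ((norm_phi_le _ _).trans h5).trans ?_
      simp only [smul_eq_mul]
      have h6 := mul_le_mul_of_nonneg_left (mul_le_mul_of_nonneg_left (T.le_opNorm y)
        (rt_nonneg (ι := Fin L))) (Nat.cast_nonneg (α := ℝ) (n + 1)!)
      linarith)) (N := 1) (fun r hr => norm_pe_a D _ hinj r hr _ _)
  rwa [mul_one] at h3

include hU hε in
lemma first_small (T : (YY M n).carrier →L[ℂ] (YY M (n + 1)).carrier)
    (hT : ∀ a x, KM.tn M n a x = (YY M (n + 1)).left a (T x) - T ((YY M n).left a x))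
    (F : Finset I) :
    ∀ᶠ v in (U : Filter I),
      ∀ᶠ t : ℕ → Finset I × I in (Pw (U2 V U) x0 n : Filter (ℕ → Finset I × I)),
      ‖innerSL ℂ (b v0) (DD M κ (D.e (cons v (Prod.snd ∘ t) n)) (n + 1)
        (cons (Q b F) (fun q => Q b ((t q).1 : Set I)ᶜ))
        (T (KM.bd M n (pe D (n + 1) (cons v0 (cons v (Prod.snd ∘ t)))
          (cons v (Prod.snd ∘ t) n)))))‖ ≤ ε := by
  classical
  obtain ⟨L, hL0, hL⟩ := exists_L (C := (n + 1 + 1)! * F.card * ‖T‖ + (n + 1)! * F.card)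
    (by positivity) hε
  by_contra hc
  simp only [← Ultrafilter.eventually_not, not_le] at hc
  obtain ⟨v, hv, h1⟩ := inj_choice U hU L _ (fun _ => hc)
  obtain ⟨t, h2, h3, h4⟩ := par V U hU x0 L n _ h1
  let k0 : Fin L := ⟨0, hL0⟩
  simp only [fun j q => h3 j k0 q] at h2
  set W := cons (Q b F) (fun q => Q b ((t k0 q).1 : Set I)ᶜ) with hW
  have hWo : Ok W := (Ok_Q _).cons (norm_Q_le b _)
  let w : Fin L → ℕ → I := fun j => cons (v j) (Prod.snd ∘ t j)
  have hw : ∀ q ≤ n, Function.Injective (fun j => w j q) := fun q hq => by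
    cases q with
    | zero => exact hv
    | succ q => exact h4 q (by omega)
  have hx := norm_pe_b D _ (hw n le_rfl) n w hw
  have hψ : ∀ z, ∑ j, ‖innerSL ℂ (b (v j)) z‖ ≤ rt (Fin L) * ‖z‖ := sum_inner_le b hv
  have h5 := diag_sum (fun j => (innerSL ℂ (b (v j))).comp
      ((DD' M κ (D.e (w j n)) (n + 1) (cons 1 W)).comp T)) _
    (M := (n + 1 + 1)! * F.card * ‖T‖ * rt (Fin L)) (mul_nonneg (by positivity) rt_nonneg)
    (fun y => by
      have h6 := DD_S M κ D.k_le b (fun j => D.e (w j n)) (fun j => D.e_le _) F (n + 1) 1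
        (by omega) (cons 1 W) (hWo.cons (fun _ => le_rfl)) rfl _ _ rt_nonneg hψ (T y)
      have h7 := mul_le_mul_of_nonneg_left (mul_le_mul_of_nonneg_left (T.le_opNorm y)
        (mul_nonneg (Nat.cast_nonneg (α := ℝ) F.card) (rt_nonneg (ι := Fin L))))
        (Nat.cast_nonneg (α := ℝ) (n + 1 + 1)!)
      simp only [ContinuousLinearMap.comp_apply]
      linarith) hx
  have h6 := diag_sum (fun j => (innerSL ℂ (b (v j))).comp (DD' M κ (D.e (w j n)) n W)) _
    (M := (n + 1)! * F.card * rt (Fin L)) (mul_nonneg (by positivity) rt_nonneg)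
    (fun y => by
      have h6 := DD_S M κ D.k_le b (fun j => D.e (w j n)) (fun j => D.e_le _) F n 0
        (by omega) W hWo rfl _ _ rt_nonneg hψ y
      simp only [ContinuousLinearMap.comp_apply]
      linarith) hx
  refine not_forall_lt hL ?_ h2
  rw [mul_one] at h5 h6
  rw [add_mul]
  refine le_trans (Finset.sum_le_sum (fun j _ => ?_))
    (Finset.sum_add_distrib.le.trans (add_le_add h5 h6))
  have e1 : pe D (n + 1) (cons v0 (w j)) (w j n)
      = KM.tn M n (D.E v0 (v j)) (pe D n (w j) (w j n)) := rfl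
  have e2 : ∀ z, innerSL ℂ (b v0) (κ (D.E v0 (v j)) z) = innerSL ℂ (b (v j)) z := fun z => by
    rw [D.k_E, map_smul, innerSL_apply_apply, inner_b_self, smul_eq_mul, mul_one]
    rfl
  have e3 : ∀ c x, T ((YY M n).left c x) = KM.bd M (n + 1) (KM.tn M (n + 1) c (T x))
      - KM.tn M n c x := fun c x => by
    rw [KM.bd_tn, hT]; abel
  have e4 := congrArg (fun f : (YY M (n + 1 + 1)).carrier →L[ℂ] H =>
    f (KM.tn M (n + 1) (D.E v0 (v j)) (T (pe D n (w j) (w j n)))))
    (DD_bd M κ D.k_mul (D.e (w j n)) (D.e_act _) (n + 1) W)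
  simp only [ContinuousLinearMap.comp_apply] at e4 ⊢
  show ‖innerSL ℂ (b v0) (DD M κ (D.e (w j n)) (n + 1) W
    (T (KM.bd M n (pe D (n + 1) (cons v0 (w j)) (w j n)))))‖ ≤ _
  rw [e1, KM.bd_tn, e3, map_sub, e4, DD_tn, DD_tn, map_sub, e2, e2]
  exact norm_sub_le _ _

include D in
theorem not_hasRes [CompleteSpace A] [Infinite I] (n : ℕ) : ¬ M.HasResolution n := by
  classical
  intro h0
  obtain ⟨T, hT⟩ := KM.exists_T M h0
  let V : Ultrafilter (Finset I) := Ultrafilter.of atTop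
  have hVle : (V : Filter (Finset I)) ≤ atTop := Ultrafilter.of_le _
  let U : Ultrafilter I := hyperfilter I
  have hU' : ∀ F : Finset I, ∀ᶠ y in (U : Filter I), y ∉ F :=
    fun F => hyperfilter_le_cofinite F.eventually_cofinite_notMem
  have hU : ∀ x, ∀ᶠ y in (U : Filter I), y ≠ x := fun x => by simpa using hU' {x}
  obtain ⟨v0⟩ : Nonempty I := inferInstance
  let x0 : Finset I × I := (∅, v0)
  set ε : ℝ := 1 / (n + 3) with hεdef
  have hε : 0 < ε := by positivity
  have E1 := (Finset.eventually_all (Finset.range n)).2 (fun c hc =>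
    mid_small D V hVle U x0 v0 hε (T.comp (KM.bd M n)) (Finset.mem_range.1 hc))
  have E2 : ∀ᶠ s in (Pw (U2 V U) x0 (n + 2) : Filter (ℕ → Finset I × I)),
      ‖innerSL ℂ (b v0) (DD M κ (D.e (s (n + 1)).2) (n + 1) (CW b s)
        (T (KM.bd M n (pe D (n + 1) (del (n + 2) (cons v0 (Prod.snd ∘ s))) (s (n + 1)).2))))‖
        ≤ ε := by
    refine ev_prev _ x0 (n + 1) (n + 2) (by omega) _ (fun p => ?_)
    rw [ev_U2]
    filter_upwards [last_small D V hVle U hU v0 hε (T.comp (KM.bd M n))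
      (cons v0 (Prod.snd ∘ p)) (CW b p) (Ok_Q _)] with x hx
    filter_upwards [hx] with v hv s h1 h2
    rw [DD_congr M κ _ (n + 1) (CW b s) (Function.update (CW b p) n (Q b (x : Set I)ᶜ))
      (fun q hq => by
        by_cases h3 : q = n
        · rw [h3, Function.update_self, CW, h2]
        · rw [Function.update_of_ne h3, CW, CW, h1 (q + 1) (by omega)]),
      pe_congr D (n + 1) _ (cons v0 (Prod.snd ∘ p)) _ (fun q hq => by
        rw [del_lt _ _ _ (by omega)]
        cases q with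
        | zero => rfl
        | succ q => exact congrArg Prod.snd (h1 q (by omega))), h2]
    exact hv
  have E3 : ∀ᶠ s in (Pw (U2 V U) x0 (n + 2) : Filter (ℕ → Finset I × I)),
      ‖innerSL ℂ (b v0) (DD M κ (D.e (s (n + 1)).2) (n + 1) (cons (Q b (s 1).1) (tl (CW b s)))
        (T (KM.bd M n (pe D (n + 1) (del 1 (cons v0 (Prod.snd ∘ s))) (s (n + 1)).2))))‖ ≤ ε := by
    rw [ev_succ]
    refine Eventually.of_forall (fun x => ?_)
    rw [ev_succ, ev_U2]
    refine Eventually.of_forall (fun F => ?_)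
    filter_upwards [first_small D V U hU x0 v0 hε T hT F] with v hv
    filter_upwards [hv] with t ht
    have e1 : (cons x (cons (F, v) t) (n + 1)).2 = cons v (Prod.snd ∘ t) n := by
      cases n <;> rfl
    have e2 : del 1 (cons v0 (Prod.snd ∘ cons x (cons (F, v) t)))
        = cons v0 (cons v (Prod.snd ∘ t)) := by
      rw [comp_cons, comp_cons]
      rfl
    rw [e1, e2]
    exact ht
  have E4 : ∀ᶠ s in (Pw (U2 V U) x0 (n + 2) : Filter (ℕ → Finset I × I)),
      ∀ r ∈ Finset.range (n + 2), (s r).2 ∉ (s r).1 :=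
    (Finset.eventually_all _).2 (fun r hr => ev_one (U2 V U) x0 (R := fun p => p.2 ∉ p.1)
      (by rw [ev_U2]; exact Eventually.of_forall hU') r _ (Finset.mem_range.1 hr))
  have E5 : ∀ᶠ s in (Pw (U2 V U) x0 (n + 2) : Filter (ℕ → Finset I × I)),
      ∀ q ∈ Finset.range (n + 2), ∀ r ∈ Finset.range q, (s r).2 ∈ (s q).1 :=
    (Finset.eventually_all _).2 (fun q hq => (Finset.eventually_all _).2 (fun r hr =>
      ev_two (U2 V U) x0 (R := fun p p' => p.2 ∈ p'.1) (fun p => by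
        rw [ev_U2]
        filter_upwards [hVle (eventually_ge_atTop {p.2})] with F hF
        exact Eventually.of_forall (fun _ => hF (Finset.mem_singleton_self _)))
        r q _ (Finset.mem_range.1 hr) (Finset.mem_range.1 hq)))
  obtain ⟨s, ⟨⟨⟨h1, h2⟩, h3⟩, h4⟩, h5⟩ := ((((E1.and E2).and E3).and E4).and E5).exists
  set i := (s (n + 1)).2
  set vv := cons v0 (Prod.snd ∘ s) with hvv
  let Om : (YY M (n + 1)).carrier →L[ℂ] ℂ :=
    (innerSL ℂ (b v0)).comp ((DD M κ (D.e i) (n + 1) (CW b s)).comp (T.comp (KM.bd M n)))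
  have f1 : Om ((YY M (n + 1)).left (D.E (vv 0) (vv 1)) (pe D (n + 1) (tl vv) i)) = 0 := by
    simp only [Om, ContinuousLinearMap.comp_apply, KM.bd_left, map_zero]
  rw [left_pe, map_sum, Finset.sum_range_succ', pow_zero, one_smul, add_eq_zero_iff_eq_neg,
    Finset.sum_range_succ] at f1
  have f2 : ‖Om (pe D (n + 1) (del (0 + 1) vv) i)‖ ≤ (n + 1) * ε := by
    rw [← norm_neg, ← f1]
    refine (norm_add_le _ _).trans ?_
    have h6 := (norm_sum_le (Finset.range n) _).trans (Finset.sum_le_sum (g := fun _ => ε)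
      (f := fun c => ‖Om ((-1 : ℂ) ^ (c + 1) • pe D (n + 1) (del (c + 1 + 1) vv) i)‖)
      (fun c hc => by
        rw [map_smul, norm_sign_smul]
        exact h1 c hc))
    rw [Finset.sum_const, Finset.card_range, nsmul_eq_mul] at h6
    rw [map_smul, norm_sign_smul]
    have h7 : ‖Om (pe D (n + 1) (del (n + 1 + 1) vv) i)‖ ≤ ε := h2
    linarith
  set y := pe D (n + 1) (del 1 vv) i with hy
  let S : ℕ → Set I := cons univ (fun q => ((s (q + 2)).1 : Set I)ᶜ)
  have f3 : DD M κ (D.e i) (n + 1) (fun q => Q b (S q)) y = b v0 :=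
    DD_main D i (n + 1) S (del 1 vv) (fun r hr => by
      cases r with
      | zero => exact mem_univ _
      | succ r => exact h4 (r + 2) (Finset.mem_range.2 (by omega))) (fun r q h h' => by
      obtain ⟨q, rfl⟩ : ∃ q', q = q' + 1 := ⟨q - 1, by omega⟩
      exact fun h6 => h6 (h5 (q + 2) (Finset.mem_range.2 (by omega)) (r + 1)
        (Finset.mem_range.2 (by omega))))
  have f4 : DD M κ (D.e i) (n + 1) (fun q => Q b (S q)) (T (KM.bd M n y)) = -b v0 := by
    have e0 := DD_bd M κ D.k_mul (D.e i) (D.e_act _) (n + 1) (fun q => Q b (S q))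
    rw [DD_adj M κ (D.e i) (n + 1 + 1) 0 (by omega) _ (Q_univ b).symm] at e0
    have e1 : ∀ c x, T (KM.bd M n (KM.tn M n c x)) = KM.bd M (n + 1) (KM.tn M (n + 1) c (T x))
      - KM.tn M n c x := fun c x => by
      rw [KM.bd_tn, KM.bd_tn, hT]; abel
    have e2 : ∀ z, DD M κ (D.e i) (n + 1) (fun q => Q b (S q)) (KM.bd M (n + 1) z) = 0 :=
      fun z => congrArg (fun f : (YY M (n + 1 + 1)).carrier →L[ℂ] H => f z) e0
    rw [← f3, hy, pe_succ, e1, map_sub, e2, zero_sub]
  rw [DD_add M κ (D.e i) (n + 1) 0 (by omega) _ (CW b s) (cons (Q b (s 1).1) (tl (CW b s)))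
    (fun q hq => by
      obtain ⟨q, rfl⟩ : ∃ q', q = q' + 1 := ⟨q - 1, by omega⟩
      rfl)
    (fun q hq => by
      obtain ⟨q, rfl⟩ : ∃ q', q = q' + 1 := ⟨q - 1, by omega⟩
      rfl)
    (Q_add b (fun u => by
      show (u ∈ univ ↔ u ∈ ((s 1).1 : Set I)ᶜ ∨ u ∈ ((s 1).1 : Set I)) ∧ ¬ (u ∉ _ ∧ u ∈ _)
      simp [em'])), add_apply] at f4
  have f5 := congrArg (fun z => ‖innerSL ℂ (b v0) z‖) f4
  simp only [map_add, map_neg, norm_neg, innerSL_apply_apply, inner_b_self, norm_one] at f5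
  have f6 := f5.symm.le.trans ((norm_add_le _ _).trans (add_le_add f2 h3))
  have f7 : (n + 3) * ε = 1 := by rw [hεdef]; field_simp
  linarith

end Pool.Agent.H570Z.KH
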