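import Mathlib

/-!
The Banach algebra of compact operators on a Banach space.
-/

set_option autoImplicit false

namespace Pool.Agent.H570Z.KH

variable (H : Type) [NormedAddCommGroup H] [NormedSpace ℂ H]

/-- The compact operators on `H` as a subalgebra of the algebra of bounded operators on `H`. -/
def compactOps : NonUnitalSubalgebra ℂ (H →L[ℂ] H) where
  carrier := {T | IsCompactOperator T}
  zero_mem' := isCompactOperator_zero
  add_mem' := fun h1 h2 => h1.add h2
  mul_mem' := fun {_ b} ha _ => ha.comp_clm b
  smul_mem' := fun c _ hT => hT.smul c

/-- The Banach algebra `K(H)` of all compact operators on `H`, with composition and the operator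
norm. -/
def KOp : Type := compactOps H

/-- Composition and operator norm on `K(H)`, inherited from the bounded operators. -/
noncomputable instance : NonUnitalNormedRing (KOp H) :=
  NonUnitalSubalgebra.nonUnitalNormedRing (compactOps H)

/-- `K(H)` as a complex normed space, inherited from the bounded operators. -/
noncomputable instance : NormedSpace ℂ (KOp H) where
  toModule := NonUnitalSubalgebra.instModule (S := compactOps H)
  norm_smul_le := fun c (x : compactOps H) => norm_smul_le c (x : H →L[ℂ] H)

instance : IsScalarTower ℂ (KOp H) (KOp H) :=
  ⟨fun _ _ _ => Subtype.ext (ContinuousLinearMap.ext fun _ => rfl)⟩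

instance : SMulCommClass ℂ (KOp H) (KOp H) :=
  ⟨fun c x y => Subtype.ext (ContinuousLinearMap.ext fun v => ((x.1).map_smul c (y.1 v)).symm)⟩

lemma isClosed_compactOps [CompleteSpace H] : IsClosed (compactOps H : Set (H →L[ℂ] H)) :=
  isClosed_setOfPred_isCompactOperator

instance [CompleteSpace H] : CompleteSpace (KOp H) := (isClosed_compactOps H).completeSpace_coe

end Pool.Agent.H570Z.KH
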