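import Mathlib
import Pool.Agent.Helper832.GDV
import Pool.Agent.H570Z.KC
import Pool.Agent.H570Z.KDefs

/-!
The global dimension and the bidimension of `K(H)` and `B(H)` are infinite.
-/

set_option autoImplicit false
set_option maxSynthPendingDepth 3
set_option linter.unusedSectionVars false

namespace Pool.Agent.H570Z.KH

open Pool.Agent.Helper832 InnerProductSpace
open scoped InnerProductSpace

section General

variable {A : Type} [NonUnitalNormedRing A] [NormedSpace ℂ A] [IsScalarTower ℂ A A]
  [SMulCommClass ℂ A A] [CompleteSpace A]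

lemma dims_top_of {X : GD.LMod A} (h : ∀ n, ¬ X.HasResolution n) :
    GS.dg A = ⊤ ∧ GS.db A = ⊤ := by
  constructor
  · refine le_antisymm le_top (le_trans ?_
      (le_iSup (fun X : GS.LMod A => X.dh) (GS.LMod.ofC X)))
    unfold GS.LMod.dh
    exact le_iInf₂ (fun n hn => absurd (GS.LMod.of_ofC_hasResolution hn) (h n))
  · unfold GS.db GS.BMod.dh
    refine le_antisymm le_top (le_iInf₂ (fun n hn => ?_))
    rw [← GS.BMod.ofC_plusBim] at hn
    exact absurd (GD.hasResolution_left (GS.BMod.of_ofC_hasResolution hn) X) (h n)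

variable {H : Type} [NormedAddCommGroup H] [InnerProductSpace ℂ H] [CompleteSpace H]

/-- bounded families of vectors, as operators on `ℓ¹` -/
noncomputable def famMod (I : Type) (κ : A →L[ℂ] H →L[ℂ] H)
    (hκ : ∀ a a', κ (a * a') = (κ a).comp (κ a')) : GD.LMod A where
  carrier := lp (fun _ : I => ℂ) 1 →L[ℂ] H
  act := (ContinuousLinearMap.compL ℂ (lp (fun _ : I => ℂ) 1) H H).comp κ
  act_mul := fun a a' x => by
    show (κ (a * a')).comp x = (κ a).comp ((κ a').comp x)
    rw [hκ]
    rfl

theorem dims_top (hH : ¬ FiniteDimensional ℂ H) (κ : A →L[ℂ] H →L[ℂ] H)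
    (hκ : ∀ a a', κ (a * a') = (κ a).comp (κ a')) (hn : ∀ a, ‖κ a‖ = ‖a‖)
    (hr : ∀ x y : H, ∃ a, κ a = rankOne ℂ x y) : GS.dg A = ⊤ ∧ GS.db A = ⊤ := by
  classical
  obtain ⟨w, b, -⟩ := exists_hilbertBasis ℂ H
  have : Infinite w := by
    by_contra h
    rw [not_infinite_iff_finite] at h
    have := Fintype.ofFinite w
    exact hH (Module.Finite.of_basis b.toOrthonormalBasis.toBasis)
  choose E hE using hr
  have hinj : ∀ a a', κ a = κ a' → a = a' := fun a a' h => by
    rw [← sub_eq_zero, ← norm_eq_zero, ← hn, map_sub, h, sub_self, norm_zero]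
  let D : Dat (famMod w κ hκ) κ b :=
    { E := fun u v => E (b u) (b v)
      e := fun i => ContinuousLinearMap.apply ℂ H (lp.single 1 i (1 : ℂ))
      xs := fun i u => (lp.evalCLM ℂ (fun _ : w => ℂ) 1 i).smulRight (b u)
      k_mul := fun a a' v => by rw [hκ]; rfl
      k_le := fun a v => by rw [← hn]; exact (κ a).le_opNorm v
      e_act := fun i a x => rfl
      e_le := fun i (x : lp (fun _ : w => ℂ) 1 →L[ℂ] H) => by
        have h := x.le_opNorm (lp.single 1 i (1 : ℂ))
        rw [lp.norm_single one_pos, norm_one, mul_one] at h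
        exact h
      k_E := fun u v z => by rw [hE]; rfl
      E_mul := fun u v z => hinj _ _ (by
        rw [hκ, hE, hE, hE, rankOne_comp_rankOne, inner_b_self, one_smul])
      E_le := fun u v => by rw [← hn, hE, norm_rankOne, norm_b, norm_b, mul_one]
      E_sum := fun N u v hu hv r hr => by
        rw [← hn, map_sum]
        simp only [map_smul, hE]
        exact norm_sum_rankOne b hu hv r hr
      e_xs := fun i u => by
        show (lp.single 1 i (1 : ℂ) : lp (fun _ : w => ℂ) 1) i • b u = b u
        rw [lp.single_apply_self, one_smul]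
      act_xs := fun i u v => ContinuousLinearMap.ext (fun f : lp (fun _ : w => ℂ) 1 => by
        show κ (E (b u) (b v)) (f i • b v) = f i • b u
        rw [hE, map_smul, rankOne_apply, inner_b_self, one_smul])
      xs_sum := fun N i u hi r hr => by
        show ‖∑ k, r k • (lp.evalCLM ℂ (fun _ : w => ℂ) 1 (i k)).smulRight (b (u k))‖ ≤ 1
        refine ContinuousLinearMap.opNorm_le_bound _ zero_le_one (fun f => ?_)
        rw [sum_apply, one_mul]
        have h := lp.sum_rpow_le_norm_rpow (p := 1) (by simp) f (Finset.univ.map ⟨i, hi⟩)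
        simp only [ENNReal.toReal_one, Real.rpow_one, Finset.sum_map,
          Function.Embedding.coeFn_mk] at h
        refine (norm_sum_le _ _).trans ((Finset.sum_le_sum (fun k _ => ?_)).trans h)
        show ‖r k • f (i k) • b (u k)‖ ≤ _
        rw [norm_smul, norm_smul, norm_b, mul_one]
        exact mul_le_of_le_one_left (norm_nonneg _) (hr k) }
  exact dims_top_of (not_hasRes D)

end General

variable {H : Type} [NormedAddCommGroup H] [InnerProductSpace ℂ H] [CompleteSpace H]

/-- the inclusion of the compact operators -/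
noncomputable def incl : KOp H →L[ℂ] H →L[ℂ] H :=
  LinearMap.mkContinuous
    { toFun := fun a => a.1
      map_add' := fun _ _ => rfl
      map_smul' := fun _ _ => rfl } 1 (fun a => (one_mul _).symm.le)

theorem compact_dims (hH : ¬ FiniteDimensional ℂ H) : GS.dg (KOp H) = ⊤ ∧ GS.db (KOp H) = ⊤ :=
  dims_top hH incl (fun _ _ => rfl) (fun _ => rfl) (fun x y => ⟨⟨rankOne ℂ x y,
    (isCompactOperator_of_locallyCompactSpace_dom (innerSL ℂ y)).clm_comp
      (ContinuousLinearMap.toSpanSingleton ℂ x)⟩, rfl⟩)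

theorem bounded_dims (hH : ¬ FiniteDimensional ℂ H) :
    GS.dg (H →L[ℂ] H) = ⊤ ∧ GS.db (H →L[ℂ] H) = ⊤ :=
  dims_top hH (ContinuousLinearMap.id ℂ _) (fun _ _ => rfl) (fun _ => rfl) (fun _ _ => ⟨_, rfl⟩)

end Pool.Agent.H570Z.KH
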