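import Mathlib
import Pool.Agent.Helper832.GDStmt

/-!
The group algebra `L¹(G)` of a locally compact group, its augmentation module, irreducible
modules and the small dimension.
-/

set_option autoImplicit false
set_option linter.unusedSectionVars false

namespace Pool.Agent.H570Z.LG

open MeasureTheory Filter Topology Set
open scoped ENNReal

variable {G : Type} [Group G] [TopologicalSpace G] [IsTopologicalGroup G]
  [LocallyCompactSpace G] [T2Space G] [MeasurableSpace G] [BorelSpace G]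
  (μ : Measure G) [μ.IsHaarMeasure] [μ.InnerRegularCompactLTTop]

/-- Left translation on `L¹(G)`: `(L_x f)(y) = f (x⁻¹ y)`. -/
noncomputable def lt (x : G) (f : Lp ℂ 1 μ) : Lp ℂ 1 μ :=
  Lp.compMeasurePreserving (fun y : G => x⁻¹ * y) (measurePreserving_mul_left μ x⁻¹) f

/-- Convolution on `L¹(G)`: `f * g = ∫ f(y) L_y g dμ(y)`, a Bochner integral in `L¹(G)`. -/
noncomputable def conv (f g : Lp ℂ 1 μ) : Lp ℂ 1 μ :=
  ∫ y, (f y) • lt μ y g ∂μ

lemma lt_ae (x : G) (f : Lp ℂ 1 μ) : lt μ x f =ᵐ[μ] fun y => f (x⁻¹ * y) :=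
  Lp.coeFn_compMeasurePreserving f _

lemma norm_lt (x : G) (f : Lp ℂ 1 μ) : ‖lt μ x f‖ = ‖f‖ :=
  Lp.norm_compMeasurePreserving f _

/-- left translation as a bounded operator -/
noncomputable def ltL (x : G) : Lp ℂ 1 μ →L[ℂ] Lp ℂ 1 μ :=
  (Lp.compMeasurePreservingₗᵢ ℂ (fun y : G => x⁻¹ * y)
    (measurePreserving_mul_left μ x⁻¹)).toContinuousLinearMap

lemma ltL_apply (x : G) (f : Lp ℂ 1 μ) : ltL μ x f = lt μ x f := rfl

lemma lt_lt (x y : G) (f : Lp ℂ 1 μ) : lt μ x (lt μ y f) = lt μ (x * y) f := by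
  apply Lp.ext
  have h := (measurePreserving_mul_left μ x⁻¹).quasiMeasurePreserving.ae_eq_comp (lt_ae μ y f)
  filter_upwards [lt_ae μ x (lt μ y f), lt_ae μ (x * y) f, h] with t h1 h2 h3
  rw [h1, h2]
  simp only [Function.comp_apply] at h3
  rw [h3, mul_inv_rev, mul_assoc]

lemma continuous_lt (f : Lp ℂ 1 μ) : Continuous (fun x => lt μ x f) := by
  let g : G → C(G, G) := fun x => ⟨fun y => x⁻¹ * y, by fun_prop⟩
  have hg : Continuous g := ContinuousMap.continuous_of_continuous_uncurry g (by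
    show Continuous (fun p : G × G => p.1⁻¹ * p.2)
    fun_prop)
  exact Continuous.compMeasurePreservingLp (f := fun _ => f) continuous_const hg
    (fun x => measurePreserving_mul_left μ x⁻¹) ENNReal.one_ne_top

lemma exists_compact_lintegral {f : G → ℂ} (hf : Integrable f μ) {ε : ℝ≥0∞} (hε : ε ≠ 0) :
    ∃ K, IsCompact K ∧ ∫⁻ t in Kᶜ, ‖f t‖ₑ ∂μ < ε := by
  have h2 : ε / 2 ≠ 0 := ENNReal.half_pos hε |>.ne'
  obtain ⟨s, hs, hs', h3⟩ := exists_setLIntegral_compl_lt hf.2.ne h2
  obtain ⟨δ, hδ, h4⟩ := exists_pos_setLIntegral_lt_of_measure_lt hf.2.ne h2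
  obtain ⟨K, -, hK, h5⟩ := hs.exists_isCompact_sdiff_lt hs'.ne hδ.ne'
  refine ⟨K, hK, ?_⟩
  have h6 : Kᶜ ⊆ sᶜ ∪ (s \ K) := fun t ht => by
    by_cases h : t ∈ s
    · exact Or.inr ⟨h, ht⟩
    · exact Or.inl h
  calc ∫⁻ t in Kᶜ, ‖f t‖ₑ ∂μ ≤ ∫⁻ t in sᶜ ∪ (s \ K), ‖f t‖ₑ ∂μ := lintegral_mono_set h6
    _ ≤ ∫⁻ t in sᶜ, ‖f t‖ₑ ∂μ + ∫⁻ t in s \ K, ‖f t‖ₑ ∂μ := lintegral_union_le _ _ _
    _ < ε / 2 + ε / 2 := ENNReal.add_lt_add h3 (h4 _ h5)
    _ = ε := ENNReal.add_halves ε

lemma aesm_smul {E : Type} [NormedAddCommGroup E] [NormedSpace ℂ E] {f : G → ℂ}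
    (hf : Integrable f μ) {π : G → E} (hπ : Continuous π) :
    AEStronglyMeasurable (fun y => f y • π y) μ := by
  have h1 : ∀ n : ℕ, ∃ K, IsCompact K ∧ ∫⁻ t in Kᶜ, ‖f t‖ₑ ∂μ < (n : ℝ≥0∞)⁻¹ :=
    fun n => exists_compact_lintegral μ hf (ENNReal.inv_ne_zero.2 (ENNReal.natCast_ne_top n))
  choose K hK hK' using h1
  have hS : MeasurableSet (⋃ n, K n) := MeasurableSet.iUnion (fun n => (hK n).measurableSet)
  have h2 : ∫⁻ t in (⋃ n, K n)ᶜ, ‖f t‖ₑ ∂μ = 0 := by
    refine le_antisymm (ge_of_tendsto' ENNReal.tendsto_inv_nat_nhds_zero (fun n => ?_)) zero_le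
    exact (lintegral_mono_set (compl_subset_compl.2 (subset_iUnion K n))).trans (hK' n).le
  rw [lintegral_eq_zero_iff' hf.1.enorm.restrict] at h2
  have h3 : AEStronglyMeasurable (fun y => f y • π y) (μ.restrict (⋃ n, K n)) :=
    hf.1.restrict.smul (aestronglyMeasurable_iUnion_iff.2 (fun n =>
      hπ.continuousOn.aestronglyMeasurable_of_isCompact (hK n) (hK n).measurableSet))
  refine ((aestronglyMeasurable_indicator_iff hS).2 h3).congr ?_
  filter_upwards [(ae_restrict_iff' hS.compl).1 h2] with t ht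
  by_cases h : t ∈ ⋃ n, K n
  · rw [indicator_of_mem h]
  · have h4 : f t = 0 := by simpa using ht h
    rw [indicator_of_notMem h, h4, zero_smul]

lemma integrable_conv (f g : Lp ℂ 1 μ) : Integrable (fun y => f y • lt μ y g) μ := by
  refine Integrable.mono' ((L1.integrable_coeFn f).norm.mul_const ‖g‖)
    (aesm_smul μ (L1.integrable_coeFn f) (continuous_lt μ g)) (Eventually.of_forall (fun y => ?_))
  rw [norm_smul, norm_lt]

lemma norm_conv_le (f g : Lp ℂ 1 μ) : ‖conv μ f g‖ ≤ ‖f‖ * ‖g‖ := by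
  refine (norm_integral_le_integral_norm _).trans (le_of_eq ?_)
  simp only [norm_smul, norm_lt]
  rw [integral_mul_const, L1.norm_eq_integral_norm f]

lemma conv_add_left (f f' g : Lp ℂ 1 μ) : conv μ (f + f') g = conv μ f g + conv μ f' g := by
  unfold conv
  rw [← integral_add (integrable_conv μ f g) (integrable_conv μ f' g)]
  refine integral_congr_ae ?_
  filter_upwards [Lp.coeFn_add f f'] with y hy
  rw [hy, Pi.add_apply, add_smul]

lemma conv_add_right (f g g' : Lp ℂ 1 μ) : conv μ f (g + g') = conv μ f g + conv μ f g' := by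
  unfold conv
  rw [← integral_add (integrable_conv μ f g) (integrable_conv μ f g')]
  refine integral_congr_ae (Eventually.of_forall (fun y => ?_))
  show f y • ltL μ y (g + g') = f y • ltL μ y g + f y • ltL μ y g'
  rw [map_add, smul_add]

lemma conv_smul_left (c : ℂ) (f g : Lp ℂ 1 μ) : conv μ (c • f) g = c • conv μ f g := by
  unfold conv
  rw [← integral_smul]
  refine integral_congr_ae ?_
  filter_upwards [Lp.coeFn_smul c f] with y hy
  rw [hy, Pi.smul_apply, smul_eq_mul, mul_smul]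

lemma conv_smul_right (c : ℂ) (f g : Lp ℂ 1 μ) : conv μ f (c • g) = c • conv μ f g := by
  unfold conv
  rw [← integral_smul]
  refine integral_congr_ae (Eventually.of_forall (fun y => ?_))
  show f y • ltL μ y (c • g) = c • f y • ltL μ y g
  rw [map_smul, smul_comm]

lemma lt_conv (x : G) (f g : Lp ℂ 1 μ) : lt μ x (conv μ f g) = conv μ (lt μ x f) g := by
  unfold conv
  rw [← ltL_apply, ← (ltL μ x).integral_comp_comm (integrable_conv μ f g),
    ← integral_mul_left_eq_self _ x⁻¹]
  refine integral_congr_ae ?_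
  filter_upwards [lt_ae μ x f] with y hy
  rw [hy, map_smul, ltL_apply, lt_lt, mul_inv_cancel_left]

lemma conv_assoc (f g h : Lp ℂ 1 μ) : conv μ (conv μ f g) h = conv μ f (conv μ g h) := by
  let R : Lp ℂ 1 μ →L[ℂ] Lp ℂ 1 μ := LinearMap.mkContinuous
    { toFun := fun f => conv μ f h
      map_add' := fun f f' => conv_add_left μ f f' h
      map_smul' := fun c f => conv_smul_left μ c f h } ‖h‖
    (fun f => (norm_conv_le μ f h).trans (le_of_eq (mul_comm _ _)))
  have h1 : R (conv μ f g) = ∫ y, R (f y • lt μ y g) ∂μ :=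
    (R.integral_comp_comm (integrable_conv μ f g)).symm
  refine h1.trans (integral_congr_ae (Eventually.of_forall (fun y => ?_)))
  show R (f y • lt μ y g) = f y • lt μ y (conv μ g h)
  rw [map_smul, lt_conv]
  rfl

lemma integral_lt (x : G) (f : Lp ℂ 1 μ) : ∫ t, lt μ x f t ∂μ = ∫ t, f t ∂μ :=
  (integral_congr_ae (lt_ae μ x f)).trans (integral_mul_left_eq_self (fun t => f t) x⁻¹)

lemma integral_conv (f g : Lp ℂ 1 μ) :
    ∫ t, conv μ f g t ∂μ = (∫ t, f t ∂μ) * ∫ t, g t ∂μ := by
  have h0 : ∀ u : Lp ℂ 1 μ, (L1.integralCLM' ℂ : Lp ℂ 1 μ →L[ℂ] ℂ) u = ∫ t, u t ∂μ := fun u => by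
    rw [← L1.integral_eq_integral, L1.integral_eq' ℂ]
  rw [← h0, conv, ← ContinuousLinearMap.integral_comp_comm _ (integrable_conv μ f g),
    ← integral_mul_const]
  refine integral_congr_ae (Eventually.of_forall (fun y => ?_))
  show (L1.integralCLM' ℂ : Lp ℂ 1 μ →L[ℂ] ℂ) (f y • lt μ y g) = _
  rw [map_smul, h0, integral_lt, smul_eq_mul]

/-- The group algebra: the Banach space `L¹(G)`; its product, defined below, is convolution. -/
def L1G : Type := Lp ℂ 1 μ

noncomputable instance : NormedAddCommGroup (L1G μ) :=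
  (inferInstance : NormedAddCommGroup (Lp ℂ 1 μ))

noncomputable instance : NormedSpace ℂ (L1G μ) := (inferInstance : NormedSpace ℂ (Lp ℂ 1 μ))

instance : CompleteSpace (L1G μ) := (inferInstance : CompleteSpace (Lp ℂ 1 μ))

/-- `L¹(G)` with the `L¹` norm and convolution as product -/
noncomputable instance : NonUnitalNormedRing (L1G μ) :=
  { (inferInstance : NormedAddCommGroup (L1G μ)) with
    mul := fun f g => conv μ f g
    left_distrib := fun f g h => conv_add_right μ f g h
    right_distrib := fun f g h => conv_add_left μ f g h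
    zero_mul := fun f => by
      have h := conv_smul_left μ 0 0 f
      rw [zero_smul, zero_smul] at h
      exact h
    mul_zero := fun f => by
      have h := conv_smul_right μ 0 f 0
      rw [zero_smul, zero_smul] at h
      exact h
    mul_assoc := fun f g h => conv_assoc μ f g h
    norm_mul_le := fun f g => norm_conv_le μ f g }

instance : IsScalarTower ℂ (L1G μ) (L1G μ) := ⟨fun c f g => conv_smul_left μ c f g⟩

instance : SMulCommClass ℂ (L1G μ) (L1G μ) := ⟨fun c f g => (conv_smul_right μ c f g).symm⟩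

/-- the integral `∫ f(t) dμ(t)` of an element of `L¹(G)` -/
noncomputable def aug (f : Lp ℂ 1 μ) : ℂ := ∫ t, f t ∂μ

lemma aug_add (f g : Lp ℂ 1 μ) : aug μ (f + g) = aug μ f + aug μ g := by
  unfold aug
  rw [← integral_add (L1.integrable_coeFn f) (L1.integrable_coeFn g)]
  exact integral_congr_ae (Lp.coeFn_add f g)

lemma aug_smul (c : ℂ) (f : Lp ℂ 1 μ) : aug μ (c • f) = c * aug μ f := by
  unfold aug
  rw [← integral_const_mul]
  exact integral_congr_ae (Lp.coeFn_smul c f)

lemma norm_aug_le (f : Lp ℂ 1 μ) : ‖aug μ f‖ ≤ ‖f‖ :=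
  (norm_integral_le_integral_norm _).trans (L1.norm_eq_integral_norm f).symm.le

lemma aug_bdd : IsBoundedBilinearMap ℂ (fun p : L1G μ × ℂ => aug μ p.1 * p.2) where
  add_left := fun f g z => (congrArg (· * z) (aug_add μ f g)).trans (add_mul _ _ _)
  smul_left := fun c f z => (congrArg (· * z) (aug_smul μ c f)).trans (mul_assoc _ _ _)
  add_right := fun f z w => mul_add _ _ _
  smul_right := fun c f z => mul_left_comm _ _ _
  bound := ⟨1, one_pos, fun f z => by
    rw [one_mul, norm_mul]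
    exact mul_le_mul_of_nonneg_right (norm_aug_le μ f) (norm_nonneg _)⟩

lemma aug_mul (f g : L1G μ) (z : ℂ) : aug μ (f * g) * z = aug μ f * (aug μ g * z) :=
  (congrArg (· * z) (integral_conv μ f g)).trans (mul_assoc _ _ _)

open Pool.Agent.Helper832.GS

/-- The augmentation module: `ℂ` with the action `f · z = (∫ f) z`. -/
noncomputable def augMod : LMod (L1G μ) where
  carrier := ℂ
  act := fun f z => aug μ f * z
  bdd := aug_bdd μ
  act_mul := aug_mul μ

/-- A left Banach module `X` is irreducible if `A · X ≠ 0` and the only linear subspaces of `X`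
that are invariant under the action of `A` are zero and `X`. -/
def IsIrred {A : Type} [NonUnitalNormedRing A] [NormedSpace ℂ A] (X : LMod A) : Prop :=
  (∃ a x, X.act a x ≠ 0) ∧
    ∀ N : Submodule ℂ X.carrier, (∀ a x, x ∈ N → X.act a x ∈ N) → N = ⊥ ∨ N = ⊤

/-- the small dimension of `A`: the supremum of the homological dimensions of all irreducible left
Banach `A`-modules -/
noncomputable def ds (A : Type) [NonUnitalNormedRing A] [NormedSpace ℂ A] : ℕ∞ :=
  ⨆ (X : LMod A) (_ : IsIrred X), X.dh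

end Pool.Agent.H570Z.LG
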