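import Mathlib
import Pool.Agent.H570Z.L1Defs

/-!
Analytic lemmas on `L¹(G)`: masses of sets and window operators.
-/

set_option autoImplicit false
set_option linter.unusedSectionVars false

namespace Pool.Agent.H570Z.LG

open MeasureTheory Filter Topology Set BoundedContinuousFunction
open scoped ENNReal

variable {G : Type} [Group G] [TopologicalSpace G] [IsTopologicalGroup G]
  [LocallyCompactSpace G] [T2Space G] [MeasurableSpace G] [BorelSpace G]
  (μ : Measure G) [μ.IsHaarMeasure] [μ.InnerRegularCompactLTTop]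

/-- the mass of `a` on the set `W` -/
noncomputable def nu (W : Set G) (a : Lp ℂ 1 μ) : ℝ := ∫ t in W, ‖a t‖ ∂μ

lemma int_norm (a : Lp ℂ 1 μ) : Integrable (fun t => ‖a t‖) μ := (L1.integrable_coeFn a).norm

lemma nu_nonneg (W : Set G) (a : Lp ℂ 1 μ) : 0 ≤ nu μ W a :=
  integral_nonneg (fun _ => norm_nonneg _)

lemma nu_univ (a : Lp ℂ 1 μ) : nu μ univ a = ‖a‖ := by
  rw [nu, Measure.restrict_univ, L1.norm_eq_integral_norm]

lemma nu_mono {W W' : Set G} (h : W ⊆ W') (a : Lp ℂ 1 μ) : nu μ W a ≤ nu μ W' a :=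
  setIntegral_mono_set (int_norm μ a).integrableOn
    (Eventually.of_forall (fun _ => norm_nonneg _)) h.eventuallyLE

lemma nu_le (W : Set G) (a : Lp ℂ 1 μ) : nu μ W a ≤ ‖a‖ :=
  (nu_mono μ (subset_univ W) a).trans (nu_univ μ a).le

lemma nu_union_le (W : Set G) {W' : Set G} (h : MeasurableSet W') (a : Lp ℂ 1 μ) :
    nu μ (W ∪ W') a ≤ nu μ W a + nu μ W' a := by
  have h1 : nu μ ((W \ W') ∪ W') a = nu μ (W \ W') a + nu μ W' a :=
    setIntegral_union disjoint_sdiff_left h (int_norm μ a).integrableOn (int_norm μ a).integrableOn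
  rw [sdiff_union_self] at h1
  linarith [nu_mono μ (sdiff_subset : W \ W' ⊆ W) a]

lemma nu_empty (a : Lp ℂ 1 μ) : nu μ ∅ a = 0 := by simp [nu]

lemma nu_tight (a : Lp ℂ 1 μ) {ε : ℝ} (hε : 0 < ε) : ∃ K, IsCompact K ∧ nu μ Kᶜ a ≤ ε := by
  obtain ⟨K, hK, h⟩ := exists_compact_lintegral μ (L1.integrable_coeFn a)
    (ε := ENNReal.ofReal ε) (by simpa using hε)
  refine ⟨K, hK, ?_⟩
  rw [nu, integral_norm_eq_lintegral_enorm (L1.integrable_coeFn a).1.restrict]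
  exact ENNReal.toReal_le_of_le_ofReal hε.le h.le

lemma int_bound (a : Lp ℂ 1 μ) {C : Set G} (hC : MeasurableSet C) {ψ : G → ℝ} {δ M : ℝ}
    (hδ : 0 ≤ δ) (h0 : ∀ t, 0 ≤ ψ t) (h1 : ∀ t ∈ C, ψ t ≤ δ) (h2 : ∀ t, ψ t ≤ M) :
    ∫ t, ‖a t‖ * ψ t ∂μ ≤ ‖a‖ * δ + nu μ Cᶜ a * M := by
  have i1 := (int_norm μ a).mul_const δ
  have i2 := ((int_norm μ a).indicator hC.compl).mul_const M
  rw [nu, ← integral_indicator hC.compl, L1.norm_eq_integral_norm a, ← integral_mul_const,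
    ← integral_mul_const, ← integral_add i1 i2]
  refine integral_mono_of_nonneg (Eventually.of_forall (fun t => mul_nonneg (norm_nonneg _) (h0 t)))
    (i1.add i2) (Eventually.of_forall (fun t => ?_))
  by_cases ht : t ∈ C
  · simp only [indicator_of_notMem (notMem_compl_iff.2 ht), zero_mul, add_zero]
    exact mul_le_mul_of_nonneg_left (h1 t ht) (norm_nonneg _)
  · simp only [indicator_of_mem (mem_compl ht)]
    nlinarith [mul_le_mul_of_nonneg_left (h2 t) (norm_nonneg (a t)), norm_nonneg (a t)]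

lemma nu_eq (W : Set G) (a : Lp ℂ 1 μ) : nu μ W a = ‖LpToLpRestrictCLM G ℂ ℂ μ 1 W a‖ := by
  rw [L1.norm_eq_integral_norm, nu]
  refine integral_congr_ae ?_
  filter_upwards [LpToLpRestrictCLM_coeFn ℂ W a] with t ht
  rw [ht]

lemma nu_lt {W : Set G} (hW : MeasurableSet W) (h : G) (d : Lp ℂ 1 μ) :
    nu μ W (lt μ h d) = nu μ ((fun t => h * t) ⁻¹' W) d := by
  have hW' : MeasurableSet ((fun t => h * t) ⁻¹' W) := measurable_const_mul h hW
  rw [nu, nu, ← integral_indicator hW, ← integral_indicator hW',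
    ← integral_mul_left_eq_self (((fun t => h * t) ⁻¹' W).indicator _) h⁻¹]
  refine integral_congr_ae ?_
  filter_upwards [lt_ae μ h d] with t ht
  by_cases h1 : t ∈ W
  · rw [indicator_of_mem h1, indicator_of_mem (by simpa using h1), ht]
  · rw [indicator_of_notMem h1, indicator_of_notMem (by simpa using h1)]

lemma nu_conv {W C : Set G} (hW : MeasurableSet W) (hC : MeasurableSet C) (b d : Lp ℂ 1 μ)
    {δ : ℝ} (hδ : 0 ≤ δ) (h : ∀ t ∈ C, nu μ ((fun s => t * s) ⁻¹' W) d ≤ δ) :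
    nu μ W (conv μ b d) ≤ ‖b‖ * δ + nu μ Cᶜ b * ‖d‖ := by
  rw [nu_eq, conv, ← ContinuousLinearMap.integral_comp_comm _ (integrable_conv μ b d)]
  refine (norm_integral_le_integral_norm _).trans ?_
  simp only [map_smul, norm_smul, ← nu_eq, nu_lt μ hW]
  exact int_bound μ b hC hδ (fun t => nu_nonneg μ _ _) h (fun t => nu_le μ _ _)

lemma int_mul (a : Lp ℂ 1 μ) (φ : G →ᵇ ℂ) : Integrable (fun t => a t * φ t) μ :=
  (L1.integrable_coeFn a).mul_bdd φ.continuous.aestronglyMeasurable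
    (Eventually.of_forall (fun t => φ.norm_coe_le_norm t))

lemma norm_pr_le (W : Set G) (a : Lp ℂ 1 μ) (φ : G →ᵇ ℂ) :
    ‖∫ t in W, a t * φ t ∂μ‖ ≤ ‖a‖ * ‖φ‖ := by
  refine le_trans ?_ (mul_le_mul_of_nonneg_right (nu_le μ W a) (norm_nonneg φ))
  rw [nu, ← integral_mul_const]
  refine norm_integral_le_of_norm_le ((int_norm μ a).mul_const _).integrableOn
    (Eventually.of_forall (fun t => ?_))
  rw [norm_mul]
  exact mul_le_mul_of_nonneg_left (φ.norm_coe_le_norm t) (norm_nonneg _)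

/-- the pairing on a window -/
noncomputable def pr (W : Set G) : Lp ℂ 1 μ →L[ℂ] (G →ᵇ ℂ) →L[ℂ] ℂ :=
  LinearMap.mkContinuous₂ (LinearMap.mk₂ ℂ (fun a φ => ∫ t in W, a t * φ t ∂μ)
    (fun a b φ => by
      rw [← integral_add (int_mul μ a φ).integrableOn (int_mul μ b φ).integrableOn]
      refine integral_congr_ae (ae_restrict_of_ae ?_)
      filter_upwards [Lp.coeFn_add a b] with t ht
      rw [ht, Pi.add_apply, add_mul])
    (fun c a φ => by
      rw [← integral_smul]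
      refine integral_congr_ae (ae_restrict_of_ae ?_)
      filter_upwards [Lp.coeFn_smul c a] with t ht
      rw [ht, Pi.smul_apply, smul_mul_assoc])
    (fun a φ ψ => by
      rw [← integral_add (int_mul μ a φ).integrableOn (int_mul μ a ψ).integrableOn]
      refine integral_congr_ae (Eventually.of_forall (fun t => ?_))
      simp only [BoundedContinuousFunction.add_apply, mul_add])
    (fun c a φ => by
      rw [← integral_smul]
      refine integral_congr_ae (Eventually.of_forall (fun t => ?_))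
      simp only [BoundedContinuousFunction.smul_apply, mul_smul_comm])) 1
    (fun a φ => by
      rw [one_mul]
      exact norm_pr_le μ W a φ)

lemma pr_apply (W : Set G) (a : Lp ℂ 1 μ) (φ : G →ᵇ ℂ) :
    pr μ W a φ = ∫ t in W, a t * φ t ∂μ := rfl

/-- the window operator, unbundled -/
noncomputable def B0 (W : Set G) (a : Lp ℂ 1 μ) (φ : G →ᵇ ℂ) : G →ᵇ ℂ :=
  ofNormedAddCommGroup (fun g => pr μ W (lt μ g a) φ)
    (((pr μ W).flip φ).continuous.comp (continuous_lt μ a)) (‖a‖ * ‖φ‖)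
    (fun g => (norm_pr_le μ W _ φ).trans (by rw [norm_lt]))

lemma B0_apply (W : Set G) (a : Lp ℂ 1 μ) (φ : G →ᵇ ℂ) (g : G) :
    B0 μ W a φ g = pr μ W (ltL μ g a) φ := rfl

lemma norm_B0_le (W : Set G) (a : Lp ℂ 1 μ) (φ : G →ᵇ ℂ) : ‖B0 μ W a φ‖ ≤ ‖a‖ * ‖φ‖ :=
  norm_ofNormedAddCommGroup_le _ (by positivity) _

/-- the window operator -/
noncomputable def BB (W : Set G) : L1G μ →L[ℂ] (G →ᵇ ℂ) →L[ℂ] (G →ᵇ ℂ) :=
  (LinearMap.mkContinuous₂ (LinearMap.mk₂ ℂ (fun a φ => B0 μ W a φ)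
    (fun a b φ => by
      ext g
      simp only [B0_apply, BoundedContinuousFunction.add_apply, map_add,
        _root_.add_apply])
    (fun c a φ => by
      ext g
      simp only [B0_apply, BoundedContinuousFunction.smul_apply, map_smul,
        _root_.smul_apply])
    (fun a φ ψ => by
      ext g
      simp only [B0_apply, BoundedContinuousFunction.add_apply, map_add])
    (fun c a φ => by
      ext g
      simp only [B0_apply, BoundedContinuousFunction.smul_apply, map_smul])) 1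
    (fun a φ => by
      rw [one_mul]
      exact norm_B0_le μ W a φ) : Lp ℂ 1 μ →L[ℂ] (G →ᵇ ℂ) →L[ℂ] (G →ᵇ ℂ))

lemma B0_apply' (W : Set G) (a : Lp ℂ 1 μ) (φ : G →ᵇ ℂ) (g : G) :
    B0 μ W a φ g = pr μ W (lt μ g a) φ := rfl

lemma B0_mul (W : Set G) (a b : Lp ℂ 1 μ) (φ : G →ᵇ ℂ) :
    B0 μ W (conv μ a b) φ = B0 μ univ a (B0 μ W b φ) := by
  ext g
  have h1 : B0 μ W (conv μ a b) φ g = ((pr μ W).flip φ) (conv μ (lt μ g a) b) := by
    rw [← lt_conv]
    rfl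
  rw [h1, conv, ← ContinuousLinearMap.integral_comp_comm _ (integrable_conv μ _ _), B0_apply',
    pr_apply, Measure.restrict_univ]
  refine integral_congr_ae (Eventually.of_forall (fun t => ?_))
  simp only [map_smul, smul_eq_mul]
  rfl

lemma B0_one (a : Lp ℂ 1 μ) : B0 μ univ a (1 : G →ᵇ ℂ) = aug μ a • (1 : G →ᵇ ℂ) := by
  ext g
  rw [B0_apply', pr_apply, Measure.restrict_univ]
  simp only [BoundedContinuousFunction.coe_one, Pi.one_apply, mul_one,
    BoundedContinuousFunction.smul_apply, smul_eq_mul]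
  exact integral_lt μ g a

lemma B0_eq {W : Set G} (hW : MeasurableSet W) (a : Lp ℂ 1 μ) (φ : G →ᵇ ℂ) (g : G) :
    B0 μ W a φ g = ∫ t, a t * W.indicator φ (g * t) ∂μ := by
  rw [B0_apply', pr_apply, ← integral_indicator hW,
    ← integral_mul_left_eq_self (fun t => a t * W.indicator φ (g * t)) g⁻¹]
  refine integral_congr_ae ?_
  filter_upwards [lt_ae μ g a] with t ht
  rw [mul_inv_cancel_left]
  by_cases h1 : t ∈ W
  · rw [indicator_of_mem h1, indicator_of_mem h1, ht]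
  · rw [indicator_of_notMem h1, indicator_of_notMem h1, mul_zero]

lemma norm_ind_le (W : Set G) (φ : G →ᵇ ℂ) (t : G) : ‖W.indicator φ t‖ ≤ ‖φ‖ :=
  (norm_indicator_le_norm_self _ _).trans (φ.norm_coe_le_norm t)

lemma B0_le {W : Set G} (hW : MeasurableSet W) (a : Lp ℂ 1 μ) (φ : G →ᵇ ℂ) (g : G) :
    ‖B0 μ W a φ g‖ ≤ ∫ t, ‖a t‖ * ‖W.indicator φ (g * t)‖ ∂μ := by
  rw [B0_eq μ hW]
  refine (norm_integral_le_integral_norm _).trans (le_of_eq ?_)
  simp only [norm_mul]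

lemma B0_small {W C : Set G} (hW : MeasurableSet W) (hC : MeasurableSet C) (a : Lp ℂ 1 μ)
    (φ : G →ᵇ ℂ) (g : G) {δ : ℝ} (hδ : 0 ≤ δ) (h : ∀ t ∈ C, g * t ∈ W → ‖φ (g * t)‖ ≤ δ) :
    ‖B0 μ W a φ g‖ ≤ ‖a‖ * δ + nu μ Cᶜ a * ‖φ‖ := by
  refine (B0_le μ hW a φ g).trans (int_bound μ a hC hδ (fun t => norm_nonneg _) (fun t ht => ?_)
    (fun t => norm_ind_le W φ _))
  by_cases h1 : g * t ∈ W
  · rw [indicator_of_mem h1]; exact h t ht h1
  · rw [indicator_of_notMem h1, norm_zero]; exact hδ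

lemma B0_sum {ι : Type} (s : Finset ι) {W : ι → Set G} (hW : ∀ k, MeasurableSet (W k))
    (a : Lp ℂ 1 μ) (φ : ι → G →ᵇ ℂ) (g : ι → G) {M : ℝ}
    (h : ∀ t, ∑ k ∈ s, ‖(W k).indicator (φ k) (g k * t)‖ ≤ M) :
    ∑ k ∈ s, ‖B0 μ (W k) a (φ k) (g k)‖ ≤ ‖a‖ * M := by
  have hi : ∀ k, Integrable (fun t => ‖a t‖ * ‖(W k).indicator (φ k) (g k * t)‖) μ := fun k =>
    (int_norm μ a).mul_bdd (c := ‖φ k‖)
      ((((φ k).continuous.measurable.indicator (hW k)).comp
        (measurable_const_mul (g k))).norm.aestronglyMeasurable)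
      (Eventually.of_forall (fun t => by rw [norm_norm]; exact norm_ind_le _ _ _))
  refine (Finset.sum_le_sum (fun k _ => B0_le μ (hW k) a (φ k) (g k))).trans ?_
  rw [← integral_finsetSum s (fun k _ => hi k)]
  have h1 : ‖a‖ * M = ∫ t, ‖a t‖ * M ∂μ := by
    rw [integral_mul_const, ← L1.norm_eq_integral_norm]
  rw [h1]
  refine integral_mono (integrable_finsetSum s (fun k _ => hi k)) ((int_norm μ a).mul_const M)
    (fun t => ?_)
  simp only [← Finset.mul_sum]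
  exact mul_le_mul_of_nonneg_left (h t) (norm_nonneg _)

/-- the mass, for elements of the algebra -/
noncomputable def ms (W : Set G) (a : L1G μ) : ℝ := nu μ W a

lemma ms_nonneg (W : Set G) (a : L1G μ) : 0 ≤ ms μ W a := nu_nonneg μ W a

lemma ms_mono {W W' : Set G} (h : W ⊆ W') (a : L1G μ) : ms μ W a ≤ ms μ W' a := nu_mono μ h a

lemma ms_le (W : Set G) (a : L1G μ) : ms μ W a ≤ ‖a‖ := nu_le μ W a

lemma ms_union_le (W : Set G) {W' : Set G} (h : MeasurableSet W') (a : L1G μ) :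
    ms μ (W ∪ W') a ≤ ms μ W a + ms μ W' a := nu_union_le μ W h a

lemma ms_empty (a : L1G μ) : ms μ ∅ a = 0 := nu_empty μ a

lemma ms_tight (a : L1G μ) {ε : ℝ} (hε : 0 < ε) : ∃ K, IsCompact K ∧ ms μ Kᶜ a ≤ ε :=
  nu_tight μ a hε

lemma ms_mul {W C : Set G} (hW : MeasurableSet W) (hC : MeasurableSet C) (b d : L1G μ)
    {δ : ℝ} (hδ : 0 ≤ δ) (h : ∀ t ∈ C, ms μ ((fun s => t * s) ⁻¹' W) d ≤ δ) :
    ms μ W (b * d) ≤ ‖b‖ * δ + ms μ Cᶜ b * ‖d‖ := nu_conv μ hW hC b d hδ h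

lemma norm_BB_le (W : Set G) (a : L1G μ) (φ : G →ᵇ ℂ) : ‖BB μ W a φ‖ ≤ ‖a‖ * ‖φ‖ :=
  norm_B0_le μ W a φ

lemma BB_mul (W : Set G) (a b : L1G μ) (φ : G →ᵇ ℂ) :
    BB μ W (a * b) φ = BB μ univ a (BB μ W b φ) := B0_mul μ W a b φ

lemma BB_union {W W' : Set G} (h : Disjoint W W') (hW' : MeasurableSet W') :
    BB μ (W ∪ W') = BB μ W + BB μ W' := by
  ext a φ g
  exact setIntegral_union h hW' (int_mul μ _ φ).integrableOn (int_mul μ _ φ).integrableOn

lemma BB_empty : BB μ ∅ = 0 := by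
  ext a φ g
  exact setIntegral_empty

lemma BB_small {W C : Set G} (hW : MeasurableSet W) (hC : MeasurableSet C) (a : L1G μ)
    (φ : G →ᵇ ℂ) (g : G) {δ : ℝ} (hδ : 0 ≤ δ) (h : ∀ t ∈ C, g * t ∈ W → ‖φ (g * t)‖ ≤ δ) :
    ‖BB μ W a φ g‖ ≤ ‖a‖ * δ + ms μ Cᶜ a * ‖φ‖ := B0_small μ hW hC a φ g hδ h

lemma BB_ms {W : Set G} (hW : MeasurableSet W) (a : L1G μ) (φ : G →ᵇ ℂ) :
    ‖BB μ W a φ 1‖ ≤ ms μ W a * ‖φ‖ := by
  have h := BB_small μ hW hW.compl a φ 1 le_rfl (fun t ht h1 => absurd (by simpa using h1) ht)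
  rwa [mul_zero, zero_add, compl_compl] at h

lemma BB_sum {ι : Type} (s : Finset ι) {W : ι → Set G} (hW : ∀ k, MeasurableSet (W k))
    (a : L1G μ) (φ : ι → G →ᵇ ℂ) (g : ι → G) {M : ℝ}
    (h : ∀ t, ∑ k ∈ s, ‖(W k).indicator (φ k) (g k * t)‖ ≤ M) :
    ∑ k ∈ s, ‖BB μ (W k) a (φ k) (g k)‖ ≤ ‖a‖ * M := B0_sum μ s hW a φ g h

/-- the augmentation as a functional -/
noncomputable def chi : L1G μ →L[ℂ] ℂ :=
  (LinearMap.mkContinuous
    { toFun := aug μ
      map_add' := aug_add μ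
      map_smul' := aug_smul μ } 1
    (fun f => by rw [one_mul]; exact norm_aug_le μ f) : Lp ℂ 1 μ →L[ℂ] ℂ)

lemma chi_apply (a : L1G μ) : chi μ a = aug μ a := rfl

lemma norm_chi_le (a : L1G μ) : ‖chi μ a‖ ≤ ‖a‖ := norm_aug_le μ a

lemma BB_one (a : L1G μ) : BB μ univ a (1 : G →ᵇ ℂ) = chi μ a • (1 : G →ᵇ ℂ) := B0_one μ a

lemma chi_mul (a b : L1G μ) : chi μ (a * b) = chi μ a * chi μ b := integral_conv μ a b

lemma exists_far [NoncompactSpace G] {K : Set G} (hK : IsCompact K) :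
    ∃ a : L1G μ, ‖a‖ ≤ 1 ∧ chi μ a = 1 ∧ ms μ K a = 0 := by
  obtain ⟨x, hx⟩ : ∃ x, x ∉ K := by
    by_contra h
    push Not at h
    exact hK.ne_univ (eq_univ_of_forall h)
  obtain ⟨N, hN, hN1, hN2⟩ := exists_compact_subset hK.isClosed.isOpen_compl hx
  have hm := hN.measurableSet
  have h0 : μ N ≠ 0 := (Measure.measure_pos_of_nonempty_interior μ ⟨x, hN1⟩).ne'
  have h1 : μ N ≠ ∞ := hN.measure_lt_top.ne
  have h2 : 0 < μ.real N := ENNReal.toReal_pos h0 h1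
  let a : Lp ℂ 1 μ := indicatorConstLp 1 hm h1 (((μ.real N)⁻¹ : ℝ) : ℂ)
  have ha : a =ᵐ[μ] N.indicator (fun _ => (((μ.real N)⁻¹ : ℝ) : ℂ)) := indicatorConstLp_coeFn
  refine ⟨a, ?_, ?_, ?_⟩
  · show ‖a‖ ≤ 1
    rw [norm_indicatorConstLp one_ne_zero ENNReal.one_ne_top]
    simp [h2.ne', abs_of_pos h2]
  · show ∫ t, a t ∂μ = 1
    rw [integral_congr_ae ha, integral_indicator hm, setIntegral_const]
    simp [h2.ne']
  · refine integral_eq_zero_of_ae ?_
    filter_upwards [ae_restrict_of_ae ha, ae_restrict_mem hK.measurableSet] with t h3 h4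
    rw [h3, indicator_of_notMem (fun h5 => hN2 h5 h4), norm_zero]
    rfl

end Pool.Agent.H570Z.LG
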