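import Mathlib
import Pool.Agent.H570Z.L1A
import Pool.Agent.H570Z.Tn

/-!
Window functionals on the iterated kernel modules of the augmentation module of `L¹(G)`.
-/

set_option autoImplicit false
set_option maxSynthPendingDepth 3
set_option linter.unusedSectionVars false

namespace Pool.Agent.H570Z.LG

open MeasureTheory Filter Topology Set BoundedContinuousFunction TopologicalSpace
open Pool.Agent.Helper832.GD

/-- inserting an entry at the place number `i` -/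
def ins {α : Type} : ℕ → α → (ℕ → α) → ℕ → α
  | 0, x, s => cons x s
  | i + 1, x, s => cons (s 0) (ins i x (tl s))

lemma ins_lt {α : Type} : ∀ (i : ℕ) (x : α) (s : ℕ → α) (k : ℕ), k < i → ins i x s k = s k
  | 0, _, _, _, h => absurd h (Nat.not_lt_zero _)
  | _ + 1, _, _, 0, _ => rfl
  | i + 1, x, s, k + 1, h => ins_lt i x (tl s) k (by omega)

lemma ins_eq {α : Type} : ∀ (i : ℕ) (x : α) (s : ℕ → α), ins i x s i = x
  | 0, _, _ => rfl
  | i + 1, x, s => ins_eq i x (tl s)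

lemma ins_ge {α : Type} : ∀ (i : ℕ) (x : α) (s : ℕ → α) (k : ℕ), i ≤ k → ins i x s (k + 1) = s k
  | 0, _, _, _, _ => rfl
  | _ + 1, _, _, 0, h => absurd h (by omega)
  | i + 1, x, s, k + 1, h => ins_ge i x (tl s) k (by omega)

lemma ins_ne {α : Type} (i : ℕ) (x y : α) (s : ℕ → α) (k : ℕ) (h : k ≠ i) :
    ins i x s k = ins i y s k := by
  rcases Nat.lt_or_gt_of_ne h with h | h
  · rw [ins_lt _ _ _ _ h, ins_lt _ _ _ _ h]
  · obtain ⟨k, rfl⟩ : ∃ j, k = j + 1 := ⟨k - 1, by omega⟩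
    rw [ins_ge _ _ _ _ (by omega), ins_ge _ _ _ _ (by omega)]

/-- partial products -/
def pp {S : Type} [Mul S] (a : ℕ → S) : ℕ → S
  | 0 => a 0
  | i + 1 => pp a i * a (i + 1)

lemma pp_mrg {S : Type} [Mul S] (a : ℕ → S) : ∀ i, pp (mrg 0 a) i = pp a (i + 1)
  | 0 => rfl
  | i + 1 => by
    show pp (mrg 0 a) i * a (i + 2) = pp a (i + 1) * a (i + 2)
    rw [pp_mrg a i]

lemma pp_congr {S : Type} [Mul S] {a b : ℕ → S} : ∀ i, (∀ k ≤ i, a k = b k) → pp a i = pp b i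
  | 0, h => h 0 le_rfl
  | i + 1, h => by
    show pp a i * a (i + 1) = pp b i * b (i + 1)
    rw [pp_congr i (fun k hk => h k (by omega)), h (i + 1) le_rfl]

variable {G : Type} [Group G] [TopologicalSpace G] [IsTopologicalGroup G]
  [LocallyCompactSpace G] [T2Space G] [MeasurableSpace G] [BorelSpace G]
  (μ : Measure G) [μ.IsHaarMeasure] [μ.InnerRegularCompactLTTop]

/-- the modules -/
noncomputable abbrev XG (n : ℕ) : Bim (L1G μ) PUnit := XX (chi μ) (chi_mul μ) n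

/-- elementary tensors -/
noncomputable abbrev tg (n : ℕ) := tn (chi μ) (chi_mul μ) n

/-- iterated elementary tensors -/
noncomputable abbrev eg (n : ℕ) := el (chi μ) (chi_mul μ) n

/-- the boundary -/
noncomputable abbrev bg (n : ℕ) := bd (chi μ) (chi_mul μ) n

lemma eg_congr : ∀ (n : ℕ) (a b : ℕ → L1G μ), (∀ i < n, a i = b i) → eg μ n a = eg μ n b
  | 0, _, _, _ => rfl
  | n + 1, a, b, h => by
    show tg μ n (a 0) (eg μ n (tl a)) = tg μ n (b 0) (eg μ n (tl b))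
    rw [h 0 (by omega), eg_congr n (tl a) (tl b) (fun i hi => h (i + 1) (by omega))]

/-- the window functionals -/
noncomputable def Ph : (n : ℕ) → (ℕ → Set G) → ((XG μ n).carrier →L[ℂ] (G →ᵇ ℂ))
  | 0, _ => (sc (chi μ) (chi_mul μ)).smulRight (1 : G →ᵇ ℂ)
  | n + 1, W => li (chi μ) (chi_mul μ) n
      (((ContinuousLinearMap.compL ℂ (XG μ n).carrier (G →ᵇ ℂ) (G →ᵇ ℂ)).flip (Ph n (tl W))).comp
        (BB μ (W 0)))

lemma Ph_zero (W : ℕ → Set G) (z : (XG μ 0).carrier) :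
    Ph μ 0 W z = sc (chi μ) (chi_mul μ) z • (1 : G →ᵇ ℂ) := rfl

lemma Ph_tn (n : ℕ) (W : ℕ → Set G) (a : L1G μ) (y : (XG μ n).carrier) :
    Ph μ (n + 1) W (tg μ n a y) = BB μ (W 0) a (Ph μ n (tl W) y) := by
  show li (chi μ) (chi_mul μ) n _ (tn (chi μ) (chi_mul μ) n a y) = _
  rw [li_tn]
  rfl

lemma norm_Ph_le : ∀ (n : ℕ) (W : ℕ → Set G) (y : (XG μ n).carrier), ‖Ph μ n W y‖ ≤ ‖y‖
  | 0, W, y => by
    rw [Ph_zero, norm_smul, norm_sc, norm_one, mul_one]
  | n + 1, W, y => by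
    have h := xx_norm_le (chi μ) (chi_mul μ) (Ph μ (n + 1) W) zero_le_one (fun a x => by
      rw [Ph_tn, one_mul]
      exact (norm_BB_le μ _ _ _).trans
        (mul_le_mul_of_nonneg_left (norm_Ph_le n (tl W) x) (norm_nonneg _))) y
    rwa [one_mul] at h

lemma norm_Ph_apply_le (n : ℕ) (W : ℕ → Set G) (y : (XG μ n).carrier) (g : G) :
    ‖Ph μ n W y g‖ ≤ ‖y‖ := ((Ph μ n W y).norm_coe_le_norm g).trans (norm_Ph_le μ n W y)

lemma Ph_congr : ∀ (n : ℕ) (W W' : ℕ → Set G), (∀ i < n, W i = W' i) → Ph μ n W = Ph μ n W'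
  | 0, _, _, _ => rfl
  | n + 1, W, W', h => by
    refine xx_ext (chi μ) (chi_mul μ) (fun a y => ?_)
    rw [Ph_tn, Ph_tn, h 0 (by omega),
      Ph_congr n (tl W) (tl W') (fun i hi => h (i + 1) (by omega))]

lemma Ph_split {ι : Type} (s : Finset ι) : ∀ (n p : ℕ), p < n →
    ∀ (W : ℕ → Set G) (W' : ι → ℕ → Set G), (∀ r i, i ≠ p → W' r i = W i) →
    BB μ (W p) = ∑ r ∈ s, BB μ (W' r p) → Ph μ n W = ∑ r ∈ s, Ph μ n (W' r)
  | 0, _, hp, _, _, _, _ => absurd hp (Nat.not_lt_zero _)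
  | n + 1, 0, _, W, W', h1, h2 => by
    have e1 : ∀ r, tl (W' r) = tl W := fun r => funext (fun i => h1 r (i + 1) (by omega))
    refine xx_ext (chi μ) (chi_mul μ) (fun a y => ?_)
    rw [_root_.sum_apply]
    simp only [Ph_tn, e1, h2, _root_.sum_apply]
  | n + 1, p + 1, hp, W, W', h1, h2 => by
    have e1 : ∀ r, W' r 0 = W 0 := fun r => h1 r 0 (by omega)
    refine xx_ext (chi μ) (chi_mul μ) (fun a y => ?_)
    rw [_root_.sum_apply, Ph_tn, Ph_split s n p (by omega) (tl W) (fun r => tl (W' r))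
      (fun r i hi => h1 r (i + 1) (by omega)) h2]
    simp only [Ph_tn, e1, _root_.sum_apply, map_sum]

lemma Ph_add {n p : ℕ} (hp : p < n) (W W' W'' : ℕ → Set G) (h1 : ∀ i, i ≠ p → W' i = W i)
    (h2 : ∀ i, i ≠ p → W'' i = W i) (h3 : BB μ (W p) = BB μ (W' p) + BB μ (W'' p)) :
    Ph μ n W = Ph μ n W' + Ph μ n W'' := by
  have h := Ph_split μ (Finset.univ : Finset Bool) n p hp W (fun r => cond r W' W'')
    (fun r i hi => by cases r; exacts [h2 i hi, h1 i hi]) (by simpa using h3)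
  simpa using h

/-- evaluation at a point -/
noncomputable abbrev ev (g : G) : (G →ᵇ ℂ) →L[ℂ] ℂ := evalCLM ℂ g

lemma Ph_sum {ι : Type} (s : Finset ι) : ∀ (n p : ℕ), p < n →
    ∀ (W : ι → ℕ → Set G) (g : ι → G), (∀ k i, MeasurableSet (W k i)) →
    (∀ k ∈ s, ∀ k' ∈ s, ∀ t, g k * t ∈ W k p → g k' * t ∈ W k' p → k = k') →
    ∀ y, ∑ k ∈ s, ‖Ph μ n (W k) y (g k)‖ ≤ ‖y‖
  | 0, _, hp, _, _, _, _, _ => absurd hp (Nat.not_lt_zero _)
  | n + 1, p, hp, W, g, h1, h2, y => by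
    have h := xx_sum_le (chi μ) (chi_mul μ) s (fun k => (ev (g k)).comp (Ph μ (n + 1) (W k)))
      zero_le_one (fun a x => by
        show ∑ k ∈ s, ‖Ph μ (n + 1) (W k) (tg μ n a x) (g k)‖ ≤ _
        simp only [Ph_tn, one_mul]
        refine BB_sum μ s (fun k => h1 k 0) a _ g (fun t => ?_)
        cases p with
        | zero =>
          by_cases h3 : ∃ k ∈ s, g k * t ∈ W k 0
          · obtain ⟨k, hk, hk'⟩ := h3
            rw [Finset.sum_eq_single_of_mem k hk (fun k' h4 h5 => by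
              rw [indicator_of_notMem (fun h6 => h5 (h2 k' h4 k hk t h6 hk')), norm_zero])]
            exact (norm_ind_le _ _ _).trans (norm_Ph_le μ n _ x)
          · rw [Finset.sum_eq_zero (fun k hk => by
              rw [indicator_of_notMem (fun h6 => h3 ⟨k, hk, h6⟩), norm_zero])]
            exact norm_nonneg _
        | succ p =>
          refine (Finset.sum_le_sum (fun k _ => norm_indicator_le_norm_self _ _)).trans ?_
          exact Ph_sum s n p (by omega) (fun k => tl (W k)) (fun k => g k * t)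
            (fun k i => h1 k (i + 1)) (fun k hk k' hk' u h3 h4 =>
              h2 k hk k' hk' (t * u) (by rwa [← mul_assoc]) (by rwa [← mul_assoc])) x) y
    rwa [one_mul] at h

lemma Ph_tail : ∀ (n p : ℕ), p < n → ∀ (y : (XG μ n).carrier) (C : Set G), IsCompact C →
    ∀ ε > 0, ∀ᶠ K : Compacts G in atTop, ∀ W : ℕ → Set G, (∀ i, MeasurableSet (W i)) →
      Disjoint (W p) K → ∀ g ∈ C, ‖Ph μ n W y g‖ ≤ ε
  | 0, _, hp, _, _, _ => absurd hp (Nat.not_lt_zero _)
  | n + 1, p, hp, y, C, hC => by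
    intro ε hε
    have key := xx_unif (chi μ) (chi_mul μ) (atTop : Filter (Compacts G))
      (fun K => {f | ∃ W : ℕ → Set G, (∀ i, MeasurableSet (W i)) ∧ Disjoint (W p) K ∧
        ∃ g ∈ C, f = (ev g).comp (Ph μ (n + 1) W)}) 1 zero_le_one (by
        rintro K f ⟨W, -, -, g, -, rfl⟩ t
        rw [one_mul]
        exact norm_Ph_apply_le μ _ W t g) (by
        intro a x δ hδ
        obtain ⟨C', hC', h1⟩ := ms_tight μ a (ε := δ / 2 / (‖x‖ + 1)) (by positivity)
        have hCC : IsCompact (image2 (· * ·) C C') := hC.mul hC'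
        have h2 : ∀ W, ms μ C'ᶜ a * ‖Ph μ n W x‖ ≤ δ / 2 := fun W => by
          rw [le_div_iff₀ (by positivity)] at h1
          nlinarith [norm_Ph_le μ n W x, ms_nonneg μ C'ᶜ a, norm_nonneg (Ph μ n W x)]
        cases p with
        | zero =>
          filter_upwards [eventually_ge_atTop (⟨_, hCC⟩ : Compacts G)] with K hK
          rintro f ⟨W, h3, h4, g, hg, rfl⟩
          show ‖Ph μ (n + 1) W (tg μ n a x) g‖ ≤ δ
          rw [Ph_tn]
          have h5 := BB_small μ (h3 0) hC'.measurableSet a (Ph μ n (tl W) x) g le_rfl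
            (fun t ht h6 => absurd (hK (mem_image2_of_mem hg ht)) (disjoint_left.1 h4 h6))
          linarith [h2 (tl W)]
        | succ p =>
          filter_upwards [Ph_tail n p (by omega) x _ hCC (δ / 2 / (‖a‖ + 1)) (by positivity)]
            with K hK
          rintro f ⟨W, h3, h4, g, hg, rfl⟩
          show ‖Ph μ (n + 1) W (tg μ n a x) g‖ ≤ δ
          rw [Ph_tn]
          have h5 := BB_small μ (h3 0) hC'.measurableSet a (Ph μ n (tl W) x) g (by positivity)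
            (fun t ht _ => hK (tl W) (fun i => h3 (i + 1)) h4 _ (mem_image2_of_mem hg ht))
          have h6 : ‖a‖ * (δ / 2 / (‖a‖ + 1)) ≤ δ / 2 := by
            rw [← mul_div_assoc, div_le_iff₀ (by positivity)]
            nlinarith [norm_nonneg a]
          linarith [h2 (tl W)]) y ε hε
    filter_upwards [key] with K hK W h1 h2 g hg
    exact hK _ ⟨W, h1, h2, g, hg, rfl⟩

lemma Ph_bd : ∀ (n : ℕ) (W : ℕ → Set G), (Ph μ n W).comp (bg μ n)
    = ∑ i ∈ Finset.range (n + 1), (-1 : ℂ) ^ i • Ph μ (n + 1) (ins i univ W)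
  | 0, W => by
    refine xx_ext (chi μ) (chi_mul μ) (fun a x => ?_)
    rw [ContinuousLinearMap.comp_apply, bd_tn, Ph_zero, sc_left, Finset.sum_range_one, pow_zero,
      one_smul, Ph_tn, Ph_zero, map_smul]
    show _ = _ • BB μ univ a 1
    rw [BB_one, smul_smul, mul_comm]
  | n + 1, W => by
    refine xx_ext (chi μ) (chi_mul μ) (fun a x => ?_)
    have key : (Ph μ (n + 1) W).comp ((XG μ (n + 1)).left a)
        = ∑ i ∈ Finset.range (n + 2), (-1 : ℂ) ^ i •
          (Ph μ (n + 2) (ins i univ W)).comp (tg μ (n + 1) a) := by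
      refine xx_ext (chi μ) (chi_mul μ) (fun b y => ?_)
      have h := congrArg (fun f : (XG μ (n + 1)).carrier →L[ℂ] (G →ᵇ ℂ) => f (tg μ n b y))
        (Ph_bd n (tl W))
      simp only [ContinuousLinearMap.comp_apply, bd_tn] at h
      rw [ContinuousLinearMap.comp_apply, left_tn, map_sub, Ph_tn, Ph_tn, h, BB_mul,
        Finset.sum_range_succ' _ (n + 1), _root_.add_apply, _root_.sum_apply, _root_.sum_apply,
        map_sum]
      simp only [_root_.smul_apply, ContinuousLinearMap.comp_apply, map_smul, pow_succ, pow_zero,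
        one_smul, mul_neg, mul_one, neg_smul, _root_.neg_apply, Finset.sum_neg_distrib]
      have e1 : ∀ i, Ph μ (n + 2) (ins (i + 1) univ W) (tg μ (n + 1) a (tg μ n b y))
          = BB μ (W 0) a (Ph μ (n + 1) (ins i univ (tl W)) (tg μ n b y)) :=
        fun i => Ph_tn μ (n + 1) _ a _
      have e2 : Ph μ (n + 2) (ins 0 univ W) (tg μ (n + 1) a (tg μ n b y))
          = BB μ univ a (BB μ (W 0) b (Ph μ n (tl W) y)) := by
        rw [← Ph_tn μ n W b y]
        exact Ph_tn μ (n + 1) _ a _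
      simp only [e1, e2]
      abel
    have h := congrArg (fun f : (XG μ (n + 1)).carrier →L[ℂ] (G →ᵇ ℂ) => f x) key
    simp only [ContinuousLinearMap.comp_apply, _root_.sum_apply, _root_.smul_apply] at h ⊢
    rw [bd_tn]
    exact h

lemma Ph_step (n : ℕ) (W : ℕ → Set G) (hW : MeasurableSet (W 0)) (a : ℕ → L1G μ)
    (ha : ∀ i, ‖a i‖ ≤ 1) :
    ‖Ph μ (n + 2) W (eg μ (n + 2) a) 1 - Ph μ (n + 1) (tl W) (eg μ (n + 1) (mrg 0 a)) 1‖
      ≤ ms μ (W 0)ᶜ (a 0) := by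
  have e1 : Ph μ (n + 2) W (eg μ (n + 2) a)
      = BB μ (W 0) (a 0) (Ph μ (n + 1) (tl W) (eg μ (n + 1) (tl a))) := Ph_tn μ _ _ _ _
  have e2 : Ph μ (n + 1) (tl W) (eg μ (n + 1) (mrg 0 a))
      = BB μ univ (a 0) (Ph μ (n + 1) (tl W) (eg μ (n + 1) (tl a))) := by
    have e3 : Ph μ (n + 1) (tl W) (eg μ (n + 1) (tl a)) = _ := Ph_tn μ _ _ _ _
    rw [e3, ← BB_mul]
    exact Ph_tn μ _ _ _ _
  rw [e1, e2, ← union_compl_self (W 0), BB_union μ disjoint_compl_right hW.compl,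
    _root_.add_apply, _root_.add_apply, BoundedContinuousFunction.add_apply,
    sub_add_cancel_left, norm_neg]
  refine (BB_ms μ hW.compl _ _).trans (mul_le_of_le_one_right (ms_nonneg μ _ _) ?_)
  exact (norm_Ph_le μ _ _ _).trans (norm_el_le _ _ _ _ (fun i => ha (i + 1)))

lemma norm_mrg_zero {a : ℕ → L1G μ} (ha : ∀ i, ‖a i‖ ≤ 1) : ∀ i, ‖mrg 0 a i‖ ≤ 1
  | 0 => (norm_mul_le _ _).trans (mul_le_one₀ (ha 0) (norm_nonneg _) (ha 1))
  | i + 1 => ha (i + 2)

lemma Ph_good : ∀ (n : ℕ) (W : ℕ → Set G), (∀ i, MeasurableSet (W i)) → ∀ (a : ℕ → L1G μ),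
    (∀ i, ‖a i‖ ≤ 1) → ∀ δ : ℝ, (∀ i ≤ n, ms μ (W i)ᶜ (pp a i) ≤ δ) →
    ‖Ph μ (n + 1) W (eg μ (n + 1) a) 1 - chi μ (pp a n)‖ ≤ (n + 1) * δ
  | 0, W, hW, a, _, δ, h => by
    have e1 : Ph μ 1 W (eg μ 1 a) = BB μ (W 0) (a 0) 1 := by
      have e3 : Ph μ 1 W (eg μ 1 a) = _ := Ph_tn μ _ _ _ _
      rw [e3, Ph_zero, sc_el, one_smul]
    have e2 : chi μ (pp a 0) = BB μ univ (a 0) 1 1 := by
      rw [BB_one]
      simp [pp]
    rw [e1, e2, ← union_compl_self (W 0), BB_union μ disjoint_compl_right (hW 0).compl,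
      _root_.add_apply, _root_.add_apply, BoundedContinuousFunction.add_apply,
      sub_add_cancel_left, norm_neg]
    refine (BB_ms μ (hW 0).compl _ _).trans ?_
    have := h 0 le_rfl
    simpa [pp] using this
  | n + 1, W, hW, a, ha, δ, h => by
    have h1 := Ph_step μ n W (hW 0) a ha
    have h2 := Ph_good n (tl W) (fun i => hW (i + 1)) (mrg 0 a) (norm_mrg_zero μ ha) δ
      (fun i hi => by rw [pp_mrg]; exact h (i + 1) (by omega))
    rw [pp_mrg] at h2
    have h3 : ms μ (W 0)ᶜ (a 0) ≤ δ := h 0 (by omega)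
    have h4 := norm_sub_le_norm_sub_add_norm_sub (Ph μ (n + 2) W (eg μ (n + 2) a) 1)
      (Ph μ (n + 1) (tl W) (eg μ (n + 1) (mrg 0 a)) 1) (chi μ (pp a (n + 1)))
    push_cast
    linarith

lemma Ph_bad : ∀ (k n : ℕ), k ≤ n → ∀ (W : ℕ → Set G), (∀ i, MeasurableSet (W i)) →
    ∀ (a : ℕ → L1G μ), (∀ i, ‖a i‖ ≤ 1) → ∀ δ : ℝ, (∀ i < k, ms μ (W i)ᶜ (pp a i) ≤ δ) →
    ms μ (W k) (pp a k) ≤ δ → ‖Ph μ (n + 1) W (eg μ (n + 1) a) 1‖ ≤ (k + 1) * δ
  | 0, n, _, W, hW, a, ha, δ, _, h => by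
    have e3 : Ph μ (n + 1) W (eg μ (n + 1) a) = _ := Ph_tn μ _ _ _ _
    rw [e3]
    refine (BB_ms μ (hW 0) _ _).trans ((mul_le_of_le_one_right (ms_nonneg μ _ _) ?_).trans ?_)
    · exact (norm_Ph_le μ _ _ _).trans (norm_el_le _ _ _ _ (fun i => ha (i + 1)))
    · simpa [pp] using h
  | _ + 1, 0, hk, _, _, _, _, _, _, _ => absurd hk (by omega)
  | k + 1, n + 1, hk, W, hW, a, ha, δ, h, h' => by
    have h1 := Ph_step μ n W (hW 0) a ha
    have h2 := Ph_bad k n (by omega) (tl W) (fun i => hW (i + 1)) (mrg 0 a) (norm_mrg_zero μ ha) δ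
      (fun i hi => by rw [pp_mrg]; exact h (i + 1) (by omega)) (by rw [pp_mrg]; exact h')
    have h3 : ms μ (W 0)ᶜ (a 0) ≤ δ := h 0 (by omega)
    have h4 := norm_le_insert' (Ph μ (n + 2) W (eg μ (n + 2) a) 1)
      (Ph μ (n + 1) (tl W) (eg μ (n + 1) (mrg 0 a)) 1)
    push_cast
    linarith

end Pool.Agent.H570Z.LG
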