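import Mathlib
import Pool.Agent.H570Z.L1B
import Pool.Agent.H570Z.Pw2

/-!
The alternating cocycle, the semigroup of normalised elements, and the escaping lemma.
-/

set_option autoImplicit false
set_option maxSynthPendingDepth 3
set_option linter.unusedSectionVars false

namespace Pool.Agent.H570Z.LG

open MeasureTheory Filter Topology Set BoundedContinuousFunction TopologicalSpace
open Pool.Agent.Helper832.GD

variable {G : Type} [Group G] [TopologicalSpace G] [IsTopologicalGroup G]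
  [LocallyCompactSpace G] [T2Space G] [MeasurableSpace G] [BorelSpace G]
  (μ : Measure G) [μ.IsHaarMeasure] [μ.InnerRegularCompactLTTop]

/-- the windows given by a map of indices -/
def ex {m k : ℕ} (V : ℕ → Set G) (g : Fin k → Fin m) : ℕ → Set G :=
  fun i => if h : i < k then V (g ⟨i, h⟩) else univ

lemma ex_apply {m k : ℕ} (V : ℕ → Set G) (g : Fin k → Fin m) (i : Fin k) :
    ex V g i = V (g i) := dif_pos i.2

lemma ex_meas {m k : ℕ} {V : ℕ → Set G} (hV : ∀ i, MeasurableSet (V i)) (g : Fin k → Fin m)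
    (i : ℕ) : MeasurableSet (ex V g i) := by
  unfold ex
  split_ifs
  exacts [hV _, MeasurableSet.univ]

lemma ins_ex {m : ℕ} (V : ℕ → Set G) (g : Fin m → Fin m) (i : Fin (m + 1)) (r : Fin m)
    (k : ℕ) (hk : k < m + 1) : ins i (V r) (ex V g) k = ex V (i.insertNth r g) k := by
  have h0 := ex_apply V (i.insertNth r g : Fin (m + 1) → Fin m) ⟨k, hk⟩
  refine Eq.trans ?_ h0.symm
  rcases lt_trichotomy k i with h | h | h
  · have hk' : k < m := by omega
    have e : (⟨k, hk⟩ : Fin (m + 1)) = i.succAbove ⟨k, hk'⟩ :=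
      (Fin.succAbove_of_castSucc_lt i ⟨k, hk'⟩ h).symm
    rw [ins_lt _ _ _ _ h, e, Fin.insertNth_apply_succAbove]
    exact ex_apply V g ⟨k, hk'⟩
  · have e : (⟨k, hk⟩ : Fin (m + 1)) = i := Fin.ext h
    rw [e, Fin.insertNth_apply_same, h, ins_eq]
  · obtain ⟨k, rfl⟩ : ∃ j, k = j + 1 := ⟨k - 1, by omega⟩
    have hk' : k < m := by omega
    have e : (⟨k + 1, hk⟩ : Fin (m + 1)) = i.succAbove ⟨k, hk'⟩ :=
      (Fin.succAbove_of_le_castSucc i ⟨k, hk'⟩ (Nat.lt_succ_iff.1 h)).symm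
    rw [ins_ge _ _ _ _ (Nat.lt_succ_iff.1 h), e, Fin.insertNth_apply_succAbove]
    exact ex_apply V g ⟨k, hk'⟩

lemma BB_partition {m : ℕ} {V : ℕ → Set G} (hV : ∀ i, MeasurableSet (V i))
    (hd : ∀ i j, i ≠ j → Disjoint (V i) (V j)) (hu : ⋃ r : Fin m, V r = univ) :
    BB μ univ = ∑ r : Fin m, BB μ (V r) := by
  ext a φ g
  rw [← hu]
  simp only [_root_.sum_apply, BoundedContinuousFunction.sum_apply]
  exact integral_iUnion_fintype (fun r => hV r)
    (fun i j hij => hd i j (fun h => hij (Fin.ext h))) (fun r => (int_mul μ _ φ).integrableOn)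

lemma Ph_bd_apply (n : ℕ) (W : ℕ → Set G) (z : (XG μ (n + 1)).carrier) (g : G) :
    Ph μ n W (bg μ n z) g
      = ∑ i ∈ Finset.range (n + 1), (-1 : ℂ) ^ i * Ph μ (n + 1) (ins i univ W) z g := by
  have h := congrArg (fun f : (XG μ (n + 1)).carrier →L[ℂ] (G →ᵇ ℂ) => f z g) (Ph_bd μ n W)
  simp only [ContinuousLinearMap.comp_apply, _root_.sum_apply, _root_.smul_apply,
    BoundedContinuousFunction.sum_apply, BoundedContinuousFunction.smul_apply, smul_eq_mul] at h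
  exact h

lemma Psi_bd {m : ℕ} {V : ℕ → Set G} (hV : ∀ i, MeasurableSet (V i))
    (hd : ∀ i j, i ≠ j → Disjoint (V i) (V j)) (hu : ⋃ r : Fin m, V r = univ)
    (z : (XG μ (m + 1)).carrier) :
    ∑ g : Fin m → Fin m, cf g * Ph μ m (ex V g) (bg μ m z) 1 = 0 := by
  rw [← cf_alt (fun f : Fin (m + 1) → Fin m => Ph μ (m + 1) (ex V f) z 1)]
  refine Finset.sum_congr rfl (fun g _ => ?_)
  rw [Ph_bd_apply, Finset.sum_range]
  congr 1
  refine Finset.sum_congr rfl (fun i _ => ?_)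
  rw [Ph_split μ Finset.univ (m + 1) i i.2 (ins i univ (ex V g))
    (fun r : Fin m => ins i (V r) (ex V g)) (fun r k hk => ins_ne _ _ _ _ _ hk) (by
      simp only [ins_eq]
      exact BB_partition μ hV hd hu), _root_.sum_apply, BoundedContinuousFunction.sum_apply]
  congr 1
  refine Finset.sum_congr rfl (fun r _ => ?_)
  rw [Ph_congr μ (m + 1) _ _ (ins_ex V g i r)]

/-- the semigroup of normalised elements -/
def SS : Subsemigroup (L1G μ) where
  carrier := {a | ‖a‖ ≤ 1 ∧ chi μ a = 1}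
  mul_mem' := fun {a b} ha hb =>
    ⟨(norm_mul_le _ _).trans (mul_le_one₀ ha.1 (norm_nonneg _) hb.1), by
      rw [chi_mul, ha.2, hb.2, mul_one]⟩

lemma esc_mul (U : Filter (SS μ))
    (hU : ∀ K, IsCompact K → ∀ ε > 0, ∀ᶠ d in U, ms μ K d.1 ≤ ε) (b : L1G μ) (K : Set G)
    (hK : IsCompact K) (ε : ℝ) (hε : 0 < ε) : ∀ᶠ d in U, ms μ K (b * d.1) ≤ ε := by
  obtain ⟨C, hC, h1⟩ := ms_tight μ b (half_pos hε)
  have hK' : IsCompact (image2 (· * ·) C⁻¹ K) := hC.inv.mul hK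
  filter_upwards [hU _ hK' (ε / 2 / (‖b‖ + 1)) (by positivity)] with d hd
  have h2 := ms_mul μ hK.measurableSet hC.measurableSet b d.1 (by positivity)
    (fun t ht => (ms_mono μ (W' := image2 (· * ·) C⁻¹ K)
      (fun s hs => ⟨t⁻¹, by simpa using ht, t * s, hs, by simp⟩) d.1).trans hd)
  have h3 : ‖b‖ * (ε / 2 / (‖b‖ + 1)) ≤ ε / 2 := by
    rw [← mul_div_assoc, div_le_iff₀ (by positivity)]
    nlinarith [norm_nonneg b]
  nlinarith [d.2.1, ms_nonneg μ Cᶜ b, norm_nonneg d.1]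

lemma exists_U [NoncompactSpace G] (V : Ultrafilter (Compacts G))
    (hV : ∀ x, ∀ᶠ y in (V : Filter (Compacts G)), x ≤ y) :
    ∃ U : Ultrafilter (SS μ), (∀ (b : L1G μ) K, IsCompact K → ∀ ε > 0,
      ∀ᶠ d in (U : Filter (SS μ)), ms μ K (b * d.1) ≤ ε) ∧ ∀ P : SS μ → Prop,
      (∀ᶠ a in (U : Filter (SS μ)), P a) ↔
        ∀ᶠ a in (U : Filter (SS μ)), ∀ᶠ b in (U : Filter (SS μ)), P (a * b) := by
  have h0 : ∀ K : Compacts G, ∃ a : SS μ, ms μ K a.1 = 0 := fun K => by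
    obtain ⟨a, h1, h2, h3⟩ := exists_far μ K.isCompact
    exact ⟨⟨a, h1, h2⟩, h3⟩
  choose f hf using h0
  have aux : ∀ U : Ultrafilter (SS μ), (∀ i : Compacts G × {ε : ℝ // 0 < ε},
      {a : SS μ | ms μ i.1 a.1 ≤ i.2.1} ∈ U) → ∀ (b : L1G μ) K, IsCompact K → ∀ ε > 0,
      ∀ᶠ d in (U : Filter (SS μ)), ms μ K (b * d.1) ≤ ε := fun U hU =>
    esc_mul μ U (fun K hK ε hε => hU (⟨K, hK⟩, ⟨ε, hε⟩))
  obtain ⟨U, h1, h2⟩ := exists_idem
    (fun i : Compacts G × {ε : ℝ // 0 < ε} => {a : SS μ | ms μ i.1 a.1 ≤ i.2.1}) (V.map f)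
    (fun i => by
      show ∀ᶠ K in (V : Filter (Compacts G)), ms μ i.1 (f K).1 ≤ i.2.1
      filter_upwards [hV i.1] with K hK
      exact ((ms_mono μ hK _).trans (hf K).le).trans i.2.2.le)
    (fun U hU b i => aux U hU b.1 i.1 i.1.isCompact i.2.1 i.2.2)
  exact ⟨U, aux U h1, h2⟩

lemma far_family (U : Ultrafilter (SS μ)) (b : L1G μ)
    (hU : ∀ K, IsCompact K → ∀ ε > 0, ∀ᶠ d in (U : Filter (SS μ)), ms μ K (b * d.1) ≤ ε)
    {F : Set G} (hF : IsCompact F) {Bad : SS μ → Prop} (hB : ∀ᶠ d in (U : Filter (SS μ)), Bad d)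
    {η : ℝ} (hη : 0 < η) : ∀ L : ℕ, ∃ (d : ℕ → SS μ) (C : ℕ → Set G) (K : Set G), IsCompact K ∧
      (∀ k < L, C k ⊆ K ∧ MeasurableSet (C k) ∧ ms μ (C k)ᶜ (b * (d k).1) ≤ η ∧ Bad (d k)) ∧
      ∀ k k', k < k' → k' < L → ∀ g ∈ C k, ∀ g' ∈ C k', ∀ t, g * t ∈ F → g' * t ∉ F
  | 0 => by
    obtain ⟨d, -⟩ := hB.exists
    exact ⟨fun _ => d, fun _ => ∅, ∅, isCompact_empty, fun _ h => absurd h (Nat.not_lt_zero _),
      fun _ _ _ h => absurd h (Nat.not_lt_zero _)⟩
  | L + 1 => by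
    obtain ⟨d, C, K, hK, h1, h2⟩ := far_family U b hU hF hB hη L
    have hK' : IsCompact (image2 (· * ·) (image2 (· * ·) F F⁻¹) K) := (hF.mul hF.inv).mul hK
    obtain ⟨e, he1, he2⟩ := ((hU _ hK' _ (half_pos hη)).and hB).exists
    obtain ⟨C', hC', he3⟩ := ms_tight μ (b * e.1) (half_pos hη)
    refine ⟨Function.update d L e,
      Function.update C L (C' \ image2 (· * ·) (image2 (· * ·) F F⁻¹) K), K ∪ C', hK.union hC',
      fun k hk => ?_, fun k k' h3 h4 => ?_⟩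
    · by_cases h5 : k = L
      · rw [h5, Function.update_self, Function.update_self]
        refine ⟨sdiff_subset.trans subset_union_right, hC'.measurableSet.diff hK'.measurableSet,
          ?_, he2⟩
        rw [sdiff_eq, compl_inter, compl_compl]
        linarith [ms_union_le μ C'ᶜ hK'.measurableSet (b * e.1)]
      · rw [Function.update_of_ne h5, Function.update_of_ne h5]
        obtain ⟨h6, h7⟩ := h1 k (by omega)
        exact ⟨h6.trans subset_union_left, h7⟩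
    · rw [Function.update_of_ne (by omega : k ≠ L)]
      by_cases h5 : k' = L
      · rw [h5, Function.update_self]
        intro g hg g' hg' t h6 h7
        exact hg'.2 ⟨g' * t * (g * t)⁻¹, ⟨g' * t, h7, (g * t)⁻¹, by simpa using h6, rfl⟩, g,
          (h1 k (by omega)).1 hg, by group⟩
      · rw [Function.update_of_ne h5]
        exact h2 k k' h3 (by omega)

lemma escape (U : Ultrafilter (SS μ)) (b : L1G μ) (hb : ‖b‖ ≤ 1)
    (hU : ∀ K, IsCompact K → ∀ ε > 0, ∀ᶠ d in (U : Filter (SS μ)), ms μ K (b * d.1) ≤ ε)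
    {τ : Type} (𝒯 : Ultrafilter τ) {F : Set G} (hF : IsCompact F) {m : ℕ}
    (Y : τ → (XG μ m).carrier) {M : ℝ} (hM : 0 ≤ M) (hY : ∀ t, ‖Y t‖ ≤ M) {η : ℝ} (hη : 0 < η) :
    ∀ p, p ≤ m → ∀ᶠ d in (U : Filter (SS μ)), ∀ᶠ t in (𝒯 : Filter τ), ∀ W : ℕ → Set G,
      (∀ i, MeasurableSet (W i)) → W p ⊆ F → ‖Ph μ (m + 1) W (tg μ m (b * d.1) (Y t)) 1‖ ≤ η
  | 0, _ => by
    filter_upwards [hU F hF (η / (M + 1)) (by positivity)] with d hd
    refine Eventually.of_forall (fun t W h1 h2 => ?_)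
    rw [Ph_tn]
    refine (BB_ms μ (h1 0) _ _).trans ?_
    have h3 := (ms_mono μ h2 _).trans hd
    rw [le_div_iff₀ (by positivity)] at h3
    have h4 := (norm_Ph_le μ m (tl W) (Y t)).trans (hY t)
    nlinarith [ms_nonneg μ (W 0) (b * d.1)]
  | p + 1, hp => by
    by_contra hc
    rw [← Ultrafilter.eventually_not] at hc
    obtain ⟨L, hL⟩ := exists_nat_gt (M / (η / 2))
    obtain ⟨d, C, K, -, h1, h2⟩ := far_family μ U b hU hF hc
      (η := η / 2 / (M + 1)) (by positivity) L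
    obtain ⟨t, ht⟩ := ((Finset.eventually_all (Finset.range L)).2 (fun k hk =>
      Ultrafilter.eventually_not.2 (h1 k (Finset.mem_range.1 hk)).2.2.2)).exists
    have h3 : ∀ k, ∃ (W : ℕ → Set G) (g : G), (∀ i, MeasurableSet (W i)) ∧ (k < L →
        W p ⊆ F ∧ g ∈ C k ∧ η / 2 ≤ ‖Ph μ m W (Y t) g‖) := by
      intro k
      by_cases hk : k < L
      · have h4 := ht k (Finset.mem_range.2 hk)
        push Not at h4
        obtain ⟨W, h5, h6, h7⟩ := h4
        by_contra h8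
        push Not at h8
        rw [Ph_tn] at h7
        have h9 := BB_small μ (h5 0) (h1 k hk).2.1 (b * (d k).1) (Ph μ m (tl W) (Y t)) 1
          (half_pos hη).le (fun u hu _ => by
            rw [one_mul]
            exact ((h8 (tl W) u (fun i => h5 (i + 1))).2 h6 hu).le)
        have h10 := (h1 k hk).2.2.1
        rw [le_div_iff₀ (by positivity)] at h10
        have h11 := (norm_Ph_le μ m (tl W) (Y t)).trans (hY t)
        have h12 : ‖b * (d k).1‖ ≤ 1 :=
          (norm_mul_le _ _).trans (mul_le_one₀ hb (norm_nonneg _) (d k).2.1)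
        nlinarith [ms_nonneg μ (C k)ᶜ (b * (d k).1)]
      · exact ⟨fun _ => univ, 1, fun _ => MeasurableSet.univ, fun h => absurd h hk⟩
    choose W g h4 h5 using h3
    have h6 := Ph_sum μ (Finset.range L) m p (by omega) W g h4 (fun k hk k' hk' u h7 h8 => by
      have hk1 := Finset.mem_range.1 hk
      have hk2 := Finset.mem_range.1 hk'
      rcases lt_trichotomy k k' with h | h | h
      · exact absurd ((h5 k' hk2).1 h8) (h2 k k' h hk2 _ (h5 k hk1).2.1 _ (h5 k' hk2).2.1 u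
          ((h5 k hk1).1 h7))
      · exact h
      · exact absurd ((h5 k hk1).1 h7) (h2 k' k h hk1 _ (h5 k' hk2).2.1 _ (h5 k hk1).2.1 u
          ((h5 k' hk2).1 h8))) (Y t)
    have h7 := Finset.sum_le_sum (s := Finset.range L) (f := fun _ => η / 2)
      (fun k hk => (h5 k (Finset.mem_range.1 hk)).2.2)
    rw [Finset.sum_const, Finset.card_range, nsmul_eq_mul] at h7
    rw [div_lt_iff₀ (half_pos hη)] at hL
    linarith [hY t]

end Pool.Agent.H570Z.LG
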