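import Mathlib
import Pool.Agent.H570Z.L1C

/-!
The augmentation module of `L¹(G)` has no finite projective resolution if `G` is not compact.
-/

set_option autoImplicit false
set_option maxSynthPendingDepth 3
set_option linter.unusedSectionVars false

namespace Pool.Agent.H570Z.LG

open MeasureTheory Filter Topology Set BoundedContinuousFunction TopologicalSpace
open Pool.Agent.Helper832.GD

variable {G : Type} [Group G] [TopologicalSpace G] [IsTopologicalGroup G]
  [LocallyCompactSpace G] [T2Space G] [MeasurableSpace G] [BorelSpace G]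
  (μ : Measure G) [μ.IsHaarMeasure] [μ.InnerRegularCompactLTTop]

variable {n : ℕ} (T : (XG μ n).carrier →L[ℂ] (XG μ (n + 1)).carrier)

/-- the corrected functional -/
noncomputable def Om (W : ℕ → Set G) : (XG μ (n + 1)).carrier →L[ℂ] ℂ :=
  (ev 1).comp ((Ph μ (n + 1) W).comp (T.comp (bg μ n)))

lemma Om_apply (W : ℕ → Set G) (y : (XG μ (n + 1)).carrier) :
    Om μ T W y = Ph μ (n + 1) W (T (bg μ n y)) 1 := rfl

lemma bg_left (a : L1G μ) (y : (XG μ (n + 1)).carrier) :
    bg μ n ((XG μ (n + 1)).left a y) = 0 := by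
  have : (bg μ n).comp ((XG μ (n + 1)).left a) = 0 := by
    refine xx_ext (chi μ) (chi_mul μ) (fun b x => ?_)
    rw [ContinuousLinearMap.comp_apply, left_tn, map_sub, bd_tn, bd_tn, (XG μ n).left_mul,
      sub_self]
    rfl
  exact congrArg (fun f : (XG μ (n + 1)).carrier →L[ℂ] (XG μ n).carrier => f y) this

lemma Om_faces (W : ℕ → Set G) (a : ℕ → L1G μ) (ha : ‖a (n + 1)‖ ≤ 1) :
    ‖Om μ T W (eg μ (n + 1) (mrg 0 a))‖
      ≤ ∑ j ∈ Finset.range n, ‖Om μ T W (eg μ (n + 1) (mrg (j + 1) a))‖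
        + ‖Om μ T W (eg μ (n + 1) a)‖ := by
  have h1 : Om μ T W ((XG μ (n + 1)).left (a 0) (eg μ (n + 1) (tl a))) = 0 := by
    rw [Om_apply, bg_left, map_zero, map_zero]
    rfl
  rw [left_el, map_add, map_sum, Finset.sum_range_succ', pow_zero, one_smul, add_right_comm,
    add_eq_zero_iff_eq_neg', eq_neg_iff_add_eq_zero, add_eq_zero_iff_eq_neg'] at h1
  have h2 := congrArg norm h1
  rw [norm_neg] at h2
  refine h2.symm.le.trans ?_
  refine (norm_add_le _ _).trans (add_le_add ((norm_sum_le _ _).trans (le_of_eq ?_)) ?_)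
  · refine Finset.sum_congr rfl (fun j _ => ?_)
    rw [map_smul, norm_smul, norm_pow, norm_neg, norm_one, one_pow, one_mul]
  · rw [map_smul, norm_smul, norm_mul, norm_pow, norm_neg, norm_one, one_pow, one_mul]
    exact mul_le_of_le_one_left (norm_nonneg _) ((norm_chi_le μ _).trans ha)

variable (hT : ∀ a x, tg μ n a x = (XG μ (n + 1)).left a (T x) - T ((XG μ n).left a x))
include hT

lemma Om_tn (W : ℕ → Set G) (c : L1G μ) (x : (XG μ n).carrier) :
    Om μ T W (tg μ n c x) = Ph μ (n + 1) W (bg μ (n + 1) (tg μ (n + 1) c (T x))) 1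
      - Ph μ (n + 1) W (tg μ n c x) 1 := by
  have h1 : T ((XG μ n).left c x) = (XG μ (n + 1)).left c (T x) - tg μ n c x := by
    rw [hT]; abel
  rw [Om_apply, bd_tn, bd_tn, h1, map_sub]
  rfl

lemma Om_esc {F : Set G} {c : L1G μ} {x : (XG μ n).carrier} {ε : ℝ}
    (h1 : ∀ p ≤ n, ∀ W : ℕ → Set G, (∀ i, MeasurableSet (W i)) → W p ⊆ F →
      ‖Ph μ (n + 1) W (tg μ n c x) 1‖ ≤ ε)
    (h2 : ∀ p ≤ n + 1, ∀ W : ℕ → Set G, (∀ i, MeasurableSet (W i)) → W p ⊆ F →
      ‖Ph μ (n + 1 + 1) W (tg μ (n + 1) c (T x)) 1‖ ≤ ε) :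
    ∀ p ≤ n, ∀ W : ℕ → Set G, (∀ i, MeasurableSet (W i)) → W p ⊆ F →
      ‖Om μ T W (tg μ n c x)‖ ≤ (n + 3) * ε := by
  intro p hp W hW hF
  rw [Om_tn μ T hT, Ph_bd_apply]
  refine (norm_sub_le _ _).trans ?_
  have h3 := (norm_sum_le (Finset.range (n + 1 + 1)) _).trans
    (Finset.sum_le_sum (g := fun _ => ε) (f := fun i => ‖(-1 : ℂ) ^ i *
      Ph μ (n + 1 + 1) (ins i univ W) (tg μ (n + 1) c (T x)) 1‖) (fun i _ => by
      rw [norm_mul, norm_pow, norm_neg, norm_one, one_pow, one_mul]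
      have hm : ∀ k, MeasurableSet (ins i univ W k) := fun k => by
        rcases lt_trichotomy k i with h | h | h
        · rw [ins_lt _ _ _ _ h]; exact hW _
        · rw [h, ins_eq]; exact MeasurableSet.univ
        · obtain ⟨k, rfl⟩ : ∃ j, k = j + 1 := ⟨k - 1, by omega⟩
          rw [ins_ge _ _ _ _ (by omega)]; exact hW _
      rcases Nat.lt_or_ge p i with h | h
      · exact h2 p (by omega) _ hm (by rw [ins_lt _ _ _ _ h]; exact hF)
      · exact h2 (p + 1) (by omega) _ hm (by rw [ins_ge _ _ _ _ h]; exact hF)))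
  rw [Finset.sum_const, Finset.card_range, nsmul_eq_mul] at h3
  push_cast at h3
  linarith [h1 p hp W hW hF]

lemma final (a : ℕ → L1G μ) (ha : ∀ i, ‖a i‖ ≤ 1) (ha' : ∀ i, chi μ (a i) = 1)
    (ρ : ℕ → Set G) (hm : ∀ i, MeasurableSet (ρ i)) (hρ : Monotone ρ) (hρ' : ρ (n + 2) = univ)
    {ε : ℝ} (hε : 0 ≤ ε)
    (E1 : ∀ j < n, ∀ p ≤ n, ∀ W : ℕ → Set G, (∀ i, MeasurableSet (W i)) →
      W p = ρ (j + 2) \ ρ (j + 1) → ‖Om μ T W (eg μ (n + 1) (mrg (j + 1) a))‖ ≤ ε)
    (E2 : ∀ p ≤ n, ∀ W : ℕ → Set G, (∀ i, MeasurableSet (W i)) →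
      Disjoint (W p) (ρ (n + 1)) → ‖Om μ T W (eg μ (n + 1) a)‖ ≤ ε)
    (E3 : ∀ p ≤ n, ∀ W : ℕ → Set G, (∀ i, MeasurableSet (W i)) →
      W p ⊆ ρ 1 → ‖Om μ T W (eg μ (n + 1) (mrg 0 a))‖ ≤ (n + 3) * ε)
    (E4 : ∀ i ≤ n, ms μ (ρ (i + 2))ᶜ (pp a (i + 1)) ≤ ε)
    (E5 : ∀ i ≤ n, ms μ (ρ (i + 1)) (pp a (i + 1)) ≤ ε) :
    1 ≤ (∑ g : Fin (n + 1) → Fin (n + 1), ‖cf g‖) * ((4 * n + 6) * ε) := by
  classical
  let τ : ℕ → Set G := cons ∅ (tl (tl ρ))
  have hτ : Monotone τ := monotone_nat_of_le_succ (fun i => by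
    cases i with
    | zero => exact empty_subset _
    | succ i => exact hρ (Nat.le_succ (i + 2)))
  have hτm : ∀ i, MeasurableSet (τ i) := fun i => by
    cases i with
    | zero => exact MeasurableSet.empty
    | succ i => exact hm _
  have hτρ : ∀ i, τ i ⊆ ρ (i + 1) := fun i => by
    cases i with
    | zero => exact empty_subset _
    | succ i => exact subset_rfl
  let V : ℕ → Set G := fun r => τ (r + 1) \ τ r
  let V' : ℕ → Set G := fun r => ρ (r + 2) \ ρ (r + 1)
  have hVm : ∀ i, MeasurableSet (V i) := fun i => (hτm _).diff (hτm _)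
  have hVm' : ∀ i, MeasurableSet (V' i) := fun i => (hm _).diff (hm _)
  have hVd : ∀ i j, i ≠ j → Disjoint (V i) (V j) := by
    have aux : ∀ i j, i < j → Disjoint (V i) (V j) := fun i j h =>
      disjoint_left.2 (fun x h1 h2 => h2.2 (hτ (Nat.succ_le_of_lt h) h1.1))
    intro i j h
    rcases Nat.lt_or_gt_of_ne h with h | h
    exacts [aux i j h, (aux j i h).symm]
  have hVu : ⋃ r : Fin (n + 1), V r = univ := by
    have aux : ∀ k x, x ∈ τ k → ∃ r < k, x ∈ V r := by
      intro k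
      induction k with
      | zero => exact fun x hx => absurd hx (notMem_empty x)
      | succ k ih =>
        intro x hx
        by_cases h : x ∈ τ k
        · obtain ⟨r, h1, h2⟩ := ih x h
          exact ⟨r, by omega, h2⟩
        · exact ⟨k, by omega, hx, h⟩
    refine eq_univ_of_forall (fun x => ?_)
    obtain ⟨r, h1, h2⟩ := aux (n + 1) x (by
      show x ∈ ρ (n + 2)
      rw [hρ']; trivial)
    exact mem_iUnion.2 ⟨⟨r, h1⟩, h2⟩
  have hb := norm_mrg_zero μ ha
  have good : ∀ i ≤ n, ms μ (V i)ᶜ (pp (mrg 0 a) i) ≤ 2 * ε := fun i hi => by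
    have h1 : (V i)ᶜ ⊆ (ρ (i + 2))ᶜ ∪ ρ (i + 1) := fun x hx => by
      by_cases h : x ∈ ρ (i + 2)
      · exact Or.inr (hτρ i (by by_contra h'; exact hx ⟨h, h'⟩))
      · exact Or.inl h
    rw [pp_mrg]
    linarith [ms_mono μ h1 (pp a (i + 1)), ms_union_le μ (ρ (i + 2))ᶜ (hm (i + 1)) (pp a (i + 1)),
      E4 i hi, E5 i hi]
  have hchi : ∀ i, chi μ (pp a i) = 1 := fun i => by
    induction i with
    | zero => exact ha' 0
    | succ i ih =>
      show chi μ (pp a i * a (i + 1)) = 1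
      rw [chi_mul, ih, ha', mul_one]
  set y := eg μ (n + 1) (mrg 0 a) with hy
  have main : ∀ g : Fin (n + 1) → Fin (n + 1),
      ‖Ph μ (n + 1) (ex V g) y 1 - (if g = id then 1 else 0)‖ ≤ (n + 1) * (2 * ε) := by
    intro g
    split_ifs with hg
    · have h1 := Ph_good μ n (ex V g) (ex_meas hVm g) (mrg 0 a) hb (2 * ε) (fun i hi => by
        rw [ex_apply V g ⟨i, Nat.lt_succ_of_le hi⟩, hg]
        exact good i hi)
      rwa [pp_mrg, hchi] at h1
    · have hex : ∃ k, ∃ h : k < n + 1, g ⟨k, h⟩ ≠ ⟨k, h⟩ := by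
        by_contra h
        push Not at h
        exact hg (funext (fun i => h i.1 i.2))
      obtain ⟨hk, hk'⟩ := Nat.find_spec hex
      have h1 := Ph_bad μ (Nat.find hex) n (by omega) (ex V g) (ex_meas hVm g) (mrg 0 a) hb (2 * ε)
        (fun i hi => by
          have h2 := Nat.find_min hex hi
          push Not at h2
          rw [ex_apply V g ⟨i, by omega⟩, h2]
          exact good i (by omega))
        (by
          rw [ex_apply V g ⟨_, hk⟩]
          refine (ms_mono μ ?_ _).trans (good _ (by omega))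
          exact (hVd _ _ (fun h => hk' (Fin.ext h))).subset_compl_right)
      rw [sub_zero]
      refine h1.trans (mul_le_mul_of_nonneg_right ?_ (by positivity))
      have : ((Nat.find hex : ℕ) : ℝ) ≤ n := by exact_mod_cast Nat.le_of_lt_succ hk
      linarith
  have side : ∀ g : Fin (n + 1) → Fin (n + 1), Function.Surjective g →
      ‖Om μ T (ex V g) y‖ ≤ (n + 1) * ε + (n + 3) * ε := by
    intro g hg
    have hinj : Function.Injective g := Finite.injective_iff_surjective.2 hg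
    obtain ⟨p, hp⟩ := hg 0
    have hadd := Ph_add μ p.2 (ex V g) (ex V' g) (Function.update (ex V g) p (ρ 1))
      (fun i hi => by
        unfold ex
        split_ifs with h
        · obtain ⟨r, hr⟩ : ∃ r, (g ⟨i, h⟩ : ℕ) = r + 1 :=
            Nat.exists_eq_succ_of_ne_zero (fun h1 => hi (congrArg Fin.val
              (hinj ((Fin.ext h1 : g ⟨i, h⟩ = 0).trans hp.symm))))
          rw [hr]
          rfl
        · rfl)
      (fun i hi => Function.update_of_ne hi _ _)
      (by
        rw [Function.update_self, ex_apply, ex_apply, hp]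
        show BB μ (ρ 2 \ ∅) = BB μ (ρ 2 \ ρ 1) + BB μ (ρ 1)
        rw [← BB_union μ disjoint_sdiff_left (hm 1), sdiff_empty,
          sdiff_union_of_subset (hρ (Nat.le_succ 1))])
    have h1 : Om μ T (ex V g) y
        = Om μ T (ex V' g) y + Om μ T (Function.update (ex V g) p (ρ 1)) y := by
      rw [Om_apply, Om_apply, Om_apply, hadd]
      rfl
    have h2 := E3 p (Nat.le_of_lt_succ p.2) (Function.update (ex V g) p (ρ 1)) (fun i => by
      by_cases h : i = p
      · rw [h, Function.update_self]; exact hm 1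
      · rw [Function.update_of_ne h]; exact ex_meas hVm g i) (by rw [Function.update_self])
    have h3 := Om_faces μ T (ex V' g) a (ha _)
    have h4 := Finset.sum_le_sum (s := Finset.range n) (g := fun _ => ε)
      (f := fun j => ‖Om μ T (ex V' g) (eg μ (n + 1) (mrg (j + 1) a))‖) (fun j hj => by
        have hj' := Finset.mem_range.1 hj
        obtain ⟨q, hq⟩ := hg ⟨j, by omega⟩
        exact E1 j hj' q (Nat.le_of_lt_succ q.2) _ (ex_meas hVm' g) (by rw [ex_apply, hq]))
    rw [Finset.sum_const, Finset.card_range, nsmul_eq_mul] at h4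
    obtain ⟨q, hq⟩ := hg (Fin.last n)
    have h5 := E2 q (Nat.le_of_lt_succ q.2) _ (ex_meas hVm' g) (by
      rw [ex_apply, hq]
      exact disjoint_sdiff_left)
    rw [h1]
    linarith [norm_add_le (Om μ T (ex V' g) y) (Om μ T (Function.update (ex V g) p (ρ 1)) y)]
  have hsum : ∑ g : Fin (n + 1) → Fin (n + 1), cf g * (Om μ T (ex V g) y +
      (Ph μ (n + 1) (ex V g) y 1 - (if g = id then 1 else 0))) = -1 := by
    have h1 : ∀ g : Fin (n + 1) → Fin (n + 1), Om μ T (ex V g) y = _ - Ph μ (n + 1) (ex V g) y 1 :=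
      fun g => Om_tn μ T hT (ex V g) _ _
    simp only [h1, mul_sub, Finset.sum_sub_distrib, sub_add_sub_cancel]
    rw [Psi_bd μ hVm hVd hVu]
    simp [cf_id]
  have h6 : (1 : ℝ) = ‖∑ g : Fin (n + 1) → Fin (n + 1), cf g * (Om μ T (ex V g) y +
      (Ph μ (n + 1) (ex V g) y 1 - (if g = id then 1 else 0)))‖ := by
    rw [hsum, norm_neg, norm_one]
  rw [h6, Finset.sum_mul]
  refine (norm_sum_le _ _).trans (Finset.sum_le_sum (fun g _ => ?_))
  by_cases hg : cf g = 0
  · simp [hg]
  · rw [norm_mul]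
    refine mul_le_mul_of_nonneg_left ((norm_add_le _ _).trans ?_) (norm_nonneg _)
    linarith [main g, side g (cf_surj hg)]

omit hT T in
theorem not_hasRes [NoncompactSpace G] (n : ℕ) :
    ¬ (oneMod (chi μ) (chi_mul μ)).HasResolution n := by
  intro h0
  obtain ⟨T, hT⟩ := exists_T (chi μ) (chi_mul μ) h0
  let V : Ultrafilter (Compacts G) := Ultrafilter.of atTop
  have hVle : (V : Filter (Compacts G)) ≤ atTop := Ultrafilter.of_le _
  have hV : ∀ x, ∀ᶠ y in (V : Filter (Compacts G)), x ≤ y := fun x => hVle (eventually_ge_atTop x)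
  obtain ⟨U, hU1, hU2⟩ := exists_U μ V hV
  set Kc := ∑ g : Fin (n + 1) → Fin (n + 1), ‖cf g‖ with hKc
  have hK0 : 0 ≤ Kc := Finset.sum_nonneg (fun _ _ => norm_nonneg _)
  set ε : ℝ := 1 / ((Kc + 1) * (4 * n + 6)) with hεdef
  have hε : 0 < ε := by positivity
  obtain ⟨d0, -⟩ := (Eventually.of_forall (fun _ => trivial) :
      ∀ᶠ _ in (U : Filter (SS μ)), True).exists
  let x0 : SS μ × Compacts G × SS μ := (d0, ⊥, d0)
  let U3 := U2 U (U2 V U)
  let vl : (ℕ → SS μ × Compacts G × SS μ) → ℕ → L1G μ := fun s => Subtype.val ∘ (ph ∘ s)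
  have hel : ∀ (m : ℕ) (l : ℕ → SS μ), ‖eg μ m (Subtype.val ∘ l)‖ ≤ 1 :=
    fun m l => norm_el_le _ _ m _ (fun i => (l i).2.1)
  have hTel : ∀ (l : ℕ → SS μ), ‖T (eg μ n (Subtype.val ∘ l))‖ ≤ ‖T‖ := fun l =>
    (T.le_opNorm _).trans (mul_le_of_le_one_right (norm_nonneg _) (hel n l))
  obtain ⟨L, hL⟩ := exists_nat_gt (‖T.comp (bg μ n)‖ / ε)
  have E1 : ∀ᶠ s in (Pw U3 x0 (n + 2) : Filter (ℕ → SS μ × Compacts G × SS μ)), ∀ j ∈ Finset.range n,
      ∀ p ∈ Finset.range (n + 1), ∀ W : ℕ → Set G, (∀ i, MeasurableSet (W i)) →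
      W p = ((s (j + 2)).2.1 : Set G) \ (s (j + 1)).2.1 →
      ‖Om μ T W (eg μ (n + 1) (mrg (j + 1) (vl s)))‖ ≤ ε := by
    refine (Finset.eventually_all _).2 (fun j hj => (Finset.eventually_all _).2 (fun p hp => ?_))
    have hj' := Finset.mem_range.1 hj
    have hp' := Finset.mem_range.1 hp
    have h := win2 V hV U hU2 x0 L (j + 1) (n + 2) (by omega)
      (fun l x y => ∃ W : ℕ → Set G, (∀ i, MeasurableSet (W i)) ∧ W p = (y : Set G) \ x ∧
        ε < ‖Om μ T W (eg μ (n + 1) (Subtype.val ∘ l))‖) (fun l b hb h1 => by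
        have h2 : ∀ k, ∃ W : ℕ → Set G, (∀ i, MeasurableSet (W i)) ∧ (k < L →
            W p = ((b k).2 : Set G) \ (b k).1 ∧ ε < ‖Om μ T W (eg μ (n + 1) (Subtype.val ∘ l))‖) := by
          intro k
          by_cases hk : k < L
          · obtain ⟨W, h3, h4⟩ := h1 k hk
            exact ⟨W, h3, fun _ => h4⟩
          · exact ⟨fun _ => univ, fun _ => MeasurableSet.univ, fun h => absurd h hk⟩
        choose W h3 h4 using h2
        have h5 := Ph_sum μ (Finset.range L) (n + 1) p hp' W (fun _ => 1) h3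
          (fun k hk k' hk' u h6 h7 => by
            have hk1 := Finset.mem_range.1 hk
            have hk2 := Finset.mem_range.1 hk'
            rw [(h4 k hk1).1] at h6
            rw [(h4 k' hk2).1] at h7
            rcases lt_trichotomy k k' with h | h | h
            · exact absurd (hb k k' h hk2 h6.1) h7.2
            · exact h
            · exact absurd (hb k' k h hk1 h7.1) h6.2)
          (T (bg μ n (eg μ (n + 1) (Subtype.val ∘ l))))
        have h6 := Finset.sum_le_sum (s := Finset.range L) (f := fun _ => ε)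
          (fun k hk => (h4 k (Finset.mem_range.1 hk)).2.le)
        rw [Finset.sum_const, Finset.card_range, nsmul_eq_mul] at h6
        have h7 := ((T.comp (bg μ n)).le_opNorm (eg μ (n + 1) (Subtype.val ∘ l))).trans
          (mul_le_of_le_one_right (norm_nonneg _) (hel _ l))
        rw [div_lt_iff₀ hε] at hL
        exact absurd ((h6.trans h5).trans h7) (not_le.2 hL))
    filter_upwards [h] with s hs W h1 h2
    by_contra h3
    refine hs ⟨W, h1, h2, ?_⟩
    rw [comp_mrg Subtype.val (fun _ _ => rfl)]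
    exact not_le.1 h3
  have E2 : ∀ᶠ s in (Pw U3 x0 (n + 2) : Filter (ℕ → SS μ × Compacts G × SS μ)), ∀ p ∈ Finset.range (n + 1),
      ∀ W : ℕ → Set G, (∀ i, MeasurableSet (W i)) → Disjoint (W p) (s (n + 1)).2.1 →
      ‖Om μ T W (eg μ (n + 1) (vl s))‖ ≤ ε := by
    refine (Finset.eventually_all _).2 (fun p hp => ev_prev U3 x0 (n + 1) (n + 2) (by omega) _
      (fun q => ?_))
    rw [ev_U2]
    refine Eventually.of_forall (fun c => ?_)
    rw [ev_U2]
    filter_upwards [hVle (Ph_tail μ (n + 1) p (Finset.mem_range.1 hp)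
      (T (bg μ n (eg μ (n + 1) (vl q)))) {1} isCompact_singleton ε hε)] with F hF
    refine Eventually.of_forall (fun d s h1 h2 W h3 h4 => ?_)
    rw [eg_congr μ (n + 1) (vl s) (vl q) (fun i hi => congrArg (fun t => (ph t).1) (h1 i hi))]
    rw [h2] at h4
    exact hF W h3 h4 1 rfl
  have E3 : ∀ᶠ s in (Pw U3 x0 (n + 2) : Filter (ℕ → SS μ × Compacts G × SS μ)), ∀ p ≤ n,
      ∀ W : ℕ → Set G, (∀ i, MeasurableSet (W i)) → W p ⊆ (s 1).2.1 →
      ‖Om μ T W (eg μ (n + 1) (mrg 0 (vl s)))‖ ≤ (n + 3) * ε := by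
    rw [ev_succ]
    refine Eventually.of_forall (fun x => ?_)
    rw [ev_succ, ev_U2]
    refine Eventually.of_forall (fun c => ?_)
    rw [ev_U2]
    refine Eventually.of_forall (fun F => ?_)
    have h1 := (Finset.eventually_all (Finset.range (n + 1))).2 (fun p hp =>
      escape μ U (ph x * c).1 (ph x * c).2.1 (hU1 _) (Pw U3 x0 n) F.isCompact
        (fun t => eg μ n (vl t)) zero_le_one (fun t => hel n _) hε p
        (Nat.le_of_lt_succ (Finset.mem_range.1 hp)))
    have h2 := (Finset.eventually_all (Finset.range (n + 2))).2 (fun p hp =>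
      escape μ U (ph x * c).1 (ph x * c).2.1 (hU1 _) (Pw U3 x0 n) F.isCompact
        (fun t => T (eg μ n (vl t))) (norm_nonneg T) (fun t => hTel _) hε p
        (Nat.le_of_lt_succ (Finset.mem_range.1 hp)))
    filter_upwards [h1, h2] with d hd1 hd2
    filter_upwards [(Finset.eventually_all _).2 hd1, (Finset.eventually_all _).2 hd2]
      with t ht1 ht2
    have e : eg μ (n + 1) (mrg 0 (vl (cons x (cons (c, F, d) t))))
        = tg μ n ((ph x * c).1 * d.1) (eg μ n (vl t)) := by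
      show tg μ n ((ph x).1 * (c.1 * d.1)) (eg μ n (vl t))
        = tg μ n ((ph x).1 * c.1 * d.1) (eg μ n (vl t))
      rw [mul_assoc]
    rw [e]
    exact Om_esc μ T hT (fun p hp => ht1 p (Finset.mem_range.2 (by omega)))
      (fun p hp => ht2 p (Finset.mem_range.2 (by omega)))
  have E4 : ∀ᶠ s in (Pw U3 x0 (n + 2) : Filter (ℕ → SS μ × Compacts G × SS μ)), ∀ i ∈ Finset.range (n + 1),
      ms μ ((s (i + 1)).2.1 : Set G)ᶜ (pp (vl s) i) ≤ ε := by
    refine (Finset.eventually_all _).2 (fun i hi => ev_prev U3 x0 (i + 1) (n + 2)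
      (by have := Finset.mem_range.1 hi; omega) _ (fun q => ?_))
    rw [ev_U2]
    refine Eventually.of_forall (fun c => ?_)
    rw [ev_U2]
    obtain ⟨K, hK, h0⟩ := ms_tight μ (pp (vl q) i) hε
    filter_upwards [hV ⟨K, hK⟩] with F hF
    refine Eventually.of_forall (fun d s h1 h2 => ?_)
    rw [pp_congr (a := vl s) (b := vl q) i
      (fun k hk => congrArg (fun t => (ph t).1) (h1 k (by omega))), h2]
    exact (ms_mono μ (compl_subset_compl.2 hF) _).trans h0
  have E5 : ∀ᶠ s in (Pw U3 x0 (n + 2) : Filter (ℕ → SS μ × Compacts G × SS μ)), ∀ i ∈ Finset.range (n + 1),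
      ms μ (s (i + 1)).2.1 (pp (vl s) (i + 1)) ≤ ε := by
    refine (Finset.eventually_all _).2 (fun i hi => ev_prev U3 x0 (i + 1) (n + 2)
      (by have := Finset.mem_range.1 hi; omega) _ (fun q => ?_))
    rw [ev_U2]
    refine Eventually.of_forall (fun c => ?_)
    rw [ev_U2]
    refine Eventually.of_forall (fun F => ?_)
    filter_upwards [hU1 (pp (vl q) i * c.1) F F.isCompact ε hε] with d hd s h1 h2
    show ms μ (s (i + 1)).2.1 (pp (vl s) i * (ph (s (i + 1))).1) ≤ ε
    rw [pp_congr (a := vl s) (b := vl q) i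
      (fun k hk => congrArg (fun t => (ph t).1) (h1 k (by omega))), h2]
    rw [mul_assoc] at hd
    exact hd
  have E6 : ∀ᶠ s in (Pw U3 x0 (n + 2) : Filter (ℕ → SS μ × Compacts G × SS μ)), ∀ i ∈ Finset.range (n + 1),
      (s i).2.1 ≤ (s (i + 1)).2.1 := by
    refine (Finset.eventually_all _).2 (fun i hi => ev_two U3 x0
      (R := fun x y => x.2.1 ≤ y.2.1) (fun x => ?_) i (i + 1) (n + 2) (by omega)
      (by have := Finset.mem_range.1 hi; omega))
    rw [ev_U2]
    refine Eventually.of_forall (fun c => ?_)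
    rw [ev_U2]
    filter_upwards [hV x.2.1] with F hF
    exact Eventually.of_forall (fun _ => hF)
  obtain ⟨s, ⟨⟨⟨⟨h1, h2⟩, h3⟩, h4⟩, h5⟩, h6⟩ := (((((E1.and E2).and E3).and E4).and E5).and E6).exists
  let ρ : ℕ → Set G := fun i => if i ≤ n + 1 then (s i).2.1 else univ
  have hρ1 : ∀ i, i ≤ n + 1 → ρ i = (s i).2.1 := fun i hi => if_pos hi
  have hρ2 : ∀ i, n + 1 < i → ρ i = univ := fun i hi => if_neg (by omega)
  have hfin := final μ T hT (vl s) (fun i => (ph (s i)).2.1) (fun i => (ph (s i)).2.2) ρ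
    (fun i => by
      rcases le_or_gt i (n + 1) with h | h
      · rw [hρ1 i h]; exact (s i).2.1.isCompact.measurableSet
      · rw [hρ2 i h]; exact MeasurableSet.univ)
    (monotone_nat_of_le_succ (fun i => by
      rcases le_or_gt (i + 1) (n + 1) with h | h
      · rw [hρ1 i (by omega), hρ1 _ h]
        exact h6 i (Finset.mem_range.2 (by omega))
      · rw [hρ2 _ h]; exact subset_univ _))
    (hρ2 _ (by omega)) hε.le
    (fun j hj p hp W h7 h8 => h1 j (Finset.mem_range.2 hj) p (Finset.mem_range.2 (by omega)) W h7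
      (by rw [h8, hρ1 _ (by omega), hρ1 _ (by omega)]))
    (fun p hp W h7 h8 => h2 p (Finset.mem_range.2 (by omega)) W h7 (by rwa [hρ1 _ le_rfl] at h8))
    (fun p hp W h7 h8 => h3 p hp W h7 (by rwa [hρ1 _ (by omega)] at h8))
    (fun i hi => by
      rcases le_or_gt (i + 2) (n + 1) with h | h
      · rw [hρ1 _ h]
        exact h4 (i + 1) (Finset.mem_range.2 (by omega))
      · rw [hρ2 _ h, compl_univ, ms_empty]
        exact hε.le)
    (fun i hi => by
      rw [hρ1 _ (by omega)]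
      exact h5 i (Finset.mem_range.2 (by omega)))
  have h9 : (4 * n + 6) * ε = 1 / (Kc + 1) := by
    rw [hεdef]; field_simp
  rw [← hKc, h9, mul_one_div, le_div_iff₀ (by positivity)] at hfin
  linarith

end Pool.Agent.H570Z.LG
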