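import Mathlib
import Pool.Agent.Helper832.GDV
import Pool.Agent.H570Z.L1D

/-!
The homological dimensions of `L¹(G)` are infinite if `G` is not compact.
-/

set_option autoImplicit false
set_option maxSynthPendingDepth 3
set_option linter.unusedSectionVars false

namespace Pool.Agent.H570Z.LG

open MeasureTheory Pool.Agent.Helper832

variable {G : Type} [Group G] [TopologicalSpace G] [IsTopologicalGroup G]
  [LocallyCompactSpace G] [T2Space G] [MeasurableSpace G] [BorelSpace G] [NoncompactSpace G]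
  (μ : Measure G) [μ.IsHaarMeasure] [μ.InnerRegularCompactLTTop]

lemma augMod_eq : augMod μ = GS.LMod.ofC (oneMod (chi μ) (chi_mul μ)) := rfl

lemma dh_aug : (augMod μ).dh = ⊤ := by
  rw [augMod_eq]
  unfold GS.LMod.dh
  refine le_antisymm le_top (le_iInf₂ (fun n hn => ?_))
  exact absurd (GS.LMod.of_ofC_hasResolution hn) (not_hasRes μ n)

lemma db_top : GS.db (L1G μ) = ⊤ := by
  unfold GS.db GS.BMod.dh
  refine le_antisymm le_top (le_iInf₂ (fun n hn => ?_))
  rw [← GS.BMod.ofC_plusBim] at hn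
  exact absurd (GD.hasResolution_left (GS.BMod.of_ofC_hasResolution hn) _) (not_hasRes μ n)

lemma dg_top : GS.dg (L1G μ) = ⊤ :=
  le_antisymm le_top ((dh_aug μ).symm.le.trans
    (le_iSup (fun X : GS.LMod (L1G μ) => X.dh) (augMod μ)))

lemma irreducible_aug : IsIrred (augMod μ) := by
  refine ⟨?_, fun N _ => eq_bot_or_eq_top (show Submodule ℂ ℂ from N)⟩
  obtain ⟨a, -, ha, -⟩ := exists_far μ isCompact_empty
  refine ⟨a, (1 : ℂ), ?_⟩
  show chi μ a * 1 ≠ 0
  rw [ha, mul_one]
  exact one_ne_zero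

lemma ds_top : ds (L1G μ) = ⊤ :=
  le_antisymm le_top ((dh_aug μ).symm.le.trans
    (le_iSup₂ (f := fun (X : GS.LMod (L1G μ)) (_ : IsIrred X) => X.dh) _ (irreducible_aug μ)))

end Pool.Agent.H570Z.LG
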