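import Mathlib
import Pool.Agent.Helper832.GDStmt
import Pool.Agent.Helper919.Volt.L0

/-!
The Volterra algebra as a Banach algebra, irreducible modules and the small dimension.
-/

set_option autoImplicit false

namespace Pool.Agent.H570Z

open Pool.Agent.Helper832.GS

/-- The Volterra algebra: the Banach space `L¹[0,1]` (a copy of `Volt919.V`); its product, defined
below, is the truncated convolution `Volt919.conv`. -/
def Volterra : Type := Volt919.V

noncomputable instance : NormedAddCommGroup Volterra :=
  (inferInstance : NormedAddCommGroup Volt919.V)

noncomputable instance : NormedSpace ℂ Volterra := (inferInstance : NormedSpace ℂ Volt919.V)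

instance : CompleteSpace Volterra := (inferInstance : CompleteSpace Volt919.V)

/-- `L¹[0,1]` with the `L¹` norm and the truncated convolution as product -/
noncomputable instance : NonUnitalNormedRing Volterra :=
  { (inferInstance : NormedAddCommGroup Volterra) with
    mul := fun f g => Volt919.conv f g
    left_distrib := fun f g h => Volt919.conv_add_right f g h
    right_distrib := fun f g h => Volt919.conv_add_left f g h
    zero_mul := fun f => by
      have h := Volt919.conv_smul_left 0 0 f
      rw [zero_smul, zero_smul] at h
      exact h
    mul_zero := fun f => by
      have h := Volt919.conv_smul_right 0 f 0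
      rw [zero_smul, zero_smul] at h
      exact h
    mul_assoc := fun f g h => Volt919.conv_assoc f g h
    norm_mul_le := fun f g => Volt919.norm_conv_le f g }

instance : IsScalarTower ℂ Volterra Volterra := ⟨fun c f g => Volt919.conv_smul_left c f g⟩

instance : SMulCommClass ℂ Volterra Volterra :=
  ⟨fun c f g => (Volt919.conv_smul_right c f g).symm⟩

/-- A left Banach module is irreducible if it is not zero and its only linear subspaces that are
invariant under the action of `A` are zero and the whole module. -/
def IsIrreducibleMod {A : Type} [NonUnitalNormedRing A] [NormedSpace ℂ A] (X : LMod A) : Prop :=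
  Nontrivial X.carrier ∧
    ∀ N : Submodule ℂ X.carrier, (∀ a x, x ∈ N → X.act a x ∈ N) → N = ⊥ ∨ N = ⊤

/-- the small dimension of `A`: the supremum of the homological dimensions of all irreducible left
Banach `A`-modules -/
noncomputable def ds (A : Type) [NonUnitalNormedRing A] [NormedSpace ℂ A] : ℕ∞ :=
  ⨆ (X : LMod A) (_ : IsIrreducibleMod X), X.dh

end Pool.Agent.H570Z
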