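import Mathlib
import Pool.Agent.Helper832.GDV
import Pool.Agent.H570Z.VolDefs
import Pool.Agent.H570Z.VolB

/-!
The homological dimensions of the Volterra algebra are infinite.
-/

set_option autoImplicit false
set_option maxSynthPendingDepth 3
set_option linter.unusedSectionVars false

namespace Pool.Agent.H570Z

open Filter Topology MeasureTheory Set Pool.Agent.Helper832

section General

variable {A : Type} [NonUnitalNormedRing A] [NormedSpace ℂ A] [IsScalarTower ℂ A A]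
  [SMulCommClass ℂ A A] [CompleteSpace A]

lemma dh_top_of {X : GD.LMod A} (h : ∀ n, ¬ X.HasResolution n) : (GS.LMod.ofC X).dh = ⊤ := by
  unfold GS.LMod.dh
  refine le_antisymm le_top (le_iInf₂ (fun n hn => ?_))
  exact absurd (GS.LMod.of_ofC_hasResolution hn) (h n)

lemma db_top_of {X : GD.LMod A} (h : ∀ n, ¬ X.HasResolution n) : GS.db A = ⊤ := by
  unfold GS.db GS.BMod.dh
  refine le_antisymm le_top (le_iInf₂ (fun n hn => ?_))
  rw [← GS.BMod.ofC_plusBim] at hn
  exact absurd (GD.hasResolution_left (GS.BMod.of_ofC_hasResolution hn) X) (h n)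

lemma dg_top_of {X : GD.LMod A} (h : ∀ n, ¬ X.HasResolution n) : GS.dg A = ⊤ :=
  le_antisymm le_top ((dh_top_of h).symm.le.trans
    (le_iSup (fun X : GS.LMod A => X.dh) (GS.LMod.ofC X)))

lemma irreducible_oneMod (χ : A →L[ℂ] ℂ) (hχ : ∀ a b, χ (a * b) = χ a * χ b) :
    IsIrreducibleMod (GS.LMod.ofC (oneMod χ hχ)) :=
  ⟨inferInstanceAs (Nontrivial ℂ), fun N _ => eq_bot_or_eq_top (show Submodule ℂ ℂ from N)⟩

lemma ds_top_of (χ : A →L[ℂ] ℂ) (hχ : ∀ a b, χ (a * b) = χ a * χ b)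
    (h : ∀ n, ¬ (oneMod χ hχ).HasResolution n) : ds A = ⊤ :=
  le_antisymm le_top ((dh_top_of h).symm.le.trans
    (le_iSup₂ (f := fun (X : GS.LMod A) (_ : IsIrreducibleMod X) => X.dh) _ (irreducible_oneMod χ hχ)))

end General

open Volt919

lemma norm_E_eq (k : ℝ) (f : V) : ‖E k f‖ = ∫ t, Real.exp (-(k * t)) * ‖f t‖ ∂mI := by
  rw [g03_norm]
  refine integral_congr_ae ?_
  filter_upwards [E_ae k f] with t ht
  rw [ht, norm_mul, g08_norm_exp]

lemma integrable_E (k : ℝ) (f : V) : Integrable (fun t => Real.exp (-(k * t)) * ‖f t‖) mI := by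
  refine (g04_int (E k f)).congr ?_
  filter_upwards [E_ae k f] with t ht
  rw [ht, norm_mul, g08_norm_exp]

lemma E_var (f : V) {k l : ℝ} (h : k ≤ l) : ‖E k f - E l f‖ ≤ ‖E k f‖ - ‖E l f‖ := by
  rw [norm_E_eq, norm_E_eq, ← integral_sub (integrable_E k f) (integrable_E l f), g03_norm]
  refine le_of_eq (integral_congr_ae ?_)
  filter_upwards [Lp.coeFn_sub (E k f) (E l f), E_ae k f, E_ae l f, g08_mem] with t h1 h2 h3 h4
  have h5 : Real.exp (-(l * t)) ≤ Real.exp (-(k * t)) :=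
    Real.exp_le_exp.2 (by nlinarith [h4.1])
  rw [h1, Pi.sub_apply, h2, h3, ← sub_mul, norm_mul, ← Complex.ofReal_sub, Complex.norm_real,
    Real.norm_eq_abs, abs_of_nonneg (by linarith), sub_mul]

lemma E_tendsto (f : V) : Tendsto (fun k : ℕ => E (k : ℝ) f) atTop (𝓝 0) := by
  rw [Metric.tendsto_nhds]
  intro ε hε
  have h1 := (P_tendsto_zero f).norm
  rw [norm_zero] at h1
  obtain ⟨δ, hδ1, hδ2⟩ := ((h1.eventually (gt_mem_nhds (half_pos hε))).and
    self_mem_nhdsWithin).exists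
  have hδ : 0 < δ := hδ2
  have h2 : Tendsto (fun k : ℕ => Real.exp (-((k : ℝ) * δ)) * ‖f‖) atTop (𝓝 (0 * ‖f‖)) := by
    refine Tendsto.mul_const _ (Real.tendsto_exp_atBot.comp (tendsto_neg_atTop_atBot.comp ?_))
    exact tendsto_natCast_atTop_atTop.atTop_mul_const hδ
  rw [zero_mul] at h2
  filter_upwards [h2.eventually (gt_mem_nhds (half_pos hε))] with k hk
  rw [dist_zero_right]
  have e1 : E (k : ℝ) f = E (k : ℝ) (P δ f) + E (k : ℝ) (f - P δ f) := by
    rw [← map_add]; congr 1; abel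
  rw [e1]
  have h3 := norm_E_le (k := (k : ℝ)) (Nat.cast_nonneg k) (P δ f)
  have h4 := norm_E_sub (k := (k : ℝ)) (ε := δ) (Nat.cast_nonneg k) f
  linarith [norm_add_le (E (k : ℝ) (P δ f)) (E (k : ℝ) (f - P δ f))]

lemma E_sub_le {k h : ℝ} (hk : 0 ≤ k) (hh : 0 ≤ h) (f : V) :
    ‖E k (P h f) - P h f‖ ≤ k * h * ‖f‖ := by
  apply g08_norm_le
  filter_upwards [Lp.coeFn_sub (E k (P h f)) (P h f), E_ae k (P h f), P_ae h f, g08_mem]
    with t h1 h2 h3 h4
  rw [h1, Pi.sub_apply, h2, h3]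
  split_ifs with ht
  · rw [one_mul, ← sub_one_mul, norm_mul]
    refine mul_le_mul_of_nonneg_right ?_ (norm_nonneg _)
    rw [← Complex.ofReal_one, ← Complex.ofReal_sub, Complex.norm_real, Real.norm_eq_abs]
    have h5 := Real.add_one_le_exp (-(k * t))
    have h6 : Real.exp (-(k * t)) ≤ 1 := by
      rw [Real.exp_le_one_iff]; nlinarith [h4.1]
    rw [abs_of_nonpos (by linarith)]
    nlinarith [h4.1]
  · simp only [zero_mul, mul_zero, sub_zero, norm_zero]
    positivity

lemma hh_tendsto : Tendsto (fun j : ℕ => 1 / ((j : ℝ) + 1)) atTop (𝓝[>] 0) :=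
  tendsto_nhdsWithin_iff.2 ⟨tendsto_one_div_add_atTop_nhds_zero_nat,
    Eventually.of_forall (fun j => by
      show (0 : ℝ) < 1 / ((j : ℝ) + 1)
      positivity)⟩

lemma u_ne_zero : u ≠ 0 := by
  intro h
  have h1 := g10_int_u zero_le_one le_rfl
  rw [← norm_eq, h, norm_zero] at h1
  exact zero_ne_one h1

theorem volterra_not_hasResolution (n : ℕ) :
    ¬ (oneMod (0 : Volterra →L[ℂ] ℂ) zero_mul_hom).HasResolution n := by
  refine not_hasResolution (A := Volterra) (fun k => E (k : ℝ)) (fun k f g => E_conv k f g)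
    (fun k f => norm_E_le (Nat.cast_nonneg k) f)
    (fun f m m' h => E_var f (Nat.cast_le.2 h)) E_tendsto
    (fun j => e (1 / ((j : ℝ) + 1))) (fun j => norm_e_le (by positivity)) (fun k => ?_)
    (fun i => ?_) u u_ne_zero ((conv_e_tendsto u).comp hh_tendsto) n
  · have h1 : Tendsto (fun j : ℕ => (k : ℝ) * (1 / ((j : ℝ) + 1))) atTop (𝓝 ((k : ℝ) * 0)) :=
      tendsto_one_div_add_atTop_nhds_zero_nat.const_mul _
    rw [mul_zero] at h1
    refine squeeze_zero_norm (fun j => ?_) h1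
    have hj : (0 : ℝ) < 1 / ((j : ℝ) + 1) := by positivity
    have h2 := E_sub_le (Nat.cast_nonneg k) hj.le (e (1 / ((j : ℝ) + 1)))
    rw [P_e hj] at h2
    exact h2.trans (mul_le_of_le_one_right (by positivity) (norm_e_le hj))
  · have h1 := (conv_e_tendsto (e (1 / ((i : ℝ) + 1)))).comp hh_tendsto
    refine h1.congr (fun j => ?_)
    exact conv_comm _ _

theorem volterra_dims : ds Volterra = ⊤ ∧ GS.dg Volterra = ⊤ ∧ GS.db Volterra = ⊤ :=
  ⟨ds_top_of 0 zero_mul_hom volterra_not_hasResolution, dg_top_of volterra_not_hasResolution,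
    db_top_of volterra_not_hasResolution⟩

end Pool.Agent.H570Z
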